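import Pool.Agent.P.MP_7e3bdd_an.RW.St2

/-!
Modular data in bounded form: a conjugation and a functional calculus on the real line.
-/

set_option autoImplicit false

open scoped InnerProductSpace BigOperators BoundedContinuousFunction ComplexConjugate TensorProduct
open MeasureTheory

noncomputable section

namespace Pool.Agent.P.MP_7e3bdd_an.NI

open RW

section Fun

/-- A bounded continuous function. -/
def mkB (f : ℝ → ℂ) (hf : Continuous f) (C : ℝ) (h : ∀ r, ‖f r‖ ≤ C) : ℝ →ᵇ ℂ :=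
  BoundedContinuousFunction.ofNormedAddCommGroup f hf C h

@[simp] theorem mkB_apply (f : ℝ → ℂ) (hf : Continuous f) (C : ℝ) (h : ∀ r, ‖f r‖ ≤ C) (r : ℝ) :
    mkB f hf C h r = f r := rfl

/-- A bounded continuous real function. -/
def mkR (f : ℝ → ℝ) (hf : Continuous f) (C : ℝ) (h : ∀ r, |f r| ≤ C) : ℝ →ᵇ ℂ :=
  mkB (fun r => (f r : ℂ)) (Complex.continuous_ofReal.comp hf) C
    (fun r => by rw [Complex.norm_real]; exact h r)

@[simp] theorem mkR_apply (f : ℝ → ℝ) (hf : Continuous f) (C : ℝ) (h : ∀ r, |f r| ≤ C) (r : ℝ) :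
    mkR f hf C h r = (f r : ℂ) := rfl

theorem star_mkR (f : ℝ → ℝ) (hf : Continuous f) (C : ℝ) (h : ∀ r, |f r| ≤ C) :
    star (mkR f hf C h) = mkR f hf C h := by
  ext r
  simp

/-- The character `r ↦ exp (i t r)`. -/
def ex (t : ℝ) : ℝ →ᵇ ℂ :=
  mkB (fun r => Complex.exp ((t * r : ℝ) * Complex.I)) (by fun_prop) 1
    (fun r => (Complex.norm_exp_ofReal_mul_I _).le)

theorem ex_apply (t r : ℝ) : ex t r = Complex.exp ((t * r : ℝ) * Complex.I) := rfl

theorem norm_ex (t r : ℝ) : ‖ex t r‖ = 1 := Complex.norm_exp_ofReal_mul_I _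

theorem ex_add (s t : ℝ) : ex (s + t) = ex s * ex t := by
  ext r
  simp only [ex_apply, BoundedContinuousFunction.mul_apply, ← Complex.exp_add]
  congr 1
  push_cast
  ring

theorem ex_zero : ex 0 = 1 := by
  ext r
  simp [ex_apply]

theorem star_ex (t : ℝ) : star (ex t) = ex (-t) := by
  ext r
  simp [ex_apply, ← Complex.exp_conj]

theorem one_add_exp_pos (r : ℝ) : 0 < 1 + Real.exp r := by positivity

theorem two_exp_half_le (r : ℝ) : 2 * Real.exp (r / 2) ≤ 1 + Real.exp r := by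
  have h : Real.exp r = Real.exp (r / 2) ^ 2 := by rw [sq, ← Real.exp_add]; ring_nf
  rw [h]
  nlinarith [sq_nonneg (Real.exp (r / 2) - 1)]

/-- The function `1 / cosh (r / 2)`. -/
def om : ℝ →ᵇ ℂ :=
  mkR (fun r => 2 * Real.exp (r / 2) / (1 + Real.exp r))
    (Continuous.div (by fun_prop) (by fun_prop) fun r => (one_add_exp_pos r).ne') 1 fun r => by
      rw [abs_of_nonneg (by positivity), div_le_one (one_add_exp_pos r)]
      exact two_exp_half_le r

/-- The function `2 e^r / (1 + e^r)`. -/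
def omP : ℝ →ᵇ ℂ :=
  mkR (fun r => 2 * Real.exp r / (1 + Real.exp r))
    (Continuous.div (by fun_prop) (by fun_prop) fun r => (one_add_exp_pos r).ne') 2 fun r => by
      rw [abs_of_nonneg (by positivity), div_le_iff₀ (one_add_exp_pos r)]
      linarith

/-- The function `2 / (1 + e^r)`. -/
def omM : ℝ →ᵇ ℂ :=
  mkR (fun r => 2 / (1 + Real.exp r))
    (Continuous.div (by fun_prop) (by fun_prop) fun r => (one_add_exp_pos r).ne') 2 fun r => by
      rw [abs_of_nonneg (by positivity), div_le_iff₀ (one_add_exp_pos r)]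
      linarith [Real.exp_pos r]

/-- The function `e^(r/4) / (1 + e^(r/2))`. -/
def kap : ℝ →ᵇ ℂ :=
  mkR (fun r => Real.exp (r / 4) / (1 + Real.exp (r / 2)))
    (Continuous.div (by fun_prop) (by fun_prop) fun r => (one_add_exp_pos _).ne') 1 fun r => by
      rw [abs_of_nonneg (by positivity), div_le_one (one_add_exp_pos _)]
      have h := two_exp_half_le (r / 2)
      rw [show r / 2 / 2 = r / 4 by ring] at h
      linarith [Real.exp_pos (r / 4)]

theorem om_apply (r : ℝ) : om r = ((2 * Real.exp (r / 2) / (1 + Real.exp r) : ℝ) : ℂ) := rfl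

theorem omP_apply (r : ℝ) : omP r = ((2 * Real.exp r / (1 + Real.exp r) : ℝ) : ℂ) := rfl

theorem omM_apply (r : ℝ) : omM r = ((2 / (1 + Real.exp r) : ℝ) : ℂ) := rfl

theorem kap_apply (r : ℝ) : kap r = ((Real.exp (r / 4) / (1 + Real.exp (r / 2)) : ℝ) : ℂ) := rfl

theorem star_om : star om = om := star_mkR _ _ _ _

theorem star_omP : star omP = omP := star_mkR _ _ _ _

theorem star_omM : star omM = omM := star_mkR _ _ _ _

theorem star_kap : star kap = kap := star_mkR _ _ _ _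

theorem om_mul_om : om * om = omM * omP := by
  ext r
  simp only [BoundedContinuousFunction.mul_apply, om_apply, omM_apply, omP_apply,
    ← Complex.ofReal_mul]
  congr 1
  have h : Real.exp r = Real.exp (r / 2) * Real.exp (r / 2) := by rw [← Real.exp_add]; ring_nf
  have h1 := (one_add_exp_pos r).ne'
  field_simp
  rw [sq, ← h]

/-- The function `r ↦ conj (F (-r))`. -/
def flp (F : ℝ →ᵇ ℂ) : ℝ →ᵇ ℂ :=
  mkB (fun r => conj (F (-r))) (by fun_prop) ‖F‖ fun r => by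
    rw [Complex.norm_conj]
    exact F.norm_coe_le_norm _

theorem flp_apply (F : ℝ →ᵇ ℂ) (r : ℝ) : flp F r = conj (F (-r)) := rfl

theorem flp_ex (t : ℝ) : flp (ex t) = ex t := by
  ext r
  simp [flp_apply, ex_apply, ← Complex.exp_conj]

theorem flp_om : flp om = om := by
  ext r
  rw [flp_apply, om_apply, om_apply, Complex.conj_ofReal]
  congr 1
  have h : Real.exp r = Real.exp (r / 2) * Real.exp (r / 2) := by rw [← Real.exp_add]; ring_nf
  have h1 := (one_add_exp_pos r).ne'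
  have h2 := (Real.exp_pos r).ne'
  have h3 := (Real.exp_pos (r / 2)).ne'
  rw [neg_div, Real.exp_neg, Real.exp_neg]
  field_simp
  rw [sq, ← h]
  ring

/-- A bounded jointly continuous family of functions. -/
def Fam (G : ℝ → ℝ →ᵇ ℂ) : Prop :=
  (Continuous fun p : ℝ × ℝ => G p.1 p.2) ∧ ∃ C : ℝ, ∀ t r, ‖G t r‖ ≤ C

/-- `F` is the Fourier transform of `g`. -/
def FT (g : ℝ → ℂ) (F : ℝ →ᵇ ℂ) : Prop := ∀ r, F r = ∫ t, g t * ex t r

/-- The window function, supported in `[-1, 1]`; its integer translates sum to one. -/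
def chi (s : ℝ) : ℝ := Real.smoothTransition (s + 1) - Real.smoothTransition s

end Fun

variable {H : Type} [NormedAddCommGroup H] [InnerProductSpace ℂ H]

section Ten

/-- The algebraic tensor square with its inner product. -/
abbrev HH (H : Type) [NormedAddCommGroup H] [InnerProductSpace ℂ H] : Type := H ⊗[ℂ] H

/-- The tensor product of two operators. -/
def tm (p q : H →L[ℂ] H) : HH H →L[ℂ] HH H := TensorProduct.mapL p q

@[simp] theorem tm_tmul (p q : H →L[ℂ] H) (x y : H) : tm p q (x ⊗ₜ y) = p x ⊗ₜ q y := rfl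

theorem tm_mul (p p' q q' : H →L[ℂ] H) : tm (p * p') (q * q') = tm p q * tm p' q' :=
  TensorProduct.mapL_mul _ _ _ _

theorem tm_tm (p p' q q' : H →L[ℂ] H) (X : HH H) :
    tm p q (tm p' q' X) = tm (p * p') (q * q') X := by rw [tm_mul]; rfl

theorem tm_one : tm (1 : H →L[ℂ] H) 1 = 1 := TensorProduct.mapL_id_id

theorem tm_add_left (p p' q : H →L[ℂ] H) : tm (p + p') q = tm p q + tm p' q :=
  TensorProduct.mapL_add_left _ _ _

theorem tm_add_right (p q q' : H →L[ℂ] H) : tm p (q + q') = tm p q + tm p q' :=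
  TensorProduct.mapL_add_right _ _ _

theorem tm_smul_left (c : ℂ) (p q : H →L[ℂ] H) : tm (c • p) q = c • tm p q :=
  TensorProduct.mapL_smul_left _ _ _

theorem tm_smul_right (c : ℂ) (p q : H →L[ℂ] H) : tm p (c • q) = c • tm p q :=
  TensorProduct.mapL_smul_right _ _ _

theorem norm_tm_le (p q : H →L[ℂ] H) : ‖tm p q‖ ≤ ‖p‖ * ‖q‖ := TensorProduct.norm_mapL_le _ _

variable [CompleteSpace H]

theorem inner_star_right (a : H →L[ℂ] H) (x y : H) : ⟪x, (star a) y⟫_ℂ = ⟪a x, y⟫_ℂ := by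
  rw [ContinuousLinearMap.star_eq_adjoint, ContinuousLinearMap.adjoint_inner_right]

theorem inner_star_left (a : H →L[ℂ] H) (x y : H) : ⟪(star a) x, y⟫_ℂ = ⟪x, a y⟫_ℂ := by
  rw [ContinuousLinearMap.star_eq_adjoint, ContinuousLinearMap.adjoint_inner_left]

theorem inner_tm (p q : H →L[ℂ] H) (X Y : HH H) :
    ⟪X, tm p q Y⟫_ℂ = ⟪tm (star p) (star q) X, Y⟫_ℂ := by
  induction X using TensorProduct.induction_on with
  | zero => simp
  | add X X' h h' => rw [map_add, inner_add_left, inner_add_left, h, h']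
  | tmul x x' =>
    induction Y using TensorProduct.induction_on with
    | zero => simp
    | add Y Y' h h' => rw [map_add, inner_add_right, inner_add_right, h, h']
    | tmul y y' => simp only [tm_tmul, TensorProduct.inner_tmul, inner_star_left]

theorem norm_tm_unitary {u v : H →L[ℂ] H} (hu : u ∈ unitary (H →L[ℂ] H))
    (hv : v ∈ unitary (H →L[ℂ] H)) (X : HH H) : ‖tm u v X‖ = ‖X‖ := by
  have h : ⟪tm u v X, tm u v X⟫_ℂ = ⟪X, X⟫_ℂ := by
    rw [inner_tm, tm_tm, Unitary.star_mul_self_of_mem hu, Unitary.star_mul_self_of_mem hv, tm_one]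
    rfl
  rw [norm_eq_sqrt_re_inner (𝕜 := ℂ) (tm u v X), norm_eq_sqrt_re_inner (𝕜 := ℂ) X, h]

end Ten

variable [CompleteSpace H]

variable (H) in
/-- A conjugation and a functional calculus for the logarithm of a modular operator. -/
structure Mod where
  /-- the conjugation -/
  J : H ≃ₗᵢ⋆[ℂ] H
  /-- the functional calculus -/
  Φ : (ℝ →ᵇ ℂ) →⋆ₐ[ℂ] (H →L[ℂ] H)
  JJ : ∀ x, J (J x) = x
  dense : DenseRange (Φ om)
  JΦ : ∀ F x, J (Φ F x) = Φ (flp F) (J x)

namespace Mod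

variable (m : Mod H)

theorem inner_JJ (x y : H) : ⟪m.J x, m.J y⟫_ℂ = ⟪y, x⟫_ℂ := by
  have h : ∀ z w : H, (⟪m.J z, m.J w⟫_ℂ).re = (⟪z, w⟫_ℂ).re := fun z w => by
    have h1 := re_inner_eq_norm_add_mul_self_sub_norm_sub_mul_self_div_four (𝕜 := ℂ) (m.J z) (m.J w)
    have h2 := re_inner_eq_norm_add_mul_self_sub_norm_sub_mul_self_div_four (𝕜 := ℂ) z w
    rw [← map_add, ← map_sub, m.J.norm_map, m.J.norm_map] at h1
    exact h1.trans h2.symm
  have h3 := h x (Complex.I • y)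
  rw [map_smulₛₗ, inner_smul_right, inner_smul_right] at h3
  rw [← inner_conj_symm y x]
  refine Complex.ext (by rw [h, Complex.conj_re]) ?_
  simp only [Complex.conj_I, Complex.mul_re, Complex.neg_re, Complex.I_re, Complex.neg_im,
    Complex.I_im] at h3
  rw [Complex.conj_im]
  linarith

theorem inner_J_right (x y : H) : ⟪x, m.J y⟫_ℂ = ⟪y, m.J x⟫_ℂ := by
  rw [← m.inner_JJ (m.J x) y, m.JJ]

theorem inner_J_left (x y : H) : ⟪m.J x, y⟫_ℂ = ⟪m.J y, x⟫_ℂ := by
  rw [← m.inner_JJ x (m.J y), m.JJ]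

theorem norm_Φ_le (F : ℝ →ᵇ ℂ) : ‖m.Φ F‖ ≤ ‖F‖ := NonUnitalStarAlgHom.norm_apply_le m.Φ F

theorem norm_Φ_apply_le (F : ℝ →ᵇ ℂ) {C : ℝ} (h : ∀ r, ‖F r‖ ≤ C) (x : H) :
    ‖m.Φ F x‖ ≤ C * ‖x‖ := by
  refine ((m.Φ F).le_opNorm x).trans (mul_le_mul_of_nonneg_right ((m.norm_Φ_le F).trans ?_)
    (norm_nonneg _))
  exact (BoundedContinuousFunction.norm_le ((norm_nonneg _).trans (h 0))).2 h

theorem Φ_Φ (F G : ℝ →ᵇ ℂ) (x : H) : m.Φ F (m.Φ G x) = m.Φ (F * G) x := by rw [map_mul]; rfl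

theorem inner_Φ (F : ℝ →ᵇ ℂ) (x y : H) : ⟪x, m.Φ F y⟫_ℂ = ⟪m.Φ (star F) x, y⟫_ℂ := by
  rw [map_star, inner_star_left]

theorem om_inj {x : H} (h : m.Φ om x = 0) : x = 0 := by
  refine m.dense.eq_zero_of_inner_left (𝕜 := ℂ) fun y => ?_
  rw [m.inner_Φ, star_om, h, inner_zero_left]

/-- Conjugation of an operator. -/
def bar (a : H →L[ℂ] H) : H →L[ℂ] H :=
  (m.J.toLinearIsometry.toContinuousLinearMap.comp a).comp
    m.J.toLinearIsometry.toContinuousLinearMap

@[simp] theorem bar_apply (a : H →L[ℂ] H) (x : H) : m.bar a x = m.J (a (m.J x)) := rfl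

theorem bar_bar (a : H →L[ℂ] H) : m.bar (m.bar a) = a := by ext x; simp [m.JJ]

theorem bar_mul (a b : H →L[ℂ] H) : m.bar (a * b) = m.bar a * m.bar b := by ext x; simp [m.JJ]

theorem bar_one : m.bar 1 = 1 := by ext x; simp [m.JJ]

theorem bar_zero : m.bar 0 = 0 := by ext x; simp

theorem bar_add (a b : H →L[ℂ] H) : m.bar (a + b) = m.bar a + m.bar b := by ext x; simp

theorem bar_sub (a b : H →L[ℂ] H) : m.bar (a - b) = m.bar a - m.bar b := by ext x; simp

theorem bar_smul (c : ℂ) (a : H →L[ℂ] H) : m.bar (c • a) = conj c • m.bar a := by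
  ext x
  simp [map_smulₛₗ]

theorem bar_star (a : H →L[ℂ] H) : m.bar (star a) = star (m.bar a) := by
  ext x
  refine ext_inner_left ℂ fun y => ?_
  rw [inner_star_right, bar_apply, bar_apply, m.inner_J_right, inner_star_left, m.inner_J_left]

theorem norm_bar_le (a : H →L[ℂ] H) : ‖m.bar a‖ ≤ ‖a‖ := by
  refine ContinuousLinearMap.opNorm_le_bound _ (norm_nonneg _) fun x => ?_
  rw [bar_apply, m.J.norm_map, ← m.J.norm_map x]
  exact a.le_opNorm _

theorem bar_unitary {u : H →L[ℂ] H} (hu : u ∈ unitary (H →L[ℂ] H)) :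
    m.bar u ∈ unitary (H →L[ℂ] H) := by
  rw [Unitary.mem_iff] at hu ⊢
  rw [← bar_star, ← bar_mul, ← bar_mul, hu.1, hu.2, bar_one]
  exact ⟨rfl, rfl⟩

theorem bar_Φ (F : ℝ →ᵇ ℂ) : m.bar (m.Φ F) = m.Φ (flp F) := by
  ext x
  rw [bar_apply, m.JΦ, m.JJ]

/-- The modular unitary group. -/
def U (t : ℝ) : H →L[ℂ] H := m.Φ (ex t)

theorem U_add (s t : ℝ) : m.U (s + t) = m.U s * m.U t := by rw [U, ex_add, map_mul]; rfl

theorem U_zero : m.U 0 = 1 := by rw [U, ex_zero, map_one]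

theorem star_U (t : ℝ) : star (m.U t) = m.U (-t) := by rw [U, ← map_star, star_ex]; rfl

theorem U_mul_neg (t : ℝ) : m.U t * m.U (-t) = 1 := by rw [← U_add, add_neg_cancel, U_zero]

theorem U_neg_mul (t : ℝ) : m.U (-t) * m.U t = 1 := by rw [← U_add, neg_add_cancel, U_zero]

theorem U_unitary (t : ℝ) : m.U t ∈ unitary (H →L[ℂ] H) := by
  rw [Unitary.mem_iff, star_U]
  exact ⟨m.U_neg_mul t, m.U_mul_neg t⟩

theorem bar_U (t : ℝ) : m.bar (m.U t) = m.U t := by rw [U, bar_Φ, flp_ex]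

theorem J_U (t : ℝ) (x : H) : m.J (m.U t x) = m.U t (m.J x) := by rw [U, m.JΦ, flp_ex]

/-- The modular automorphism group. -/
def sig (t : ℝ) (a : H →L[ℂ] H) : H →L[ℂ] H := m.U t * a * m.U (-t)

/-- `b` is the average of the orbit of `a` against `g`. -/
def IsSg (g : ℝ → ℂ) (a b : H →L[ℂ] H) : Prop :=
  ∀ η ζ : H, ⟪η, b ζ⟫_ℂ = ∫ t, g t * ⟪η, m.sig t a ζ⟫_ℂ

/-- The action `X ↦ g X g*`. -/
def pi (g : H →L[ℂ] H) : HH H →L[ℂ] HH H := tm g (m.bar g)

theorem pi_mul (a b : H →L[ℂ] H) : m.pi (a * b) = m.pi a * m.pi b := by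
  rw [pi, bar_mul, tm_mul]; rfl

theorem pi_one : m.pi 1 = 1 := by rw [pi, bar_one, tm_one]

theorem inner_pi (a : H →L[ℂ] H) (X Y : HH H) : ⟪X, m.pi a Y⟫_ℂ = ⟪m.pi (star a) X, Y⟫_ℂ := by
  rw [pi, inner_tm, ← bar_star]; rfl

theorem norm_pi_unitary {u : H →L[ℂ] H} (hu : u ∈ unitary (H →L[ℂ] H)) (X : HH H) :
    ‖m.pi u X‖ = ‖X‖ := norm_tm_unitary hu (m.bar_unitary hu) X

/-- The operator `X ↦ ∑ a l * X * (a l)*`. -/
def Sop {ι : Type} [Fintype ι] (a : ι → H →L[ℂ] H) : HH H →L[ℂ] HH H := ∑ l, m.pi (a l)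

/-- The commutator of `y` with the vector `ξ`. -/
def L (ξ : H) (y : H →L[ℂ] H) : H := y ξ - m.J (star y ξ)

/-- The symmetric embedding. -/
def D (ξ : H) (a : H →L[ℂ] H) : H := m.Φ kap (a ξ + m.J (star a ξ))

/-- The displacement of `ξ` under the standard implementation of a unitary. -/
def del (ξ : H) (g : H →L[ℂ] H) : ℝ := ‖g (m.bar g ξ) - ξ‖

theorem D_add (ξ : H) (a b : H →L[ℂ] H) : m.D ξ (a + b) = m.D ξ a + m.D ξ b := by
  simp only [D, star_add, add_apply, map_add]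
  abel

theorem D_smul (ξ : H) (c : ℂ) (a : H →L[ℂ] H) : m.D ξ (c • a) = c • m.D ξ a := by
  simp [D, map_smulₛₗ]

end Mod

theorem comm_QN {N : VonNeumannAlgebra H} {a c : H →L[ℂ] H} (ha : a ∈ N.commutant) (hc : c ∈ N) :
    a * c = c * a := (VonNeumannAlgebra.mem_commutant_iff.1 ha c hc).symm

theorem mem_of_comm {N : VonNeumannAlgebra H} {c : H →L[ℂ] H}
    (h : ∀ a ∈ N.commutant, a * c = c * a) : c ∈ N := by
  rw [← N.commutant_commutant, VonNeumannAlgebra.mem_commutant_iff]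
  exact h

/-- A cyclic vector is separating for the commutant. -/
theorem eq_zero_of_cyc {N : VonNeumannAlgebra H} {ξ : H} (h : Cyc N ξ) {a : H →L[ℂ] H}
    (ha : a ∈ N.commutant) (h0 : a ξ = 0) : a = 0 := by
  ext η
  refine norm_le_zero_iff.1 (le_of_forall_pos_le_add fun ε hε => ?_)
  obtain ⟨c, hc, h1⟩ := h.2 η (ε / (‖a‖ + 1)) (by positivity)
  have h2 : a (η - c ξ) = a η := by
    rw [map_sub, ← mul_apply_eq_comp, comm_QN ha hc, mul_apply_eq_comp, h0, map_zero, sub_zero]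
  rw [← h2, zero_add]
  refine (a.le_opNorm _).trans ?_
  rw [lt_div_iff₀ (by positivity)] at h1
  nlinarith [norm_nonneg (η - c ξ), norm_nonneg a]

/-- A vector orthogonal to the orbit of a cyclic vector vanishes. -/
theorem eq_zero_of_inner_cyc {N : VonNeumannAlgebra H} {ξ : H} (h : Cyc N ξ) {η : H}
    (h0 : ∀ c ∈ N, ⟪c ξ, η⟫_ℂ = 0) : η = 0 := by
  refine norm_le_zero_iff.1 (le_of_forall_pos_le_add fun ε hε => ?_)
  obtain ⟨c, hc, h1⟩ := h.2 η ε hε
  have h2 : ‖η‖ * ‖η‖ ≤ ‖η - c ξ‖ * ‖η‖ := by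
    refine le_trans ?_ (norm_inner_le_norm (𝕜 := ℂ) (η - c ξ) η)
    rw [inner_sub_left, h0 c hc, sub_zero, inner_self_eq_norm_sq_to_K]
    simp [sq]
  rcases (norm_nonneg η).eq_or_lt with h3 | h3
  · rw [← h3]; positivity
  · linarith [le_of_mul_le_mul_right h2 h3]

end Pool.Agent.P.MP_7e3bdd_an.NI
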