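import Pool.Agent.P.MP_7e3bdd_an.NI.Spec

/-! The vector of the basic inequality can be taken invariant under the modular group. -/

set_option autoImplicit false

open scoped InnerProductSpace BigOperators BoundedContinuousFunction ComplexConjugate TensorProduct
  ComplexOrder
open MeasureTheory

noncomputable section

namespace Pool.Agent.P.MP_7e3bdd_an.NI

open RW

namespace PAvg

variable {H : Type} [NormedAddCommGroup H] [InnerProductSpace ℂ H] [CompleteSpace H]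
  (m : Mod H)

theorem norm_U (t : ℝ) (x : H) : ‖m.U t x‖ = ‖x‖ := by
  have h : ⟪m.U t x, m.U t x⟫_ℂ = ⟪x, x⟫_ℂ := by
    rw [← inner_star_right, m.star_U, ← mul_apply_eq_comp, m.U_neg_mul]
    rfl
  rw [norm_eq_sqrt_re_inner (𝕜 := ℂ) (m.U t x), norm_eq_sqrt_re_inner (𝕜 := ℂ) x, h]

theorem star_sig (t : ℝ) (a : H →L[ℂ] H) : star (m.sig t a) = m.sig t (star a) := by
  simp only [Mod.sig, star_mul, m.star_U, neg_neg, mul_assoc]

theorem sig_mul (t : ℝ) (a b : H →L[ℂ] H) : m.sig t a * m.sig t b = m.sig t (a * b) := by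
  simp only [Mod.sig, mul_assoc]
  rw [← mul_assoc (m.U (-t)) (m.U t), m.U_neg_mul, one_mul]

theorem sig_sig (t : ℝ) (a : H →L[ℂ] H) : m.sig (-t) (m.sig t a) = a := by
  simp only [Mod.sig, neg_neg, mul_assoc]
  rw [m.U_neg_mul, mul_one, ← mul_assoc, m.U_neg_mul, one_mul]

theorem sop_le (t : ℝ) {ι : Type} [Fintype ι] (b : ι → H →L[ℂ] H) :
    ‖m.Sop fun l => m.sig t (b l)‖ ≤ ‖m.Sop b‖ := by
  refine ContinuousLinearMap.opNorm_le_bound _ (ContinuousLinearMap.opNorm_nonneg _) fun X => ?_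
  have h : (m.Sop fun l => m.sig t (b l)) = m.pi (m.U t) * m.Sop b * m.pi (m.U (-t)) := by
    simp only [Mod.Sop, Mod.sig, m.pi_mul, Finset.mul_sum, Finset.sum_mul]
  have h2 : (m.pi (m.U t) * m.Sop b * m.pi (m.U (-t))) X
      = m.pi (m.U t) (m.Sop b (m.pi (m.U (-t)) X)) := rfl
  rw [h, h2, m.norm_pi_unitary (m.U_unitary t)]
  refine ((m.Sop b).le_opNorm _).trans ?_
  rw [m.norm_pi_unitary (m.U_unitary (-t))]

theorem sop_eq (t : ℝ) {ι : Type} [Fintype ι] (b : ι → H →L[ℂ] H) :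
    ‖m.Sop fun l => m.sig t (b l)‖ = ‖m.Sop b‖ := by
  refine le_antisymm (sop_le m t b) ?_
  have h := sop_le m (-t) fun l => m.sig t (b l)
  simpa only [sig_sig] using h

variable {m} {N : VonNeumannAlgebra H} {ξ : H}

theorem U_xi (h : IsTT m N ξ) (t : ℝ) : m.U t ξ = ξ := by
  rw [Mod.U, h.Φξ, ex_apply]
  simp

theorem norm_L (h : IsTT m N ξ) (t : ℝ) (y : H →L[ℂ] H) :
    ‖m.L ξ (m.sig t y)‖ = ‖m.L ξ y‖ := by
  have h1 : ∀ a : H →L[ℂ] H, m.sig t a ξ = m.U t (a ξ) := fun a => by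
    have : m.sig t a ξ = m.U t (a (m.U (-t) ξ)) := rfl
    rw [this, U_xi h]
  rw [Mod.L, star_sig, h1, h1, m.J_U, ← map_sub, norm_U]
  rfl

theorem obj_U (h : IsTT m N ξ) {A : ℝ} {z : H} (hz : Obj m N ξ A z) (t : ℝ) :
    Obj m N ξ A (m.U t z) := by
  intro ι _ b hb
  have h1 := hz ι (fun l => m.sig (-t) (b l)) fun l => h.sigQ _ _ (hb l)
  simp only [star_sig, sig_mul, norm_L h, sop_eq] at h1
  refine le_trans (le_of_eq ?_) h1
  refine Finset.sum_congr rfl fun l _ => Finset.sum_congr rfl fun l' _ => ?_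
  have h2 : m.sig (-t) (star (b l') * b l) z
      = m.U (-t) ((star (b l') * b l) (m.U (- -t) z)) := rfl
  rw [h2, norm_U, neg_neg]

omit [CompleteSpace H] in
theorem sq_convex (u v : H) {a b : ℝ} (ha : 0 ≤ a) (hb : 0 ≤ b) (hab : a + b = 1) :
    ‖a • u + b • v‖ ^ 2 ≤ a * ‖u‖ ^ 2 + b * ‖v‖ ^ 2 := by
  have h1 : ‖a • u + b • v‖ ≤ a * ‖u‖ + b * ‖v‖ := by
    refine (norm_add_le _ _).trans (le_of_eq ?_)
    rw [norm_smul, norm_smul, Real.norm_of_nonneg ha, Real.norm_of_nonneg hb]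
  refine (pow_le_pow_left₀ (norm_nonneg _) h1 2).trans ?_
  have hb' : b = 1 - a := by linarith
  have h3 : 0 ≤ a * b * (‖u‖ - ‖v‖) ^ 2 := by positivity
  subst hb'
  nlinarith

end PAvg

open PAvg in
theorem avgSt : AvgSt := by
  intro H _ _ _ m N ξ h A c ζ ho hc
  set K : Set H := {z | Obj m N ξ A z ∧ c ≤ (⟪ξ, z⟫_ℂ).re} with hK
  have hcl : IsClosed K := by
    refine IsSeqClosed.isClosed fun x z hx hz => ⟨fun ι _ b hb => ?_, ?_⟩
    · have hcont : Continuous fun w : H => ∑ l, ∑ l', ‖(star (b l') * b l) w‖ ^ 2 := by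
        fun_prop
      exact le_of_tendsto' ((hcont.tendsto z).comp hz) fun n => (hx n).1 ι b hb
    · have hcont : Continuous fun w : H => (⟪ξ, w⟫_ℂ).re := by fun_prop
      exact ge_of_tendsto' ((hcont.tendsto z).comp hz) fun n => (hx n).2
  have hconv : Convex ℝ K := by
    intro u hu v hv a b ha hb hab
    refine ⟨fun ι _ f hf => ?_, ?_⟩
    · have h1 := mul_le_mul_of_nonneg_left (hu.1 ι f hf) ha
      have h2 := mul_le_mul_of_nonneg_left (hv.1 ι f hf) hb
      have h3 : ∑ l, ∑ l', ‖(star (f l') * f l) (a • u + b • v)‖ ^ 2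
          ≤ a * ∑ l, ∑ l', ‖(star (f l') * f l) u‖ ^ 2
            + b * ∑ l, ∑ l', ‖(star (f l') * f l) v‖ ^ 2 := by
        simp only [Finset.mul_sum, ← Finset.sum_add_distrib]
        refine Finset.sum_le_sum fun l _ => Finset.sum_le_sum fun l' _ => ?_
        rw [map_add, ContinuousLinearMap.map_smul_of_tower, ContinuousLinearMap.map_smul_of_tower]
        exact sq_convex _ _ ha hb hab
      refine h3.trans ((add_le_add h1 h2).trans (le_of_eq ?_))
      rw [← add_mul, hab, one_mul]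
    · have e1 : ⟪ξ, a • u + b • v⟫_ℂ = (a : ℂ) * ⟪ξ, u⟫_ℂ + (b : ℂ) * ⟪ξ, v⟫_ℂ := by
        rw [inner_add_right, ← Complex.coe_smul, ← Complex.coe_smul, inner_smul_right,
          inner_smul_right]
      rw [e1, Complex.add_re, Complex.re_ofReal_mul, Complex.re_ofReal_mul]
      have h1 := mul_le_mul_of_nonneg_left hu.2 ha
      have h2 := mul_le_mul_of_nonneg_left hv.2 hb
      have h3 : c = a * c + b * c := by rw [← add_mul, hab, one_mul]
      linarith
  have hinv : ∀ z ∈ K, ∀ t, m.U t z ∈ K := fun z hz t => by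
    refine ⟨obj_U h hz.1 t, ?_⟩
    rw [← inner_star_left, m.star_U, U_xi h]
    exact hz.2
  let _ : InnerProductSpace ℝ H := InnerProductSpace.complexToReal
  obtain ⟨v, hv, hmin⟩ :=
    exists_norm_eq_iInf_of_complete_convex (K := K) ⟨ζ, And.intro ho hc⟩ hcl.isComplete hconv (0 : H)
  have hle : ∀ w ∈ K, ‖v‖ ≤ ‖w‖ := fun w hw => by
    have h1 : ⨅ w : K, ‖(0 : H) - w‖ ≤ ‖(0 : H) - w‖ :=
      ciInf_le (f := fun w : K => ‖(0 : H) - w‖)
        ⟨0, by rintro _ ⟨w, rfl⟩; exact norm_nonneg _⟩ ⟨w, hw⟩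
    rw [← hmin] at h1
    simpa using h1
  refine ⟨v, hv.1, hv.2, fun t => ?_⟩
  have h1 := hle _ (hconv (hinv v hv t) hv (a := 1 / 2) (b := 1 / 2) (by norm_num) (by norm_num)
    (by norm_num))
  rw [← smul_add, norm_smul, Real.norm_of_nonneg (by norm_num)] at h1
  have h2 := parallelogram_law_with_norm ℂ (m.U t v) v
  rw [norm_U] at h2
  have h3 : ‖m.U t v - v‖ ^ 2 ≤ 0 := by
    nlinarith [norm_nonneg v, norm_nonneg (m.U t v + v)]
  exact sub_eq_zero.1 (norm_eq_zero.1 (pow_eq_zero_iff two_ne_zero |>.1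
    (le_antisymm h3 (sq_nonneg _))))

end Pool.Agent.P.MP_7e3bdd_an.NI
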