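import Pool.Agent.P.MP_7e3bdd_an.NI.Spec

/-!
The two variable vanishing principle for the functional calculus.
-/

set_option autoImplicit false

open scoped InnerProductSpace BigOperators BoundedContinuousFunction ComplexConjugate TensorProduct
  ComplexOrder
open MeasureTheory

noncomputable section

namespace Pool.Agent.P.MP_7e3bdd_an.NI

open RW

namespace PBT

variable {H : Type} [NormedAddCommGroup H] [InnerProductSpace ℂ H] [CompleteSpace H]

omit [CompleteSpace H] in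
theorem countable_of_orthonormal [TopologicalSpace.SeparableSpace H] {ι : Type} {b : ι → H}
    (hb : Orthonormal ℂ b) : Countable ι := by
  refine Pairwise.countable_of_isOpen_disjoint (s := fun i => Metric.ball (b i) (1 / 2))
    (fun i j hij => ?_) (fun i => Metric.isOpen_ball)
    (fun i => ⟨b i, Metric.mem_ball_self (by norm_num)⟩)
  refine Metric.ball_disjoint_ball ?_
  have h1 : ⟪b i, b i - b j⟫_ℂ = 1 := by
    rw [inner_sub_right, hb.2 hij, sub_zero, inner_self_eq_norm_sq_to_K, hb.1 i]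
    simp
  have h2 := norm_inner_le_norm (𝕜 := ℂ) (b i) (b i - b j)
  rw [h1, hb.1 i, norm_one, one_mul] at h2
  rw [dist_eq_norm]
  linarith

omit [CompleteSpace H] in
theorem norm_sum_le {ι : Type} {b : ι → H} (hb : Orthonormal ℂ b) (s : Finset ι) (x y : H) :
    ‖∑ j ∈ s, ⟪x, b j⟫_ℂ * ⟪b j, y⟫_ℂ‖ ≤ ‖x‖ ^ 2 + ‖y‖ ^ 2 := by
  have hx := hb.sum_inner_products_le (s := s) x
  have hy := hb.sum_inner_products_le (s := s) y
  refine (_root_.norm_sum_le _ _).trans (le_trans ?_ (add_le_add hx hy))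
  rw [← Finset.sum_add_distrib]
  refine Finset.sum_le_sum fun j _ => ?_
  rw [norm_mul, norm_inner_symm x (b j)]
  nlinarith [sq_nonneg (‖⟪b j, x⟫_ℂ‖ - ‖⟪b j, y⟫_ℂ‖), norm_nonneg ⟪b j, x⟫_ℂ,
    norm_nonneg ⟪b j, y⟫_ℂ]

theorem cont_inner (h1 : ContSt) (m : Mod H) {G : ℝ → ℝ →ᵇ ℂ} (hG : Fam G) (v ζ : H) :
    Continuous fun t => ⟪v, m.Φ (G t) ζ⟫_ℂ :=
  continuous_const.inner ((h1 G hG).2 H m ζ)

theorem bdd_inner (m : Mod H) {G : ℝ → ℝ →ᵇ ℂ} (hG : Fam G) (v ζ : H) :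
    ∃ C : ℝ, ∀ t, ‖⟪v, m.Φ (G t) ζ⟫_ℂ‖ ≤ C := by
  obtain ⟨C, hC⟩ := hG.2
  refine ⟨‖v‖ * (C * ‖ζ‖), fun t => (norm_inner_le_norm _ _).trans ?_⟩
  exact mul_le_mul_of_nonneg_left (m.norm_Φ_apply_le _ (hC t) ζ) (norm_nonneg _)

theorem rank_one (h1 : ContSt) (h2 : SVSt) (m : Mod H) (I : Type) [Fintype I] (k : I → ℝ → ℂ)
    (F G : I → ℝ → ℝ →ᵇ ℂ) (hk : ∀ i, Integrable (k i)) (hF : ∀ i, Fam (F i))
    (hG : ∀ i, Fam (G i)) (h0 : ∀ r s, ∑ i, ∫ t, k i t * (F i t r * G i t s) = 0)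
    (η u v ζ : H) :
    ∑ i, ∫ t, k i t * (⟪η, m.Φ (F i t) u⟫_ℂ * ⟪v, m.Φ (G i t) ζ⟫_ℂ) = 0 := by
  have hA : ∀ r, ∑ i, ∫ t, (k i t * F i t r) * ⟪v, m.Φ (G i t) ζ⟫_ℂ = 0 := fun r => by
    refine h2 H m I (fun i t => k i t * F i t r) G (fun i => ?_) hG (fun s => ?_) v ζ
    · obtain ⟨C, hC⟩ := (hF i).2
      refine (hk i).mul_bdd (c := C) ?_ (Filter.Eventually.of_forall fun t => hC t r)
      exact ((hF i).1.comp (continuous_id.prodMk continuous_const)).aestronglyMeasurable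
    · simpa only [mul_assoc] using h0 r s
  have hB := h2 H m I (fun i t => k i t * ⟪v, m.Φ (G i t) ζ⟫_ℂ) F (fun i => ?_) hF
    (fun r => ?_) η u
  · rw [← hB]
    refine Finset.sum_congr rfl fun i _ => ?_
    congr 1
    ext t
    ring
  · obtain ⟨C, hC⟩ := bdd_inner m (hG i) v ζ
    exact (hk i).mul_bdd (c := C) (cont_inner h1 m (hG i) v ζ).aestronglyMeasurable
      (Filter.Eventually.of_forall hC)
  · rw [← hA r]
    refine Finset.sum_congr rfl fun i _ => ?_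
    congr 1
    ext t
    ring

end PBT

open PBT in
theorem btSt (h1 : ContSt) (h2 : SVSt) : BTSt := by
  intro H _ _ _ _ m I _ k F G hk hF hG h0 x η ζ
  obtain ⟨w, b, -⟩ := exists_hilbertBasis ℂ H
  have hb := b.orthonormal
  haveI : Countable w := countable_of_orthonormal hb
  have hadj : ∀ i t y, ⟪η, m.Φ (F i t) (x y)⟫_ℂ = ⟪star x (m.Φ (star (F i t)) η), y⟫_ℂ :=
    fun i t y => by rw [m.inner_Φ, inner_star_left]
  have hint : ∀ i (j : w), Integrable fun t =>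
      k i t * (⟪η, m.Φ (F i t) (x (b j))⟫_ℂ * ⟪b j, m.Φ (G i t) ζ⟫_ℂ) := fun i j => by
    obtain ⟨C, hC⟩ := bdd_inner m (hF i) η (x (b j))
    obtain ⟨D, hD⟩ := bdd_inner m (hG i) (b j) ζ
    refine (hk i).mul_bdd (c := C * D)
      ((cont_inner h1 m (hF i) η _).mul (cont_inner h1 m (hG i) _ ζ)).aestronglyMeasurable
      (Filter.Eventually.of_forall fun t => ?_)
    rw [norm_mul]
    exact mul_le_mul (hC t) (hD t) (norm_nonneg _) ((norm_nonneg _).trans (hC t))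
  have hlim : ∀ i, Filter.Tendsto (fun s : Finset w => ∫ t, ∑ j ∈ s,
      k i t * (⟪η, m.Φ (F i t) (x (b j))⟫_ℂ * ⟪b j, m.Φ (G i t) ζ⟫_ℂ)) Filter.atTop
      (nhds (∫ t, k i t * ⟪η, m.Φ (F i t) (x (m.Φ (G i t) ζ))⟫_ℂ)) := fun i => by
    obtain ⟨C, hC⟩ := (hF i).2
    obtain ⟨D, hD⟩ := (hG i).2
    refine tendsto_integral_filter_of_dominated_convergence
      (fun t => ‖k i t‖ * ((‖star x‖ * (C * ‖η‖)) ^ 2 + (D * ‖ζ‖) ^ 2))
      (Filter.Eventually.of_forall fun s =>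
        (integrable_finsetSum s fun j _ => hint i j).aestronglyMeasurable)
      (Filter.Eventually.of_forall fun s => Filter.Eventually.of_forall fun t => ?_)
      ((hk i).norm.mul_const _) (Filter.Eventually.of_forall fun t => ?_)
    · rw [← Finset.mul_sum, norm_mul]
      refine mul_le_mul_of_nonneg_left ?_ (norm_nonneg _)
      simp only [hadj]
      refine (PBT.norm_sum_le hb s _ _).trans (add_le_add ?_ ?_)
      · refine pow_le_pow_left₀ (norm_nonneg _) (((star x).le_opNorm _).trans ?_) 2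
        refine mul_le_mul_of_nonneg_left (m.norm_Φ_apply_le _ (fun r => ?_) η) (norm_nonneg _)
        rw [BoundedContinuousFunction.star_apply, norm_star]
        exact hC t r
      · exact pow_le_pow_left₀ (norm_nonneg _) (m.norm_Φ_apply_le _ (hD t) ζ) 2
    · simp only [hadj]
      exact (b.hasSum_inner_mul_inner _ _).mul_left (k i t)
  have hsum := tendsto_finsetSum (Finset.univ : Finset I) fun i _ => hlim i
  have hzero : ∀ s : Finset w, ∑ i, ∫ t, ∑ j ∈ s,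
      k i t * (⟪η, m.Φ (F i t) (x (b j))⟫_ℂ * ⟪b j, m.Φ (G i t) ζ⟫_ℂ) = 0 := fun s => by
    simp only [fun i => integral_finsetSum s fun j _ => hint i j]
    rw [Finset.sum_comm]
    exact Finset.sum_eq_zero fun j _ => rank_one h1 h2 m I k F G hk hF hG h0 η _ _ ζ
  simp only [hzero] at hsum
  exact (tendsto_nhds_unique tendsto_const_nhds hsum).symm

end Pool.Agent.P.MP_7e3bdd_an.NI
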