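import Pool.Agent.P.MP_7e3bdd_an.NI.Spec

set_option autoImplicit false

open scoped InnerProductSpace BigOperators BoundedContinuousFunction ComplexConjugate TensorProduct
  ComplexOrder
open MeasureTheory

noncomputable section

namespace Pool.Agent.P.MP_7e3bdd_an.NI

open RW

namespace PBiLem

variable {H : Type} [NormedAddCommGroup H] [InnerProductSpace ℂ H] [CompleteSpace H]
  {ω : (H →L[ℂ] H) →ₗ[ℂ] (H →L[ℂ] H) →ₗ[ℂ] ℂ} {ι ι' : Type} [Fintype ι] [Fintype ι']

theorem two (h : BiPos ω) (p q : ι → H →L[ℂ] H) (p' q' : ι' → H →L[ℂ] H) (c : ℂ) :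
    0 ≤ bv ω p q 1 p q + c * bv ω p q 1 p' q' + conj c * bv ω p' q' 1 p q +
      conj c * c * bv ω p' q' 1 p' q' := by
  have := h (ι ⊕ ι') (Sum.elim p fun k => c • p' k) (Sum.elim q q')
  simp only [bv, Fintype.sum_sum_type, Sum.elim_inl, Sum.elim_inr, Finset.sum_add_distrib,
    star_smul, smul_mul_assoc, mul_smul_comm, map_smul, LinearMap.smul_apply, smul_eq_mul,
    ← Finset.mul_sum, RCLike.star_def] at this ⊢
  convert this using 1
  ring

theorem herm (h : BiPos ω) (p q : ι → H →L[ℂ] H) (p' q' : ι' → H →L[ℂ] H) :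
    bv ω p' q' 1 p q = conj (bv ω p q 1 p' q') := by
  have h1 := (Complex.nonneg_iff.1 (two h p q p' q' 1)).2
  have h2 := (Complex.nonneg_iff.1 (two h p q p' q' Complex.I)).2
  have h3 := (Complex.nonneg_iff.1 (h ι p q)).2
  have h4 := (Complex.nonneg_iff.1 (h ι' p' q')).2
  simp [← h3, ← h4] at h1 h2
  exact Complex.ext (by simp only [Complex.conj_re]; linarith)
    (by simp only [Complex.conj_im]; linarith)

theorem cs (h : BiPos ω) (p q : ι → H →L[ℂ] H) (p' q' : ι' → H →L[ℂ] H) :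
    ‖bv ω p q 1 p' q'‖ ^ 2 ≤ (bv ω p q 1 p q).re * (bv ω p' q' 1 p' q').re := by
  have h3 := Complex.nonneg_iff.1 (h ι p q)
  have h4 := Complex.nonneg_iff.1 (h ι' p' q')
  have key := discrim_le_zero (a := Complex.normSq (bv ω p q 1 p' q') * (bv ω p' q' 1 p' q').re)
    (b := 2 * Complex.normSq (bv ω p q 1 p' q')) (c := (bv ω p q 1 p q).re) fun t => by
      have := (Complex.nonneg_iff.1 (two h p q p' q' (t * conj (bv ω p q 1 p' q')))).1
      rw [herm h p q p' q'] at this
      simp [← h4.2] at this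
      rw [Complex.normSq_apply]
      linarith
  rw [discrim] at key
  rw [← Complex.normSq_eq_norm_sq]
  rcases (Complex.normSq_nonneg (bv ω p q 1 p' q')).eq_or_lt with h0 | h0
  · exact h0 ▸ mul_nonneg h3.1 h4.1
  · nlinarith

theorem bound (h : BiPos ω) (p q : ι → H →L[ℂ] H) (T : H →L[ℂ] H) :
    (bv ω p (fun k => T * q k) 1 p fun k => T * q k).re ≤ ‖T‖ ^ 2 * (bv ω p q 1 p q).re := by
  obtain ⟨s, hs⟩ := CStarAlgebra.nonneg_iff_eq_star_mul_self.1
    (sub_nonneg.2 (CStarAlgebra.star_mul_le_algebraMap_norm_sq (a := T)))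
  have h1 := (Complex.nonneg_iff.1 (h ι p fun k => s * q k)).1
  have h2 : bv ω p (fun k => s * q k) 1 p (fun k => s * q k) = ((‖T‖ ^ 2 : ℝ) : ℂ) *
      bv ω p q 1 p q - bv ω p (fun k => T * q k) 1 p fun k => T * q k := by
    simp only [bv, Finset.mul_sum, ← Finset.sum_sub_distrib]
    refine Finset.sum_congr rfl fun i _ => Finset.sum_congr rfl fun k _ => ?_
    rw [← smul_eq_mul ((‖T‖ ^ 2 : ℝ) : ℂ), ← map_smul, ← map_sub]
    congr 1
    have : star (s * q i) * 1 * (s * q k) = star (q i) * (star s * s) * q k := by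
      simp [mul_assoc]
    rw [this, ← hs, Algebra.algebraMap_eq_smul_one, Complex.coe_smul]
    simp [mul_sub, sub_mul, mul_assoc]
  rw [h2, Complex.sub_re, Complex.re_ofReal_mul] at h1
  linarith

end PBiLem

theorem biLemSt : BiLemSt := by
  intro H _ _ _ ω h
  refine ⟨fun p q => ?_, fun ι ι' _ _ p q T p' q' => ?_⟩
  · simpa [bv] using PBiLem.herm h (fun _ : Unit => 1) (fun _ => 1) (fun _ : Unit => p) fun _ => q
  · have h1 : bv ω p q T p' q' = bv ω p q 1 p' fun k => T * q' k := by simp [bv, mul_assoc]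
    have h3 := (Complex.nonneg_iff.1 (h ι p q)).1
    have h4 := (Complex.nonneg_iff.1 (h ι' p' q')).1
    refine (pow_le_pow_iff_left₀ (norm_nonneg _) (by positivity) two_ne_zero).1 ?_
    rw [h1, mul_pow, mul_pow, Real.sq_sqrt h3, Real.sq_sqrt h4]
    refine (PBiLem.cs h _ _ _ _).trans ((mul_le_mul_of_nonneg_left (PBiLem.bound h p' q' T) h3).trans
      (le_of_eq (by ring)))

end Pool.Agent.P.MP_7e3bdd_an.NI
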