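import Pool.Agent.P.MP_7e3bdd_an.NI.Spec
import Pool.Agent.P.MP_7e3bdd_an.RW.Minimax

/-!
The self-polar criterion in terms of finite families of vectors.
-/

set_option autoImplicit false

open scoped InnerProductSpace BigOperators ComplexConjugate ComplexOrder

noncomputable section

namespace Pool.Agent.P.MP_7e3bdd_an.NI

open RW

namespace PBist1

/-- The norm of a symmetric operator shifted by a multiple of its support projection. -/
theorem norm_shift {E : Type} [NormedAddCommGroup E] [InnerProductSpace ℂ E] (T P : E →L[ℂ] E)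
    (hT : ∀ X Y, ⟪X, T Y⟫_ℂ = ⟪T X, Y⟫_ℂ) (hP : ∀ X Y, ⟪X, P Y⟫_ℂ = ⟪P X, Y⟫_ℂ)
    (hPP : ∀ X, P (P X) = P X) (hTP : ∀ X, T (P X) = T X) {s lam : ℝ} (hs : 0 ≤ s)
    (hl : ‖T‖ ≤ lam) (h : ∀ X, ‖X‖ ≤ 1 → (⟪X, T X⟫_ℂ).re ≤ s) :
    ‖T + (lam : ℂ) • P‖ ≤ s + lam := by
  have hl0 : 0 ≤ lam := (norm_nonneg _).trans hl
  have h1 : ∀ X, (⟪X, T X⟫_ℂ).re ≤ s * ‖X‖ ^ 2 := fun X => by
    rcases (norm_nonneg X).eq_or_lt with h0 | h0
    · rw [norm_eq_zero.1 h0.symm]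
      simp
    · have h2 := h (((‖X‖⁻¹ : ℝ) : ℂ) • X) (by
        rw [norm_smul, Complex.norm_real, Real.norm_of_nonneg (by positivity),
          inv_mul_cancel₀ h0.ne'])
      rw [map_smul, inner_smul_left, inner_smul_right, Complex.conj_ofReal, Complex.re_ofReal_mul,
        Complex.re_ofReal_mul] at h2
      have h3 : (⟪X, T X⟫_ℂ).re = ‖X‖⁻¹ * (‖X‖⁻¹ * (⟪X, T X⟫_ℂ).re) * ‖X‖ ^ 2 := by field_simp
      rw [h3]
      exact mul_le_mul_of_nonneg_right h2 (by positivity)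
  have h2 : ∀ X, (⟪X, P X⟫_ℂ).re = ‖P X‖ ^ 2 := fun X => by
    have h3 : ⟪X, P X⟫_ℂ = ⟪P X, P X⟫_ℂ := by rw [← hP, hPP]
    rw [h3]
    exact inner_self_eq_norm_sq (𝕜 := ℂ) (P X)
  have h3 : ∀ X, ‖P X‖ ^ 2 ≤ ‖X‖ ^ 2 := fun X => by
    have h4 : (⟪X, P X⟫_ℂ).re ≤ ‖X‖ * ‖P X‖ :=
      (Complex.re_le_norm _).trans (norm_inner_le_norm _ _)
    rw [h2] at h4
    nlinarith [norm_nonneg X, norm_nonneg (P X), sq_nonneg (‖X‖ - ‖P X‖)]
  have h4 : ∀ X, -(lam * ‖P X‖ ^ 2) ≤ (⟪X, T X⟫_ℂ).re := fun X => by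
    have h5 : ⟪X, T X⟫_ℂ = ⟪P X, T (P X)⟫_ℂ := by
      rw [hT (P X), hTP, ← hT, hTP]
    have h6 : ‖⟪P X, T (P X)⟫_ℂ‖ ≤ lam * ‖P X‖ ^ 2 := by
      refine (norm_inner_le_norm _ _).trans ?_
      have h7 := (T.le_opNorm (P X)).trans (mul_le_mul_of_nonneg_right hl (norm_nonneg _))
      nlinarith [mul_le_mul_of_nonneg_left h7 (norm_nonneg (P X))]
    rw [h5]
    exact (abs_le.1 ((Complex.abs_re_le_norm _).trans h6)).1
  have hB : ((T + (lam : ℂ) • P : E →L[ℂ] E) : E →ₗ[ℂ] E).IsSymmetric := fun X Y => by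
    simp only [ContinuousLinearMap.coe_coe, add_apply,
      smul_apply, inner_add_left, inner_add_right, inner_smul_left,
      inner_smul_right, Complex.conj_ofReal, hT, hP]
  rw [ContinuousLinearMap.norm_eq_iSup_rayleighQuotient _ hB]
  refine ciSup_le fun X => ?_
  have h5 : (T + (lam : ℂ) • P).reApplyInnerSelf X = (⟪X, T X⟫_ℂ).re + lam * ‖P X‖ ^ 2 := by
    rw [ContinuousLinearMap.reApplyInnerSelf_apply, add_apply,
      smul_apply, inner_add_left, inner_smul_left, ← hT, ← hP, ← h2]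
    simp
  rw [ContinuousLinearMap.rayleighQuotient, h5, abs_div, abs_of_nonneg (by linarith [h4 X]),
    abs_of_nonneg (by positivity)]
  refine div_le_of_le_mul₀ (by positivity) (by positivity) ?_
  nlinarith [h1 X, mul_le_mul_of_nonneg_left (h3 X) hl0]

variable {H : Type} [NormedAddCommGroup H] [InnerProductSpace ℂ H] [CompleteSpace H]

theorem pi_sqrt (m : Mod H) {r : ℝ} (hr : 0 ≤ r) (a : H →L[ℂ] H) :
    m.pi (((√r : ℝ) : ℂ) • a) = (r : ℂ) • m.pi a := by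
  rw [Mod.pi, Mod.bar_smul, tm_smul_right, ← tm_smul_left, smul_smul, Complex.conj_ofReal,
    ← Complex.ofReal_mul, Real.mul_self_sqrt hr, tm_smul_left, Mod.pi]

omit [CompleteSpace H] in
theorem ism_right (c : ℂ) (X Y : HH H) : ⟪X, c • Y⟫_ℂ = c * ⟪X, Y⟫_ℂ := inner_smul_right X Y c

omit [CompleteSpace H] in
theorem ism_left (c : ℂ) (X Y : HH H) : ⟪c • X, Y⟫_ℂ = conj c * ⟪X, Y⟫_ℂ := inner_smul_left X Y c

theorem D_sqrt (m : Mod H) (ξ : H) {r : ℝ} (hr : 0 ≤ r) (a : H →L[ℂ] H) :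
    ‖m.D ξ (((√r : ℝ) : ℂ) • a)‖ ^ 2 = r * ‖m.D ξ a‖ ^ 2 := by
  rw [Mod.D_smul, norm_smul, Complex.norm_real, Real.norm_of_nonneg (Real.sqrt_nonneg _), mul_pow,
    Real.sq_sqrt hr]

theorem cor_smul {N : VonNeumannAlgebra H} {e a : H →L[ℂ] H} (h : InCor N e a) (c : ℂ) :
    InCor N e (c • a) :=
  ⟨N.commutant.toStarSubalgebra.smul_mem h.1 c, by rw [smul_mul_assoc, h.2.1],
    by rw [mul_smul_comm, h.2.2]⟩

theorem cor_star {N : VonNeumannAlgebra H} {e a : H →L[ℂ] H} (he : star e = e) (h : InCor N e a) :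
    InCor N e (star a) :=
  ⟨star_mem h.1, by rw [← he, ← star_mul, h.2.2], by rw [← he, ← star_mul, h.2.1]⟩

theorem one_vec (h1 : DSt) (m : Mod H) (N : VonNeumannAlgebra H) (ξ : H) (hT : IsTT m N ξ)
    (e : H →L[ℂ] H) (he : Cor m N ξ e) (hC : Crit m N ξ e) {F : Type} [Fintype F]
    (a : F → H →L[ℂ] H) (ha : ∀ i, InCor N e (a i)) (μ : F → ℝ) (hμ : ∀ i, 0 ≤ μ i) {θ : ℝ}
    (hθ : 0 < θ) : ∃ X : HH H, ‖X‖ ≤ 1 ∧ ∑ i, μ i * ‖m.D ξ (a i)‖ ^ 2 - θ ≤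
      ‖e ξ‖ ^ 2 * ∑ i, μ i * (⟪X, m.pi (a i) X⟫_ℂ).re := by
  by_contra hcon
  push Not at hcon
  have hs : 0 < ‖e ξ‖ ^ 2 := by have := norm_pos_iff.2 he.ne; positivity
  have hes : star e = e := he.proj.isSelfAdjoint
  have hee : e * e = e := he.proj.isIdempotentElem
  set M := ∑ i, μ i * ‖m.D ξ (a i)‖ ^ 2 with hM
  set T : HH H →L[ℂ] HH H :=
    ∑ i, ((μ i / 2 : ℝ) : ℂ) • m.pi (a i) + ∑ i, ((μ i / 2 : ℝ) : ℂ) • m.pi (star (a i)) with hTd
  have hTa : ∀ X, T X = ∑ i, ((μ i / 2 : ℝ) : ℂ) • m.pi (a i) X +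
      ∑ i, ((μ i / 2 : ℝ) : ℂ) • m.pi (star (a i)) X := fun X => by
    simp only [hTd, add_apply, sum_apply,
      smul_apply]
  have hTs : ∀ X Y, ⟪X, T Y⟫_ℂ = ⟪T X, Y⟫_ℂ := fun X Y => by
    simp only [hTa, inner_add_left, inner_add_right, inner_sum, sum_inner, ism_left,
      ism_right, Complex.conj_ofReal, Mod.inner_pi, star_star]
    rw [add_comm]
  have hTr : ∀ X, (⟪X, T X⟫_ℂ).re = ∑ i, μ i * (⟪X, m.pi (a i) X⟫_ℂ).re := fun X => by
    simp only [hTa, inner_add_right, inner_sum, ism_right, Complex.add_re, Complex.re_sum,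
      Complex.re_ofReal_mul, ← Finset.sum_add_distrib]
    refine Finset.sum_congr rfl fun i _ => ?_
    rw [m.inner_pi (star (a i)), star_star, ← inner_conj_symm (m.pi (a i) X), Complex.conj_re]
    ring
  have hM0 : 0 ≤ (M - θ) / ‖e ξ‖ ^ 2 := by
    have h2 := hcon 0 (by simp)
    simp only [inner_zero_left, Complex.zero_re, mul_zero, Finset.sum_const_zero] at h2
    positivity
  have hB := norm_shift T (m.pi e) hTs (fun X Y => by rw [m.inner_pi, hes])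
    (fun X => by rw [← mul_apply_eq_comp, ← m.pi_mul, hee])
    (fun X => by
      simp only [hTa, ← mul_apply_eq_comp, ← m.pi_mul, (ha _).2.1,
        (cor_star hes (ha _)).2.1])
    hM0 le_rfl (fun X hX => by
      rw [hTr, le_div_iff₀ hs, mul_comm]
      exact (hcon X hX).le)
  have hec : InCor N e e := ⟨he.mem, hee, hee⟩
  have hμ2 : ∀ i, 0 ≤ μ i / 2 := fun i => by have := hμ i; positivity
  let b : Option (F ⊕ F) → H →L[ℂ] H := fun o => o.elim (((√‖T‖ : ℝ) : ℂ) • e)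
    (Sum.elim (fun i => ((√(μ i / 2) : ℝ) : ℂ) • a i)
      fun i => ((√(μ i / 2) : ℝ) : ℂ) • star (a i))
  have h2 := hC _ b (by
    rintro (_ | i | i)
    · exact cor_smul hec _
    · exact cor_smul (ha i) _
    · exact cor_smul (cor_star hes (ha i)) _)
  have h3 : m.Sop b = T + ((‖T‖ : ℝ) : ℂ) • m.pi e := by
    rw [Mod.Sop, Fintype.sum_option, Fintype.sum_sum_type, add_comm]
    simp only [b, Option.elim_none, Option.elim_some, Sum.elim_inl, Sum.elim_inr,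
      pi_sqrt m (hμ2 _), pi_sqrt m (norm_nonneg T)]
    rfl
  have h4 : ‖m.D ξ e‖ ^ 2 = ‖e ξ‖ ^ 2 := by
    have h5 := (h1 H m N ξ hT e he.mem).2.1
    rw [Mod.bar_apply, hT.Jξ, he.J, ← inner_star_left, hes] at h5
    rw [← inner_self_eq_norm_sq (𝕜 := ℂ) (e ξ), ← h5]
    exact (Complex.ofReal_re _).symm
  have h5 : ∑ l, ‖m.D ξ (b l)‖ ^ 2 = ‖T‖ * ‖e ξ‖ ^ 2 + M := by
    rw [Fintype.sum_option, Fintype.sum_sum_type]
    simp only [b, Option.elim_none, Option.elim_some, Sum.elim_inl, Sum.elim_inr,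
      D_sqrt m ξ (hμ2 _), D_sqrt m ξ (norm_nonneg T), h4, ← Finset.sum_add_distrib, hM]
    congr 1
    refine Finset.sum_congr rfl fun i _ => ?_
    rw [(h1 H m N ξ hT _ (ha i).1).2.2.1]
    ring
  rw [h3, h5] at h2
  have h6 := mul_le_mul_of_nonneg_left hB hs.le
  rw [mul_add, mul_div_cancel₀ _ hs.ne'] at h6
  linarith

end PBist1

theorem bist1St (h1 : DSt) : Bist1St := by
  intro H _ _ _ m N ξ hT e he hC F θ hθ
  let C : Set (F → ℝ) := {t | ∃ (J : Type) (_ : Fintype J) (l : J → ℝ) (X : J → HH H),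
    Prob l ∧ (∀ j, ‖X j‖ ≤ 1) ∧ ∀ a : F, t a =
      ‖e ξ‖ ^ 2 * ∑ j, l j * (⟪X j, m.pi a.1.1 (X j)⟫_ℂ).re - ‖m.D ξ a.1.1‖ ^ 2}
  have hone : ∀ X : HH H, ‖X‖ ≤ 1 → (fun a : F =>
      ‖e ξ‖ ^ 2 * (⟪X, m.pi a.1.1 X⟫_ℂ).re - ‖m.D ξ a.1.1‖ ^ 2) ∈ C := fun X hX =>
    ⟨Unit, inferInstance, fun _ => 1, fun _ => X, ⟨fun _ => zero_le_one, by simp⟩, fun _ => hX,
      fun a => by simp⟩
  have hconv : Convex ℝ C := by
    rintro t ⟨J, _, l, X, hl, hX, ht⟩ t' ⟨J', _, l', X', hl', hX', ht'⟩ p q hp hq hpq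
    refine ⟨J ⊕ J', inferInstance, Sum.elim (fun j => p * l j) fun j => q * l' j, Sum.elim X X',
      ⟨?_, ?_⟩, ?_, fun a => ?_⟩
    · rintro (j | j)
      · exact mul_nonneg hp (hl.1 j)
      · exact mul_nonneg hq (hl'.1 j)
    · simp only [Fintype.sum_sum_type, Sum.elim_inl, Sum.elim_inr, ← Finset.mul_sum, hl.2, hl'.2]
      linarith
    · rintro (j | j)
      · exact hX j
      · exact hX' j
    · simp only [Fintype.sum_sum_type, Sum.elim_inl, Sum.elim_inr, mul_assoc, ← Finset.mul_sum,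
        Pi.add_apply, Pi.smul_apply, smul_eq_mul, ht a, ht' a]
      linear_combination (-‖m.D ξ a.1.1‖ ^ 2) * hpq
  obtain ⟨t, ⟨J, _, l, X, hl, hX, ht⟩, h2⟩ := finite_minimax C hconv ⟨_, hone 0 (by simp)⟩
    (-(θ / 2)) (-θ) (by linarith) fun μ hμ _ => by
      obtain ⟨X, hX, h3⟩ := PBist1.one_vec h1 m N ξ hT e he hC (fun a : F => a.1.1)
        (fun a => a.1.2) μ hμ (half_pos hθ)
      refine ⟨_, hone X hX, ?_⟩
      simp only [mul_sub, Finset.sum_sub_distrib, mul_left_comm (μ _), ← Finset.mul_sum]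
      linarith
  refine ⟨J, inferInstance, l, X, hl, hX, fun a ha => ?_⟩
  have h3 := h2 ⟨a, ha⟩
  rw [ht] at h3
  linarith

end Pool.Agent.P.MP_7e3bdd_an.NI
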