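import Pool.Agent.P.MP_7e3bdd_an.NI.Spec

/-! The limit functional. -/

set_option autoImplicit false

open scoped InnerProductSpace BigOperators BoundedContinuousFunction ComplexConjugate TensorProduct
  ComplexOrder
open MeasureTheory Filter Topology

noncomputable section

namespace Pool.Agent.P.MP_7e3bdd_an.NI

open RW

namespace PBist2

variable {H : Type} [NormedAddCommGroup H] [InnerProductSpace ℂ H] [CompleteSpace H]

/-- The vector functional. -/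
def wv (X : HH H) : (H →L[ℂ] H) →ₗ[ℂ] (H →L[ℂ] H) →ₗ[ℂ] ℂ :=
  LinearMap.mk₂ ℂ (fun p q => ⟪X, tm p q X⟫_ℂ)
    (fun p p' q => by rw [tm_add_left, add_apply, inner_add_right])
    (fun c p q => by rw [tm_smul_left, smul_apply, inner_smul_right]; rfl)
    (fun p q q' => by rw [tm_add_right, add_apply, inner_add_right])
    (fun c p q => by rw [tm_smul_right, smul_apply, inner_smul_right]; rfl)

omit [CompleteSpace H] in
theorem wv_apply (X : HH H) (p q : H →L[ℂ] H) : wv X p q = ⟪X, tm p q X⟫_ℂ := rfl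

theorem wv_pos (X : HH H) : BiPos (wv X) := by
  intro ι _ p q
  have h : bv (wv X) p q 1 p q = ⟪∑ i, tm (p i) (q i) X, ∑ i, tm (p i) (q i) X⟫_ℂ := by
    rw [sum_inner]
    refine Finset.sum_congr rfl fun i _ => ?_
    rw [inner_sum]
    refine Finset.sum_congr rfl fun k _ => ?_
    rw [wv_apply, mul_one, ← tm_tm, inner_tm, star_star, star_star]
  rw [h]
  generalize ∑ i, tm (p i) (q i) X = Y
  have e : ⟪Y, Y⟫_ℂ = ((‖Y‖ ^ 2 : ℝ) : ℂ) := by
    rw [inner_self_eq_norm_sq_to_K (𝕜 := ℂ) Y]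
    push_cast
    rfl
  rw [e]
  exact Complex.zero_le_real.2 (sq_nonneg _)

omit [CompleteSpace H] in
theorem wv_norm {X : HH H} (hX : ‖X‖ ≤ 1) (p q : H →L[ℂ] H) : ‖wv X p q‖ ≤ ‖p‖ * ‖q‖ := by
  rw [wv_apply]
  refine (norm_inner_le_norm (𝕜 := ℂ) X (tm p q X)).trans ?_
  have h1 : ‖tm p q X‖ ≤ ‖p‖ * ‖q‖ :=
    ((tm p q).le_opNorm X).trans ((mul_le_mul (norm_tm_le p q) hX (norm_nonneg _)
      (by positivity)).trans_eq (mul_one _))
  exact (mul_le_mul hX h1 (norm_nonneg _) zero_le_one).trans_eq (one_mul _)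

omit [CompleteSpace H] in
theorem wv_one {X : HH H} (hX : ‖X‖ ≤ 1) : (wv X 1 1).re ≤ 1 := by
  refine (Complex.re_le_norm _).trans ?_
  rw [wv_apply, tm_one, one_apply_eq_self]
  exact (norm_inner_le_norm (𝕜 := ℂ) X X).trans (by nlinarith [norm_nonneg X])

/-- The functional of a finite family. -/
theorem ex_fin {J : Type} [Fintype J] {l : J → ℝ} {X : J → HH H} {s : ℝ} (hs : 0 ≤ s) (hl : Prob l)
    (hX : ∀ j, ‖X j‖ ≤ 1) : ∃ ω : (H →L[ℂ] H) →ₗ[ℂ] (H →L[ℂ] H) →ₗ[ℂ] ℂ, BiPos ω ∧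
      (ω 1 1).re ≤ s ∧ (∀ p q, ‖ω p q‖ ≤ s * (‖p‖ * ‖q‖)) ∧
      ∀ p q, (ω p q).re = s * ∑ j, l j * (⟪X j, tm p q (X j)⟫_ℂ).re := by
  have e : ∀ p q : H →L[ℂ] H, (∑ j, ((s * l j : ℝ) : ℂ) • wv (X j)) p q =
      ∑ j, ((s * l j : ℝ) : ℂ) * wv (X j) p q := fun p q => by
    simp only [LinearMap.sum_apply, LinearMap.smul_apply, smul_eq_mul]
  have er : ∀ p q : H →L[ℂ] H, ((∑ j, ((s * l j : ℝ) : ℂ) • wv (X j)) p q).re =
      s * ∑ j, l j * (wv (X j) p q).re := fun p q => by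
    rw [e, Complex.re_sum, Finset.mul_sum]
    exact Finset.sum_congr rfl fun j _ => by rw [Complex.re_ofReal_mul, mul_assoc]
  refine ⟨∑ j, ((s * l j : ℝ) : ℂ) • wv (X j), fun ι _ p q => ?_, ?_, fun p q => ?_, er⟩
  · have h : bv (∑ j, ((s * l j : ℝ) : ℂ) • wv (X j)) p q 1 p q =
        ∑ j, ((s * l j : ℝ) : ℂ) * bv (wv (X j)) p q 1 p q := by
      simp only [bv, e, Finset.mul_sum]
      exact (Finset.sum_congr rfl fun i _ => Finset.sum_comm).trans Finset.sum_comm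
    rw [h]
    exact Finset.sum_nonneg fun j _ =>
      mul_nonneg (Complex.zero_le_real.2 (mul_nonneg hs (hl.1 j))) (wv_pos _ ι p q)
  · rw [er]
    refine (mul_le_mul_of_nonneg_left ?_ hs).trans_eq (mul_one s)
    rw [← hl.2]
    exact Finset.sum_le_sum fun j _ =>
      (mul_le_mul_of_nonneg_left (wv_one (hX j)) (hl.1 j)).trans_eq (mul_one _)
  · rw [e]
    refine (norm_sum_le _ _).trans ?_
    have h : ∀ j, ‖((s * l j : ℝ) : ℂ) * wv (X j) p q‖ ≤ l j * (s * (‖p‖ * ‖q‖)) := fun j => by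
      rw [norm_mul, Complex.norm_real, Real.norm_of_nonneg (mul_nonneg hs (hl.1 j))]
      exact (mul_le_mul_of_nonneg_left (wv_norm (hX j) p q) (mul_nonneg hs (hl.1 j))).trans_eq
        (by ring)
    refine (Finset.sum_le_sum fun j _ => h j).trans_eq ?_
    rw [← Finset.sum_mul, hl.2, one_mul]

omit [CompleteSpace H] in
/-- The limit of a bounded family of bilinear functionals. -/
theorem ex_lim {I : Type} (𝒰 : Ultrafilter I) (ω : I → (H →L[ℂ] H) →ₗ[ℂ] (H →L[ℂ] H) →ₗ[ℂ] ℂ)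
    {s : ℝ} (h : ∀ n p q, ‖ω n p q‖ ≤ s * (‖p‖ * ‖q‖)) :
    ∃ φ : (H →L[ℂ] H) →ₗ[ℂ] (H →L[ℂ] H) →ₗ[ℂ] ℂ,
      ∀ p q, Tendsto (fun n => ω n p q) (𝒰 : Filter I) (𝓝 (φ p q)) := by
  choose l hl using fun p q : H →L[ℂ] H => exists_ulim 𝒰 (fun n => ω n p q) _ fun n => h n p q
  refine ⟨LinearMap.mk₂ ℂ l (fun p p' q => ?_) (fun c p q => ?_) (fun p q q' => ?_)
    (fun c p q => ?_), hl⟩
  · refine tendsto_nhds_unique (hl _ _) ?_
    simpa only [map_add, LinearMap.add_apply] using (hl p q).add (hl p' q)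
  · refine tendsto_nhds_unique (hl _ _) ?_
    simpa only [map_smul, LinearMap.smul_apply] using (hl p q).const_smul c
  · refine tendsto_nhds_unique (hl _ _) ?_
    simpa only [map_add] using (hl p q).add (hl p q')
  · refine tendsto_nhds_unique (hl _ _) ?_
    simpa only [map_smul] using (hl p q).const_smul c

/-- The reflected functional. -/
def refl (m : Mod H) (ω : (H →L[ℂ] H) →ₗ[ℂ] (H →L[ℂ] H) →ₗ[ℂ] ℂ) :
    (H →L[ℂ] H) →ₗ[ℂ] (H →L[ℂ] H) →ₗ[ℂ] ℂ :=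
  LinearMap.mk₂ ℂ (fun p q => conj (ω (m.bar q) (m.bar p)))
    (fun p p' q => by rw [m.bar_add, map_add, map_add])
    (fun c p q => by rw [m.bar_smul, map_smul, smul_eq_mul, map_mul, Complex.conj_conj]; rfl)
    (fun p q q' => by rw [m.bar_add, map_add, LinearMap.add_apply, map_add])
    (fun c p q => by
      rw [m.bar_smul, map_smul, LinearMap.smul_apply, smul_eq_mul, map_mul, Complex.conj_conj]; rfl)

theorem refl_apply (m : Mod H) (ω : (H →L[ℂ] H) →ₗ[ℂ] (H →L[ℂ] H) →ₗ[ℂ] ℂ) (p q : H →L[ℂ] H) :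
    refl m ω p q = conj (ω (m.bar q) (m.bar p)) := rfl

theorem refl_pos (m : Mod H) {ω : (H →L[ℂ] H) →ₗ[ℂ] (H →L[ℂ] H) →ₗ[ℂ] ℂ} (h : BiPos ω) :
    BiPos (refl m ω) := by
  intro ι _ p q
  have e : bv (refl m ω) p q 1 p q = conj (bv ω (fun i => m.bar (q i)) (fun i => m.bar (p i)) 1
      (fun i => m.bar (q i)) (fun i => m.bar (p i))) := by
    simp only [bv, map_sum, refl_apply, mul_one, m.bar_mul, m.bar_star]
  rw [e]
  have h1 := h ι (fun i => m.bar (q i)) (fun i => m.bar (p i))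
  rw [Complex.nonneg_iff] at h1 ⊢
  rw [Complex.conj_re, Complex.conj_im, ← h1.2, neg_zero]
  exact ⟨h1.1, rfl⟩

end PBist2

open PBist2

theorem bist2St : Bist2St := by
  intro H _ _ _ m ι a v s hs h
  classical
  have h1 : ∀ n : Finset ι × ℕ, ∃ ω : (H →L[ℂ] H) →ₗ[ℂ] (H →L[ℂ] H) →ₗ[ℂ] ℂ, BiPos ω ∧
      (ω 1 1).re ≤ s ∧ (∀ p q, ‖ω p q‖ ≤ s * (‖p‖ * ‖q‖)) ∧
      ∀ i ∈ n.1, v i - 1 / ((n.2 : ℝ) + 1) ≤ (ω (a i) (m.bar (a i))).re := fun n => by
    obtain ⟨J, _, l, X, hl, hX, hv⟩ := h n.1 (1 / ((n.2 : ℝ) + 1)) (by positivity)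
    obtain ⟨ω, o1, o2, o3, o4⟩ := ex_fin hs hl hX
    exact ⟨ω, o1, o2, o3, fun i hi => by rw [o4]; exact hv i hi⟩
  choose ω o1 o2 o3 o4 using h1
  let 𝒰 : Ultrafilter (Finset ι × ℕ) := Ultrafilter.of atTop
  have hU : (𝒰 : Filter (Finset ι × ℕ)) ≤ atTop := Ultrafilter.of_le _
  obtain ⟨φ, hφ⟩ := ex_lim 𝒰 ω o3
  have hre : ∀ p q, Tendsto (fun n => (ω n p q).re) (𝒰 : Filter _) (𝓝 (φ p q).re) :=
    fun p q => (Complex.continuous_re.tendsto _).comp (hφ p q)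
  have p1 : BiPos φ := fun κ _ p q =>
    ge_of_tendsto' (tendsto_finsetSum _ fun i _ => tendsto_finsetSum _ fun k _ => hφ _ _)
      fun n => o1 n κ p q
  have p2 : (φ 1 1).re ≤ s := le_of_tendsto' (hre 1 1) o2
  have p3 : ∀ i, v i ≤ (φ (a i) (m.bar (a i))).re := fun i => by
    have t1 : Tendsto (fun n : Finset ι × ℕ => v i - 1 / ((n.2 : ℝ) + 1)) (𝒰 : Filter _)
        (𝓝 (v i - 0)) := by
      refine Tendsto.mono_left (tendsto_const_nhds.sub ?_) hU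
      refine tendsto_one_div_add_atTop_nhds_zero_nat.comp ?_
      rw [← prod_atTop_atTop_eq]
      exact tendsto_snd
    rw [sub_zero] at t1
    refine le_of_tendsto_of_tendsto t1 (hre _ _) ?_
    filter_upwards [hU (eventually_ge_atTop (({i}, 0) : Finset ι × ℕ))] with n hn
    exact o4 n i (hn.1 (Finset.mem_singleton_self i))
  have e : ∀ p q, ((1 / 2 : ℂ) • (φ + refl m φ)) p q =
      ((1 / 2 : ℝ) : ℂ) * (φ p q + conj (φ (m.bar q) (m.bar p))) := fun p q => by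
    simp only [LinearMap.smul_apply, LinearMap.add_apply, smul_eq_mul, refl_apply]
    push_cast
    rfl
  refine ⟨(1 / 2 : ℂ) • (φ + refl m φ), fun κ _ p q => ?_, ?_, fun p q => ?_, fun i => ?_⟩
  · have e2 : bv ((1 / 2 : ℂ) • (φ + refl m φ)) p q 1 p q =
        ((1 / 2 : ℝ) : ℂ) * (bv φ p q 1 p q + bv (refl m φ) p q 1 p q) := by
      simp only [bv, e, refl_apply, ← Finset.sum_add_distrib, Finset.mul_sum]
    rw [e2]
    exact mul_nonneg (Complex.zero_le_real.2 (by norm_num))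
      (add_nonneg (p1 κ p q) (refl_pos m p1 κ p q))
  · rw [e, Complex.re_ofReal_mul, Complex.add_re, Complex.conj_re, m.bar_one]
    linarith
  · rw [e, e, m.bar_bar, m.bar_bar, map_mul, map_add, Complex.conj_conj, Complex.conj_ofReal,
      add_comm]
  · rw [e, Complex.re_ofReal_mul, Complex.add_re, Complex.conj_re, m.bar_bar]
    linarith [p3 i]

end Pool.Agent.P.MP_7e3bdd_an.NI
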