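import Pool.Agent.P.MP_7e3bdd_an.NI.Spec

/-!
The bounded functional calculus of the modular operator.
-/

set_option autoImplicit false

open scoped InnerProductSpace BigOperators BoundedContinuousFunction ComplexConjugate TensorProduct
  ComplexOrder
open MeasureTheory

noncomputable section

namespace Pool.Agent.P.MP_7e3bdd_an.NI

open RW

namespace PCalc

/-- The segment from zero to two in the complex plane. -/
def I : Set ℂ := Complex.ofReal '' Set.Icc 0 2

instance : CompactSpace I :=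
  isCompact_iff_compactSpace.mp (isCompact_Icc.image Complex.continuous_ofReal)

theorem re_coe (z : I) : ((z.1.re : ℝ) : ℂ) = z.1 := by
  obtain ⟨_, l, _, rfl⟩ := z
  simp

theorem re_mem (z : I) : 0 ≤ z.1.re ∧ z.1.re ≤ 2 := by
  obtain ⟨_, l, hl, rfl⟩ := z
  simpa using hl

/-- The coordinate function. -/
def X : C(I, ℂ) := (ContinuousMap.id ℂ).restrict I

theorem X_apply (z : I) : X z = z.1 := rfl

theorem star_X : star X = X := by
  ext z
  rw [ContinuousMap.star_apply, X_apply, ← re_coe z]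
  exact Complex.conj_ofReal _

/-- The reflection of the segment. -/
def fl : C(I, I) where
  toFun z := ⟨2 - z.1, by
    obtain ⟨_, l, hl, rfl⟩ := z
    exact ⟨2 - l, ⟨by linarith [hl.2], by linarith [hl.1]⟩, by push_cast; rfl⟩⟩
  continuous_toFun := by fun_prop

/-- The point one. -/
def one : I := ⟨1, 1, ⟨by norm_num, by norm_num⟩, by simp⟩

/-- The transported function, times a factor that vanishes at both ends. -/
def G (F : ℝ →ᵇ ℂ) (l : ℝ) : ℂ := F (Real.log ((2 - l) / l)) * (√(l * (2 - l)) : ℝ)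

theorem G_cont (F : ℝ →ᵇ ℂ) : Continuous (G F) := by
  have hs : Continuous fun l : ℝ => √(l * (2 - l)) := by fun_prop
  rw [continuous_iff_continuousAt]
  intro l
  by_cases h : 0 < l * (2 - l)
  · have h0 : l ≠ 0 := fun e => by simp [e] at h
    have h2 : 2 - l ≠ 0 := fun e => by simp [e] at h
    refine ContinuousAt.mul ?_ (Complex.continuous_ofReal.comp hs).continuousAt
    refine F.continuous.continuousAt.comp ?_
    refine ContinuousAt.log ?_ (div_ne_zero h2 h0)
    exact (continuousAt_const.sub continuousAt_id).div continuousAt_id h0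
  · have h0 : √(l * (2 - l)) = 0 := Real.sqrt_eq_zero_of_nonpos (not_lt.mp h)
    have hG : G F l = 0 := by simp [G, h0]
    rw [ContinuousAt, hG]
    refine squeeze_zero_norm (a := fun l => ‖F‖ * √(l * (2 - l))) (fun u => ?_) ?_
    · rw [G, norm_mul, Complex.norm_real, Real.norm_of_nonneg (Real.sqrt_nonneg _)]
      exact mul_le_mul_of_nonneg_right (F.norm_coe_le_norm _) (Real.sqrt_nonneg _)
    · have := (hs.tendsto l).const_mul ‖F‖
      rwa [h0, mul_zero] at this

/-- The same as a continuous function on the segment. -/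
def g (F : ℝ →ᵇ ℂ) : C(I, ℂ) :=
  ⟨fun z => G F z.1.re, (G_cont F).comp (Complex.continuous_re.comp continuous_subtype_val)⟩

theorem g_apply (F : ℝ →ᵇ ℂ) (z : I) : g F z =
    F (Real.log ((2 - z.1.re) / z.1.re)) * (√(z.1.re * (2 - z.1.re)) : ℝ) := rfl

theorem g_mul (F F' : ℝ →ᵇ ℂ) : g (F * F') * g 1 = g F * g F' := by
  ext z
  simp only [ContinuousMap.mul_apply, g_apply, BoundedContinuousFunction.mul_apply,
    BoundedContinuousFunction.coe_one, Pi.one_apply]
  ring

theorem g_add (F F' : ℝ →ᵇ ℂ) : g (F + F') = g F + g F' := by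
  ext z
  simp only [ContinuousMap.add_apply, g_apply, BoundedContinuousFunction.add_apply]
  ring

theorem g_alg (c : ℂ) : g (algebraMap ℂ (ℝ →ᵇ ℂ) c) = c • g 1 := by
  ext z
  simp [g_apply]

theorem g_star (F : ℝ →ᵇ ℂ) : g (star F) = star (g F) := by
  ext z
  simp [g_apply]

theorem g_one_sq : g 1 * g 1 = X * (2 - X) := by
  ext z
  have h := re_mem z
  have h1 : 0 ≤ z.1.re * (2 - z.1.re) := mul_nonneg h.1 (by linarith [h.2])
  have e : (g 1 * g 1) z = ((z.1.re * (2 - z.1.re) : ℝ) : ℂ) := by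
    simp only [ContinuousMap.mul_apply, g_apply, BoundedContinuousFunction.coe_one, Pi.one_apply,
      one_mul]
    rw [← Complex.ofReal_mul, Real.mul_self_sqrt h1]
  rw [e]
  push_cast
  rw [re_coe]
  rfl

theorem g_of (F : ℝ →ᵇ ℂ) (k : C(I, ℂ))
    (h : ∀ z : I, 0 < z.1.re → z.1.re < 2 → F (Real.log ((2 - z.1.re) / z.1.re)) = k z) :
    g F = k * g 1 := by
  ext z
  simp only [ContinuousMap.mul_apply, g_apply, BoundedContinuousFunction.coe_one, Pi.one_apply,
    one_mul]
  have hz := re_mem z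
  rcases hz.1.eq_or_lt with h0 | h0
  · rw [← h0]
    simp
  rcases hz.2.eq_or_lt with h2 | h2
  · rw [h2]
    simp
  rw [h z h0 h2]

theorem g_omM : g omM = X * g 1 := by
  refine g_of _ _ fun z h0 h2 => ?_
  rw [omM_apply, Real.exp_log (div_pos (by linarith) h0), X_apply]
  conv_rhs => rw [← re_coe z]
  congr 1
  field_simp
  ring

theorem g_omP : g omP = (2 - X) * g 1 := by
  refine g_of _ _ fun z h0 h2 => ?_
  rw [omP_apply, Real.exp_log (div_pos (by linarith) h0)]
  have e : (2 - X : C(I, ℂ)) z = ((2 - z.1.re : ℝ) : ℂ) := by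
    push_cast
    rw [re_coe]
    rfl
  rw [e]
  congr 1
  field_simp
  ring

theorem g_flp (F : ℝ →ᵇ ℂ) : star ((g F).comp fl) = g (flp F) := by
  ext z
  have e : (fl z).1.re = 2 - z.1.re := by simp [fl]
  rw [ContinuousMap.star_apply, ContinuousMap.comp_apply, g_apply, g_apply, e, flp_apply,
    sub_sub_cancel, ← Real.log_inv, inv_div, mul_comm (2 - z.1.re)]
  simp

theorem flp_one : flp 1 = 1 := by
  ext r
  simp [flp_apply]

theorem g_at_one (F : ℝ →ᵇ ℂ) : g F one = F 0 := by
  have e : (one : I).1.re = 1 := by simp [one]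
  rw [g_apply, e]
  norm_num

variable {H : Type} [NormedAddCommGroup H] [InnerProductSpace ℂ H] [CompleteSpace H]

theorem spec_sub {R : H →L[ℂ] H} {C : H →L⋆[ℂ] H} (h : RC R C) : spectrum ℂ R ⊆ I := by
  intro z hz
  have h1 := h.sa.mem_spectrum_eq_re hz
  have h2 : 0 ≤ z := spectrum_nonneg_of_nonneg h.pos hz
  have h3 : ‖R‖ ≤ 2 := by
    refine (CStarAlgebra.norm_le_norm_of_nonneg_of_le h.pos h.le).trans ?_
    refine ContinuousLinearMap.opNorm_le_bound _ (by norm_num) fun x => ?_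
    have e : (2 : H →L[ℂ] H) x = x + x := by
      rw [← one_add_one_eq_two]
      rfl
    rw [e, two_mul]
    exact norm_add_le _ _
  have h4 : ‖z‖ ≤ 2 := by
    rcases subsingleton_or_nontrivial (H →L[ℂ] H) with hs | hs
    · simp [spectrum.of_subsingleton] at hz
    · exact (spectrum.norm_le_norm_of_mem hz).trans h3
  exact ⟨z.re, ⟨(Complex.le_def.mp h2).1, (Complex.re_le_norm z).trans h4⟩, h1.symm⟩

theorem norm_sq (ψ : C(I, ℂ) →⋆ₐ[ℂ] (H →L[ℂ] H)) (u : C(I, ℂ)) (x : H) :
    ⟪x, ψ (star u * u) x⟫_ℂ = ((‖ψ u x‖ ^ 2 : ℝ) : ℂ) := by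
  rw [map_mul, map_star, ContinuousLinearMap.star_eq_adjoint]
  change ⟪x, (ContinuousLinearMap.adjoint (ψ u)) (ψ u x)⟫_ℂ = _
  rw [ContinuousLinearMap.adjoint_inner_right, inner_self_eq_norm_sq_to_K]
  simp

theorem norm_le (ψ : C(I, ℂ) →⋆ₐ[ℂ] (H →L[ℂ] H)) (u k : C(I, ℂ)) (c : ℝ) (hc : 0 ≤ c)
    (h : ∀ z, ‖u z‖ ≤ c * ‖k z‖) (x : H) : ‖ψ u x‖ ≤ c * ‖ψ k x‖ := by
  let w : C(I, ℂ) := ⟨fun z => (√((c * ‖k z‖) ^ 2 - ‖u z‖ ^ 2) : ℝ), by fun_prop⟩
  have e : star w * w + star u * u = ((c ^ 2 : ℝ) : ℂ) • (star k * k) := by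
    ext z
    have h1 : 0 ≤ (c * ‖k z‖) ^ 2 - ‖u z‖ ^ 2 :=
      sub_nonneg.mpr (pow_le_pow_left₀ (norm_nonneg _) (h z) 2)
    have hw : w z = ((√((c * ‖k z‖) ^ 2 - ‖u z‖ ^ 2) : ℝ) : ℂ) := rfl
    simp only [ContinuousMap.add_apply, ContinuousMap.mul_apply, ContinuousMap.star_apply,
      ContinuousMap.smul_apply, smul_eq_mul, RCLike.star_def, Complex.conj_mul', hw,
      Complex.norm_real, Real.norm_of_nonneg (Real.sqrt_nonneg _)]
    rw [← Complex.ofReal_pow, Real.sq_sqrt h1]
    push_cast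
    ring
  have e2 := congrArg (fun v => ⟪x, ψ v x⟫_ℂ) e
  simp only [map_add, map_smul, add_apply, smul_apply,
    inner_add_right, inner_smul_right, norm_sq] at e2
  have e3 : ‖ψ w x‖ ^ 2 + ‖ψ u x‖ ^ 2 = c ^ 2 * ‖ψ k x‖ ^ 2 := by exact_mod_cast e2
  refine (sq_le_sq₀ (norm_nonneg _) (by positivity)).mp ?_
  rw [mul_pow]
  linarith [sq_nonneg ‖ψ w x‖]

theorem dense {R : H →L[ℂ] H} {C : H →L⋆[ℂ] H} (h : RC R C) (S : H →L[ℂ] H)
    (h1 : star S = S) (h2 : S * S = R * (2 - R)) : DenseRange S := by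
  have hd : Dense ((LinearMap.range S.toLinearMap : Submodule ℂ H) : Set H) := by
    rw [Submodule.dense_iff_topologicalClosure_eq_top, Submodule.topologicalClosure_eq_top_iff,
      eq_bot_iff]
    intro y hy
    have h3 : ⟪S (S y), y⟫_ℂ = 0 := hy _ ⟨S y, rfl⟩
    have h4 : ⟪S y, S y⟫_ℂ = 0 := by
      have h7 := ContinuousLinearMap.adjoint_inner_left S y (S y)
      rw [← ContinuousLinearMap.star_eq_adjoint, h1] at h7
      rw [← h7, h3]
    have h5 : S y = 0 := inner_self_eq_zero.mp h4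
    have h6 : R ((2 - R) y) = 0 := by
      change (R * (2 - R)) y = 0
      rw [← h2]
      change S (S y) = 0
      rw [h5, map_zero]
    exact h.inj' _ (h.inj _ h6)
  exact hd

theorem eigen (ψ : C(I, ℂ) →⋆ₐ[ℂ] (H →L[ℂ] H)) (hc : Continuous ψ) (x : H) (hx : ψ X x = x)
    (u : C(I, ℂ)) : ψ u x = u one • x := by
  induction u using ContinuousMap.induction_on_of_compact with
  | const r =>
    have e : (ContinuousMap.const I r) = algebraMap ℂ C(I, ℂ) r := rfl
    rw [e, AlgHomClass.commutes]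
    rfl
  | id =>
    change ψ X x = (1 : ℂ) • x
    rw [hx, one_smul]
  | star_id =>
    change ψ (star X) x = star X one • x
    rw [star_X, hx]
    exact (one_smul ℂ x).symm
  | add u v hu hv => rw [map_add, add_apply, hu, hv, ← add_smul]; rfl
  | mul u v hu hv =>
    rw [map_mul]
    change ψ u (ψ v x) = (u one * v one) • x
    rw [hv, map_smul, hu, smul_smul, mul_comm]
  | frequently u hu =>
    have hcl : IsClosed {u : C(I, ℂ) | ψ u x = u one • x} :=
      isClosed_eq (by fun_prop) (by fun_prop)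
    exact hcl.mem_of_frequently_of_tendsto hu Filter.tendsto_id

theorem flip {R : H →L[ℂ] H} {C : H →L⋆[ℂ] H} (h : RC R C)
    (ψ : C(I, ℂ) →⋆ₐ[ℂ] (H →L[ℂ] H)) (hc : Continuous ψ) (hX : ψ X = R)
    (u : C(I, ℂ)) : ∀ x, C (ψ u x) = ψ (star (u.comp fl)) (C x) := by
  have hid : ∀ x, C (ψ X x) = ψ (star (X.comp fl)) (C x) := by
    intro x
    have e : X.comp fl = 2 - X := by
      ext z
      rfl
    have e2 : ∀ y : H, (2 : H →L[ℂ] H) y = y + y := fun y => by
      rw [← one_add_one_eq_two]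
      rfl
    rw [e, star_sub, star_X, star_ofNat, map_sub, map_ofNat, hX, sub_apply,
      h.comm, sub_apply, e2, e2, map_sub, map_add]
    abel
  induction u using ContinuousMap.induction_on_of_compact with
  | const r =>
    intro x
    have e : (ContinuousMap.const I r) = algebraMap ℂ C(I, ℂ) r := rfl
    have e' : star ((ContinuousMap.const I r).comp fl) = algebraMap ℂ C(I, ℂ) (conj r) := rfl
    rw [e', e, AlgHomClass.commutes, AlgHomClass.commutes]
    change C (r • x) = conj r • C x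
    exact C.map_smulₛₗ r x
  | id => exact hid
  | star_id =>
    change ∀ x, C (ψ (star X) x) = ψ (star ((star X).comp fl)) (C x)
    rw [star_X]
    exact hid
  | add u v hu hv =>
    intro x
    rw [map_add, add_apply, map_add, hu, hv, ContinuousMap.add_comp, star_add,
      map_add]
    rfl
  | mul u v hu hv =>
    intro x
    rw [map_mul, ContinuousMap.mul_comp, star_mul', map_mul]
    change C (ψ u (ψ v x)) = ψ (star (u.comp fl)) (ψ (star (v.comp fl)) (C x))
    rw [hu, hv]
  | frequently u hu =>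
    intro x
    have h1 : Continuous fun u : C(I, ℂ) => u.comp fl := ContinuousMap.continuous_precomp fl
    have hcl : IsClosed {u : C(I, ℂ) | C (ψ u x) = ψ (star (u.comp fl)) (C x)} :=
      isClosed_eq (by fun_prop) (by fun_prop)
    exact hcl.mem_of_frequently_of_tendsto (hu.mono fun v hv => hv x) Filter.tendsto_id

end PCalc

open PCalc in
theorem calcSt : CalcSt := by
  intro H _ _ _ R C h
  have hn : IsStarNormal R := h.sa.isStarNormal
  let ψ : C(I, ℂ) →⋆ₐ[ℂ] (H →L[ℂ] H) := cfcHomSuperset hn (spec_sub h)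
  have hc : Continuous ψ := cfcHomSuperset_continuous hn (spec_sub h)
  have hX : ψ X = R := cfcHomSuperset_id hn (spec_sub h)
  have h2X : ψ (2 - X) = 2 - R := by rw [map_sub, map_ofNat, hX]
  set T := ψ (g 1) with hT
  have hTs : star T = T := by rw [hT, ← map_star, ← g_star, star_one]
  have hTT : T * T = R * (2 - R) := by rw [hT, ← map_mul, g_one_sq, map_mul, hX, h2X]
  have hd : DenseRange T := dense h T hTs hTT
  have hb : ∀ F : ℝ →ᵇ ℂ, ∃ c : ℝ, ∀ x, ‖(ψ (g F)).toLinearMap x‖ ≤ c * ‖T.toLinearMap x‖ :=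
    fun F => ⟨‖F‖, norm_le ψ _ _ _ (norm_nonneg _) fun z => by
      rw [g_apply, g_apply, norm_mul, norm_mul]
      simp only [BoundedContinuousFunction.coe_one, Pi.one_apply, norm_one, one_mul]
      exact mul_le_mul_of_nonneg_right (F.norm_coe_le_norm _) (norm_nonneg _)⟩
  let P : (ℝ →ᵇ ℂ) → H →L[ℂ] H := fun F => (ψ (g F)).toLinearMap.extendOfNorm T.toLinearMap
  have hP : ∀ F x, P F (T x) = ψ (g F) x := fun F x => LinearMap.extendOfNorm_eq hd (hb F) x
  have hPT : ∀ F, P F * T = ψ (g F) := fun F => ContinuousLinearMap.ext (hP F)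
  have hext : ∀ A B : H →L[ℂ] H, A * T = B * T → A = B := fun A B e =>
    DFunLike.coe_injective (hd.equalizer A.continuous B.continuous
      (funext fun x => DFunLike.congr_fun e x))
  have hTP : ∀ F, T * P F = ψ (g F) := fun F => hext _ _ (by
    rw [mul_assoc, hPT, hT, ← map_mul, ← map_mul, mul_comm])
  have hadd : ∀ F F', P (F + F') = P F + P F' := fun F F' => hext _ _ (by
    rw [add_mul, hPT, hPT, hPT, g_add, map_add])
  have halg : ∀ c : ℂ, P (algebraMap ℂ (ℝ →ᵇ ℂ) c) = algebraMap ℂ (H →L[ℂ] H) c := fun c =>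
    hext _ _ (by rw [hPT, g_alg, map_smul, Algebra.smul_def])
  let Φ : (ℝ →ᵇ ℂ) →⋆ₐ[ℂ] (H →L[ℂ] H) :=
    { toFun := P
      map_one' := hext _ _ (by rw [hPT, one_mul])
      map_mul' := fun F F' => hext _ _ (hext _ _ (by
        rw [hPT, hT, ← map_mul, g_mul, map_mul, ← hT, ← hPT F, ← hPT F', mul_assoc (P F) T,
          ← mul_assoc T, hTP, ← hPT F']
        simp only [mul_assoc]))
      map_zero' := by simpa using halg 0
      map_add' := hadd
      commutes' := halg
      map_star' := fun F => hext _ _ (by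
        rw [hPT, g_star, map_star, ← hTP, star_mul, hTs]) }
  have hΦ : ∀ F, Φ F = P F := fun _ => rfl
  have hM : Φ omM = R := hext _ _ (by rw [hΦ, hPT, g_omM, map_mul, hX])
  have hQ : Φ omP = 2 - R := hext _ _ (by rw [hΦ, hPT, g_omP, map_mul, h2X])
  refine ⟨Φ, hM, hQ, dense h _ (by rw [← map_star, star_om]) ?_, fun x hx F => ?_, fun F => ?_⟩
  · rw [← map_mul, om_mul_om, map_mul, hM, hQ]
  · have he := eigen ψ hc x (by rw [hX, hx])
    have h1 : T x = x := by
      rw [hT, he, g_at_one]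
      simp
    rw [hΦ, ← h1, hP, he, g_at_one, h1]
  · have hf := flip h ψ hc hX
    refine fun x => congrFun (hd.equalizer (g := fun y => C (Φ F y))
      (h := fun y => Φ (flp F) (C y)) (by fun_prop) (by fun_prop) (funext fun y => ?_)) x
    change C (P F (T y)) = P (flp F) (C (T y))
    rw [hP, hf, g_flp, hT, hf, g_flp, flp_one, ← hT, hP]

end Pool.Agent.P.MP_7e3bdd_an.NI
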