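import Pool.Agent.P.MP_7e3bdd_an.NI.Spec

/-!
Strong continuity of the functional calculus on bounded jointly continuous families.
-/

set_option autoImplicit false

open scoped InnerProductSpace BigOperators BoundedContinuousFunction ComplexConjugate TensorProduct
  ComplexOrder
open MeasureTheory

noncomputable section

namespace Pool.Agent.P.MP_7e3bdd_an.NI

open RW

namespace PCont

theorem norm_om_le (r : ℝ) : ‖om r‖ ≤ 1 := by
  rw [om_apply, Complex.norm_real, Real.norm_eq_abs, abs_of_nonneg (by positivity),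
    div_le_one (one_add_exp_pos r)]
  exact two_exp_half_le r

theorem om_decay (r : ℝ) : ‖om r‖ * |r| ≤ 4 := by
  have h : Real.exp r = Real.exp (r / 2) ^ 2 := by rw [sq, ← Real.exp_add]; ring_nf
  have h1 := Real.add_one_le_exp (r / 2)
  have h2 := Real.add_one_le_exp (-(r / 2))
  have h3 := Real.exp_pos (r / 2)
  have h4 : Real.exp (r / 2) * Real.exp (-(r / 2)) = 1 := by rw [← Real.exp_add]; simp
  rw [om_apply, Complex.norm_real, Real.norm_eq_abs, abs_of_nonneg (by positivity), div_mul_eq_mul_div,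
    div_le_iff₀ (one_add_exp_pos r), h]
  rcases le_total 0 r with hr | hr
  · rw [abs_of_nonneg hr]
    nlinarith
  · rw [abs_of_nonpos hr]
    nlinarith [mul_le_mul_of_nonneg_left h2 h3.le]

theorem cont_om {G : ℝ → ℝ →ᵇ ℂ} (hG : Fam G) : Continuous fun t => G t * om := by
  obtain ⟨hc, C, hC⟩ := hG
  have C0 : 0 ≤ C := (norm_nonneg _).trans (hC 0 0)
  refine continuous_iff_continuousAt.2 fun t₀ => Metric.tendsto_nhds.2 fun ε hε => ?_
  have ev : ∀ᶠ t in nhds t₀, ∀ r ∈ Set.Icc (-(16 * (C + 1) / ε)) (16 * (C + 1) / ε),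
      dist (G t r) (G t₀ r) < ε / 2 := by
    refine isCompact_Icc.eventually_forall_of_forall_eventually fun r _ => ?_
    have k : Continuous fun p : ℝ × ℝ => dist (G p.1 p.2) (G t₀ p.2) :=
      hc.dist ((G t₀).continuous.comp continuous_snd)
    exact k.continuousAt.eventually_lt continuousAt_const (by simpa using hε)
  filter_upwards [ev] with t ht
  refine lt_of_le_of_lt ((BoundedContinuousFunction.dist_le (half_pos hε).le).2 fun r => ?_)
    (half_lt_self hε)
  rw [dist_eq_norm, BoundedContinuousFunction.mul_apply, BoundedContinuousFunction.mul_apply,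
    ← sub_mul, norm_mul]
  by_cases hr : r ∈ Set.Icc (-(16 * (C + 1) / ε)) (16 * (C + 1) / ε)
  · have := ht r hr
    rw [dist_eq_norm] at this
    nlinarith [norm_om_le r, norm_nonneg (om r), norm_nonneg (G t r - G t₀ r)]
  · have h1 : 16 * (C + 1) / ε < |r| := by
      by_contra h
      exact hr (abs_le.1 (not_lt.1 h))
    rw [div_lt_iff₀ hε] at h1
    have h2 : ‖G t r - G t₀ r‖ ≤ 2 * (C + 1) :=
      (norm_sub_le _ _).trans (by linarith [hC t r, hC t₀ r])
    have h3 : ‖om r‖ * (16 * (C + 1)) ≤ 4 * ε := by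
      calc ‖om r‖ * (16 * (C + 1)) ≤ ‖om r‖ * (|r| * ε) := by gcongr
        _ = ‖om r‖ * |r| * ε := by ring
        _ ≤ 4 * ε := by gcongr; exact om_decay r
    nlinarith [mul_le_mul_of_nonneg_right h2 (norm_nonneg (om r))]

end PCont

open PCont in
theorem contSt : ContSt := by
  intro G hG
  refine ⟨cont_om hG, fun H _ _ _ m x => ?_⟩
  obtain ⟨C, hC⟩ := hG.2
  have C0 : 0 ≤ C := (norm_nonneg _).trans (hC 0 0)
  have hΦ : Continuous m.Φ :=
    AddMonoidHomClass.continuous_of_bound m.Φ 1 fun F => by simpa using m.norm_Φ_le F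
  refine continuous_of_uniform_approx_of_continuous fun u hu => ?_
  obtain ⟨ε, hε, hu⟩ := Metric.mem_uniformity_dist.1 hu
  obtain ⟨y, hy⟩ := m.dense.exists_dist_lt x (show 0 < ε / (C + 1) by positivity)
  refine ⟨fun t => m.Φ (G t * om) y, (hΦ.comp (cont_om hG)).clm_apply continuous_const,
    fun t => hu ?_⟩
  beta_reduce
  rw [dist_eq_norm, ← m.Φ_Φ, ← map_sub]
  rw [dist_eq_norm, lt_div_iff₀ (by positivity)] at hy
  refine (m.norm_Φ_apply_le _ (hC t) _).trans_lt ?_
  nlinarith [norm_nonneg (x - m.Φ om y)]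

end Pool.Agent.P.MP_7e3bdd_an.NI
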