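import Pool.Agent.P.MP_7e3bdd_an.NI.Spec

/-!
A corner of the centraliser on which a positive operator is bounded below.
-/

set_option autoImplicit false

open scoped InnerProductSpace BigOperators BoundedContinuousFunction ComplexConjugate TensorProduct
  ComplexOrder
open MeasureTheory

noncomputable section

namespace Pool.Agent.P.MP_7e3bdd_an.NI

open RW

namespace PCorner

variable {H : Type} [NormedAddCommGroup H] [InnerProductSpace ℂ H] [CompleteSpace H]

theorem comm_proj (K : Submodule ℂ H) [K.HasOrthogonalProjection] (b : H →L[ℂ] H)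
    (h1 : ∀ x ∈ K, b x ∈ K) (h2 : ∀ x ∈ K, (star b) x ∈ K) :
    b * K.starProjection = K.starProjection * b := by
  ext x
  change b (K.starProjection x) = K.starProjection (b x)
  symm
  refine Submodule.eq_starProjection_of_mem_of_inner_eq_zero
    (h1 _ (K.starProjection_apply_mem x)) fun w hw => ?_
  rw [← map_sub, ← inner_star_right]
  exact Submodule.starProjection_inner_eq_zero x _ (h2 w hw)

theorem exists_proj (τ : H →L[ℂ] H) (hs : IsSelfAdjoint τ) (h0 : 0 ≤ τ) (hne : τ ≠ 0) :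
    ∃ (p : H →L[ℂ] H) (c : ℝ), 0 < c ∧ IsStarProjection p ∧ p ≠ 0 ∧
      (∀ b : H →L[ℂ] H, b * τ = τ * b → star b * τ = τ * star b → b * p = p * b) ∧
      ∀ x, p x = x → c * ‖x‖ ≤ ‖τ x‖ := by
  have hn : 0 < ‖τ‖ := norm_pos_iff.2 hne
  set c : ℝ := ‖τ‖ / 2 with hc
  set a : H →L[ℂ] H := τ - algebraMap ℝ (H →L[ℂ] H) c with ha
  have has : IsSelfAdjoint a := hs.sub (IsSelfAdjoint.algebraMap _ (IsSelfAdjoint.all c))
  let K : Submodule ℂ H := LinearMap.ker (a⁻ : H →L[ℂ] H).toLinearMap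
  have hK : ∀ x, x ∈ K ↔ (a⁻ : H →L[ℂ] H) x = 0 := fun x => Iff.rfl
  have : CompleteSpace K := (ContinuousLinearMap.isClosed_ker _).completeSpace_coe
  have hinv : ∀ b : H →L[ℂ] H, b * τ = τ * b → ∀ x ∈ K, b x ∈ K := by
    intro b hb x hx
    have h1 : Commute a b := by
      refine Commute.sub_left hb.symm ?_
      exact Algebra.commutes c b
    have h2 : Commute (a⁻) b := h1.cfcₙ_real _
    rw [hK] at hx ⊢
    have h3 := DFunLike.congr_fun h2.eq x
    change (a⁻ : H →L[ℂ] H) (b x) = b ((a⁻ : H →L[ℂ] H) x) at h3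
    rw [h3, hx, map_zero]
  refine ⟨K.starProjection, c, by positivity, isStarProjection_starProjection, fun hp => ?_,
    fun b h1 h2 => comm_proj K b (hinv b h1) (hinv _ h2), fun x hx => ?_⟩
  · have h1 : (a⁺ : H →L[ℂ] H) = 0 := by
      ext x
      have h2 : (a⁺ : H →L[ℂ] H) x ∈ K := by
        rw [hK]
        exact DFunLike.congr_fun (CFC.negPart_mul_posPart a) x
      rw [← Submodule.starProjection_eq_self_iff.2 h2, hp]
      rfl
    have h2 : a ≤ 0 := (CFC.posPart_eq_zero_iff a has).1 h1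
    have h3 : ‖τ‖ ≤ c := (CStarAlgebra.norm_le_iff_le_algebraMap τ (by positivity) h0).2
      (sub_nonpos.1 h2)
    linarith
  · have h1 : (a⁻ : H →L[ℂ] H) x = 0 := (hK x).1 (Submodule.starProjection_eq_self_iff.1 hx)
    have h2 : τ x = (a⁺ : H →L[ℂ] H) x + (c : ℂ) • x := by
      have h3 := DFunLike.congr_fun (CFC.posPart_sub_negPart a has) x
      rw [ContinuousLinearMap.sub_apply, h1, sub_zero] at h3
      rw [h3, ha, ContinuousLinearMap.sub_apply, Algebra.algebraMap_eq_smul_one]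
      simp
    have h3 : 0 ≤ RCLike.re ⟪x, (a⁺ : H →L[ℂ] H) x⟫_ℂ :=
      ((ContinuousLinearMap.nonneg_iff_isPositive _).1 (CFC.posPart_nonneg a)).re_inner_nonneg_right x
    have h4 : c * ‖x‖ * ‖x‖ ≤ ‖τ x‖ * ‖x‖ := by
      have h5 : RCLike.re ⟪x, τ x⟫_ℂ ≤ ‖x‖ * ‖τ x‖ := re_inner_le_norm _ _
      rw [h2, inner_add_right, inner_smul_right, map_add, ← h2, inner_self_eq_norm_sq_to_K] at h5
      have h6 : RCLike.re ((c : ℂ) * ((‖x‖ : ℂ)) ^ 2) = c * ‖x‖ ^ 2 := by
        rw [← Complex.ofReal_pow, ← Complex.ofReal_mul]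
        rfl
      erw [h6] at h5
      nlinarith
    rcases (norm_nonneg x).eq_or_lt with h5 | h5
    · rw [← h5, mul_zero]
      exact norm_nonneg _
    · exact le_of_mul_le_mul_right h4 h5

end PCorner

theorem cornerSt (h1 : FixSt) : CornerSt := by
  intro H _ _ _ m N ξ hT τ hτ hs h0 hne hU
  obtain ⟨p, c, hc, hp, hp0, hcomm, hlow⟩ := PCorner.exists_proj τ hs h0 hne
  have hpN : p ∈ N := mem_of_comm fun a ha =>
    hcomm a (comm_QN ha hτ) (comm_QN (star_mem ha) hτ)
  have hpU : ∀ t, m.U t * p = p * m.U t := fun t =>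
    hcomm _ (hU t) (by rw [m.star_U]; exact hU _)
  have heQ : m.bar p ∈ N.commutant := hT.barN p hpN
  have hes : star (m.bar p) = m.bar p := by rw [← m.bar_star, hp.isSelfAdjoint.star_eq]
  have heU : ∀ t, m.U t * m.bar p = m.bar p * m.U t := fun t => by
    rw [← m.bar_U t, ← m.bar_mul, ← m.bar_mul, hpU]
  have hfix : ∀ t, m.U t (m.bar p ξ) = m.bar p ξ := fun t => by
    have h2 : m.U t ξ = ξ := by
      rw [Mod.U, hT.Φξ]
      simp [ex_apply]
    have h3 := DFunLike.congr_fun (heU t) ξ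
    change m.U t (m.bar p ξ) = m.bar p (m.U t ξ) at h3
    rw [h3, h2]
  have hJ : m.J (m.bar p ξ) = m.bar p ξ := by
    have h2 := hT.S _ heQ
    rw [hes, h1 H m _ hfix, h1 H m _ fun t => by rw [← m.J_U, hfix]] at h2
    have h3 : om 0 = 1 := by rw [om_apply]; norm_num
    have h4 : omP 0 = 1 := by rw [omP_apply]; norm_num
    rwa [h3, h4, one_smul, one_smul] at h2
  have hpe : p ξ = m.bar p ξ := by
    rw [← hJ, m.bar_apply, m.JJ, hT.Jξ]
  refine ⟨m.bar p, c, hc, ⟨heQ, ⟨?_, hes⟩, fun h2 => hp0 ?_, heU, hJ⟩, fun y hy hye => hlow _ ?_⟩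
  · change m.bar p * m.bar p = m.bar p
    rw [← m.bar_mul, hp.isIdempotentElem.eq]
  · rw [← m.bar_bar p, eq_zero_of_cyc hT.cycN heQ h2, m.bar_zero]
  · have h2 := DFunLike.congr_fun (comm_QN hy hpN) ξ
    have h3 := DFunLike.congr_fun hye ξ
    change y (p ξ) = p (y ξ) at h2
    change y (m.bar p ξ) = y ξ at h3
    rw [← h2, hpe, h3]

end Pool.Agent.P.MP_7e3bdd_an.NI
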