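import Pool.Agent.P.MP_7e3bdd_an.NI.Spec

/-!
The cost of a symmetric walk grows at most linearly.
-/

set_option autoImplicit false

open scoped InnerProductSpace BigOperators BoundedContinuousFunction ComplexConjugate TensorProduct
  ComplexOrder
open MeasureTheory

noncomputable section

namespace Pool.Agent.P.MP_7e3bdd_an.NI

open RW

namespace PCost

variable {H : Type} [NormedAddCommGroup H] [InnerProductSpace ℂ H] [CompleteSpace H]

/-- The quadratic form of `1 - T`. -/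
def B (T : H →L[ℂ] H) (x y : H) : ℝ := (⟪x, y⟫_ℂ).re - (⟪x, T y⟫_ℂ).re

theorem re_symm (x y : H) : (⟪x, y⟫_ℂ).re = (⟪y, x⟫_ℂ).re := by
  rw [← inner_conj_symm, Complex.conj_re]

theorem re_self (x : H) : (⟪x, x⟫_ℂ).re = ‖x‖ ^ 2 := inner_self_eq_norm_sq (𝕜 := ℂ) x

theorem re_le (x y : H) : (⟪x, y⟫_ℂ).re ≤ ‖x‖ * ‖y‖ := re_inner_le_norm (𝕜 := ℂ) x y

theorem sa {T : H →L[ℂ] H} (h : IsSelfAdjoint T) (x y : H) : ⟪x, T y⟫_ℂ = ⟪T x, y⟫_ℂ := by
  rw [← inner_star_right, h.star_eq]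

theorem le_norm {T : H →L[ℂ] H} (h1 : ‖T‖ ≤ 1) (x : H) : ‖T x‖ ≤ ‖x‖ :=
  (T.le_opNorm x).trans (mul_le_of_le_one_left (norm_nonneg _) h1)

theorem B_nonneg {T : H →L[ℂ] H} (h1 : ‖T‖ ≤ 1) (x : H) : 0 ≤ B T x x := by
  have h2 := re_le x (T x)
  have h3 := mul_le_mul_of_nonneg_left (le_norm h1 x) (norm_nonneg x)
  unfold B
  rw [re_self]
  nlinarith

theorem B_le {T : H →L[ℂ] H} (h : IsSelfAdjoint T) (h1 : ‖T‖ ≤ 1) (x y : H) :
    2 * B T x y ≤ B T x x + B T y y := by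
  have h2 := B_nonneg h1 (x - y)
  have h3 : (⟪y, T x⟫_ℂ).re = (⟪x, T y⟫_ℂ).re := by rw [sa h y x, re_symm]
  have h4 := re_symm x y
  unfold B at *
  simp only [map_sub, inner_sub_left, inner_sub_right, Complex.sub_re] at h2
  linarith

theorem B_step {T : H →L[ℂ] H} (h : IsSelfAdjoint T) (h1 : ‖T‖ ≤ 1) (x : H) :
    B T (T x) (T x) ≤ B T x x := by
  have h2 := re_le (x - T x) (-T (x - T x))
  have h3 := mul_le_mul_of_nonneg_left (le_norm h1 (x - T x)) (norm_nonneg (x - T x))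
  have h4 := re_self (x - T x)
  have h5 := re_symm x (T x)
  have h6 : (⟪x, T (T x)⟫_ℂ).re = (⟪T x, T x⟫_ℂ).re := by rw [sa h x (T x)]
  rw [norm_neg] at h2
  have h7 : 0 ≤ (⟪x - T x, x - T x⟫_ℂ).re - (⟪x - T x, -T (x - T x)⟫_ℂ).re := by nlinarith
  unfold B
  simp only [map_sub, inner_sub_left, inner_sub_right, inner_neg_right, Complex.sub_re,
    Complex.neg_re] at h7
  linarith

theorem B_pow {T : H →L[ℂ] H} (h : IsSelfAdjoint T) (h1 : ‖T‖ ≤ 1) (x : H) (k : ℕ) :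
    B T ((T ^ k) x) ((T ^ k) x) ≤ B T x x := by
  induction k with
  | zero => simp
  | succ k ih =>
    rw [pow_succ', mul_apply_eq_comp]
    exact (B_step h h1 _).trans ih

end PCost

open PCost

theorem costSt : CostSt := by
  intro H _ _ _ T ξ h h1 k
  induction k with
  | zero =>
    rw [pow_zero, ContinuousLinearMap.one_apply, re_self, Nat.cast_zero, zero_mul, sub_self]
  | succ k ih =>
    have h2 := B_le h h1 ξ ((T ^ k) ξ)
    have h3 := B_pow h h1 ξ k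
    have h4 : B T ξ ξ = ‖ξ‖ ^ 2 - (⟪ξ, T ξ⟫_ℂ).re := by rw [B, re_self]
    have h5 : B T ξ ((T ^ k) ξ) = (⟪ξ, (T ^ k) ξ⟫_ℂ).re - (⟪ξ, (T ^ (k + 1)) ξ⟫_ℂ).re := by
      rw [B, pow_succ', mul_apply_eq_comp]
    rw [Nat.cast_succ, add_mul, one_mul]
    linarith

end Pool.Agent.P.MP_7e3bdd_an.NI
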