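import Pool.Agent.P.MP_7e3bdd_an.NI.Spec

/-!
Division by the bounded form of the modular operator.
-/

set_option autoImplicit false

open scoped InnerProductSpace BigOperators BoundedContinuousFunction ComplexConjugate TensorProduct
  ComplexOrder
open MeasureTheory

noncomputable section

namespace Pool.Agent.P.MP_7e3bdd_an.NI

open RW

namespace PDv

/-- The function `1 / (1 + e^(r/2))`. -/
def fA : ℝ →ᵇ ℂ :=
  mkR (fun r => 1 / (1 + Real.exp (r / 2)))
    (Continuous.div (by fun_prop) (by fun_prop) fun r => (one_add_exp_pos _).ne') 1 fun r => by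
      rw [abs_of_nonneg (by positivity), div_le_one (one_add_exp_pos _)]
      linarith [Real.exp_pos (r / 2)]

theorem fA_apply (r : ℝ) : fA r = ((1 / (1 + Real.exp (r / 2)) : ℝ) : ℂ) := rfl

theorem star_fA : star fA = fA := star_mkR _ _ _ _

theorem fB (r : ℝ) : (1 - fA) r = fA r * (Real.exp (r / 2) : ℂ) := by
  have h1 := (one_add_exp_pos (r / 2)).ne'
  rw [BoundedContinuousFunction.sub_apply, BoundedContinuousFunction.coe_one, Pi.one_apply,
    fA_apply, ← Complex.ofReal_mul, ← Complex.ofReal_one, ← Complex.ofReal_sub]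
  congr 1
  field_simp
  ring

theorem kap_sq : kap * kap = fA * (1 - fA) := by
  ext r
  have h1 := (one_add_exp_pos (r / 2)).ne'
  have h : Real.exp (r / 2) = Real.exp (r / 4) * Real.exp (r / 4) := by
    rw [← Real.exp_add]; ring_nf
  simp only [BoundedContinuousFunction.mul_apply, fB, kap_apply, fA_apply, ← Complex.ofReal_mul]
  congr 1
  field_simp
  rw [sq, ← h]

variable {H : Type} [NormedAddCommGroup H] [InnerProductSpace ℂ H] [CompleteSpace H]

theorem div (m : Mod H) {u v : H} (h : m.Φ om v = m.Φ omP u) (F G : ℝ →ᵇ ℂ)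
    (hG : ∀ r, G r = F r * (Real.exp (r / 2) : ℂ)) : m.Φ F v = m.Φ G u := by
  refine sub_eq_zero.1 (m.om_inj ?_)
  have e : om * G = F * omP := by
    ext r
    have h1 : Real.exp r = Real.exp (r / 2) * Real.exp (r / 2) := by rw [← Real.exp_add]; ring_nf
    have h2 : 2 * Real.exp r / (1 + Real.exp r) =
        2 * Real.exp (r / 2) / (1 + Real.exp r) * Real.exp (r / 2) := by
      rw [div_mul_eq_mul_div, mul_assoc, ← h1]
    simp only [BoundedContinuousFunction.mul_apply, hG, om_apply, omP_apply, h2, Complex.ofReal_mul]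
    ring
  rw [map_sub, m.Φ_Φ, m.Φ_Φ, mul_comm om F, ← m.Φ_Φ, h, m.Φ_Φ, e, sub_self]

end PDv

open PDv in
theorem dvSt : DvSt := by
  intro H _ _ _ m u v h
  refine ⟨div m h, fun u' v' h' => ?_⟩
  have s : ∀ x : H, m.Φ (1 - fA) x = x - m.Φ fA x := fun x => by rw [map_sub, map_one]; rfl
  have a1 : m.Φ fA (u + v) = u := by rw [map_add, div m h fA _ fB, s]; abel
  have a2 : m.Φ (1 - fA) (u' + v') = v' := by rw [map_add, ← div m h' fA _ fB, s]; abel
  have a3 := m.inner_Φ kap (u + v) (m.Φ kap (u' + v'))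
  rw [star_kap] at a3
  rw [← a3, m.Φ_Φ, kap_sq, ← m.Φ_Φ, m.inner_Φ, star_fA, a1, a2]

end Pool.Agent.P.MP_7e3bdd_an.NI
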