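import Pool.Agent.P.MP_7e3bdd_an.NI.Spec

/-! A positive definite extension of the product functional gives a contractive projection. -/

set_option autoImplicit false

open scoped InnerProductSpace BigOperators BoundedContinuousFunction ComplexConjugate TensorProduct
  ComplexOrder
open MeasureTheory

noncomputable section

namespace Pool.Agent.P.MP_7e3bdd_an.NI

open RW

namespace PExp

variable {H : Type} [NormedAddCommGroup H] [InnerProductSpace ℂ H] [CompleteSpace H]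

/-- The index set of the total family. -/
abbrev Ix (N : VonNeumannAlgebra H) : Type :=
  {p : (H →L[ℂ] H) × (H →L[ℂ] H) // p.1 ∈ N.commutant ∧ p.2 ∈ N}

/-- The total family. -/
def vec (N : VonNeumannAlgebra H) (η : H) (i : Ix N) : H := i.1.1 (i.1.2 η)

theorem proj_comm (W : Submodule ℂ H) [W.HasOrthogonalProjection] (a : H →L[ℂ] H)
    (h : ∀ w ∈ W, a w ∈ W) (h' : ∀ w ∈ W, star a w ∈ W) :
    a * W.starProjection = W.starProjection * a := by
  ext v
  refine (Submodule.eq_starProjection_of_mem_orthogonal (K := W)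
    (h _ (W.starProjection_apply_mem v)) ?_).symm
  rw [Submodule.mem_orthogonal]
  intro w hw
  change ⟪w, a v - a (W.starProjection v)⟫_ℂ = 0
  rw [← map_sub, ← inner_star_left]
  exact (Submodule.mem_orthogonal _ _).1 (W.sub_starProjection_mem_orthogonal v) _ (h' w hw)

theorem total {N : VonNeumannAlgebra H} {η : H} (hN : Fac N) (hη : η ≠ 0) (ζ : H)
    (h : ∀ i, ⟪vec N η i, ζ⟫_ℂ = 0) : ζ = 0 := by
  let W : Submodule ℂ H := (Submodule.span ℂ (Set.range (vec N η)))ᗮ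
  have hW : ∀ w, w ∈ W ↔ ∀ i, ⟪vec N η i, w⟫_ℂ = 0 := fun w => by
    refine ⟨fun e i => (Submodule.mem_orthogonal _ _).1 e _ (Submodule.subset_span ⟨i, rfl⟩),
      fun e => (Submodule.mem_orthogonal _ _).2 fun u hu => ?_⟩
    induction hu using Submodule.span_induction with
    | mem u hu => obtain ⟨i, rfl⟩ := hu; exact e i
    | zero => simp
    | add u u' _ _ a b => rw [inner_add_left, a, b, add_zero]
    | smul c u _ a => rw [inner_smul_left, a, mul_zero]
  have hQ : ∀ a ∈ N.commutant, ∀ w ∈ W, a w ∈ W := fun a ha w hw => (hW _).2 fun i => by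
    rw [← inner_star_left]
    exact (hW w).1 hw ⟨(star a * i.1.1, i.1.2), mul_mem (star_mem ha) i.2.1, i.2.2⟩
  have hM : ∀ a ∈ N, ∀ w ∈ W, a w ∈ W := fun a ha w hw => (hW _).2 fun i => by
    rw [← inner_star_left, vec, ← mul_apply_eq_comp,
      ← comm_QN i.2.1 (star_mem ha)]
    exact (hW w).1 hw ⟨(i.1.1, star a * i.1.2), i.2.1, mul_mem (star_mem ha) i.2.2⟩
  obtain ⟨c, hc⟩ := hN W.starProjection
    (mem_of_comm fun a ha => proj_comm W a (hQ a ha) (hQ _ (star_mem ha)))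
    fun a ha => (proj_comm W a (hM a ha) (hM _ (star_mem ha))).symm
  have h0 : W.starProjection η = 0 := by
    rw [Submodule.starProjection_apply_eq_zero_iff]
    exact Submodule.le_orthogonal_orthogonal _
      (Submodule.subset_span ⟨⟨(1, 1), one_mem _, one_mem _⟩, rfl⟩)
  have h1 : c = 0 := by
    rw [hc] at h0
    simpa [hη] using h0
  have h2 := Submodule.starProjection_eq_self_iff.2 ((hW ζ).2 h)
  rw [← h2, hc, h1]
  simp

theorem uniq {N : VonNeumannAlgebra H} {η : H} (hN : Fac N) (hη : η ≠ 0) {S S' : H →L[ℂ] H}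
    (h : ∀ i j, ⟪vec N η i, S (vec N η j)⟫_ℂ = ⟪vec N η i, S' (vec N η j)⟫_ℂ) : S = S' := by
  have h1 : ∀ j, (S - S') (vec N η j) = 0 := fun j => total hN hη _ fun i => by
    rw [sub_apply, inner_sub_right, h, sub_self]
  have h2 : star (S - S') = 0 := by
    ext ζ
    exact total hN hη _ fun j => by rw [inner_star_right, h1, inner_zero_left]
  exact sub_eq_zero.1 (star_eq_zero.1 h2)

theorem key {N : VonNeumannAlgebra H} {η : H} {ω : (H →L[ℂ] H) →ₗ[ℂ] (H →L[ℂ] H) →ₗ[ℂ] ℂ}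
    (hω : ∀ b ∈ N.commutant, ∀ c ∈ N, ω b c = ⟪η, b (c η)⟫_ℂ) (i j : Ix N) {T : H →L[ℂ] H}
    (hT : T ∈ N) : ω (star i.1.1 * j.1.1) (star i.1.2 * T * j.1.2) =
      ⟪vec N η i, T (vec N η j)⟫_ℂ := by
  have h1 : star i.1.1 * j.1.1 * (star i.1.2 * T * j.1.2) =
      star i.1.2 * (star i.1.1 * (T * (j.1.1 * j.1.2))) := by
    rw [← mul_assoc T, ← comm_QN j.2.1 hT, mul_assoc (star i.1.2), ← mul_assoc (_ * j.1.1),
      comm_QN (mul_mem (star_mem i.2.1) j.2.1) (star_mem i.2.2)]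
    simp only [mul_assoc]
  rw [hω _ (mul_mem (star_mem i.2.1) j.2.1) _ (mul_mem (mul_mem (star_mem i.2.2) hT) j.2.2),
    ← mul_apply_eq_comp, h1, mul_apply_eq_comp, inner_star_right,
    mul_apply_eq_comp, inner_star_right]
  rfl

theorem bv_eq {N : VonNeumannAlgebra H} (ω : (H →L[ℂ] H) →ₗ[ℂ] (H →L[ℂ] H) →ₗ[ℂ] ℂ)
    {A A' : Type} [Fintype A] [Fintype A'] (c : A → ℂ) (i : A → Ix N) (d : A' → ℂ) (j : A' → Ix N)
    (T : H →L[ℂ] H) :
    bv ω (fun a => c a • (i a).1.1) (fun a => (i a).1.2) T (fun b => d b • (j b).1.1)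
      (fun b => (j b).1.2) = ∑ a, ∑ b, conj (c a) * d b *
        ω (star (i a).1.1 * (j b).1.1) (star (i a).1.2 * T * (j b).1.2) := by
  refine Finset.sum_congr rfl fun a _ => Finset.sum_congr rfl fun b _ => ?_
  simp only [star_smul, smul_mul_smul_comm, map_smul, LinearMap.smul_apply, smul_eq_mul]
  rfl

theorem sqrt_bv {N : VonNeumannAlgebra H} {η : H} {ω : (H →L[ℂ] H) →ₗ[ℂ] (H →L[ℂ] H) →ₗ[ℂ] ℂ}
    (hω : ∀ b ∈ N.commutant, ∀ c ∈ N, ω b c = ⟪η, b (c η)⟫_ℂ) {A : Type} [Fintype A] (c : A → ℂ)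
    (i : A → Ix N) :
    √(bv ω (fun a => c a • (i a).1.1) (fun a => (i a).1.2) 1 (fun a => c a • (i a).1.1)
      (fun a => (i a).1.2)).re = ‖∑ a, c a • vec N η (i a)‖ := by
  rw [bv_eq, norm_eq_sqrt_re_inner (𝕜 := ℂ), sum_inner]
  congr 2
  refine Finset.sum_congr rfl fun a _ => ?_
  rw [inner_sum]
  refine Finset.sum_congr rfl fun b _ => ?_
  rw [key hω _ _ (one_mem N), inner_smul_left, inner_smul_right, mul_assoc]
  rfl

end PExp

open PExp in
theorem expSt (h1 : FormSt) (h2 : BiLemSt) : ExpSt := by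
  intro H _ _ _ N η hN hη ω hp hω
  have hE : ∀ T : H →L[ℂ] H, ∃ S : H →L[ℂ] H, ‖S‖ ≤ ‖T‖ ∧ ∀ i j : Ix N,
      ⟪vec N η i, S (vec N η j)⟫_ℂ = ω (star i.1.1 * j.1.1) (star i.1.2 * T * j.1.2) := fun T =>
    h1 H (Ix N) (vec N η) _ ‖T‖ (norm_nonneg _) (total hN hη) fun A A' _ _ c i d j => by
      rw [← bv_eq, ← sqrt_bv hω, ← sqrt_bv hω]
      exact (h2 H ω hp).2 _ _ _ _ _ _ _
  choose E hE1 hE2 using hE
  let E₀ : (H →L[ℂ] H) →ₗ[ℂ] (H →L[ℂ] H) :=
    { toFun := E
      map_add' := fun T T' => uniq hN hη fun i j => by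
        rw [add_apply, inner_add_right, hE2, hE2, hE2, mul_add, add_mul, map_add]
      map_smul' := fun c T => uniq hN hη fun i j => by
        rw [smul_apply, inner_smul_right, hE2, hE2, mul_smul_comm,
          smul_mul_assoc, map_smul]
        rfl }
  have hb : ∀ T, ‖E₀ T‖ ≤ 1 * ‖T‖ := fun T => by rw [one_mul]; exact hE1 T
  refine ⟨E₀.mkContinuous 1 hb, E₀.mkContinuous_norm_le zero_le_one hb, fun T => ?_,
    fun T hT => ?_⟩
  · refine mem_of_comm fun a ha => uniq hN hη fun i j => ?_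
    have e1 := hE2 T ⟨(star a * i.1.1, i.1.2), mul_mem (star_mem ha) i.2.1, i.2.2⟩ j
    have e2 := hE2 T i ⟨(a * j.1.1, j.1.2), mul_mem ha j.2.1, j.2.2⟩
    simp only [star_mul, star_star, mul_assoc] at e1 e2
    rw [mul_apply_eq_comp, ← inner_star_left]
    exact e1.trans e2.symm
  · exact uniq hN hη fun i j => (hE2 T i j).trans (key hω i j hT)

end Pool.Agent.P.MP_7e3bdd_an.NI
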