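import Pool.Agent.P.MP_7e3bdd_an.NI.Spec

/-!
A vector fixed by the modular group is an eigenvector of the functional calculus.
-/

set_option autoImplicit false

open scoped InnerProductSpace BigOperators BoundedContinuousFunction ComplexConjugate TensorProduct
  ComplexOrder
open MeasureTheory

noncomputable section

namespace Pool.Agent.P.MP_7e3bdd_an.NI

open RW

theorem fixSt (h1 : IntSt) (h2 : WinSt) : FixSt := by
  intro H _ _ _ m η hη F
  obtain ⟨hz, h0, hle, -, γ, hγ⟩ := h2
  rw [← sub_eq_zero]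
  refine norm_le_zero_iff.1 (le_of_forall_pos_le_add fun δ hδ => ?_)
  have hd : 0 < δ / (‖η‖ + 1) := by positivity
  obtain ⟨ε, hε, hF⟩ := Metric.continuous_iff.1 F.continuous 0 _ hd
  obtain ⟨g, G, hg, -, hFT, hG⟩ := hγ ε hε 0
  have hg1 : ∫ t, g t = 1 := by
    have h := hFT 0
    rw [hG] at h
    simpa [h0, ex_apply] using h.symm
  have hGη : m.Φ G η = η := by
    refine ext_inner_left ℂ fun ζ => ?_
    rw [h1 H m g G hg hFT]
    simp only [hη]
    rw [integral_mul_const, hg1, one_mul]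
  have he : m.Φ F η - F 0 • η = m.Φ ((F - F 0 • (1 : ℝ →ᵇ ℂ)) * G) η := by
    rw [← m.Φ_Φ, hGη, map_sub, map_smul, map_one]
    rfl
  rw [he, zero_add]
  refine (m.norm_Φ_apply_le _ (C := δ / (‖η‖ + 1)) (fun r => ?_) η).trans ?_
  · rw [BoundedContinuousFunction.mul_apply, hG, sub_zero, norm_mul]
    rcases lt_or_ge |r| ε with hr | hr
    · have h3 := hF r (by rwa [Real.dist_eq, sub_zero])
      rw [dist_eq_norm] at h3
      have h4 : ‖(F - F 0 • (1 : ℝ →ᵇ ℂ)) r‖ ≤ δ / (‖η‖ + 1) := by simpa using h3.le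
      have h5 : ‖(chi (r / ε) : ℂ)‖ ≤ 1 := by rw [Complex.norm_real]; exact hle _
      exact (mul_le_of_le_one_right (norm_nonneg _) h5).trans h4
    · rw [hz _ (by rwa [abs_div, abs_of_pos hε, le_div_iff₀ hε, one_mul])]
      simpa using hd.le
  · rw [div_mul_eq_mul_div, div_le_iff₀ (by positivity)]
    nlinarith [norm_nonneg η]

end Pool.Agent.P.MP_7e3bdd_an.NI
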