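import Pool.Agent.P.MP_7e3bdd_an.NI.Spec

/-! A bounded form on a total family comes from an operator. -/

set_option autoImplicit false

open scoped InnerProductSpace BigOperators BoundedContinuousFunction ComplexConjugate TensorProduct
  ComplexOrder
open MeasureTheory

noncomputable section

namespace Pool.Agent.P.MP_7e3bdd_an.NI

open RW

namespace PForm

variable {H : Type} [NormedAddCommGroup H] [InnerProductSpace ℂ H] [CompleteSpace H] {ι : Type}

theorem dense (x : ι → H) (h : ∀ η : H, (∀ i, ⟪x i, η⟫_ℂ = 0) → η = 0) :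
    DenseRange (Finsupp.linearCombination ℂ x) := by
  have h1 : (LinearMap.range (Finsupp.linearCombination ℂ x))ᗮ = ⊥ := by
    rw [Submodule.eq_bot_iff]
    intro η hη
    refine h η fun i => ?_
    exact Submodule.inner_right_of_mem_orthogonal
      (K := LinearMap.range (Finsupp.linearCombination ℂ x)) ⟨Finsupp.single i 1, by simp⟩ hη
  have h2 := Submodule.topologicalClosure_eq_top_iff.2 h1
  rw [← Submodule.dense_iff_topologicalClosure_eq_top] at h2
  exact h2

omit [CompleteSpace H] in
theorem lc (x : ι → H) (c : ι →₀ ℂ) :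
    Finsupp.linearCombination ℂ x c = ∑ a : c.support, c a • x a := by
  rw [Finsupp.linearCombination_apply, Finsupp.sum, Finset.sum_coe_sort c.support fun a => c a • x a]

end PForm

open PForm in
theorem formSt : FormSt := by
  intro H _ _ _ ι x k C hC htot hk
  have hd := dense x htot
  have key : ∀ d : ι →₀ ℂ, ∃ v : H, ‖v‖ ≤ C * ‖Finsupp.linearCombination ℂ x d‖ ∧
      ∀ i, ⟪x i, v⟫_ℂ = Finsupp.linearCombination ℂ (k i) d := by
    intro d
    let φ : (ι →₀ ℂ) →ₗ[ℂ] ℂ :=
      Finsupp.linearCombination ℂ fun i => conj (Finsupp.linearCombination ℂ (k i) d)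
    have hφ : ∀ c, ‖φ c‖ ≤
        C * ‖Finsupp.linearCombination ℂ x d‖ * ‖Finsupp.linearCombination ℂ x c‖ := by
      intro c
      have h1 := hk c.support d.support (fun a => c a) (fun a => a) (fun b => d b) (fun b => b)
      rw [← lc x c, ← lc x d] at h1
      have h2 : conj (φ c) = ∑ a : c.support, ∑ b : d.support, conj (c a) * d b * k a b := by
        rw [lc _ c, map_sum]
        refine Finset.sum_congr rfl fun a _ => ?_
        rw [smul_eq_mul, map_mul, Complex.conj_conj, lc (k a) d, Finset.mul_sum]
        refine Finset.sum_congr rfl fun b _ => ?_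
        rw [smul_eq_mul, mul_assoc]
      rw [← Complex.norm_conj, h2]
      exact h1.trans_eq (by ring)
    let ψ : H →L[ℂ] ℂ := φ.extendOfNorm (Finsupp.linearCombination ℂ x)
    refine ⟨(InnerProductSpace.toDual ℂ H).symm ψ, ?_, fun i => ?_⟩
    · rw [LinearIsometryEquiv.norm_map]
      exact LinearMap.opNorm_extendOfNorm_le hd (by positivity) hφ
    · have h3 : ψ (x i) = φ (Finsupp.single i 1) := by
        have := LinearMap.extendOfNorm_eq (f := φ) hd ⟨_, hφ⟩ (Finsupp.single i 1)
        rwa [Finsupp.linearCombination_single, one_smul] at this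
      rw [← inner_conj_symm, InnerProductSpace.toDual_symm_apply, h3]
      simp [φ]
  choose v hv1 hv2 using key
  let f : (ι →₀ ℂ) →ₗ[ℂ] H := Finsupp.linearCombination ℂ fun j => v (Finsupp.single j 1)
  have hf : ∀ d, f d = v d := by
    intro d
    rw [← sub_eq_zero]
    refine htot _ fun i => ?_
    rw [inner_sub_right, hv2, lc _ d, lc (k i) d, inner_sum, sub_eq_zero]
    refine Finset.sum_congr rfl fun b _ => ?_
    rw [inner_smul_right, hv2, Finsupp.linearCombination_single, one_smul, smul_eq_mul]
  have hb : ∀ d, ‖f d‖ ≤ C * ‖Finsupp.linearCombination ℂ x d‖ := fun d => hf d ▸ hv1 d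
  refine ⟨f.extendOfNorm (Finsupp.linearCombination ℂ x),
    LinearMap.opNorm_extendOfNorm_le hd hC hb, fun i j => ?_⟩
  have := LinearMap.extendOfNorm_eq (f := f) hd ⟨_, hb⟩ (Finsupp.single j 1)
  rw [Finsupp.linearCombination_single, one_smul] at this
  rw [this, hf, hv2, Finsupp.linearCombination_single, one_smul]

end Pool.Agent.P.MP_7e3bdd_an.NI
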