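import Pool.Agent.P.MP_7e3bdd_an.NI.Spec

/-!
An average which is not small dominates a vector which overlaps the cyclic vector.
-/

set_option autoImplicit false

open scoped InnerProductSpace BigOperators BoundedContinuousFunction ComplexConjugate TensorProduct
  ComplexOrder
open MeasureTheory

noncomputable section

namespace Pool.Agent.P.MP_7e3bdd_an.NI

open RW

namespace PGood

variable {H : Type} [NormedAddCommGroup H] [InnerProductSpace ℂ H] [CompleteSpace H]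

theorem norm_un {u : H →L[ℂ] H} (hu : u ∈ unitary (H →L[ℂ] H)) (x : H) : ‖u x‖ = ‖x‖ :=
  ContinuousLinearMap.norm_map_of_mem_unitary hu x

theorem norm_wsum {E : Type} [NormedAddCommGroup E] [NormedSpace ℂ E] {F : Type} [Fintype F]
    {w : F → ℝ} (hw : Prob w) (v : F → E) (B : ℝ) (h : ∀ a, ‖v a‖ ≤ B) :
    ‖∑ a, (w a : ℂ) • v a‖ ≤ B := by
  calc ‖∑ a, (w a : ℂ) • v a‖ ≤ ∑ a, ‖(w a : ℂ) • v a‖ := norm_sum_le _ _
    _ ≤ ∑ a, w a * B := Finset.sum_le_sum fun a _ => by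
        rw [norm_smul, Complex.norm_real, Real.norm_of_nonneg (hw.1 a)]
        exact mul_le_mul_of_nonneg_left (h a) (hw.1 a)
    _ = B := by rw [← Finset.sum_mul, hw.2, one_mul]

theorem diff_le (m : Mod H) {N : VonNeumannAlgebra H} {ξ : H} (hT : IsTT m N ξ) (η : H)
    {n g : H →L[ℂ] H} {C : ℝ} (hn : n ∈ N) (hC : ‖n‖ ≤ C) (hg : UQ N g) :
    ‖n (star (m.bar g) ξ) - g η‖ ≤ C * m.del ξ g + ‖η - n ξ‖ := by
  have hb := m.bar_unitary hg.1
  have h1 : ‖star (m.bar g) ξ - g ξ‖ = m.del ξ g := by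
    rw [← norm_un hb, map_sub, Mod.del, norm_sub_rev]
    have e1 : m.bar g (star (m.bar g) ξ) = ξ := by
      have := congrArg (fun T : H →L[ℂ] H => T ξ) (Unitary.mul_star_self_of_mem hb)
      exact this
    have e2 : m.bar g (g ξ) = g (m.bar g ξ) := by
      have := congrArg (fun T : H →L[ℂ] H => T ξ) (comm_QN hg.2 (hT.barQ g hg.2))
      exact this.symm
    rw [e1, e2]
  have e3 : g (n ξ) = n (g ξ) := by
    have := congrArg (fun T : H →L[ℂ] H => T ξ) (comm_QN hg.2 hn)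
    exact this
  have e4 : n (star (m.bar g) ξ) - g η = n (star (m.bar g) ξ - g ξ) - g (η - n ξ) := by
    rw [map_sub, map_sub, e3]
    abel
  rw [e4]
  refine (norm_sub_le _ _).trans (add_le_add ?_ (norm_un hg.1 _).le)
  refine (n.le_opNorm _).trans ?_
  rw [h1]
  exact mul_le_mul_of_nonneg_right hC (norm_nonneg _)

end PGood

open PGood in
theorem goodSt (h1 : ModSt) : GoodSt := by
  intro H _ _ _ m N ξ hT η X n C ρ hη hX hn hC hρ F _ w g hw hg hY hs
  obtain ⟨W, hW, hWc, hWi⟩ := h1 H N η X hX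
  have hX1 : ‖X‖ = 1 := by
    have h := hX 1 (one_mem _)
    rw [tm_one] at h
    exact h.trans hη
  set Y : HH H := ∑ a, (w a : ℂ) • m.pi (g a) X with hYdef
  have hY1 : ‖Y‖ ≤ 1 :=
    norm_wsum hw _ 1 fun a => by rw [m.norm_pi_unitary (hg a).1, hX1]
  have hb : ∀ a, m.bar (g a) ∈ unitary (H →L[ℂ] H) := fun a => m.bar_unitary (hg a).1
  have hWle : ∀ Z, ‖W Z‖ ≤ ‖Z‖ := fun Z =>
    (W.le_opNorm Z).trans (mul_le_of_le_one_left (norm_nonneg _) hW)
  have hZ : ∀ a (Z : HH H), ‖tm 1 (star (m.bar (g a))) Z‖ = ‖Z‖ := fun a Z =>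
    norm_tm_unitary (one_mem _) (Unitary.star_mem (hb a)) Z
  refine ⟨hY1, ∑ a, (w a : ℂ) • m.bar (g a) (star n (W (tm 1 (star (m.bar (g a))) Y))), ?_, ?_⟩
  · have key : ∀ a, (⟪m.pi (g a) X, Y⟫_ℂ).re - (C * m.del ξ (g a) + ‖η - n ξ‖) ≤
        (⟪ξ, m.bar (g a) (star n (W (tm 1 (star (m.bar (g a))) Y)))⟫_ℂ).re := by
      intro a
      have e1 : ⟪m.pi (g a) X, Y⟫_ℂ = ⟪g a η, W (tm 1 (star (m.bar (g a))) Y)⟫_ℂ := by
        rw [hWi _ (hg a).2, inner_tm, star_star, star_one, tm_tm, one_mul, mul_one]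
        rfl
      have e2 : ⟪ξ, m.bar (g a) (star n (W (tm 1 (star (m.bar (g a))) Y)))⟫_ℂ =
          ⟪n (star (m.bar (g a)) ξ), W (tm 1 (star (m.bar (g a))) Y)⟫_ℂ := by
        rw [← inner_star_left, inner_star_right]
      have e3 : ‖⟪n (star (m.bar (g a)) ξ) - g a η, W (tm 1 (star (m.bar (g a))) Y)⟫_ℂ‖ ≤
          C * m.del ξ (g a) + ‖η - n ξ‖ := by
        refine (norm_inner_le_norm _ _).trans ?_
        have h2 : ‖W (tm 1 (star (m.bar (g a))) Y)‖ ≤ 1 := (hWle _).trans ((hZ a Y).trans_le hY1)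
        exact (mul_le_of_le_one_right (norm_nonneg _) h2).trans (diff_le m hT η hn hC (hg a))
      rw [inner_sub_left] at e3
      have e4 := (Complex.abs_re_le_norm _).trans e3
      rw [Complex.sub_re, abs_le] at e4
      rw [e1, e2]
      linarith [e4.1]
    have e5 : ∑ a, w a * (⟪m.pi (g a) X, Y⟫_ℂ).re = ‖Y‖ ^ 2 := by
      have : ⟪Y, Y⟫_ℂ = ∑ a, (w a : ℂ) * ⟪m.pi (g a) X, Y⟫_ℂ := by
        refine (congrArg (fun Z => ⟪Z, Y⟫_ℂ) hYdef).trans ?_
        rw [sum_inner]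
        refine Finset.sum_congr rfl fun a _ => ?_
        have h4 := inner_smul_left (𝕜 := ℂ) (m.pi (g a) X) Y (w a : ℂ)
        rw [Complex.conj_ofReal] at h4
        exact h4
      have h3 := congrArg Complex.re this
      rw [Complex.re_sum] at h3
      simp only [Complex.re_ofReal_mul] at h3
      rw [← h3]
      exact inner_self_eq_norm_sq (𝕜 := ℂ) Y
    rw [inner_sum, Complex.re_sum]
    simp only [inner_smul_right, Complex.re_ofReal_mul]
    have e6 : ∑ a, w a * ((⟪m.pi (g a) X, Y⟫_ℂ).re - (C * m.del ξ (g a) + ‖η - n ξ‖)) =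
        ‖Y‖ ^ 2 - (C * ∑ a, w a * m.del ξ (g a) + ‖η - n ξ‖) := by
      simp only [mul_sub, mul_add, Finset.sum_sub_distrib, Finset.sum_add_distrib]
      rw [e5, ← Finset.sum_mul, hw.2, one_mul, Finset.mul_sum]
      congr 2
      exact Finset.sum_congr rfl fun a _ => by ring
    have e7 := Finset.sum_le_sum fun a (_ : a ∈ Finset.univ) =>
      mul_le_mul_of_nonneg_left (key a) (hw.1 a)
    rw [e6] at e7
    have e8 : ρ ^ 2 ≤ ‖Y‖ ^ 2 := pow_le_pow_left₀ hρ.le hY 2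
    linarith
  · intro y hy
    rw [map_sum]
    simp only [map_smul]
    refine norm_wsum hw _ _ fun a => ?_
    have e1 : y (m.bar (g a) (star n (W (tm 1 (star (m.bar (g a))) Y)))) =
        m.bar (g a) (star n (W (tm 1 (star (m.bar (g a))) (tm y 1 Y)))) := by
      have c1 := congrArg (fun T : H →L[ℂ] H => T (star n (W (tm 1 (star (m.bar (g a))) Y))))
        (comm_QN hy (hT.barQ _ (hg a).2))
      have c2 := congrArg (fun T : H →L[ℂ] H => T (W (tm 1 (star (m.bar (g a))) Y)))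
        (comm_QN hy (star_mem hn))
      simp only [mul_apply_eq_comp] at c1 c2
      rw [c1, c2, ← hWc y hy, tm_tm, tm_tm, mul_one, one_mul, mul_one, one_mul]
    rw [e1, norm_un (hb a)]
    refine ((star n).le_opNorm _).trans ?_
    rw [norm_star]
    exact mul_le_mul hC ((hWle _).trans (hZ a _).le) (norm_nonneg _) ((norm_nonneg _).trans hC)

end Pool.Agent.P.MP_7e3bdd_an.NI
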