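import Pool.Agent.P.MP_7e3bdd_an.NI.Spec
import Pool.Agent.P.MP_7e3bdd_an.RW.HS

/-!
The projection on the closure of a graph gives a nonzero positive element of the centraliser.
-/

set_option autoImplicit false

open scoped InnerProductSpace BigOperators BoundedContinuousFunction ComplexConjugate TensorProduct
  ComplexOrder
open MeasureTheory

noncomputable section

namespace Pool.Agent.P.MP_7e3bdd_an.NI

open RW

namespace PGraph

variable {H : Type} [NormedAddCommGroup H] [InnerProductSpace ℂ H]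

/-- The inclusion of one coordinate. -/
def V (i : ℕ) : H →L[ℂ] HS ℕ H := lp.singleContinuousLinearMap ℂ (fun _ : ℕ => H) 2 i

/-- The projection on one coordinate. -/
def W (i : ℕ) : HS ℕ H →L[ℂ] H := lp.evalCLM ℂ (fun _ : ℕ => H) 2 i

theorem V_apply (i j : ℕ) (x : H) : V i x j = (Pi.single i x : ℕ → H) j := by
  simp [V, lp.single_apply]

theorem norm_V (i : ℕ) (x : H) : ‖V i x‖ = ‖x‖ := by
  simp only [V, lp.singleContinuousLinearMap_apply]
  exact lp.norm_single (E := fun _ : ℕ => H) (p := 2) (by norm_num) i x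

theorem inner_V (i : ℕ) (x : H) (w : HS ℕ H) : ⟪V i x, w⟫_ℂ = ⟪x, w i⟫_ℂ := by
  simp only [V, lp.singleContinuousLinearMap_apply]
  exact lp.inner_single_left (𝕜 := ℂ) (G := fun _ : ℕ => H) i x w

theorem lam_V (T : H →L[ℂ] H) (i : ℕ) (x : H) : lam T (V i x) = V i (T x) := by
  ext j
  rw [lam_apply, V_apply, V_apply]
  by_cases h : j = i
  · subst h; simp
  · simp [h]

variable [CompleteSpace H]

/-- The orbit of a vector. -/
def orb (Q : VonNeumannAlgebra H) (z : HS ℕ H) : Submodule ℂ (HS ℕ H) where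
  carrier := {w | ∃ b ∈ Q, lam b z = w}
  add_mem' := by
    rintro _ _ ⟨a, ha, rfl⟩ ⟨b, hb, rfl⟩
    exact ⟨a + b, add_mem ha hb, lam_add a b z⟩
  zero_mem' := ⟨0, zero_mem _, by ext i; simp⟩
  smul_mem' := by
    rintro c _ ⟨a, ha, rfl⟩
    exact ⟨c • a, Q.toStarSubalgebra.smul_mem ha c, lam_smul c a z⟩

theorem inv_clo {Q : VonNeumannAlgebra H} {z : HS ℕ H} {a : H →L[ℂ] H}
    (h : ∀ b ∈ Q, ∃ b' ∈ Q, lam b' z = lam a (lam b z)) {w : HS ℕ H}
    (hw : w ∈ (orb Q z).topologicalClosure) : lam a w ∈ (orb Q z).topologicalClosure := by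
  refine map_mem_closure (lam a).continuous hw ?_
  rintro _ ⟨b, hb, rfl⟩
  exact h b hb

theorem proj_comm (G : Submodule ℂ (HS ℕ H)) [G.HasOrthogonalProjection] [Gᗮ.HasOrthogonalProjection]
    {a : H →L[ℂ] H} (h : ∀ w ∈ G, lam a w ∈ G) (h' : ∀ w ∈ G, lam (star a) w ∈ G) (x : HS ℕ H) :
    Gᗮ.starProjection (lam a x) = lam a (Gᗮ.starProjection x) := by
  rw [Submodule.starProjection_orthogonal_val, Submodule.starProjection_orthogonal_val, map_sub]
  congr 1
  refine Submodule.eq_starProjection_of_mem_of_inner_eq_zero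
    (h _ (G.starProjection_apply_mem x)) fun w hw => ?_
  rw [← map_sub, ← inner_lam_star]
  exact G.starProjection_inner_eq_zero x _ (h' w hw)

end PGraph

open PGraph in
theorem graphSt (h1 : FixSt) : GraphSt := by
  intro H _ _ _ m N ξ T ζ hζ hne
  let z : HS ℕ H := V 0 ξ + V 1 ζ
  have hz : ∀ b : H →L[ℂ] H, lam b z = V 0 (b ξ) + V 1 (b ζ) := fun b => by
    simp only [z, map_add, lam_V]
  let G := (orb N.commutant z).topologicalClosure
  let P := Gᗮ.starProjection
  let τ : H →L[ℂ] H := (W 0).comp (P.comp (V 0))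
  have hτ : ∀ x, τ x = P (V 0 x) 0 := fun x => rfl
  have hPP : ∀ w, P (P w) = P w := fun w =>
    Submodule.starProjection_eq_self_iff.2 (Gᗮ.starProjection_apply_mem w)
  have hin : ∀ x y, ⟪x, τ y⟫_ℂ = ⟪P (V 0 x), P (V 0 y)⟫_ℂ := fun x y => by
    rw [hτ, ← inner_V, Submodule.inner_starProjection_left_eq_right, hPP]
  have hin' : ∀ x y, ⟪τ x, y⟫_ℂ = ⟪P (V 0 x), P (V 0 y)⟫_ℂ := fun x y => by
    rw [← inner_conj_symm, hin, inner_conj_symm]
  have hsa : IsSelfAdjoint τ := by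
    rw [ContinuousLinearMap.isSelfAdjoint_iff_isSymmetric]
    intro x y
    exact (hin' x y).trans (hin x y).symm
  have hcomm : ∀ a : H →L[ℂ] H, (∀ b ∈ N.commutant, ∃ b' ∈ N.commutant, lam b' z = lam a (lam b z)) →
      (∀ b ∈ N.commutant, ∃ b' ∈ N.commutant, lam b' z = lam (star a) (lam b z)) →
      a * τ = τ * a := fun a ha ha' => by
    ext x
    have h := proj_comm G (fun w hw => inv_clo ha hw) (fun w hw => inv_clo ha' hw) (V 0 x)
    rw [lam_V] at h
    change a (P (V 0 x) 0) = P (V 0 (a x)) 0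
    exact (congrArg (fun w : HS ℕ H => w 0) h).symm
  have hU : ∀ t, ∀ b ∈ N.commutant, ∃ b' ∈ N.commutant, lam b' z = lam (m.U t) (lam b z) := by
    intro t b hb
    refine ⟨m.sig t b, T.sigQ t b hb, ?_⟩
    have h0 : m.U (-t) ξ = ξ := by
      rw [Mod.U, T.Φξ]
      simp [ex_apply]
    rw [Mod.sig, lam_mul, lam_mul, hz (m.U (-t)), h0, hζ]
  refine ⟨τ, mem_of_comm fun a ha => hcomm a (fun b hb => ⟨a * b, mul_mem ha hb, lam_mul _ _ _⟩)
    (fun b hb => ⟨star a * b, mul_mem (star_mem ha) hb, lam_mul _ _ _⟩), hsa, ?_, ?_,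
    fun t => hcomm _ (hU t) (by rw [m.star_U]; exact hU (-t)), fun y hy => ?_⟩
  · rw [ContinuousLinearMap.nonneg_iff_isPositive, ContinuousLinearMap.isPositive_iff']
    refine ⟨hsa, fun x => ?_⟩
    rw [hin', inner_self_eq_norm_sq_to_K]
    exact pow_nonneg (Complex.zero_le_real.2 (norm_nonneg (P (V 0 x)))) 2
  · intro h0
    have h2 : P (V 0 ξ) = 0 := by
      have := hin ξ ξ
      rw [h0] at this
      simpa using this.symm
    have hw : V 0 (m.J ζ) - V 1 ξ ∈ Gᗮ := by
      rw [Submodule.orthogonal_closure]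
      rintro _ ⟨b, hb, rfl⟩
      have h3 := congrArg (fun v => ⟪ζ, v⟫_ℂ) (T.S (star b) (star_mem hb))
      simp only [star_star] at h3
      rw [m.inner_Φ, m.inner_Φ, h1 H m ζ hζ, h1 H m ζ hζ, star_om, star_omP, om_apply, omP_apply]
        at h3
      norm_num at h3
      rw [m.inner_J_right, inner_star_right] at h3
      rw [hz, inner_add_left, inner_V, inner_V]
      change ⟪b ξ, V 0 (m.J ζ) 0 - V 1 ξ 0⟫_ℂ + ⟪b ζ, V 0 (m.J ζ) 1 - V 1 ξ 1⟫_ℂ = 0
      simp [V_apply, h3]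
    have h4 : ⟪V 0 ξ, V 0 (m.J ζ) - V 1 ξ⟫_ℂ = 0 := by
      rw [← Submodule.starProjection_eq_self_iff.2 hw,
        ← Submodule.inner_starProjection_left_eq_right]
      change ⟪P (V 0 ξ), _⟫_ℂ = 0
      rw [h2, inner_zero_left]
    rw [inner_V] at h4
    change ⟪ξ, V 0 (m.J ζ) 0 - V 1 ξ 0⟫_ℂ = 0 at h4
    simp only [V_apply, Pi.single_eq_same, ne_eq, zero_ne_one, not_false_eq_true,
      Pi.single_eq_of_ne, sub_zero] at h4
    rw [m.inner_J_right, T.Jξ, inner_eq_zero_symm] at h4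
    exact hne h4
  · have h2 : P (lam y z) = 0 :=
      Submodule.starProjection_orthogonal_apply_eq_zero
        (Submodule.le_topologicalClosure _ ⟨y, hy, rfl⟩)
    rw [hz, map_add, add_eq_zero_iff_eq_neg] at h2
    rw [hτ]
    refine (lp.norm_apply_le_norm (by norm_num) _ 0).trans ?_
    rw [h2, norm_neg, ← norm_V 1 (y ζ)]
    exact Submodule.norm_starProjection_apply_le _ _

end Pool.Agent.P.MP_7e3bdd_an.NI
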