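import Pool.Agent.P.MP_7e3bdd_an.NI.Spec

/-! The functional calculus of a Fourier transform. -/

set_option autoImplicit false

open scoped InnerProductSpace BigOperators BoundedContinuousFunction ComplexConjugate TensorProduct
  ComplexOrder
open MeasureTheory

noncomputable section

namespace Pool.Agent.P.MP_7e3bdd_an.NI

open RW

namespace PInt

/-- A kernel of integral minus one. -/
def hk : ℝ → ℂ := (Set.Ioc (0 : ℝ) 1).indicator fun _ => -1

theorem hk_int : Integrable hk :=
  (integrableOn_const (by simp)).integrable_indicator measurableSet_Ioc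

theorem hk_mul (c : ℂ) : ∫ t, hk t * c = -c := by
  rw [integral_mul_const, hk, integral_indicator measurableSet_Ioc]
  simp

theorem fam_ex : Fam ex := by
  refine ⟨?_, 1, fun t r => (norm_ex t r).le⟩
  simp only [ex_apply]
  fun_prop

theorem fam_const (F : ℝ →ᵇ ℂ) : Fam fun _ => F :=
  ⟨F.continuous.comp continuous_snd, ‖F‖, fun _ r => F.norm_coe_le_norm r⟩

end PInt

open PInt in
theorem intSt (h1 : SVSt) : IntSt := by
  intro H _ _ _ m g F hg hF η ζ
  have h := h1 H m Bool (fun b => cond b g hk) (fun b => cond b ex fun _ => F)
    (fun b => by cases b; exacts [hk_int, hg]) (fun b => by cases b; exacts [fam_const F, fam_ex])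
    (fun s => by
      rw [Fintype.sum_bool]
      simp only [cond_true, cond_false]
      rw [hk_mul, hF s, add_neg_cancel]) η ζ
  rw [Fintype.sum_bool] at h
  simp only [cond_true, cond_false] at h
  rw [hk_mul, add_neg_eq_zero] at h
  exact h.symm

end Pool.Agent.P.MP_7e3bdd_an.NI
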