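import Pool.Agent.P.MP_7e3bdd_an.NI.Spec

/-!
The inversion of the operator identity.
-/

set_option autoImplicit false

open scoped InnerProductSpace BigOperators BoundedContinuousFunction ComplexConjugate TensorProduct
  ComplexOrder
open MeasureTheory

noncomputable section

namespace Pool.Agent.P.MP_7e3bdd_an.NI

open RW

namespace PInv

theorem fam {e : ℝ → ℝ} (he : Continuous e) (A : ℝ →ᵇ ℂ) : Fam fun t => ex (e t) * A := by
  refine ⟨?_, ‖A‖, fun t r => ?_⟩
  · simp only [BoundedContinuousFunction.mul_apply, ex_apply]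
    fun_prop
  · rw [BoundedContinuousFunction.mul_apply, norm_mul, norm_ex, one_mul]
    exact A.norm_coe_le_norm r

theorem fam_const (A : ℝ →ᵇ ℂ) : Fam fun _ => A :=
  ⟨by fun_prop, ‖A‖, fun _ r => A.norm_coe_le_norm r⟩

theorem omP_eq (r : ℝ) : omP r = om r * Complex.exp (r / 2) := by
  have h : Real.exp r = Real.exp (r / 2) * Real.exp (r / 2) := by rw [← Real.exp_add]; ring_nf
  have e : Complex.exp (r / 2) = (Real.exp (r / 2) : ℝ) := by simp
  rw [omP_apply, om_apply, e, ← Complex.ofReal_mul]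
  congr 1
  rw [div_mul_eq_mul_div, mul_assoc, ← h]

theorem omM_eq (r : ℝ) : omM r = om r * Complex.exp (-(r / 2)) := by
  have e : Complex.exp (-(r / 2)) = (Real.exp (-(r / 2)) : ℝ) := by simp
  rw [omM_apply, om_apply, e, ← Complex.ofReal_mul]
  congr 1
  rw [div_mul_eq_mul_div, mul_assoc, ← Real.exp_add, add_neg_cancel, Real.exp_zero, mul_one]

theorem cosh_ne (a b : ℝ) (hb : |b| < Real.pi) :
    Complex.cosh (((a : ℂ) - b * Complex.I) / 2) ≠ 0 := by
  have e : ((a : ℂ) - b * Complex.I) / 2 = (a / 2 : ℝ) + (-b / 2 : ℝ) * Complex.I := by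
    push_cast; ring
  rw [e, Complex.cosh_add, Complex.cosh_mul_I, Complex.sinh_mul_I, ← Complex.ofReal_cosh,
    ← Complex.ofReal_sinh, ← Complex.ofReal_cos, ← Complex.ofReal_sin]
  intro h
  have h1 := congrArg Complex.re h
  simp only [Complex.add_re, Complex.mul_re, Complex.ofReal_re, Complex.ofReal_im, Complex.I_re,
    Complex.I_im, Complex.mul_im, mul_zero, zero_mul, sub_zero, add_zero, Complex.zero_re] at h1
  have h2 := abs_lt.1 hb
  have h3 : 0 < Real.cos (-b / 2) := Real.cos_pos_of_mem_Ioo ⟨by linarith, by linarith⟩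
  exact (mul_pos (Real.cosh_pos _) h3).ne' h1

/-- The kernel. -/
def kk (φ t : ℝ) : ℂ := ((Real.exp (φ * t) / Real.cosh (Real.pi * t) : ℝ) : ℂ)

theorem kk_ex (φ r s t : ℝ) : kk φ t * (ex t r * ex (-t) s) =
    Complex.exp (t * (((r - s : ℝ) : ℂ) - φ * Complex.I) * Complex.I) /
      (Real.cosh (Real.pi * t) : ℂ) := by
  rw [kk, ex_apply, ex_apply, Complex.ofReal_div, Complex.ofReal_exp, div_mul_eq_mul_div,
    ← Complex.exp_add, ← Complex.exp_add]
  congr 2
  push_cast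
  linear_combination (φ * t : ℂ) * Complex.I_mul_I

theorem im_lt {φ : ℝ} (h : |φ| < Real.pi) (a : ℝ) : |((a : ℂ) - φ * Complex.I).im| < Real.pi := by
  simpa using h

theorem kk_int (h2 : SechSt) {φ : ℝ} (h : |φ| < Real.pi) : Integrable (kk φ) := by
  refine (h2 _ (im_lt h (0 - 0))).1.congr (ae_of_all _ fun t => ?_)
  simp only [← kk_ex]
  simp [ex_apply]

theorem kk_ft (h2 : SechSt) {φ : ℝ} (h : |φ| < Real.pi) (r s : ℝ) (c : ℂ) (A B : ℝ →ᵇ ℂ) :
    ∫ t, c * kk φ t * ((ex t * A) r * (ex (-t) * B) s) =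
      c * A r * B s / Complex.cosh ((((r - s : ℝ) : ℂ) - φ * Complex.I) / 2) := by
  rw [div_eq_mul_one_div, ← (h2 _ (im_lt h (r - s))).2, ← integral_const_mul]
  refine integral_congr_ae (ae_of_all _ fun t => ?_)
  simp only [← kk_ex, BoundedContinuousFunction.mul_apply]
  ring

theorem kk_one (h2 : SechSt) : ∫ t, kk 0 t = 1 := by
  have h := kk_ft h2 (φ := 0) (by simpa using Real.pi_pos) 0 0 1 1 1
  simpa [ex_apply] using h

theorem scal (φ r s : ℝ) :
    conj (Complex.exp ((φ / 2 : ℝ) * Complex.I)) * omP r * omM s +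
      Complex.exp ((φ / 2 : ℝ) * Complex.I) * omM r * omP s =
      2 * (om r * om s) * Complex.cosh ((((r - s : ℝ) : ℂ) - φ * Complex.I) / 2) := by
  have e1 : Complex.exp ((((r - s : ℝ) : ℂ) - φ * Complex.I) / 2) =
      conj (Complex.exp ((φ / 2 : ℝ) * Complex.I)) * Complex.exp (r / 2) *
        Complex.exp (-(s / 2)) := by
    rw [← Complex.exp_conj, ← Complex.exp_add, ← Complex.exp_add, map_mul, Complex.conj_ofReal,
      Complex.conj_I]
    congr 1
    push_cast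
    ring
  have e2 : Complex.exp (-((((r - s : ℝ) : ℂ) - φ * Complex.I) / 2)) =
      Complex.exp ((φ / 2 : ℝ) * Complex.I) * Complex.exp (-(r / 2)) * Complex.exp (s / 2) := by
    rw [← Complex.exp_add, ← Complex.exp_add]
    congr 1
    push_cast
    ring
  rw [omP_eq, omP_eq, omM_eq, omM_eq, Complex.cosh, e1, e2]
  ring

variable {H : Type} [NormedAddCommGroup H] [InnerProductSpace ℂ H] [CompleteSpace H]

theorem norm_U (m : Mod H) (t : ℝ) (x : H) : ‖m.U t x‖ ≤ ‖x‖ := by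
  simpa [Mod.U] using m.norm_Φ_apply_le (ex t) (fun r => (norm_ex t r).le) x

theorem cont_U (h3 : ContSt) (m : Mod H) {e : ℝ → ℝ} (he : Continuous e) (x : H) :
    Continuous fun t => m.U (e t) x := by
  simpa [Mod.U] using (h3 _ (fam he 1)).2 H m x

theorem cont_sig (h3 : ContSt) (m : Mod H) (y : H →L[ℂ] H) (ζ : H) :
    Continuous fun t => m.sig t y ζ := by
  have hv : Continuous fun t => y (m.U (-t) ζ) :=
    y.continuous.comp (cont_U h3 m continuous_neg ζ)
  refine continuous_iff_continuousAt.2 fun s => tendsto_iff_norm_sub_tendsto_zero.2 ?_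
  have h1 := tendsto_iff_norm_sub_tendsto_zero.1 (hv.tendsto s)
  have h2 := tendsto_iff_norm_sub_tendsto_zero.1
    ((cont_U h3 m continuous_id (y (m.U (-s) ζ))).tendsto s)
  refine squeeze_zero (fun _ => norm_nonneg _) (fun t => ?_) (by simpa using h1.add h2)
  have e : m.sig t y ζ - m.sig s y ζ = m.U t (y (m.U (-t) ζ) - y (m.U (-s) ζ)) +
      (m.U t (y (m.U (-s) ζ)) - m.U s (y (m.U (-s) ζ))) := by simp [Mod.sig]
  rw [e]
  exact (norm_add_le _ _).trans (add_le_add (norm_U m _ _) le_rfl)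

theorem norm_sig (m : Mod H) (t : ℝ) (y : H →L[ℂ] H) (ζ : H) : ‖m.sig t y ζ‖ ≤ ‖y‖ * ‖ζ‖ :=
  (norm_U m t _).trans ((y.le_opNorm _).trans
    (mul_le_mul_of_nonneg_left (norm_U m _ _) (norm_nonneg _)))

theorem int_vec (h3 : ContSt) (m : Mod H) {k : ℝ → ℂ} (hk : Integrable k) (y : H →L[ℂ] H)
    (ζ : H) : Integrable fun t => k t • m.sig t y ζ :=
  (hk.norm.mul_const (‖y‖ * ‖ζ‖)).mono'
    (hk.aestronglyMeasurable.smul (cont_sig h3 m y ζ).aestronglyMeasurable)
    (ae_of_all _ fun t => by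
      rw [norm_smul]
      exact mul_le_mul_of_nonneg_left (norm_sig m t y ζ) (norm_nonneg _))

theorem int_sc (h3 : ContSt) (m : Mod H) {k : ℝ → ℂ} (hk : Integrable k) (y : H →L[ℂ] H)
    (η ζ : H) : Integrable fun t => k t * ⟪η, m.sig t y ζ⟫_ℂ := by
  simpa only [inner_smul_right] using (int_vec h3 m hk y ζ).const_inner (𝕜 := ℂ) η

theorem int_eq (h3 : ContSt) (m : Mod H) {k : ℝ → ℂ} (hk : Integrable k) (y : H →L[ℂ] H)
    (η ζ : H) : ∫ t, k t * ⟪η, m.sig t y ζ⟫_ℂ = ⟪η, ∫ t, k t • m.sig t y ζ⟫_ℂ := by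
  rw [← integral_inner (int_vec h3 m hk y ζ)]
  simp only [inner_smul_right]

theorem inner_sig (m : Mod H) (t : ℝ) (y : H →L[ℂ] H) (η ζ : H) :
    ⟪η, m.sig t y ζ⟫_ℂ = ⟪m.sig t (star y) η, ζ⟫_ℂ := by
  rw [← inner_star_left, Mod.sig, Mod.sig, star_mul, star_mul, m.star_U, m.star_U, neg_neg,
    mul_assoc]

theorem int_eq' (h3 : ContSt) (m : Mod H) {k : ℝ → ℂ} (hk : Integrable k) (y : H →L[ℂ] H)
    (η ζ : H) : ∫ t, k t * ⟪η, m.sig t y ζ⟫_ℂ =
      ⟪∫ t, conj (k t) • m.sig t (star y) η, ζ⟫_ℂ := by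
  have hk' : Integrable fun t => conj (k t) := (Complex.conjCLE.integrable_comp_iff).2 hk
  rw [← inner_conj_symm, ← int_eq h3 m hk', ← integral_conj]
  simp only [map_mul, Complex.conj_conj, inner_conj_symm, inner_sig m _ y]

theorem sig_eq (m : Mod H) (t : ℝ) (A B : ℝ →ᵇ ℂ) (x : H →L[ℂ] H) (ζ : H) :
    m.Φ (ex t * A) (x (m.Φ (ex (-t) * B) ζ)) = m.sig t (m.Φ A * x * m.Φ B) ζ := by
  rw [mul_comm (ex (-t)), map_mul, map_mul]
  rfl

theorem sig_om (m : Mod H) (t : ℝ) (z : H →L[ℂ] H) (η ζ : H) :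
    ⟪η, m.sig t (m.Φ om * z * m.Φ om) ζ⟫_ℂ = ⟪m.Φ om η, m.sig t z (m.Φ om ζ)⟫_ℂ := by
  rw [← sig_eq, mul_comm (ex t), ← m.Φ_Φ, ← m.Φ_Φ, m.inner_Φ om, star_om]
  rfl

end PInv

open PInv in
theorem invSt (h1 : BTSt) (h2 : SechSt) (h3 : ContSt) : InvSt := by
  intro H _ _ _ _ m z x φ hφ hx
  set lam := Complex.exp ((φ / 2 : ℝ) * Complex.I) with hlam
  have hk := kk_int h2 hφ
  have hk0 := kk_int h2 (φ := 0) (by simpa using Real.pi_pos)
  have key : ∀ η ζ : H, ⟪m.Φ om η, x (m.Φ om ζ)⟫_ℂ =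
      ∫ t, kk φ t * ⟪m.Φ om η, m.sig t z (m.Φ om ζ)⟫_ℂ := by
    intro η ζ
    have h := h1 H m (Fin 3)
      ![fun t => conj lam * kk φ t, fun t => lam * kk φ t, fun t => -2 * kk 0 t]
      ![fun t => ex t * omP, fun t => ex t * omM, fun _ => om]
      ![fun t => ex (-t) * omM, fun t => ex (-t) * omP, fun _ => om]
      (fun i => by
        fin_cases i
        exacts [hk.const_mul _, hk.const_mul _, hk0.const_mul _])
      (fun i => by
        fin_cases i
        exacts [fam continuous_id _, fam continuous_id _, fam_const _])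
      (fun i => by
        fin_cases i
        exacts [fam continuous_neg _, fam continuous_neg _, fam_const _])
      (fun r s => by
        simp only [Fin.sum_univ_three, Matrix.cons_val]
        rw [kk_ft h2 hφ, kk_ft h2 hφ, integral_mul_const, integral_const_mul, kk_one h2,
          ← add_div, scal, mul_div_cancel_right₀ _ (cosh_ne _ _ hφ)]
        ring) x η ζ
    simp only [Fin.sum_univ_three, Matrix.cons_val, sig_eq] at h
    rw [← integral_add (int_sc h3 m (hk.const_mul _) _ _ _) (int_sc h3 m (hk.const_mul _) _ _ _),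
      integral_mul_const, integral_const_mul, kk_one h2, m.inner_Φ om, star_om] at h
    have e : ∀ t, conj lam * kk φ t * ⟪η, m.sig t (m.Φ omP * x * m.Φ omM) ζ⟫_ℂ +
        lam * kk φ t * ⟪η, m.sig t (m.Φ omM * x * m.Φ omP) ζ⟫_ℂ =
        2 * (kk φ t * ⟪m.Φ om η, m.sig t z (m.Φ om ζ)⟫_ℂ) := fun t => by
      have e1 := congrArg (fun y => ⟪η, m.sig t y ζ⟫_ℂ) hx
      simp only [Mod.sig, mul_add, add_mul, mul_smul_comm, smul_mul_assoc,
        add_apply, smul_apply, inner_add_right,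
        inner_smul_right] at e1
      rw [← sig_om]
      simp only [Mod.sig]
      linear_combination (-kk φ t) * e1
    simp only [e] at h
    rw [integral_const_mul] at h
    linear_combination (-1 / 2 : ℂ) * h
  have k2 : ∀ ζ η : H, ⟪η, x (m.Φ om ζ)⟫_ℂ = ∫ t, kk φ t * ⟪η, m.sig t z (m.Φ om ζ)⟫_ℂ := by
    intro ζ η
    refine m.dense.induction_on (p := fun η => ⟪η, x (m.Φ om ζ)⟫_ℂ =
      ∫ t, kk φ t * ⟪η, m.sig t z (m.Φ om ζ)⟫_ℂ) η ?_ fun η => key η ζ
    simp only [int_eq h3 m hk]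
    exact isClosed_eq (by fun_prop) (by fun_prop)
  intro η ζ
  refine m.dense.induction_on (p := fun ζ => ⟪η, x ζ⟫_ℂ = ∫ t, kk φ t * ⟪η, m.sig t z ζ⟫_ℂ) ζ ?_
    fun ζ => k2 ζ η
  simp only [int_eq' h3 m hk]
  exact isClosed_eq (by fun_prop) (by fun_prop)

end Pool.Agent.P.MP_7e3bdd_an.NI
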