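import Pool.Agent.P.MP_7e3bdd_an.NI.Spec

/-!
Iteration of a lazy symmetric walk: from the gap on good vectors to the gap on given marginals.
-/

set_option autoImplicit false

open scoped InnerProductSpace BigOperators BoundedContinuousFunction ComplexConjugate TensorProduct
  ComplexOrder
open MeasureTheory

noncomputable section

namespace Pool.Agent.P.MP_7e3bdd_an.NI

open RW

namespace PIter

section Gen

variable {E : Type} [NormedAddCommGroup E] [InnerProductSpace ℂ E] {F : Type} [Fintype F]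

theorem norm_avg_le {w : F → ℝ} (hw : Prob w) (v : F → E) {r : ℝ} (hv : ∀ a, ‖v a‖ = r) :
    ‖∑ a, (w a : ℂ) • v a‖ ≤ r := by
  refine (norm_sum_le _ _).trans (le_of_eq ?_)
  calc ∑ a, ‖(w a : ℂ) • v a‖ = ∑ a, w a * r := by
        refine Finset.sum_congr rfl fun a _ => ?_
        rw [norm_smul, Complex.norm_real, Real.norm_of_nonneg (hw.1 a), hv]
    _ = r := by rw [← Finset.sum_mul, hw.2, one_mul]

theorem avg_sq {w : F → ℝ} (hw : Prob w) (v : F → E) (y : E) (hv : ∀ a, ‖v a‖ = ‖y‖) :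
    ∑ a, w a * ‖v a - y‖ ^ 2 = 2 * ‖y‖ ^ 2 - 2 * (⟪y, ∑ a, (w a : ℂ) • v a⟫_ℂ).re := by
  rw [inner_sum, Complex.re_sum, Finset.mul_sum]
  have h : 2 * ‖y‖ ^ 2 = ∑ a, w a * (2 * ‖y‖ ^ 2) := by rw [← Finset.sum_mul, hw.2, one_mul]
  rw [h, ← Finset.sum_sub_distrib]
  refine Finset.sum_congr rfl fun a _ => ?_
  rw [norm_sub_rev, norm_sub_sq (𝕜 := ℂ), hv, inner_smul_right, Complex.re_ofReal_mul]
  simp only [RCLike.re_to_complex]
  ring

theorem avg_le {w : F → ℝ} (hw : Prob w) (d : F → ℝ) {δ : ℝ} (hδ : 0 < δ)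
    (h : ∑ a, w a * d a ^ 2 ≤ δ ^ 2) : ∑ a, w a * d a ≤ δ := by
  have h1 : 2 * δ * ∑ a, w a * d a ≤ ∑ a, w a * δ ^ 2 + ∑ a, w a * d a ^ 2 := by
    rw [Finset.mul_sum, ← Finset.sum_add_distrib]
    refine Finset.sum_le_sum fun a _ => ?_
    nlinarith [mul_nonneg (hw.1 a) (sq_nonneg (δ - d a))]
  rw [← Finset.sum_mul, hw.2, one_mul] at h1
  nlinarith

theorem half_sq (y z : E) (hz : ‖z‖ ≤ ‖y‖) :
    ‖(2⁻¹ : ℂ) • (y + z)‖ ^ 2 ≤ (‖y‖ ^ 2 + (⟪y, z⟫_ℂ).re) / 2 := by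
  rw [norm_smul, mul_pow, norm_add_sq (𝕜 := ℂ)]
  have h : ‖(2⁻¹ : ℂ)‖ = 2⁻¹ := by simp
  rw [h]
  simp only [RCLike.re_to_complex]
  nlinarith [norm_nonneg z]

theorem avg_mul {F' : Type} [Fintype F'] (w : F → ℝ) (w' : F' → ℝ) (P : F → E →L[ℂ] E)
    (P' : F' → E →L[ℂ] E) (R : F × F' → E →L[ℂ] E) (h : ∀ a b, R (a, b) = P a * P' b) :
    ∑ p : F × F', ((w p.1 * w' p.2 : ℝ) : ℂ) • R p =
      (∑ a, (w a : ℂ) • P a) * ∑ b, (w' b : ℂ) • P' b := by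
  rw [Fintype.sum_prod_type, Finset.sum_mul_sum]
  refine Finset.sum_congr rfl fun a _ => Finset.sum_congr rfl fun b _ => ?_
  rw [h, smul_mul_smul_comm, Complex.ofReal_mul]

theorem avg_half {F' : Type} [Fintype F'] (w : F → ℝ) (w' : F' → ℝ) (R : F ⊕ F' → E →L[ℂ] E) :
    ∑ p, ((Sum.elim (fun a => 2⁻¹ * w a) (fun a => 2⁻¹ * w' a) p : ℝ) : ℂ) • R p =
      (2⁻¹ : ℂ) • (∑ a, (w a : ℂ) • R (Sum.inl a) + ∑ b, (w' b : ℂ) • R (Sum.inr b)) := by
  rw [Fintype.sum_sum_type, smul_add, Finset.smul_sum, Finset.smul_sum]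
  simp only [Sum.elim_inl, Sum.elim_inr, smul_smul, Complex.ofReal_mul, Complex.ofReal_inv,
    Complex.ofReal_ofNat]

theorem avg_one : ∑ _a : Unit, ((1 : ℝ) : ℂ) • (1 : E →L[ℂ] E) = 1 := by simp

theorem avg_apply (w : F → ℝ) (P : F → E →L[ℂ] E) (y : E) :
    (∑ a, (w a : ℂ) • P a) y = ∑ a, (w a : ℂ) • P a y := by
  rw [sum_apply]; rfl

theorem avg_sym (w : F → ℝ) (P P' : F → E →L[ℂ] E) (y : E)
    (h : ∀ a, ⟪y, P' a y⟫_ℂ = ⟪P a y, y⟫_ℂ) :
    (⟪y, ((2⁻¹ : ℂ) • (∑ a, (w a : ℂ) • P a + ∑ a, (w a : ℂ) • P' a)) y⟫_ℂ).re =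
      (⟪y, ∑ a, (w a : ℂ) • P a y⟫_ℂ).re := by
  have h3 : (⟪y, ∑ a, (w a : ℂ) • P' a y⟫_ℂ).re = (⟪y, ∑ a, (w a : ℂ) • P a y⟫_ℂ).re := by
    rw [inner_sum, inner_sum, Complex.re_sum, Complex.re_sum]
    refine Finset.sum_congr rfl fun a _ => ?_
    rw [inner_smul_right, inner_smul_right, Complex.re_ofReal_mul, Complex.re_ofReal_mul, h,
      ← inner_conj_symm, Complex.conj_re]
  rw [smul_apply, add_apply, avg_apply, avg_apply, inner_smul_right, inner_add_right,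
    show (2⁻¹ : ℂ) = ((2⁻¹ : ℝ) : ℂ) by simp, Complex.re_ofReal_mul, Complex.add_re, h3]
  ring

end Gen

variable {H : Type} [NormedAddCommGroup H] [InnerProductSpace ℂ H] [CompleteSpace H]

/-- The standard implementation. -/
def lm (m : Mod H) (g : H →L[ℂ] H) : H →L[ℂ] H := g * m.bar g

theorem uq_one (N : VonNeumannAlgebra H) : UQ N 1 := ⟨one_mem _, one_mem _⟩

theorem uq_mul {N : VonNeumannAlgebra H} {g h : H →L[ℂ] H} (hg : UQ N g) (hh : UQ N h) :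
    UQ N (g * h) := ⟨mul_mem hg.1 hh.1, mul_mem hg.2 hh.2⟩

theorem uq_star {N : VonNeumannAlgebra H} {g : H →L[ℂ] H} (hg : UQ N g) : UQ N (star g) :=
  ⟨Unitary.star_mem hg.1, star_mem hg.2⟩

variable {m : Mod H} {N : VonNeumannAlgebra H} {ξ : H}

theorem lm_mul (hT : IsTT m N ξ) {g h : H →L[ℂ] H} (hg : UQ N g) (hh : UQ N h) :
    lm m (g * h) = lm m g * lm m h := by
  have h1 := comm_QN hh.2 (hT.barQ g hg.2)
  simp only [lm, m.bar_mul]
  rw [mul_assoc, mul_assoc, ← mul_assoc h, h1, mul_assoc]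

theorem lm_star (hT : IsTT m N ξ) {g : H →L[ℂ] H} (hg : UQ N g) :
    star (lm m g) = lm m (star g) := by
  rw [lm, lm, star_mul, ← m.bar_star]
  exact (comm_QN (star_mem hg.2) (hT.barQ _ (star_mem hg.2))).symm

theorem norm_lm {g : H →L[ℂ] H} (hg : UQ N g) (x : H) : ‖lm m g x‖ = ‖x‖ :=
  Unitary.norm_map ⟨_, mul_mem hg.1 (m.bar_unitary hg.1)⟩ x

variable (m N) in
/-- The pair `(A, B)` is the average of a weighted family of unitaries. -/
def Rep (A : HH H →L[ℂ] HH H) (B : H →L[ℂ] H) : Prop :=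
  ∃ (F : Type) (_ : Fintype F) (w : F → ℝ) (g : F → H →L[ℂ] H), Prob w ∧ (∀ a, UQ N (g a)) ∧
    ∑ a, (w a : ℂ) • m.pi (g a) = A ∧ ∑ a, (w a : ℂ) • lm m (g a) = B

theorem rep_one : Rep m N 1 1 :=
  ⟨Unit, inferInstance, fun _ => 1, fun _ => 1, ⟨fun _ => zero_le_one, by simp⟩,
    fun _ => uq_one N, by simp only [m.pi_one]; exact avg_one, by simp [lm, m.bar_one]⟩

theorem rep_mul (hT : IsTT m N ξ) {A A' : HH H →L[ℂ] HH H} {B B' : H →L[ℂ] H} (h : Rep m N A B)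
    (h' : Rep m N A' B') : Rep m N (A * A') (B * B') := by
  obtain ⟨F, _, w, g, hw, hg, rfl, rfl⟩ := h
  obtain ⟨F', _, w', g', hw', hg', rfl, rfl⟩ := h'
  refine ⟨F × F', inferInstance, fun p => w p.1 * w' p.2, fun p => g p.1 * g' p.2,
    ⟨fun p => mul_nonneg (hw.1 _) (hw'.1 _), ?_⟩, fun p => uq_mul (hg _) (hg' _), ?_, ?_⟩
  · rw [Fintype.sum_prod_type, ← Finset.sum_mul_sum, hw.2, hw'.2, one_mul]
  · exact avg_mul w w' _ _ _ fun a b => m.pi_mul _ _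
  · exact avg_mul w w' _ _ _ fun a b => lm_mul hT (hg _) (hg' _)

theorem rep_pow (hT : IsTT m N ξ) {A : HH H →L[ℂ] HH H} {B : H →L[ℂ] H} (h : Rep m N A B)
    (k : ℕ) : Rep m N (A ^ k) (B ^ k) := by
  induction k with
  | zero => simpa using rep_one
  | succ k ih => rw [pow_succ, pow_succ]; exact rep_mul hT ih h

theorem rep_half {A A' : HH H →L[ℂ] HH H} {B B' : H →L[ℂ] H} (h : Rep m N A B)
    (h' : Rep m N A' B') : Rep m N ((2⁻¹ : ℂ) • (A + A')) ((2⁻¹ : ℂ) • (B + B')) := by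
  obtain ⟨F, _, w, g, hw, hg, rfl, rfl⟩ := h
  obtain ⟨F', _, w', g', hw', hg', rfl, rfl⟩ := h'
  refine ⟨F ⊕ F', inferInstance, Sum.elim (fun a => 2⁻¹ * w a) (fun a => 2⁻¹ * w' a),
    Sum.elim g g', ⟨?_, ?_⟩, ?_, ?_, ?_⟩
  · rintro (a | a)
    · exact mul_nonneg (by norm_num) (hw.1 a)
    · exact mul_nonneg (by norm_num) (hw'.1 a)
  · rw [Fintype.sum_sum_type]
    simp only [Sum.elim_inl, Sum.elim_inr]
    rw [← Finset.mul_sum, ← Finset.mul_sum, hw.2, hw'.2]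
    norm_num
  · rintro (a | a)
    · exact hg a
    · exact hg' a
  · exact avg_half w w' fun p => m.pi (Sum.elim g g' p)
  · exact avg_half w w' fun p => lm m (Sum.elim g g' p)

theorem rep_le {A : HH H →L[ℂ] HH H} {B : H →L[ℂ] H} (h : Rep m N A B) :
    (∀ X, ‖A X‖ ≤ ‖X‖) ∧ ‖B‖ ≤ 1 := by
  obtain ⟨F, _, w, g, hw, hg, rfl, rfl⟩ := h
  refine ⟨fun X => ?_, ContinuousLinearMap.opNorm_le_bound _ zero_le_one fun x => ?_⟩
  · exact (congrArg norm (avg_apply w _ X)).trans_le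
      (norm_avg_le hw _ fun a => m.norm_pi_unitary (hg a).1 X)
  · rw [avg_apply, one_mul]
    exact norm_avg_le hw _ fun a => norm_lm (hg a) x

/-- The lazy symmetric walk. -/
theorem walk (hT : IsTT m N ξ) {F : Type} [Fintype F] {w : F → ℝ} {g : F → H →L[ℂ] H}
    (hw : Prob w) (hg : ∀ a, UQ N (g a)) :
    ∃ (A : HH H →L[ℂ] HH H) (B : H →L[ℂ] H), Rep m N A B ∧ IsSelfAdjoint B ∧
      (∀ Y, ‖A Y‖ ^ 2 ≤ ‖Y‖ ^ 2 - (∑ a, w a * ‖m.pi (g a) Y - Y‖ ^ 2) / 4) ∧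
      ‖ξ‖ ^ 2 - (⟪ξ, B ξ⟫_ℂ).re = (∑ a, w a * m.del ξ (g a) ^ 2) / 4 := by
  have r0 : Rep m N _ _ := ⟨F, inferInstance, w, g, hw, hg, rfl, rfl⟩
  have r1 : Rep m N _ _ :=
    ⟨F, inferInstance, w, fun a => star (g a), hw, fun a => uq_star (hg a), rfl, rfl⟩
  have r2 := rep_half r0 r1
  have hs : star (∑ a, (w a : ℂ) • lm m (g a)) = ∑ a, (w a : ℂ) • lm m (star (g a)) := by
    rw [star_sum]
    refine Finset.sum_congr rfl fun a _ => ?_
    rw [star_smul, lm_star hT (hg a), Complex.star_def, Complex.conj_ofReal]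
  refine ⟨_, _, rep_half rep_one r2, ?_, fun Y => ?_, ?_⟩
  · rw [← hs]
    simp [IsSelfAdjoint, add_comm]
  · have h1 := half_sq Y _ ((rep_le r2).1 Y)
    have h2 := avg_sq hw (fun a => m.pi (g a) Y) Y fun a => m.norm_pi_unitary (hg a).1 Y
    have h4 := avg_sym w (fun a => m.pi (g a)) (fun a => m.pi (star (g a))) Y fun a => by
      rw [m.inner_pi, star_star]
    refine le_trans (le_of_eq rfl) (h1.trans ?_)
    linarith
  · have h2 := avg_sq hw (fun a => lm m (g a) ξ) ξ fun a => norm_lm (hg a) ξ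
    have h3 : ∑ a, w a * m.del ξ (g a) ^ 2 = ∑ a, w a * ‖lm m (g a) ξ - ξ‖ ^ 2 := rfl
    have h4 : ∑ a, (w a : ℂ) • lm m (g a) ξ = (∑ a, (w a : ℂ) • lm m (g a)) ξ :=
      (avg_apply _ _ _).symm
    rw [h3, h2, h4, ← hs]
    generalize ∑ a, (w a : ℂ) • lm m (g a) = L
    have h5 : (⟪ξ, star L ξ⟫_ℂ).re = (⟪ξ, L ξ⟫_ℂ).re := by
      rw [inner_star_right, ← inner_conj_symm, Complex.conj_re]
    have h6 : (⟪ξ, ξ⟫_ℂ).re = ‖ξ‖ ^ 2 := by
      rw [norm_sq_eq_re_inner (𝕜 := ℂ)]; rfl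
    rw [show (2⁻¹ : ℂ) = ((2⁻¹ : ℝ) : ℂ) by simp]
    simp only [smul_apply, add_apply, one_apply_eq_self, inner_smul_right, inner_add_right,
      Complex.re_ofReal_mul, Complex.add_re, h5, h6]
    ring

end PIter

open PIter in
theorem iterSt (h1 : GoodSt) (h2 : CostSt) : IterSt := by
  intro H _ _ _ m N ξ hT hG I _ η hη ε hε
  choose n hn hn' using fun i => hT.cycN.2 (η i) (ε ^ 2 / 4) (by positivity)
  set C : ℝ := 1 + ∑ i, ‖n i‖ with hC
  have hC0 : 0 < C := by positivity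
  have hCn : ∀ i, ‖n i‖ ≤ C := fun i => by
    have := Finset.single_le_sum (f := fun i => ‖n i‖) (fun i _ => norm_nonneg _) (Finset.mem_univ i)
    linarith
  set δ : ℝ := min ε (ε ^ 2 / (4 * C)) with hδ
  have hδ0 : 0 < δ := lt_min hε (by positivity)
  have hδ1 : C * δ ≤ ε ^ 2 / 4 := by
    refine (mul_le_mul_of_nonneg_left (min_le_right _ _) hC0.le).trans (le_of_eq ?_)
    field_simp
  obtain ⟨F, _, w, g, κ, hw, hg, hκ, hκ1, hK, hgood⟩ :=
    hG C (ε ^ 2 / 2) (3 / δ ^ 2) hC0 (by positivity) (by positivity)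
  obtain ⟨A, B, hR, hB, hA, hc⟩ := walk hT hw hg
  set k : ℕ := ⌈4 / κ⌉₊ with hk
  have hk1 : 4 ≤ k * κ := by
    rw [← div_le_iff₀ hκ]
    exact Nat.le_ceil _
  have hk2 : k * κ ≤ 5 := by
    have h := (Nat.ceil_lt_add_one (show 0 ≤ 4 / κ by positivity)).le
    have h' := mul_le_mul_of_nonneg_right h hκ.le
    rw [add_mul, div_mul_cancel₀ _ hκ.ne'] at h'
    linarith
  have key : ∀ j ≤ k, ∃ (F : Type) (_ : Fintype F) (w : F → ℝ) (g : F → H →L[ℂ] H),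
      Prob w ∧ (∀ a, UQ N (g a)) ∧ ∑ a, w a * m.del ξ (g a) ≤ δ ∧
      ∀ X, ∑ a, (w a : ℂ) • m.pi (g a) X = (A ^ j) X := fun j hj => by
    obtain ⟨F', _, w', g', hw', hg', e1, e2⟩ := rep_pow hT hR j
    refine ⟨F', inferInstance, w', g', hw', hg', avg_le hw' _ hδ0 ?_, fun X => ?_⟩
    · have h3 := avg_sq hw' (fun a => lm m (g' a) ξ) ξ fun a => norm_lm (hg' a) ξ
      have h4 : ∑ a, (w' a : ℂ) • lm m (g' a) ξ = (B ^ j) ξ := by
        rw [← e2, avg_apply]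
      have h5 := h2 H B ξ hB (rep_le hR).2 j
      rw [h4] at h3
      rw [hc] at h5
      have h6 : ∑ a, w a * m.del ξ (g a) ^ 2 ≤ κ * δ ^ 2 / 3 := by
        rw [div_mul_eq_mul_div, div_le_iff₀ (by positivity)] at hK
        linarith
      have h7 : (j : ℝ) ≤ k := by exact_mod_cast hj
      have h8 : (j : ℝ) * ∑ a, w a * m.del ξ (g a) ^ 2 ≤ k * (κ * δ ^ 2 / 3) :=
        mul_le_mul h7 h6 (Finset.sum_nonneg fun a _ => mul_nonneg (hw.1 a) (sq_nonneg _))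
          (Nat.cast_nonneg _)
      have h9 : k * κ * δ ^ 2 ≤ 5 * δ ^ 2 := mul_le_mul_of_nonneg_right hk2 (sq_nonneg _)
      refine le_trans (le_of_eq h3) ?_
      nlinarith [sq_nonneg δ]
    · rw [← e1]
      exact (avg_apply _ _ _).symm
  obtain ⟨F', _, w', g', hw', hg', hd, he⟩ := key k le_rfl
  refine ⟨F', inferInstance, w', g', hw', hg', hd.trans (min_le_left _ _), fun i X hX => ?_⟩
  have hX1 : ‖X‖ = 1 := by
    have h := hX 1 (one_mem _)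
    rw [tm_one] at h
    exact h.trans (hη i)
  have ind : ∀ j ≤ k, ‖(A ^ j) X‖ ≤ ε ∨ ‖(A ^ j) X‖ ^ 2 ≤ 1 - j * κ / 4 := fun j hj => by
    induction j with
    | zero => right; simp [hX1]
    | succ j ih =>
      have e : (A ^ (j + 1)) X = A ((A ^ j) X) := by rw [pow_succ']; rfl
      rcases le_total ‖(A ^ j) X‖ ε with h | h
      · left
        rw [e]
        exact ((rep_le hR).1 _).trans h
      rcases ih (Nat.le_of_succ_le hj) with h' | h'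
      · left
        rw [e]
        exact ((rep_le hR).1 _).trans h'
      right
      obtain ⟨F₁, _, w₁, g₁, hw₁, hg₁, hd₁, he₁⟩ := key j (Nat.le_of_succ_le hj)
      have hgd := h1 H m N ξ hT (η i) X (n i) C ε (hη i) hX (hn i) (hCn i) hε F₁ w₁ g₁ hw₁ hg₁
        (by rw [he₁]; exact h)
        (by linarith [mul_le_mul_of_nonneg_left hd₁ hC0.le, hn' i])
      rw [he₁] at hgd
      have h3 := hgood _ hgd
      have h4 := hA ((A ^ j) X)
      rw [e, Nat.cast_succ]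
      linarith
  rw [he]
  rcases ind k le_rfl with h | h
  · exact h
  · have h3 : ‖(A ^ k) X‖ ^ 2 ≤ ε ^ 2 := by nlinarith [sq_nonneg ε]
    exact (sq_le_sq₀ (norm_nonneg _) hε.le).1 h3

end Pool.Agent.P.MP_7e3bdd_an.NI
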