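import Pool.Agent.P.MP_7e3bdd_an.NI.Spec

/-!
The limit functional is the vector functional on the product of the two algebras.
-/

set_option autoImplicit false

open scoped InnerProductSpace BigOperators ComplexConjugate ComplexOrder

noncomputable section

namespace Pool.Agent.P.MP_7e3bdd_an.NI

open RW

namespace PLax

theorem seq_le {r : ℕ → ℝ} {B : ℝ} (h0 : ∀ n, 0 ≤ r n) (hB : ∀ n, r n ≤ B)
    (h : ∀ n, r (n + 1) ^ 2 ≤ r (n + 2) * r n) : r 1 ≤ r 0 := by
  by_contra hc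
  rw [not_le] at hc
  have p0 : 0 < r 0 := by
    rcases (h0 0).eq_or_lt with h1 | h1
    · have h2 := h 0
      rw [← h1, mul_zero] at h2
      rw [← h1] at hc
      nlinarith
    · exact h1
  set ρ := r 1 / r 0 with hρ
  have p1 : 1 < ρ := by rwa [hρ, one_lt_div p0]
  have key : ∀ n, ρ ^ n * r 0 ≤ r n ∧ ρ * r n ≤ r (n + 1) := by
    intro n
    induction n with
    | zero => exact ⟨by simp, by rw [hρ, div_mul_cancel₀ _ p0.ne']⟩
    | succ n ih =>
      have q0 : 0 < r n := lt_of_lt_of_le (by positivity) ih.1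
      refine ⟨?_, ?_⟩
      · rw [pow_succ', mul_assoc]
        exact (mul_le_mul_of_nonneg_left ih.1 (by positivity)).trans ih.2
      · refine le_of_mul_le_mul_right ?_ q0
        have := mul_le_mul_of_nonneg_left ih.2 (h0 (n + 1))
        nlinarith [h n]
  obtain ⟨n, hn⟩ := pow_unbounded_of_one_lt (B / r 0) p1
  rw [div_lt_iff₀ p0] at hn
  linarith [(key n).1, hB n]

variable {H : Type} [NormedAddCommGroup H] [InnerProductSpace ℂ H] [CompleteSpace H]

theorem op_ext {M : VonNeumannAlgebra H} {ξ : H} (h : Cyc M ξ) {S T : H →L[ℂ] H}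
    (hh : ∀ b ∈ M, ∀ b' ∈ M, ⟪b ξ, S (b' ξ)⟫_ℂ = ⟪b ξ, T (b' ξ)⟫_ℂ) : S = T := by
  rw [← sub_eq_zero]
  ext η
  refine ext_inner_left ℂ fun ζ => ?_
  have h1 : star (S - T) ζ = 0 := eq_zero_of_inner_cyc h fun b' hb' => by
    have h2 : (S - T) (b' ξ) = 0 := eq_zero_of_inner_cyc h fun b hb => by
      rw [sub_apply, inner_sub_right, hh b hb b' hb', sub_self]
    rw [inner_star_right, h2, inner_zero_left]
  rw [← inner_star_left, h1]
  simp

end PLax

open PLax in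
theorem laxSt (h1 : FormSt) (h2 : BiLemSt) (h3 : DSt) : LaxSt := by
  intro H _ _ _ m N ξ hT e he ω hω hs hl hc hm
  have he1 : m.bar e ξ = e ξ := by rw [Mod.bar_apply, hT.Jξ, he.J]
  have he2 : m.bar e ∈ N := hT.barQ e he.mem
  have he3 : star (m.bar e) = m.bar e := by rw [← m.bar_star, he.proj.isSelfAdjoint.star_eq]
  have hq : ∀ B ∈ N.commutant, √(ω (star B * B) 1).re ≤ ‖B ξ‖ := fun B hB => by
    rw [hm _ (mul_mem (star_mem hB) hB), mul_apply_eq_comp, inner_star_right,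
      inner_self_eq_norm_sq_to_K, Real.sqrt_le_left (norm_nonneg _)]
    have a1 : ‖B (e ξ)‖ ≤ ‖B ξ‖ := by
      rw [← he1, ← mul_apply_eq_comp, comm_QN hB he2, mul_apply_eq_comp]
      refine (ContinuousLinearMap.le_opNorm _ _).trans (mul_le_of_le_one_left (norm_nonneg _) ?_)
      exact (m.norm_bar_le e).trans he.proj.norm_le
    have a2 : ‖B (e ξ)‖ ^ 2 ≤ ‖B ξ‖ ^ 2 := by gcongr
    refine le_trans (le_of_eq ?_) a2
    norm_cast
  have hΘ : ∀ T : H →L[ℂ] H, ∃ S : H →L[ℂ] H, ‖S‖ ≤ ‖T‖ ∧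
      ∀ b b' : {b : H →L[ℂ] H // b ∈ N.commutant}, ⟪b.1 ξ, S (b'.1 ξ)⟫_ℂ = ω (star b.1 * b'.1) T :=
    fun T => h1 H {b : H →L[ℂ] H // b ∈ N.commutant} (fun b => b.1 ξ)
      (fun b b' => ω (star b.1 * b'.1) T) ‖T‖ (norm_nonneg _)
      (fun η h => eq_zero_of_inner_cyc hT.cycQ fun b hb => h ⟨b, hb⟩) fun A A' _ _ c i d j => by
        have mB : ∑ a, c a • (i a).1 ∈ N.commutant :=
          sum_mem fun a _ => N.commutant.toStarSubalgebra.smul_mem (i a).2 _
        have mB' : ∑ a, d a • (j a).1 ∈ N.commutant :=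
          sum_mem fun a _ => N.commutant.toStarSubalgebra.smul_mem (j a).2 _
        have b1 := (h2 H ω hω).2 Unit Unit (fun _ => ∑ a, c a • (i a).1) (fun _ => 1) T
          (fun _ => ∑ a, d a • (j a).1) fun _ => 1
        simp only [bv, Finset.univ_unique, Finset.sum_singleton, star_one, one_mul, mul_one] at b1
        have b2 : ∑ a, ∑ b, conj (c a) * d b * ω (star (i a).1 * (j b).1) T =
            ω (star (∑ a, c a • (i a).1) * ∑ a, d a • (j a).1) T := by
          simp only [star_sum, star_smul, Finset.sum_mul, Finset.mul_sum, smul_mul_smul_comm,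
            map_sum, map_smul, LinearMap.sum_apply, LinearMap.smul_apply, smul_eq_mul]
          rw [Finset.sum_comm]
          rfl
        have b3 := hq _ mB
        have b4 := hq _ mB'
        simp only [sum_apply, smul_apply] at b3 b4
        rw [b2]
        refine b1.trans ?_
        gcongr
  choose Θ n1 n2 using hΘ
  have hN : ∀ T, Θ T ∈ N := fun T => mem_of_comm fun a ha => op_ext hT.cycQ fun b hb b' hb' => by
    have a1 := n2 T ⟨star a * b, mul_mem (star_mem ha) hb⟩ ⟨b', hb'⟩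
    have a2 := n2 T ⟨b, hb⟩ ⟨a * b', mul_mem ha hb'⟩
    simp only [mul_apply_eq_comp, inner_star_left, star_mul, star_star, mul_assoc] at a1 a2 ⊢
    rw [a1, a2]
  let θ : (H →L[ℂ] H) → H →L[ℂ] H := fun a => m.bar (Θ (m.bar a))
  have t1 : ∀ a, θ a ∈ N.commutant := fun a => hT.barN _ (hN _)
  have t2 : ∀ a, ‖θ a‖ ≤ ‖a‖ := fun a =>
    (m.norm_bar_le _).trans ((n1 _).trans (m.norm_bar_le _))
  have t3 : ∀ a, ∀ b ∈ N.commutant,
      ⟪m.D ξ (star b), m.D ξ (star (θ a))⟫_ℂ = ω b (m.bar a) := fun a b hb => by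
    have a1 := n2 (m.bar a) ⟨1, one_mem _⟩ ⟨b, hb⟩
    simp only [star_one, one_mul, one_apply_eq_self] at a1
    rw [(h3 H m N ξ hT _ (t1 a)).1 b hb, m.bar_bar, ← a1, ← mul_apply_eq_comp, comm_QN hb (hN _)]
    rfl
  have t4 : ∀ a ∈ N.commutant, ∀ b ∈ N.commutant, ⟪m.D ξ (star b), m.D ξ (star (θ a))⟫_ℂ =
      ⟪m.D ξ (star (θ b)), m.D ξ (star a)⟫_ℂ := fun a ha b hb => by
    rw [t3 a b hb, hs, m.bar_bar, ← t3 b a ha, inner_conj_symm]
  have t5 : ∀ a ∈ N.commutant, ‖m.D ξ (star (θ a))‖ ≤ ‖m.D ξ (star a)‖ := fun a ha => by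
    have a1 : ∀ n, θ^[n] a ∈ N.commutant ∧ ‖θ^[n] a‖ ≤ ‖a‖ := fun n => by
      induction n with
      | zero => exact ⟨ha, le_rfl⟩
      | succ n ih =>
        rw [Function.iterate_succ_apply']
        exact ⟨t1 _, (t2 _).trans ih.2⟩
    refine seq_le (r := fun n => ‖m.D ξ (star (θ^[n] a))‖) (B := ‖a‖) (fun n => norm_nonneg _)
      (fun n => ?_) fun n => ?_
    · obtain ⟨-, -, a2, a3, -⟩ := h3 H m N ξ hT _ (a1 n).1
      exact a2.le.trans (a3.trans (a1 n).2)
    · have a2 := t4 _ (a1 n).1 _ (t1 (θ^[n] a))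
      simp only [Function.iterate_succ_apply']
      refine le_trans (le_of_eq ?_) (norm_inner_le_norm (𝕜 := ℂ) _ _)
      rw [← a2, inner_self_eq_norm_sq_to_K]
      simp
  have t6 : ∀ a, InCor N e a → m.D ξ (star (θ a)) = m.D ξ (star a) := fun a ha => by
    have a1 := hl a ha
    rw [← t3 a a ha.1, ← (h3 H m N ξ hT a ha.1).2.2.1] at a1
    have a2 := norm_sub_sq (𝕜 := ℂ) (m.D ξ (star a)) (m.D ξ (star (θ a)))
    have a3 : ‖m.D ξ (star (θ a))‖ ^ 2 ≤ ‖m.D ξ (star a)‖ ^ 2 := by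
      have := t5 a ha.1
      gcongr
    rw [RCLike.re_to_complex] at a2
    have a4 : ‖m.D ξ (star a) - m.D ξ (star (θ a))‖ ^ 2 = 0 :=
      le_antisymm (by linarith) (sq_nonneg _)
    exact (sub_eq_zero.1 (norm_eq_zero.1 (pow_eq_zero_iff two_ne_zero |>.1 a4))).symm
  intro b hb c hcN
  have ee : e * e = e := he.proj.isIdempotentElem
  have a1 : InCor N e (e * m.bar c * e) :=
    ⟨mul_mem (mul_mem he.mem (hT.barN c hcN)) he.mem, by rw [mul_assoc, ee],
      by rw [← mul_assoc, ← mul_assoc, ee]⟩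
  have a2 := t3 (e * m.bar c * e) b hb
  rw [t6 _ a1, (h3 H m N ξ hT _ a1.1).1 b hb, m.bar_mul, m.bar_mul, m.bar_bar, ← hc] at a2
  rw [← a2, mul_apply_eq_comp, mul_apply_eq_comp, he1, ← mul_apply_eq_comp b, comm_QN hb he2,
    mul_apply_eq_comp, ← inner_star_left, he3, he1]

end Pool.Agent.P.MP_7e3bdd_an.NI
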