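import Pool.Agent.P.MP_7e3bdd_an.NI.Spec

/-!
The limit of good vectors along an ultrafilter: a vector and a seminorm.
-/

set_option autoImplicit false

open scoped InnerProductSpace BigOperators BoundedContinuousFunction ComplexConjugate TensorProduct
  ComplexOrder Topology
open MeasureTheory Filter

noncomputable section

namespace Pool.Agent.P.MP_7e3bdd_an.NI

open RW

namespace PLim2

variable {H : Type} [NormedAddCommGroup H] [InnerProductSpace ℂ H] [CompleteSpace H]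

/-- Bounded families of vectors have weak limits along ultrafilters. -/
theorem exists_vlim {ι : Type} (𝒰 : Ultrafilter ι) (z : ι → H) (C : ℝ) (hz : ∀ n, ‖z n‖ ≤ C) :
    ∃ ζ : H, ∀ η : H, Tendsto (fun n => ⟪η, z n⟫_ℂ) (𝒰 : Filter ι) (𝓝 ⟪η, ζ⟫_ℂ) := by
  have hb : ∀ η : H, ∀ n, ‖⟪z n, η⟫_ℂ‖ ≤ C * ‖η‖ := fun η n =>
    (norm_inner_le_norm _ _).trans (mul_le_mul_of_nonneg_right (hz n) (norm_nonneg _))
  choose L hL using fun η : H => exists_ulim 𝒰 (fun n => ⟪z n, η⟫_ℂ) _ (hb η)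
  let B₀ : H →ₗ[ℂ] ℂ :=
    { toFun := L
      map_add' := fun v w => tendsto_nhds_unique (hL (v + w)) (by
        simpa [inner_add_right] using (hL v).add (hL w))
      map_smul' := fun c v => tendsto_nhds_unique (hL (c • v)) (by
        simpa [inner_smul_right] using (hL v).const_mul c) }
  have hB₀ : ∀ v, ‖B₀ v‖ ≤ C * ‖v‖ := fun v => le_of_tendsto' (hL v).norm (hb v)
  refine ⟨(InnerProductSpace.toDual ℂ H).symm (B₀.mkContinuous C hB₀), fun η => ?_⟩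
  have h1 : ⟪(InnerProductSpace.toDual ℂ H).symm (B₀.mkContinuous C hB₀), η⟫_ℂ = L η := by
    rw [InnerProductSpace.toDual_symm_apply]
    rfl
  have h2 := (Complex.continuous_conj.tendsto _).comp (hL η)
  rw [← inner_conj_symm, h1]
  simpa [Function.comp_def] using h2

theorem exists_rlim {ι : Type} (𝒰 : Ultrafilter ι) (s : ι → ℝ) (C : ℝ) (hs : ∀ n, |s n| ≤ C) :
    ∃ l : ℝ, Tendsto s (𝒰 : Filter ι) (𝓝 l) := by
  obtain ⟨l, hl⟩ := exists_ulim 𝒰 (fun n => (s n : ℂ)) C (fun n => by simpa using hs n)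
  refine ⟨l.re, ?_⟩
  simpa [Function.comp_def] using (Complex.continuous_re.tendsto _).comp hl

variable (m : Mod H)

/-- The commutator of an operator with a vector of the tensor square. -/
def dd (y : H →L[ℂ] H) (Y : HH H) : HH H := tm y 1 Y - tm 1 (m.bar (star y)) Y

theorem dd_add (x y : H →L[ℂ] H) (Y : HH H) : dd m (x + y) Y = dd m x Y + dd m y Y := by
  simp only [dd, star_add, m.bar_add, tm_add_left, tm_add_right, add_apply]
  abel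

theorem dd_smul (c : ℂ) (y : H →L[ℂ] H) (Y : HH H) : dd m (c • y) Y = c • dd m y Y := by
  simp only [dd, star_smul, m.bar_smul, tm_smul_left, tm_smul_right, smul_apply,
    smul_sub, RCLike.star_def, Complex.conj_conj]

theorem dd_one (Y : HH H) : dd m 1 Y = 0 := by
  simp only [dd, star_one, m.bar_one, sub_self]

omit [CompleteSpace H] in
theorem norm_tm_apply_le (p q : H →L[ℂ] H) (Y : HH H) : ‖tm p q Y‖ ≤ ‖p‖ * ‖q‖ * ‖Y‖ :=
  ((tm p q).le_opNorm Y).trans (mul_le_mul_of_nonneg_right (norm_tm_le p q) (norm_nonneg _))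

omit [CompleteSpace H] in
theorem norm_one_le' : ‖(1 : H →L[ℂ] H)‖ ≤ 1 := ContinuousLinearMap.norm_id_le

theorem norm_dd_le (y : H →L[ℂ] H) (Y : HH H) (hY : ‖Y‖ ≤ 1) : ‖dd m y Y‖ ≤ 2 * ‖y‖ := by
  have h1 : ‖tm y 1 Y‖ ≤ ‖y‖ := by
    refine (norm_tm_apply_le y 1 Y).trans ?_
    calc ‖y‖ * ‖(1 : H →L[ℂ] H)‖ * ‖Y‖ ≤ ‖y‖ * 1 * 1 := by
          gcongr
          exact norm_one_le'
      _ = ‖y‖ := by ring
  have h2 : ‖tm 1 (m.bar (star y)) Y‖ ≤ ‖y‖ := by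
    refine (norm_tm_apply_le 1 _ Y).trans ?_
    have h3 : ‖m.bar (star y)‖ ≤ ‖y‖ := (m.norm_bar_le _).trans (norm_star y).le
    calc ‖(1 : H →L[ℂ] H)‖ * ‖m.bar (star y)‖ * ‖Y‖ ≤ 1 * ‖y‖ * 1 := by
          gcongr
          exact norm_one_le'
      _ = ‖y‖ := by ring
  have h3 := norm_sub_le (tm y 1 Y) (tm 1 (m.bar (star y)) Y)
  unfold dd
  linarith

theorem norm_dd_unitary {g : H →L[ℂ] H} (hg : g ∈ unitary (H →L[ℂ] H)) (Y : HH H) :
    ‖dd m g Y‖ = ‖m.pi g Y - Y‖ := by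
  rw [← norm_tm_unitary (one_mem _) (m.bar_unitary hg) (dd m g Y), dd, map_sub, tm_tm, tm_tm,
    ← m.bar_mul, Unitary.mul_star_self_of_mem hg, m.bar_one, one_mul, mul_one, mul_one, tm_one]
  rfl

theorem norm_sq_le_dd (y : H →L[ℂ] H) (Y : HH H) :
    ‖tm y 1 Y‖ ^ 2 ≤ 2 * (⟪Y, m.pi y Y⟫_ℂ).re + ‖dd m y Y‖ ^ 2 := by
  have h1 : ⟪tm 1 (m.bar (star y)) Y, tm y 1 Y⟫_ℂ = ⟪Y, m.pi y Y⟫_ℂ := by
    have h2 : m.pi y Y = tm 1 (m.bar y) (tm y 1 Y) := by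
      rw [tm_tm, one_mul, mul_one]
      rfl
    rw [h2, inner_tm 1 (m.bar y), star_one, m.bar_star]
  have h3 := norm_sub_sq (𝕜 := ℂ) (tm 1 (m.bar (star y)) Y) (tm y 1 Y)
  rw [h1, norm_sub_rev] at h3
  have h4 : ‖dd m y Y‖ ^ 2 = ‖tm 1 (m.bar (star y)) Y‖ ^ 2 - 2 * (⟪Y, m.pi y Y⟫_ℂ).re +
      ‖tm y 1 Y‖ ^ 2 := h3
  nlinarith [sq_nonneg ‖tm 1 (m.bar (star y)) Y‖]

theorem sum_inner_pi {ι : Type} [Fintype ι] (b : ι → H →L[ℂ] H) (Y : HH H) :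
    ∑ l, ∑ l', (⟪Y, m.pi (star (b l') * b l) Y⟫_ℂ).re = ‖m.Sop b Y‖ ^ 2 := by
  have h1 : ∀ l l', ⟪Y, m.pi (star (b l') * b l) Y⟫_ℂ = ⟪m.pi (b l') Y, m.pi (b l) Y⟫_ℂ := by
    intro l l'
    rw [m.pi_mul, mul_apply_eq_comp, m.inner_pi, star_star]
  have h2 : ‖m.Sop b Y‖ ^ 2 = (⟪m.Sop b Y, m.Sop b Y⟫_ℂ).re :=
    (inner_self_eq_norm_sq (𝕜 := ℂ) _).symm
  rw [h2, Mod.Sop, sum_apply, inner_sum, Complex.re_sum]
  refine Finset.sum_congr rfl fun l _ => ?_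
  rw [sum_inner, Complex.re_sum]
  exact Finset.sum_congr rfl fun l' _ => by rw [h1]

theorem main_le {ι : Type} [Fintype ι] (b : ι → H →L[ℂ] H) (Y : HH H) (hY : ‖Y‖ ≤ 1) :
    ∑ l, ∑ l', ‖tm (star (b l') * b l) 1 Y‖ ^ 2 ≤
      2 * ‖m.Sop b‖ ^ 2 + ∑ l, ∑ l', ‖dd m (star (b l') * b l) Y‖ ^ 2 := by
  have h1 : ‖m.Sop b Y‖ ≤ ‖m.Sop b‖ :=
    ((m.Sop b).le_opNorm Y).trans (mul_le_of_le_one_right (norm_nonneg _) hY)
  have h2 : ‖m.Sop b Y‖ ^ 2 ≤ ‖m.Sop b‖ ^ 2 := by gcongr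
  have h3 : ∑ l, ∑ l', ‖tm (star (b l') * b l) 1 Y‖ ^ 2 ≤
      ∑ l, ∑ l', (2 * (⟪Y, m.pi (star (b l') * b l) Y⟫_ℂ).re +
        ‖dd m (star (b l') * b l) Y‖ ^ 2) :=
    Finset.sum_le_sum fun l _ => Finset.sum_le_sum fun l' _ => norm_sq_le_dd m _ Y
  simp only [Finset.sum_add_distrib, ← Finset.mul_sum] at h3
  rw [sum_inner_pi] at h3
  linarith

/-- The weighted family of commutators as one vector. -/
def qv {J : Type} [Fintype J] (l : J → ℝ) (Y : J → HH H) (y : H →L[ℂ] H) :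
    PiLp 2 (fun _ : J => HH H) :=
  WithLp.toLp 2 fun j => ((√(l j) : ℝ) : ℂ) • dd m y (Y j)

theorem qv_add {J : Type} [Fintype J] (l : J → ℝ) (Y : J → HH H) (x y : H →L[ℂ] H) :
    qv m l Y (x + y) = qv m l Y x + qv m l Y y := by
  ext j
  simp only [qv, PiLp.add_apply, dd_add, smul_add]

theorem qv_smul {J : Type} [Fintype J] (l : J → ℝ) (Y : J → HH H) (c : ℂ) (y : H →L[ℂ] H) :
    qv m l Y (c • y) = c • qv m l Y y := by
  ext j
  simp only [qv, dd_smul]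
  exact smul_comm _ _ _

theorem norm_qv_sq {J : Type} [Fintype J] {l : J → ℝ} (hl : ∀ j, 0 ≤ l j) (Y : J → HH H)
    (y : H →L[ℂ] H) : ‖qv m l Y y‖ ^ 2 = ∑ j, l j * ‖dd m y (Y j)‖ ^ 2 := by
  rw [PiLp.norm_sq_eq_of_L2]
  refine Finset.sum_congr rfl fun j _ => ?_
  simp only [qv]
  rw [norm_smul, Complex.norm_real, Real.norm_eq_abs, mul_pow, sq_abs, Real.sq_sqrt (hl j)]

theorem norm_qv_le {J : Type} [Fintype J] {l : J → ℝ} (hl : Prob l) (Y : J → HH H)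
    (hY : ∀ j, ‖Y j‖ ≤ 1) (y : H →L[ℂ] H) : ‖qv m l Y y‖ ≤ 2 * ‖y‖ := by
  refine (pow_le_pow_iff_left₀ (norm_nonneg _) (by positivity) two_ne_zero).1 ?_
  rw [norm_qv_sq m hl.1]
  calc ∑ j, l j * ‖dd m y (Y j)‖ ^ 2 ≤ ∑ j, l j * (2 * ‖y‖) ^ 2 := by
        refine Finset.sum_le_sum fun j _ => mul_le_mul_of_nonneg_left ?_ (hl.1 j)
        gcongr
        exact norm_dd_le m y (Y j) (hY j)
    _ = (2 * ‖y‖) ^ 2 := by rw [← Finset.sum_mul, hl.2, one_mul]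

/-- The inequality for one weighted family, tested against a vector. -/
theorem step_le {N : VonNeumannAlgebra H} {C : ℝ} {J : Type} [Fintype J] {l : J → ℝ} (hl : Prob l)
    (Y : J → HH H) (hY : ∀ j, ‖Y j‖ ≤ 1) (z : J → H)
    (hz : ∀ j, ∀ y ∈ N.commutant, ‖y (z j)‖ ≤ C * ‖tm y 1 (Y j)‖) (ζ : H)
    {ι : Type} [Fintype ι] (b : ι → H →L[ℂ] H) (hb : ∀ i, b i ∈ N.commutant) :
    ∑ i, ∑ i', (2 * (⟪star (star (b i') * b i) ((star (b i') * b i) ζ),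
        ∑ j, (l j : ℂ) • z j⟫_ℂ).re - ‖(star (b i') * b i) ζ‖ ^ 2) ≤
      C ^ 2 * (2 * ‖m.Sop b‖ ^ 2 + ∑ i, ∑ i', ‖qv m l Y (star (b i') * b i)‖ ^ 2) := by
  have h1 : ∀ y ∈ N.commutant, 2 * (⟪star y (y ζ), ∑ j, (l j : ℂ) • z j⟫_ℂ).re - ‖y ζ‖ ^ 2 ≤
      ∑ j, l j * (C ^ 2 * ‖tm y 1 (Y j)‖ ^ 2) := by
    intro y hy
    have h2 : 2 * (⟪star y (y ζ), ∑ j, (l j : ℂ) • z j⟫_ℂ).re - ‖y ζ‖ ^ 2 =
        ∑ j, l j * (2 * (⟪y ζ, y (z j)⟫_ℂ).re - ‖y ζ‖ ^ 2) := by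
      rw [inner_sum, Complex.re_sum]
      simp only [mul_sub, Finset.sum_sub_distrib, ← Finset.sum_mul, hl.2, one_mul, Finset.mul_sum]
      congr 1
      refine Finset.sum_congr rfl fun j _ => ?_
      rw [inner_smul_right, inner_star_left, Complex.re_ofReal_mul]
      ring
    rw [h2]
    refine Finset.sum_le_sum fun j _ => mul_le_mul_of_nonneg_left ?_ (hl.1 j)
    have h3 : ‖y ζ - y (z j)‖ ^ 2 = ‖y ζ‖ ^ 2 - 2 * (⟪y ζ, y (z j)⟫_ℂ).re + ‖y (z j)‖ ^ 2 :=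
      norm_sub_sq (𝕜 := ℂ) _ _
    have h4 : ‖y (z j)‖ ^ 2 ≤ (C * ‖tm y 1 (Y j)‖) ^ 2 := by
      gcongr
      exact hz j y hy
    rw [mul_pow] at h4
    nlinarith [sq_nonneg ‖y ζ - y (z j)‖]
  have h5 : ∀ i i', star (b i') * b i ∈ N.commutant := fun i i' =>
    mul_mem (star_mem (hb i')) (hb i)
  calc _ ≤ ∑ i, ∑ i', ∑ j, l j * (C ^ 2 * ‖tm (star (b i') * b i) 1 (Y j)‖ ^ 2) :=
        Finset.sum_le_sum fun i _ => Finset.sum_le_sum fun i' _ => h1 _ (h5 i i')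
    _ = ∑ j, l j * (C ^ 2 * ∑ i, ∑ i', ‖tm (star (b i') * b i) 1 (Y j)‖ ^ 2) := by
        simp only [Finset.mul_sum]
        rw [Finset.sum_congr rfl fun i _ => Finset.sum_comm, Finset.sum_comm]
    _ ≤ ∑ j, l j * (C ^ 2 * (2 * ‖m.Sop b‖ ^ 2 +
          ∑ i, ∑ i', ‖dd m (star (b i') * b i) (Y j)‖ ^ 2)) := by
        refine Finset.sum_le_sum fun j _ => mul_le_mul_of_nonneg_left ?_ (hl.1 j)
        exact mul_le_mul_of_nonneg_left (main_le m b (Y j) (hY j)) (sq_nonneg C)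
    _ = C ^ 2 * (2 * ‖m.Sop b‖ ^ 2 + ∑ i, ∑ i', ‖qv m l Y (star (b i') * b i)‖ ^ 2) := by
        have h6 : ∑ i, ∑ i', ‖qv m l Y (star (b i') * b i)‖ ^ 2 =
            ∑ j, l j * ∑ i, ∑ i', ‖dd m (star (b i') * b i) (Y j)‖ ^ 2 := by
          simp only [norm_qv_sq m hl.1, Finset.mul_sum]
          rw [Finset.sum_congr rfl fun i _ => Finset.sum_comm, Finset.sum_comm]
        rw [h6]
        have h7 : ∀ j, l j * (C ^ 2 * (2 * ‖m.Sop b‖ ^ 2 +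
            ∑ i, ∑ i', ‖dd m (star (b i') * b i) (Y j)‖ ^ 2)) =
            l j * (C ^ 2 * (2 * ‖m.Sop b‖ ^ 2)) +
              C ^ 2 * (l j * ∑ i, ∑ i', ‖dd m (star (b i') * b i) (Y j)‖ ^ 2) := fun j => by ring
        simp only [h7, Finset.sum_add_distrib, ← Finset.sum_mul, hl.2, ← Finset.mul_sum]
        ring

end PLim2

open PLim2

theorem lim2St : Lim2St := by
  classical
  intro H _ _ _ m N ξ C c K hC hN
  have hθ : ∀ k : ℕ, (0 : ℝ) < 1 / ((k : ℝ) + 1) := fun k => Nat.one_div_pos_of_nat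
  choose J hJ l Y hl hY hF using
    fun n : Finset {g : H →L[ℂ] H // UQ N g} × ℕ => hN n.1 _ (hθ n.2)
  choose z hz1 hz2 using fun n j => (hY n j).2
  let 𝒰 : Ultrafilter (Finset {g : H →L[ℂ] H // UQ N g} × ℕ) := Ultrafilter.of atTop
  have h𝒰 : (𝒰 : Filter (Finset {g : H →L[ℂ] H // UQ N g} × ℕ)) ≤ atTop := Ultrafilter.of_le _
  have hzn : ∀ n j, ‖z n j‖ ≤ C := fun n j => by
    have h := hz2 n j 1 (one_mem _)
    rw [tm_one] at h
    exact h.trans (mul_le_of_le_one_right hC.le (hY n j).1)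
  have hZ : ∀ n, ‖∑ j, (l n j : ℂ) • z n j‖ ≤ C := fun n => by
    refine (norm_sum_le _ _).trans ?_
    calc ∑ j, ‖(l n j : ℂ) • z n j‖ ≤ ∑ j, l n j * C := by
          refine Finset.sum_le_sum fun j _ => ?_
          rw [norm_smul, Complex.norm_real, Real.norm_of_nonneg ((hl n).1 j)]
          exact mul_le_mul_of_nonneg_left (hzn n j) ((hl n).1 j)
      _ = C := by rw [← Finset.sum_mul, (hl n).2, one_mul]
  obtain ⟨ζ, hζ⟩ := exists_vlim 𝒰 (fun n => ∑ j, (l n j : ℂ) • z n j) C hZ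
  have hq0 : ∀ y n, ‖qv m (l n) (Y n) y‖ ≤ 2 * ‖y‖ := fun y n =>
    norm_qv_le m (hl n) (Y n) (fun j => (hY n j).1) y
  choose q hq using fun y : H →L[ℂ] H => exists_rlim 𝒰 (fun n => ‖qv m (l n) (Y n) y‖) (2 * ‖y‖)
    (fun n => by rw [abs_norm]; exact hq0 y n)
  have hadd : ∀ x y, q (x + y) ≤ q x + q y := fun x y =>
    le_of_tendsto_of_tendsto' (hq (x + y)) ((hq x).add (hq y)) fun n => by
      rw [qv_add]
      exact norm_add_le _ _
  have hsmul : ∀ (a : ℂ) y, q (a • y) = ‖a‖ * q y := fun a y =>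
    tendsto_nhds_unique (hq (a • y)) (by
      simp only [qv_smul, norm_smul]
      exact (hq y).const_mul _)
  refine ⟨ζ, Seminorm.of q hadd hsmul, ?_, fun y => le_of_tendsto' (hq y) (hq0 y), ?_, ?_, ?_⟩
  · refine ge_of_tendsto' ((Complex.continuous_re.tendsto _).comp (hζ ξ)) fun n => ?_
    change c ≤ (⟪ξ, ∑ j, (l n j : ℂ) • z n j⟫_ℂ).re
    rw [inner_sum, Complex.re_sum]
    calc c = ∑ j, l n j * c := by rw [← Finset.sum_mul, (hl n).2, one_mul]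
      _ ≤ _ := by
          refine Finset.sum_le_sum fun j _ => ?_
          rw [inner_smul_right, Complex.re_ofReal_mul]
          exact mul_le_mul_of_nonneg_left (hz1 n j) ((hl n).1 j)
  · refine tendsto_nhds_unique (hq 1) ?_
    have h : ∀ n, ‖qv m (l n) (Y n) 1‖ = 0 := fun n => by
      refine pow_eq_zero_iff (two_ne_zero) |>.1 ?_
      rw [norm_qv_sq m (hl n).1]
      simp only [dd_one, norm_zero]
      simp
    simp only [h]
    exact tendsto_const_nhds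
  · intro g hg
    have h1 : Tendsto (fun n : Finset {g : H →L[ℂ] H // UQ N g} × ℕ =>
        K * m.del ξ g ^ 2 + 1 / ((n.2 : ℝ) + 1)) (𝒰 : Filter _) (𝓝 (K * m.del ξ g ^ 2 + 0)) := by
      refine tendsto_const_nhds.add (Tendsto.mono_left ?_ h𝒰)
      refine (tendsto_one_div_add_atTop_nhds_zero_nat (𝕜 := ℝ)).comp ?_
      rw [← prod_atTop_atTop_eq]
      exact tendsto_snd
    rw [add_zero] at h1
    refine le_of_tendsto_of_tendsto ((hq g).pow 2) h1 ?_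
    refine (eventually_ge_atTop (({⟨g, hg⟩} : Finset {g : H →L[ℂ] H // UQ N g}), (0 : ℕ))).filter_mono
      h𝒰 |>.mono fun n hn => ?_
    have h2 := hF n ⟨g, hg⟩ (hn.1 (Finset.mem_singleton_self _))
    change ‖qv m (l n) (Y n) g‖ ^ 2 ≤ _
    rw [norm_qv_sq m (hl n).1]
    simp only [norm_dd_unitary m hg.1]
    exact h2
  · intro ι _ b hb
    have h1 : Tendsto (fun n => ∑ i, ∑ i', (2 * (⟪star (star (b i') * b i) ((star (b i') * b i) ζ),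
        ∑ j, (l n j : ℂ) • z n j⟫_ℂ).re - ‖(star (b i') * b i) ζ‖ ^ 2)) (𝒰 : Filter _)
        (𝓝 (∑ i, ∑ i', ‖(star (b i') * b i) ζ‖ ^ 2)) := by
      refine tendsto_finsetSum _ fun i _ => tendsto_finsetSum _ fun i' _ => ?_
      have h2 := (((Complex.continuous_re.tendsto _).comp
        (hζ (star (star (b i') * b i) ((star (b i') * b i) ζ)))).const_mul 2).sub_const
        (‖(star (b i') * b i) ζ‖ ^ 2)
      have h3 : (⟪star (star (b i') * b i) ((star (b i') * b i) ζ), ζ⟫_ℂ).re =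
          ‖(star (b i') * b i) ζ‖ ^ 2 := by
        rw [inner_star_left]
        exact inner_self_eq_norm_sq (𝕜 := ℂ) _
      rw [h3, show 2 * ‖(star (b i') * b i) ζ‖ ^ 2 - ‖(star (b i') * b i) ζ‖ ^ 2 =
        ‖(star (b i') * b i) ζ‖ ^ 2 by ring] at h2
      exact h2
    have h4 : Tendsto (fun n => C ^ 2 * (2 * ‖m.Sop b‖ ^ 2 +
        ∑ i, ∑ i', ‖qv m (l n) (Y n) (star (b i') * b i)‖ ^ 2)) (𝒰 : Filter _)
        (𝓝 (C ^ 2 * (2 * ‖m.Sop b‖ ^ 2 + ∑ i, ∑ i', q (star (b i') * b i) ^ 2))) :=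
      (tendsto_const_nhds.add (tendsto_finsetSum _ fun i _ => tendsto_finsetSum _ fun i' _ =>
        (hq _).pow 2)).const_mul _
    exact le_of_tendsto_of_tendsto' h1 h4 fun n =>
      step_le m (hl n) (Y n) (fun j => (hY n j).1) (z n) (hz2 n) ζ b hb

end Pool.Agent.P.MP_7e3bdd_an.NI
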