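import Pool.Agent.P.MP_7e3bdd_an.NI.Spec

/-!
From a bound on unitaries to a bound on all elements of the commutant.
-/

set_option autoImplicit false

open scoped InnerProductSpace BigOperators BoundedContinuousFunction ComplexConjugate TensorProduct
  ComplexOrder Topology
open MeasureTheory Filter

noncomputable section

namespace Pool.Agent.P.MP_7e3bdd_an.NI

open RW

namespace PLim3

variable {H : Type} [NormedAddCommGroup H] [InnerProductSpace ℂ H] [CompleteSpace H]
  (m : Mod H) (ξ : H)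

theorem L_add (a b : H →L[ℂ] H) : m.L ξ (a + b) = m.L ξ a + m.L ξ b := by
  simp only [Mod.L, star_add, add_apply, map_add]
  abel

theorem L_sub (a b : H →L[ℂ] H) : m.L ξ (a - b) = m.L ξ a - m.L ξ b := by
  simp only [Mod.L, star_sub, sub_apply, map_sub]
  abel

theorem L_smul (c : ℂ) (a : H →L[ℂ] H) : m.L ξ (c • a) = c • m.L ξ a := by
  simp [Mod.L, map_smulₛₗ, smul_sub]

theorem norm_L_star (a : H →L[ℂ] H) : ‖m.L ξ (star a)‖ = ‖m.L ξ a‖ := by
  have h : m.L ξ (star a) = -m.J (m.L ξ a) := by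
    simp only [Mod.L, star_star, map_sub, m.JJ]
    abel
  rw [h, norm_neg, m.J.norm_map]

theorem L_cont : Continuous fun a : H →L[ℂ] H => m.L ξ a := by
  unfold Mod.L
  have h := m.J.continuous
  fun_prop

theorem del_eq (hJ : m.J ξ = ξ) {g : H →L[ℂ] H} (hg : g ∈ unitary (H →L[ℂ] H)) :
    m.del ξ g = ‖m.L ξ (g - 1)‖ := by
  have h1 : m.L ξ 1 = 0 := by simp [Mod.L, hJ]
  have h2 : g (star g ξ) = ξ := by
    rw [← mul_apply_eq_comp, Unitary.mul_star_self_of_mem hg]
    rfl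
  have h3 : g (m.bar g ξ) - ξ = -g (m.L ξ (star g)) := by
    simp only [Mod.L, star_star, map_sub, h2, Mod.bar_apply, hJ]
    abel
  rw [L_sub, h1, sub_zero, Mod.del, h3, norm_neg, ← norm_L_star m ξ g]
  exact ContinuousLinearMap.norm_map_of_mem_unitary hg _

theorem skew (N : VonNeumannAlgebra H) (hJ : m.J ξ = ξ) (K : ℝ) (q : Seminorm ℂ (H →L[ℂ] H))
    (hK : 0 ≤ K) (hq : ∀ y, q y ≤ 2 * ‖y‖) (h1 : q 1 = 0)
    (hU : ∀ g, UQ N g → q g ^ 2 ≤ K * m.del ξ g ^ 2) {x : H →L[ℂ] H} (hx : x ∈ N.commutant)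
    (hs : star x = -x) : q x ≤ √K * ‖m.L ξ x‖ := by
  have hc : Continuous q := by
    refine (LipschitzWith.of_dist_le_mul (K := 2) fun a b => ?_).continuous
    rw [Real.dist_eq, dist_eq_norm]
    exact (abs_sub_map_le_sub q a b).trans (by exact_mod_cast hq _)
  have hcl : IsClosed {y : H →L[ℂ] H | q y ≤ √K * ‖m.L ξ y‖} :=
    isClosed_le hc (continuous_const.mul (L_cont m ξ).norm)
  let _ : NormedAlgebra ℚ (H →L[ℂ] H) := NormedAlgebra.restrictScalars ℚ ℂ _
  have hd := hasDerivAt_exp_smul_const (𝕂 := ℝ) x (0 : ℝ)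
  rw [hasDerivAt_iff_tendsto_slope_zero] at hd
  simp only [zero_smul, NormedSpace.exp_zero, one_mul, zero_add] at hd
  refine hcl.mem_of_tendsto hd (Eventually.of_forall fun t => ?_)
  have hu : NormedSpace.exp (t • x) ∈ unitary (H →L[ℂ] H) :=
    NormedSpace.exp_mem_unitary_of_mem_skewAdjoint (by
      rw [skewAdjoint.mem_iff, star_smul, hs, star_trivial, smul_neg])
  have hm : NormedSpace.exp (t • x) ∈ N.commutant := by
    rw [VonNeumannAlgebra.mem_commutant_iff]
    intro c hc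
    have h : Commute c x := VonNeumannAlgebra.mem_commutant_iff.1 hx c hc
    exact (h.smul_right t).exp_right
  have h2 := hU _ ⟨hu, hm⟩
  rw [del_eq m ξ hJ hu] at h2
  have h3 : q (NormedSpace.exp (t • x)) ≤ √K * ‖m.L ξ (NormedSpace.exp (t • x) - 1)‖ := by
    refine abs_le_of_sq_le_sq' ?_ (by positivity) |>.2
    rw [mul_pow, Real.sq_sqrt hK]
    exact h2
  have h4 : q (NormedSpace.exp (t • x) - 1) ≤ q (NormedSpace.exp (t • x)) := by
    have := map_sub_le_add q (NormedSpace.exp (t • x)) 1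
    rwa [h1, add_zero] at this
  show q (t⁻¹ • (NormedSpace.exp (t • x) - 1)) ≤
    √K * ‖m.L ξ (t⁻¹ • (NormedSpace.exp (t • x) - 1))‖
  rw [← Complex.coe_smul, L_smul, map_smul_eq_mul, norm_smul, mul_left_comm]
  exact mul_le_mul_of_nonneg_left (h4.trans h3) (norm_nonneg _)

end PLim3

open PLim3 in
theorem lim3St : Lim3St := by
  intro H _ _ _ m N ξ hJ K q hK hq h1 hU y hy
  have hy' : star y ∈ N.commutant := star_mem hy
  have hsm : ∀ (c : ℂ) (a : H →L[ℂ] H), a ∈ N.commutant → c • a ∈ N.commutant := fun c a ha =>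
    N.commutant.toStarSubalgebra.smul_mem ha c
  have a1 := skew m ξ N hJ K q hK hq h1 hU (sub_mem hy hy') (by rw [star_sub, star_star, neg_sub])
  have a2 := skew m ξ N hJ K q hK hq h1 hU (hsm Complex.I _ (add_mem hy hy')) (by
    rw [star_smul, star_add, star_star, add_comm, Complex.star_def, Complex.conj_I, neg_smul])
  rw [L_smul, map_smul_eq_mul, norm_smul, Complex.norm_I, one_mul, one_mul, L_add] at a2
  rw [L_sub] at a1
  have b1 := norm_sub_le (m.L ξ y) (m.L ξ (star y))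
  have b2 := norm_add_le (m.L ξ y) (m.L ξ (star y))
  rw [norm_L_star] at b1 b2
  have c1 := map_add_le_add q (y - star y) (y + star y)
  have c2 : y - star y + (y + star y) = (2 : ℂ) • y := by
    rw [two_smul]
    abel
  rw [c2, map_smul_eq_mul, Complex.norm_two] at c1
  have s0 := Real.sqrt_nonneg K
  have d : q y ≤ 2 * √K * ‖m.L ξ y‖ := by
    nlinarith [mul_le_mul_of_nonneg_left b1 s0, mul_le_mul_of_nonneg_left b2 s0]
  calc q y ^ 2 ≤ (2 * √K * ‖m.L ξ y‖) ^ 2 := pow_le_pow_left₀ (apply_nonneg q y) d 2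
    _ = 4 * K * ‖m.L ξ y‖ ^ 2 := by rw [mul_pow, mul_pow, Real.sq_sqrt hK]; norm_num

end Pool.Agent.P.MP_7e3bdd_an.NI
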