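import Pool.Agent.P.MP_7e3bdd_an.NI.Spec

/-!
Products of two elements of one spectral window have low frequency.
-/

set_option autoImplicit false

open scoped InnerProductSpace BigOperators BoundedContinuousFunction ComplexConjugate TensorProduct
  ComplexOrder
open MeasureTheory

noncomputable section

namespace Pool.Agent.P.MP_7e3bdd_an.NI

open RW

namespace PLow

theorem cont_ex : Continuous fun p : ℝ × ℝ => ex p.1 p.2 := by
  simp only [ex_apply]
  fun_prop

theorem fam1 (F : ℝ →ᵇ ℂ) : Fam fun t => F * ex t := by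
  refine ⟨?_, ‖F‖, fun t r => ?_⟩
  · simp only [BoundedContinuousFunction.mul_apply]
    exact (F.continuous.comp continuous_snd).mul cont_ex
  · rw [BoundedContinuousFunction.mul_apply, norm_mul, norm_ex, mul_one]
    exact F.norm_coe_le_norm r

theorem fam2 (F : ℝ →ᵇ ℂ) : Fam fun t => ex (-t) * F := by
  refine ⟨?_, ‖F‖, fun t r => ?_⟩
  · simp only [BoundedContinuousFunction.mul_apply]
    exact (cont_ex.comp (continuous_fst.neg.prodMk continuous_snd)).mul
      (F.continuous.comp continuous_snd)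
  · rw [BoundedContinuousFunction.mul_apply, norm_mul, norm_ex, one_mul]
    exact F.norm_coe_le_norm r

theorem ex_sub (t r s : ℝ) : ex t r * ex (-t) s = ex t (r - s) := by
  simp only [ex_apply, ← Complex.exp_add]
  congr 1
  push_cast
  ring

variable {H : Type} [NormedAddCommGroup H] [InnerProductSpace ℂ H] [CompleteSpace H]

theorem kill (h1 : BTSt) [TopologicalSpace.SeparableSpace H] (m : Mod H) {ε ρ : ℝ} {g : ℝ → ℂ}
    {F : ℝ →ᵇ ℂ} (hg : Integrable g) (hF : FT g F) (h0 : ∀ r, ε ≤ |r - ρ| → F r = 0)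
    {a' b' : H →L[ℂ] H} (hs : m.IsSg g a' b') (u : H) (F0 : ℝ →ᵇ ℂ)
    (hF0 : ∀ s, |s| ≤ 2 * ε → F0 s = 0) : m.Φ F0 (star b' (m.Φ F u)) = 0 := by
  refine ext_inner_right ℂ fun η => ?_
  rw [inner_zero_left, ← star_star F0, ← m.inner_Φ, inner_star_left, hs]
  have key := h1 H m Unit (fun _ => g) (fun _ t => star F * ex t) (fun _ t => ex (-t) * star F0)
    (fun _ => hg) (fun _ => fam1 _) (fun _ => fam2 _) (fun r s => ?_) a' u η
  · rw [Fintype.sum_unique] at key
    rw [← key]
    refine integral_congr_ae (Filter.Eventually.of_forall fun t => ?_)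
    simp only [Mod.sig, Mod.U, mul_apply_eq_comp, ← m.Φ_Φ]
    rw [m.inner_Φ (star F), star_star]
  · rw [Fintype.sum_unique]
    have e : ∀ t, g t * ((star F * ex t) r * (ex (-t) * star F0) s) =
        (conj (F r) * conj (F0 s)) * (g t * ex t (r - s)) := fun t => by
      rw [← ex_sub]
      simp only [BoundedContinuousFunction.mul_apply, BoundedContinuousFunction.star_apply,
        Complex.star_def]
      ring
    simp only [e]
    rw [integral_const_mul, ← hF]
    by_cases c1 : ε ≤ |r - ρ|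
    · rw [h0 r c1]; simp
    by_cases c2 : ε ≤ |r - s - ρ|
    · rw [h0 _ c2]; simp
    rw [not_le, abs_lt] at c1 c2
    rw [hF0 s (abs_le.2 ⟨by linarith [c1.1, c2.2], by linarith [c1.2, c2.1]⟩)]
    simp

/-- The truncated exponential. -/
def Gc (ε : ℝ) : ℝ →ᵇ ℂ :=
  mkR (fun r => Real.exp (max (-ε) (min (r / 2) ε))) (by fun_prop) (Real.exp |ε|) fun r => by
    rw [abs_of_pos (Real.exp_pos _), Real.exp_le_exp]
    exact max_le (neg_le_abs ε) ((min_le_right _ _).trans (le_abs_self ε))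

theorem Gc_apply (ε r : ℝ) : Gc ε r = ((Real.exp (max (-ε) (min (r / 2) ε)) : ℝ) : ℂ) := rfl

theorem Gc_om {ε s : ℝ} (h : |s| ≤ 2 * ε) : (om * Gc ε - omP) s = 0 := by
  rw [abs_le] at h
  rw [BoundedContinuousFunction.sub_apply, BoundedContinuousFunction.mul_apply, Gc_apply,
    min_eq_left (by linarith [h.2]), max_eq_right (by linarith [h.1]), om_apply, omP_apply,
    ← Complex.ofReal_mul, ← Complex.ofReal_sub, Complex.ofReal_eq_zero]
  have e : Real.exp s = Real.exp (s / 2) * Real.exp (s / 2) := by rw [← Real.exp_add]; ring_nf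
  rw [div_mul_eq_mul_div, mul_assoc, ← e, sub_self]

theorem Gc_le {ε : ℝ} (hε : 0 < ε) (r : ℝ) : ‖(1 - Gc ε) r‖ ≤ Real.exp ε - 1 := by
  rw [BoundedContinuousFunction.sub_apply, Gc_apply, BoundedContinuousFunction.coe_one,
    Pi.one_apply, ← Complex.ofReal_one, ← Complex.ofReal_sub, Complex.norm_real, Real.norm_eq_abs]
  have h1 : Real.exp (max (-ε) (min (r / 2) ε)) ≤ Real.exp ε :=
    Real.exp_le_exp.2 (max_le (by linarith) (min_le_right _ _))
  have h2 : Real.exp (-ε) ≤ Real.exp (max (-ε) (min (r / 2) ε)) :=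
    Real.exp_le_exp.2 (le_max_left _ _)
  have h3 := Real.add_one_le_exp ε
  have h4 := Real.add_one_le_exp (-ε)
  exact abs_le.2 ⟨by linarith, by linarith⟩

end PLow

theorem lowSt (h1 : BTSt) (h2 : DvSt) (h3 : ContSt) : LowSt := by
  intro H _ _ _ _ m N ξ hT ε ρ g F hε hg hF h0 a' b b' u hb hb' hs hu
  have hy : star b' * b ∈ N.commutant := mul_mem (star_mem hb') hb
  have k1 := PLow.kill h1 m hg hF h0 hs u _ fun s => PLow.Gc_om (ε := ε)
  rw [← hu, ← mul_apply_eq_comp (star b') b ξ, map_sub, sub_apply, ← m.Φ_Φ,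
    ← hT.S _ hy, ← map_sub] at k1
  have k2 := sub_eq_zero.1 (m.om_inj k1)
  have k3 : m.L ξ (star b' * b) = m.Φ (1 - PLow.Gc ε) ((star b' * b) ξ) := by
    rw [Mod.L, ← k2, map_sub, map_one]
    rfl
  rw [k3]
  exact m.norm_Φ_apply_le _ (PLow.Gc_le hε) _

end Pool.Agent.P.MP_7e3bdd_an.NI
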