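import Pool.Agent.P.MP_7e3bdd_an.NI.Spec

/-!
The marginal of the limit functional.
-/

set_option autoImplicit false

open scoped InnerProductSpace BigOperators BoundedContinuousFunction ComplexConjugate TensorProduct
  ComplexOrder
open MeasureTheory

noncomputable section

namespace Pool.Agent.P.MP_7e3bdd_an.NI

open RW

namespace PMar

theorem first_order (z : ℂ) (K : ℝ) (h : ∀ t : ℂ, 0 ≤ 2 * (t * z).re + ‖t‖ ^ 2 * K) : z = 0 := by
  by_contra hz
  have h0 : 0 < ‖z‖ ^ 2 := by positivity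
  have hK : 0 < |K| + 1 := by positivity
  have h1 := h (-(((|K| + 1)⁻¹ : ℝ) : ℂ) * conj z)
  have h2 : (-(((|K| + 1)⁻¹ : ℝ) : ℂ) * conj z * z).re = -(|K| + 1)⁻¹ * ‖z‖ ^ 2 := by
    rw [mul_assoc, Complex.conj_mul', ← Complex.ofReal_neg, ← Complex.ofReal_pow,
      ← Complex.ofReal_mul, Complex.ofReal_re]
  rw [h2, norm_mul, norm_neg, Complex.norm_real, Complex.norm_conj, Real.norm_eq_abs,
    abs_of_pos (inv_pos.2 hK)] at h1
  have h3 : (|K| + 1)⁻¹ * K < 1 := by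
    rw [inv_mul_lt_iff₀ hK]
    linarith [le_abs_self K]
  have h4 : 0 < (|K| + 1)⁻¹ * ‖z‖ ^ 2 := by positivity
  nlinarith

variable {H : Type} [NormedAddCommGroup H] [InnerProductSpace ℂ H] [CompleteSpace H]

theorem null (h1 : BiLemSt) {ω : (H →L[ℂ] H) →ₗ[ℂ] (H →L[ℂ] H) →ₗ[ℂ] ℂ} (hω : BiPos ω)
    {e f : H →L[ℂ] H} (he : IsStarProjection e) (hf : IsStarProjection f)
    (h : (ω 1 1).re ≤ (ω e f).re) (p q : H →L[ℂ] H) :
    ω p q = ω (e * p) (f * q) ∧ ω p q = ω (p * e) (q * f) := by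
  have hz : √(bv ω ![1, -e] ![1, f] 1 ![1, -e] ![1, f]).re = 0 := by
    refine Real.sqrt_eq_zero'.2 ?_
    simp [bv, he.isSelfAdjoint.star_eq, hf.isSelfAdjoint.star_eq, he.isIdempotentElem.eq,
      hf.isIdempotentElem.eq]
    linarith
  have h2 := (h1 H ω hω).2 (Fin 2) Unit ![1, -e] ![1, f] 1 (fun _ => p) (fun _ => q)
  have h3 := (h1 H ω hω).2 Unit (Fin 2) (fun _ => star p) (fun _ => star q) 1 ![1, -e] ![1, f]
  rw [hz, mul_zero, zero_mul, norm_le_zero_iff] at h2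
  rw [hz, mul_zero, norm_le_zero_iff] at h3
  simp [bv, he.isSelfAdjoint.star_eq, hf.isSelfAdjoint.star_eq] at h2 h3
  exact ⟨add_neg_eq_zero.1 h2, add_neg_eq_zero.1 h3⟩

end PMar

open PMar in
theorem marSt (h1 : BiLemSt) (h2 : DSt) : MarSt := by
  intro H _ _ _ m N ξ tt e co ω hω h11 hs hD
  have he := co.proj
  have ee : e * e = e := he.isIdempotentElem.eq
  have se : star e = e := he.isSelfAdjoint.star_eq
  have hf : IsStarProjection (m.bar e) :=
    ⟨by rw [IsIdempotentElem, ← m.bar_mul, ee], by rw [IsSelfAdjoint, ← m.bar_star, se]⟩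
  have ff : m.bar e * m.bar e = m.bar e := hf.isIdempotentElem.eq
  have hξ : m.bar e ξ = e ξ := by rw [m.bar_apply, tt.Jξ, co.J]
  have ie : ∀ x y : H, ⟪x, e y⟫_ℂ = ⟪e x, y⟫_ℂ := fun x y => by
    rw [← inner_star_right, se]
  have eex : ∀ x : H, e (e x) = e x := fun x => by rw [← mul_apply_eq_comp, ee]
  have hn : ⟪ξ, e (m.bar e ξ)⟫_ℂ = ((‖e ξ‖ ^ 2 : ℝ) : ℂ) := by
    rw [hξ, ie, inner_self_eq_norm_sq_to_K]
    simp
  have hDe : ‖m.D ξ e‖ ^ 2 = ‖e ξ‖ ^ 2 := by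
    have h := (h2 H m N ξ tt e co.mem).2.1
    rw [hn] at h
    exact_mod_cast h
  have hle : (ω 1 1).re ≤ (ω e (m.bar e)).re :=
    h11.trans (hDe.symm.le.trans (hD e ⟨co.mem, ee, ee⟩))
  have key : ∀ p q, ω p q = ω (e * p * e) (m.bar e * q * m.bar e) := fun p q =>
    (null h1 hω he hf hle p q).1.trans (null h1 hω he hf hle _ _).2
  refine ⟨fun p q => ?_, fun b hb => ?_⟩
  · rw [key p q, key p (m.bar e * q * m.bar e)]
    congr 1
    simp only [← mul_assoc, ff]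
    rw [mul_assoc _ (m.bar e) (m.bar e), ff]
  · obtain ⟨c, hc⟩ : ∃ c, c = e * b * e := ⟨_, rfl⟩
    have hcQ : c ∈ N.commutant := hc ▸ mul_mem (mul_mem co.mem hb) co.mem
    have ce : c * e = c := by rw [hc, mul_assoc _ e e, ee]
    have ec : e * c = c := by rw [hc, ← mul_assoc, ← mul_assoc, ee]
    have h00 : (ω e (m.bar e)).re ≤ ‖e ξ‖ ^ 2 := by
      have h := key 1 1
      rw [mul_one, mul_one, ee, ff] at h
      exact h ▸ h11
    have hb1 : ω b 1 = ω c (m.bar e) := by rw [key b 1, mul_one, ff, hc]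
    have hb2 : ⟪e ξ, b (e ξ)⟫_ℂ = ⟪ξ, c (m.bar e ξ)⟫_ℂ := by
      rw [hξ, hc]
      simp only [mul_apply_eq_comp]
      rw [ie, eex]
    have hb3 : ⟪ξ, e (m.bar c ξ)⟫_ℂ = conj ⟪ξ, c (m.bar e ξ)⟫_ℂ := by
      rw [ie, m.bar_apply, tt.Jξ, ← co.J, m.inner_JJ, inner_conj_symm, hξ,
        ← mul_apply_eq_comp c e, ce, ie, ← mul_apply_eq_comp e c, ec]
    have hb4 : ω e (m.bar c) = conj (ω c (m.bar e)) := by rw [hs e, m.bar_bar]
    rw [hb1, hb2, ← sub_eq_zero]
    refine first_order _ (ω c (m.bar c) - ⟪ξ, c (m.bar c ξ)⟫_ℂ).re fun t => ?_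
    have hm : e + t • c ∈ N.commutant :=
      add_mem co.mem (N.commutant.toStarSubalgebra.smul_mem hcQ t)
    have h3 := hD (e + t • c) ⟨hm, by rw [add_mul, smul_mul_assoc, ee, ce],
      by rw [mul_add, mul_smul_comm, ee, ec]⟩
    have h4 := congrArg Complex.re (h2 H m N ξ tt _ hm).2.1
    rw [Complex.ofReal_re] at h4
    rw [h4, m.bar_add, m.bar_smul] at h3
    simp only [map_add, map_smul, LinearMap.add_apply, LinearMap.smul_apply,
      add_apply, smul_apply, inner_add_right,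
      inner_smul_right, smul_eq_mul, hn, hb3, hb4] at h3
    rw [Complex.sq_norm, Complex.normSq_apply]
    simp only [Complex.add_re, Complex.mul_re, Complex.mul_im, Complex.conj_re, Complex.conj_im,
      Complex.sub_re, Complex.sub_im, Complex.ofReal_re, Complex.add_im] at h3 ⊢
    nlinarith

end Pool.Agent.P.MP_7e3bdd_an.NI
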