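import Pool.Agent.P.MP_7e3bdd_an.NI.Spec

/-! The module map attached to a vector with a given marginal. -/

set_option autoImplicit false

open scoped InnerProductSpace BigOperators BoundedContinuousFunction ComplexConjugate TensorProduct
  ComplexOrder
open MeasureTheory

noncomputable section

namespace Pool.Agent.P.MP_7e3bdd_an.NI

open RW

theorem modSt : ModSt := by
  intro H _ _ _ N η X hX
  let Q : Submodule ℂ (H →L[ℂ] H) := N.commutant.toStarSubalgebra.toSubalgebra.toSubmodule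
  let ev : Q →ₗ[ℂ] H := (ContinuousLinearMap.apply ℂ H η).toLinearMap ∘ₗ Q.subtype
  let U : Submodule ℂ H := (LinearMap.range ev)ᗮ
  have hU : ∀ u, u ∈ U ↔ ∀ c ∈ N.commutant, ⟪c η, u⟫_ℂ = 0 := fun u =>
    ⟨fun h c hc => h _ ⟨⟨c, hc⟩, rfl⟩, fun h _ ⟨c, e⟩ => e ▸ h c.1 c.2⟩
  let e : (Q × U) →ₗ[ℂ] H := ev.coprod U.subtype
  let g : Q →ₗ[ℂ] HH H :=
    { toFun := fun c => tm c.1 1 X
      map_add' := fun c d => by rw [Submodule.coe_add, tm_add_left]; rfl
      map_smul' := fun a c => by rw [Submodule.coe_smul, tm_smul_left]; rfl }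
  let j : HH H →L[ℂ] UniformSpace.Completion (HH H) := UniformSpace.Completion.toComplL
  let f : (Q × U) →ₗ[ℂ] UniformSpace.Completion (HH H) :=
    j.toLinearMap ∘ₗ g ∘ₗ LinearMap.fst ℂ Q U
  have hd : DenseRange e := by
    have : Dense ((LinearMap.range e : Submodule ℂ H) : Set H) := by
      rw [Submodule.dense_iff_topologicalClosure_eq_top, Submodule.topologicalClosure_eq_top_iff,
        Submodule.eq_bot_iff]
      intro ζ hζ
      have h1 : ζ ∈ U := (hU ζ).2 fun c hc => hζ _ ⟨(⟨c, hc⟩, 0), by simp [e, ev]⟩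
      exact inner_self_eq_zero.1 (hζ ζ ⟨(0, ⟨ζ, h1⟩), by simp [e]⟩)
    exact this
  have hn : ∀ x, ‖f x‖ ≤ 1 * ‖e x‖ := by
    rintro ⟨c, u⟩
    have h1 : ‖f (c, u)‖ = ‖c.1 η‖ := (UniformSpace.Completion.norm_coe _).trans (hX c.1 c.2)
    have h2 := norm_add_sq_eq_norm_sq_add_norm_sq_of_inner_eq_zero _ _ ((hU u.1).1 u.2 c.1 c.2)
    rw [h1, one_mul]
    change ‖c.1 η‖ ≤ ‖c.1 η + u.1‖
    exact abs_le_of_sq_le_sq' (by nlinarith [mul_self_nonneg ‖u.1‖]) (norm_nonneg _) |>.2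
  let V : H →L[ℂ] UniformSpace.Completion (HH H) := f.extendOfNorm e
  have hV : ‖V‖ ≤ 1 := LinearMap.opNorm_extendOfNorm_le hd zero_le_one hn
  have key : ∀ c ∈ N.commutant, ∀ u ∈ U, ∀ Z,
      ⟪c η + u, (V.adjoint ∘L j) Z⟫_ℂ = ⟪tm c 1 X, Z⟫_ℂ := fun c hc u hu Z => by
    have h1 : V (c η + u) = j (tm c 1 X) :=
      LinearMap.extendOfNorm_eq hd ⟨1, hn⟩ (⟨c, hc⟩, ⟨u, hu⟩)
    rw [ContinuousLinearMap.comp_apply, ContinuousLinearMap.adjoint_inner_right, h1]
    exact UniformSpace.Completion.inner_coe _ _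
  refine ⟨V.adjoint ∘L j, ?_, fun b hb Z => ?_, fun b hb Z => ?_⟩
  · refine ContinuousLinearMap.opNorm_le_bound _ zero_le_one fun Z => ?_
    refine (V.adjoint.le_opNorm _).trans ?_
    rw [LinearIsometryEquiv.norm_map]
    exact mul_le_mul hV (UniformSpace.Completion.norm_coe _).le (norm_nonneg _) zero_le_one
  · have hb' : star b ∈ N.commutant := star_mem hb
    refine sub_eq_zero.1 (hd.eq_zero_of_inner_right (𝕜 := ℂ) ?_)
    rintro ⟨c, u⟩
    have h1 : star b u.1 ∈ U := (hU _).2 fun d hd => by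
      rw [inner_star_right]
      exact (hU u.1).1 u.2 (b * d) (mul_mem hb hd)
    have h2 := key (star b * c.1) (mul_mem hb' c.2) _ h1 Z
    change ⟪c.1 η + u.1, _⟫_ℂ = 0
    rw [inner_sub_right, key c.1 c.2 u.1 u.2, ← inner_star_left b, map_add, inner_tm, tm_tm, star_one,
      mul_one, ← h2, sub_eq_zero]
    rfl
  · simpa using key b hb 0 U.zero_mem Z

end Pool.Agent.P.MP_7e3bdd_an.NI
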