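import Pool.Agent.P.MP_7e3bdd_an.NI.Spec

/-!
The norm of the averaged operator.
-/

set_option autoImplicit false

open scoped InnerProductSpace BigOperators BoundedContinuousFunction ComplexConjugate TensorProduct
  ComplexOrder
open MeasureTheory

noncomputable section

namespace Pool.Agent.P.MP_7e3bdd_an.NI

open RW

namespace PNormSg

variable {H : Type} [NormedAddCommGroup H] [InnerProductSpace ℂ H] [CompleteSpace H]

theorem core {E : Type} [NormedAddCommGroup E] [InnerProductSpace ℂ E] {g : ℝ → ℂ}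
    (hg : Integrable g) (S : ℝ → E →L[ℂ] E) (B : E →L[ℂ] E) (C : ℝ) (hC : 0 ≤ C) (hS : ∀ t, ‖S t‖ ≤ C)
    (h : ∀ X Y, ⟪X, B Y⟫_ℂ = ∫ t, g t * ⟪X, S t Y⟫_ℂ) : ‖B‖ ≤ (∫ t, ‖g t‖) * C := by
  have h0 : 0 ≤ ∫ t, ‖g t‖ := integral_nonneg fun _ => norm_nonneg _
  refine ContinuousLinearMap.opNorm_le_bound _ (by positivity) fun Y => ?_
  have h1 : ‖⟪B Y, B Y⟫_ℂ‖ ≤ ∫ t, ‖g t‖ * (‖B Y‖ * (C * ‖Y‖)) := by
    rw [h]
    refine norm_integral_le_of_norm_le (hg.norm.mul_const _) (Filter.Eventually.of_forall fun t => ?_)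
    rw [norm_mul]
    refine mul_le_mul_of_nonneg_left ((norm_inner_le_norm _ _).trans ?_) (norm_nonneg _)
    exact mul_le_mul_of_nonneg_left ((S t).le_of_opNorm_le (hS t) Y) (norm_nonneg _)
  rw [integral_mul_const, inner_self_eq_norm_sq_to_K] at h1
  have h2 : ‖B Y‖ * ‖B Y‖ ≤ ‖B Y‖ * ((∫ t, ‖g t‖) * C * ‖Y‖) := by
    have h3 : ‖((‖B Y‖ : ℝ) : ℂ) ^ 2‖ = ‖B Y‖ * ‖B Y‖ := by simp [sq]
    have h4 : ‖((‖B Y‖ : ℝ) : ℂ) ^ 2‖ ≤ (∫ t, ‖g t‖) * (‖B Y‖ * (C * ‖Y‖)) := h1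
    rw [h3] at h4
    linarith
  rcases (norm_nonneg (B Y)).eq_or_lt with h3 | h3
  · rw [← h3]; positivity
  · exact le_of_mul_le_mul_left h2 h3

theorem cont_sig (h1 : ContSt) (m : Mod H) (a : H →L[ℂ] H) (x y : H) :
    Continuous fun t => ⟪x, m.sig t a y⟫_ℂ := by
  have hF : Fam fun t => ex (-t) := by
    refine ⟨?_, 1, fun t r => (norm_ex _ _).le⟩
    simp only [ex_apply]
    fun_prop
  have hU : ∀ z : H, Continuous fun t => m.U (-t) z := fun z => (h1 _ hF).2 H m z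
  have e : (fun t => ⟪x, m.sig t a y⟫_ℂ) = fun t => ⟪m.U (-t) x, a (m.U (-t) y)⟫_ℂ := by
    funext t
    rw [← m.star_U, inner_star_left, m.star_U]
    rfl
  rw [e]
  exact (hU x).inner (a.continuous.comp (hU y))

theorem norm_U (m : Mod H) (t : ℝ) : ‖m.U t‖ ≤ 1 :=
  ContinuousLinearMap.opNorm_le_bound _ zero_le_one fun x =>
    m.norm_Φ_apply_le _ (fun r => (norm_ex t r).le) x

theorem int_sig (h1 : ContSt) (m : Mod H) {g : ℝ → ℂ} (hg : Integrable g) (a : H →L[ℂ] H)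
    (x y : H) : Integrable fun t => g t * ⟪x, m.sig t a y⟫_ℂ := by
  refine hg.mul_bdd (c := ‖x‖ * (‖a‖ * ‖y‖)) (cont_sig h1 m a x y).aestronglyMeasurable
    (Filter.Eventually.of_forall fun t => (norm_inner_le_norm _ _).trans ?_)
  refine mul_le_mul_of_nonneg_left ((m.sig t a).le_of_opNorm_le ?_ y) (norm_nonneg _)
  have a1 := norm_U m t
  have a2 := norm_U m (-t)
  calc ‖m.sig t a‖ ≤ ‖m.U t‖ * ‖a‖ * ‖m.U (-t)‖ :=
        (norm_mul_le _ _).trans (mul_le_mul_of_nonneg_right (norm_mul_le _ _) (norm_nonneg _))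
    _ ≤ 1 * ‖a‖ * 1 := by gcongr
    _ = ‖a‖ := by ring

omit [CompleteSpace H] in
theorem ext2 {g : ℝ → ℂ} (S : ℝ → HH H →L[ℂ] HH H) (B : HH H →L[ℂ] HH H)
    (h : ∀ x x' y y' : H, (Integrable fun t => g t * ⟪x ⊗ₜ[ℂ] x', S t (y ⊗ₜ[ℂ] y')⟫_ℂ) ∧
      ⟪x ⊗ₜ[ℂ] x', B (y ⊗ₜ[ℂ] y')⟫_ℂ = ∫ t, g t * ⟪x ⊗ₜ[ℂ] x', S t (y ⊗ₜ[ℂ] y')⟫_ℂ) (X Y : HH H) :
    (Integrable fun t => g t * ⟪X, S t Y⟫_ℂ) ∧ ⟪X, B Y⟫_ℂ = ∫ t, g t * ⟪X, S t Y⟫_ℂ := by
  induction X using TensorProduct.induction_on with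
  | zero => simp
  | add X X' h h' =>
    simp only [inner_add_left, mul_add]
    exact ⟨h.1.add h'.1, by rw [integral_add h.1 h'.1, h.2, h'.2]⟩
  | tmul x x' =>
    induction Y using TensorProduct.induction_on with
    | zero => simp
    | add Y Y' h h' =>
      simp only [map_add, inner_add_right, mul_add]
      exact ⟨h.1.add h'.1, by rw [integral_add h.1 h'.1, h.2, h'.2]⟩
    | tmul y y' => exact h x x' y y'

theorem sum2 {E : Type} [NormedAddCommGroup E] [InnerProductSpace ℂ E] {g : ℝ → ℂ} {ι : Type}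
    [Fintype ι] (S : ι → ℝ → E →L[ℂ] E) (B : ι → E →L[ℂ] E)
    (h : ∀ l X Y, (Integrable fun t => g t * ⟪X, S l t Y⟫_ℂ) ∧
      ⟪X, B l Y⟫_ℂ = ∫ t, g t * ⟪X, S l t Y⟫_ℂ) (X Y : E) :
    ⟪X, (∑ l, B l) Y⟫_ℂ = ∫ t, g t * ⟪X, (∑ l, S l t) Y⟫_ℂ := by
  simp only [ContinuousLinearMap.sum_apply, inner_sum, Finset.mul_sum]
  rw [integral_finsetSum _ fun l _ => (h l X Y).1]
  exact Finset.sum_congr rfl fun l _ => (h l X Y).2

theorem mul3 {E : Type} [NormedAddCommGroup E] [InnerProductSpace ℂ E] (P A Q : E →L[ℂ] E)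
    (a1 : ‖P‖ ≤ 1) (a2 : ‖Q‖ ≤ 1) : ‖P * A * Q‖ ≤ ‖A‖ := by
  calc _ ≤ ‖P‖ * ‖A‖ * ‖Q‖ :=
        (norm_mul_le _ _).trans (mul_le_mul_of_nonneg_right (norm_mul_le _ _) (norm_nonneg _))
    _ ≤ 1 * ‖A‖ * 1 := by gcongr
    _ = ‖A‖ := by ring

omit [CompleteSpace H] in
theorem conj_le {u v : H →L[ℂ] H} {u' v' : H →L[ℂ] H} (hu : ‖u‖ ≤ 1) (hv : ‖v‖ ≤ 1)
    (hu' : ‖u'‖ ≤ 1) (hv' : ‖v'‖ ≤ 1) (A : HH H →L[ℂ] HH H) : ‖tm u v * A * tm u' v'‖ ≤ ‖A‖ := by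
  have a1 : ‖tm u v‖ ≤ 1 := (norm_tm_le _ _).trans (mul_le_one₀ hu (norm_nonneg _) hv)
  have a2 : ‖tm u' v'‖ ≤ 1 := (norm_tm_le _ _).trans (mul_le_one₀ hu' (norm_nonneg _) hv')
  exact mul3 (E := HH H) _ _ _ a1 a2

theorem left (h1 : ContSt) (m : Mod H) {g : ℝ → ℂ} (hg : Integrable g) {ι : Type} [Fintype ι]
    (a b q : ι → H →L[ℂ] H) (h : ∀ l, m.IsSg g (a l) (b l)) :
    ‖∑ l, tm (b l) (q l)‖ ≤ (∫ t, ‖g t‖) * ‖∑ l, tm (a l) (q l)‖ := by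
  refine core (E := HH H) hg (fun t => ∑ l, tm (m.sig t (a l)) (q l)) _ _
    (ContinuousLinearMap.opNorm_nonneg _) (fun t => ?_)
    (sum2 (E := HH H) (fun l t => tm (m.sig t (a l)) (q l)) _ fun l => ext2 _ _ fun x x' y y' => ?_)
  · have e : ∑ l, tm (m.sig t (a l)) (q l) =
        tm (m.U t) 1 * (∑ l, tm (a l) (q l)) * tm (m.U (-t)) 1 := by
      rw [Finset.mul_sum, Finset.sum_mul]
      refine Finset.sum_congr rfl fun l _ => ?_
      rw [← tm_mul, ← tm_mul, one_mul, mul_one]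
      rfl
    rw [e]
    exact conj_le (norm_U m t) ContinuousLinearMap.norm_id_le (norm_U m (-t))
      ContinuousLinearMap.norm_id_le _
  · simp only [tm_tmul, TensorProduct.inner_tmul, ← mul_assoc]
    exact ⟨(int_sig h1 m hg (a l) x y).mul_const _, by rw [integral_mul_const, h l x y]⟩

theorem right (h1 : ContSt) (m : Mod H) {g : ℝ → ℂ} (hg : Integrable g) {ι : Type} [Fintype ι]
    (a b q : ι → H →L[ℂ] H) (h : ∀ l, m.IsSg g (a l) (b l)) :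
    ‖∑ l, tm (q l) (b l)‖ ≤ (∫ t, ‖g t‖) * ‖∑ l, tm (q l) (a l)‖ := by
  refine core (E := HH H) hg (fun t => ∑ l, tm (q l) (m.sig t (a l))) _ _
    (ContinuousLinearMap.opNorm_nonneg _) (fun t => ?_)
    (sum2 (E := HH H) (fun l t => tm (q l) (m.sig t (a l))) _ fun l => ext2 _ _ fun x x' y y' => ?_)
  · have e : ∑ l, tm (q l) (m.sig t (a l)) =
        tm 1 (m.U t) * (∑ l, tm (q l) (a l)) * tm 1 (m.U (-t)) := by
      rw [Finset.mul_sum, Finset.sum_mul]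
      refine Finset.sum_congr rfl fun l _ => ?_
      rw [← tm_mul, ← tm_mul, one_mul, mul_one]
      rfl
    rw [e]
    exact conj_le ContinuousLinearMap.norm_id_le (norm_U m t) ContinuousLinearMap.norm_id_le
      (norm_U m (-t)) _
  · simp only [tm_tmul, TensorProduct.inner_tmul, mul_comm ⟪x, q l y⟫_ℂ, ← mul_assoc]
    exact ⟨(int_sig h1 m hg (a l) x' y').mul_const _, by rw [integral_mul_const, h l x' y']⟩

theorem bar_sg (m : Mod H) {g : ℝ → ℂ} {a b : H →L[ℂ] H} (h : m.IsSg g a b) :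
    m.IsSg (fun t => conj (g t)) (m.bar a) (m.bar b) := by
  intro η ζ
  rw [m.bar_apply, m.inner_J_right, ← inner_conj_symm, h, ← integral_conj]
  refine integral_congr_ae (Filter.Eventually.of_forall fun t => ?_)
  have e : m.sig t (m.bar a) = m.bar (m.sig t a) := by
    rw [Mod.sig, Mod.sig, m.bar_mul, m.bar_mul, m.bar_U, m.bar_U]
  simp only [map_mul]
  rw [e, m.bar_apply, m.inner_J_right η, inner_conj_symm]

end PNormSg

open PNormSg in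
theorem normSgSt (h1 : ContSt) : NormSgSt := by
  intro H _ _ _ m g hg ι _ a b h
  have hg' : Integrable fun t => conj (g t) := by
    simpa using (Complex.conjCLE : ℂ →L[ℝ] ℂ).integrable_comp hg
  have a1 := left h1 m hg a b (fun l => m.bar (b l)) h
  have a2 := right h1 m hg' (fun l => m.bar (a l)) (fun l => m.bar (b l)) a fun l => bar_sg m (h l)
  simp only [Complex.norm_conj] at a2
  have h0 : 0 ≤ ∫ t, ‖g t‖ := integral_nonneg fun _ => norm_nonneg _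
  calc ‖m.Sop b‖ ≤ (∫ t, ‖g t‖) * ((∫ t, ‖g t‖) * ‖m.Sop a‖) :=
        a1.trans (mul_le_mul_of_nonneg_left a2 h0)
    _ = _ := by ring

end Pool.Agent.P.MP_7e3bdd_an.NI
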