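import Pool.Agent.P.MP_7e3bdd_an.NI.Spec

/-!
The operator identity behind the theorem of Tomita and Takesaki.
-/

set_option autoImplicit false

open scoped InnerProductSpace BigOperators BoundedContinuousFunction ComplexConjugate TensorProduct
  ComplexOrder
open MeasureTheory

noncomputable section

namespace Pool.Agent.P.MP_7e3bdd_an.NI

open RW

namespace POpId

variable {H : Type} [NormedAddCommGroup H] [InnerProductSpace ℂ H] [CompleteSpace H]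

theorem decomp {M : VonNeumannAlgebra H} {c : H →L[ℂ] H} (hc : c ∈ M) :
    ∃ h ∈ M, ∃ k ∈ M, IsSelfAdjoint h ∧ IsSelfAdjoint k ∧ c = h + Complex.I • k := by
  have hs : star c ∈ M := star_mem hc
  refine ⟨(1 / 2 : ℂ) • (c + star c), M.toStarSubalgebra.smul_mem (add_mem hc hs) _,
    (-Complex.I / 2 : ℂ) • (c - star c), M.toStarSubalgebra.smul_mem (sub_mem hc hs) _, ?_, ?_, ?_⟩
  · rw [IsSelfAdjoint, star_smul, star_add, star_star, add_comm]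
    simp
  · rw [IsSelfAdjoint, star_smul, star_sub, star_star, ← neg_sub c, smul_neg, ← neg_smul]
    congr 1
    simp [neg_div]
  · rw [smul_smul]
    have : Complex.I * (-Complex.I / 2) = 1 / 2 := by
      rw [← mul_div_assoc, mul_neg, Complex.I_mul_I, neg_neg]
    rw [this, ← smul_add]
    have h2 : c + star c + (c - star c) = (2 : ℂ) • c := by rw [two_smul]; abel
    rw [h2, smul_smul]
    simp

theorem zero_of_sa {N : VonNeumannAlgebra H} {ξ : H} (h : Cyc N ξ) {η : H}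
    (h0 : ∀ c ∈ N, IsSelfAdjoint c → ⟪c ξ, η⟫_ℂ = 0) : η = 0 := by
  refine eq_zero_of_inner_cyc h fun c hc => ?_
  obtain ⟨a, ha, b, hb, sa, sb, rfl⟩ := decomp hc
  rw [add_apply, smul_apply, inner_add_left,
    inner_smul_left, h0 a ha sa, h0 b hb sb]
  simp

theorem op_zero {N : VonNeumannAlgebra H} {ξ : H} (h : Cyc N ξ) {A : H →L[ℂ] H}
    (h0 : ∀ c ∈ N, IsSelfAdjoint c → ∀ d ∈ N, IsSelfAdjoint d → ⟪d ξ, A (c ξ)⟫_ℂ = 0) :
    A = 0 := by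
  rw [← star_eq_zero]
  ext η
  refine zero_of_sa h fun c hc sc => ?_
  rw [inner_star_right, zero_of_sa h (h0 c hc sc), inner_zero_left]

theorem inner_sa {a : H →L[ℂ] H} (ha : IsSelfAdjoint a) (u v : H) : ⟪a u, v⟫_ℂ = ⟪u, a v⟫_ℂ := by
  rw [← inner_star_left, ha.star_eq]

theorem rn_ext {Q : VonNeumannAlgebra H} {ξ : H} {c x : H →L[ℂ] H} (sx : IsSelfAdjoint x) {lam : ℂ}
    (h : ∀ y ∈ Q, IsSelfAdjoint y → ⟪y ξ, c ξ⟫_ℂ = (((lam * ⟪y ξ, x ξ⟫_ℂ).re : ℝ) : ℂ))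
    {y : H →L[ℂ] H} (hy : y ∈ Q) :
    2 * ⟪ξ, y (c ξ)⟫_ℂ = conj lam * ⟪ξ, x (y ξ)⟫_ℂ + lam * ⟪ξ, y (x ξ)⟫_ℂ := by
  have key : ∀ z ∈ Q, IsSelfAdjoint z →
      2 * ⟪ξ, z (c ξ)⟫_ℂ = conj lam * ⟪ξ, x (z ξ)⟫_ℂ + lam * ⟪ξ, z (x ξ)⟫_ℂ := by
    intro z hz sz
    rw [← inner_sa sz, ← inner_sa sz, ← inner_sa sx, h z hz sz, ← inner_conj_symm (x ξ) (z ξ),
      ← map_mul, add_comm, Complex.add_conj]
    push_cast
    ring
  obtain ⟨a, ha, b, hb, sa, sb, rfl⟩ := decomp hy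
  simp only [add_apply, smul_apply, map_add, map_smul,
    inner_add_right, inner_smul_right]
  linear_combination key a ha sa + Complex.I * key b hb sb

theorem inner_C (m : Mod H) (u v : H) :
    ⟪u, m.Φ om (m.J v)⟫_ℂ = ⟪v, m.Φ om (m.J u)⟫_ℂ := by
  rw [m.inner_Φ, star_om, m.inner_J_right, m.JΦ, flp_om]

theorem exists_y (h1 : RNSt) (m : Mod H) {N : VonNeumannAlgebra H} {ξ : H} (hp : IsPre m N ξ)
    {c : H →L[ℂ] H} (hc : c ∈ N) (sc : IsSelfAdjoint c) :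
    ∃ y ∈ N.commutant, IsSelfAdjoint y ∧ m.Φ om (m.J (c ξ)) = y ξ ∧ m.Φ omM (c ξ) = y ξ := by
  obtain ⟨y, hy, sy, h⟩ := h1 H N ξ c hc sc 1 (by simp)
  have h2 : m.Φ om (m.J (c ξ)) = y ξ := by
    refine hp.proj y hy sy c hc sc fun z hz sz => ?_
    rw [inner_sub_right, h z hz sz]
    simp
  refine ⟨y, hy, sy, h2, ?_⟩
  rw [← hp.S' c hc, sc.star_eq, h2]

theorem term_P (m : Mod H) {N : VonNeumannAlgebra H} {ξ : H} (hp : IsPre m N ξ)
    {x y1 y2 : H →L[ℂ] H} (hx : x ∈ N.commutant) (sx : IsSelfAdjoint x) (hy : y1 ∈ N.commutant)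
    (sy : IsSelfAdjoint y1) {u v : H} (hu : m.Φ omM u = y1 ξ) (hv : m.Φ om (m.J v) = y2 ξ) :
    ⟪v, m.Φ omP (x (m.Φ omM u))⟫_ℂ = ⟪ξ, x (y1 (y2 ξ))⟫_ℂ := by
  have h := hp.S (x * y1) (mul_mem hx hy)
  rw [star_mul, sx.star_eq, sy.star_eq, mul_apply_eq_comp,
    mul_apply_eq_comp] at h
  rw [hu, ← h, inner_C, hv, inner_sa sy, inner_sa sx]

end POpId

open POpId in
theorem opIdSt (h1 : RNSt) : OpIdSt := by
  intro H _ _ _ m N ξ hcyc hp c hc sc lam hlam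
  obtain ⟨x, hx, sx, h⟩ := h1 H N ξ c hc sc lam hlam
  refine ⟨x, hx, sub_eq_zero.1 (op_zero hcyc fun c1 hc1 s1 c2 hc2 s2 => ?_)⟩
  obtain ⟨y1, hy1, sy1, e1, f1⟩ := exists_y h1 m hp hc1 s1
  obtain ⟨y2, hy2, sy2, e2, f2⟩ := exists_y h1 m hp hc2 s2
  have t1 : ⟪c2 ξ, m.Φ om (m.J (c (m.J (m.Φ om (c1 ξ)))))⟫_ℂ = ⟪ξ, y1 (y2 (c ξ))⟫_ℂ := by
    rw [inner_C, e2, m.JΦ, flp_om, e1, inner_sa sc, inner_sa sy1,
      ← mul_apply_eq_comp c y2, ← comm_QN hy2 hc, mul_apply_eq_comp]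
  have t2 := term_P m hp hx sx hy1 sy1 f1 e2
  have t3 : ⟪c2 ξ, m.Φ omM (x (m.Φ omP (c1 ξ)))⟫_ℂ = ⟪ξ, y1 (y2 (x ξ))⟫_ℂ := by
    rw [m.inner_Φ, star_omM, ← inner_sa sx, m.inner_Φ, star_omP, ← inner_conj_symm,
      term_P m hp hx sx hy2 sy2 f2 e1, inner_conj_symm, inner_sa sx, inner_sa sy2, inner_sa sy1]
  have key := rn_ext sx h (mul_mem hy1 hy2)
  simp only [mul_apply_eq_comp] at key
  simp only [sub_apply, add_apply,
    smul_apply, mul_apply_eq_comp, Mod.bar_apply, inner_sub_right,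
    inner_add_right, inner_smul_right, t1, t2, t3]
  linear_combination key

end Pool.Agent.P.MP_7e3bdd_an.NI
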