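import Pool.Agent.P.MP_7e3bdd_an.NI.Spec

/-!
The power trick: the window inequality implies the self-polar criterion.
-/

set_option autoImplicit false

open scoped InnerProductSpace BigOperators BoundedContinuousFunction ComplexConjugate TensorProduct
  ComplexOrder
open MeasureTheory

noncomputable section

namespace Pool.Agent.P.MP_7e3bdd_an.NI

open RW

namespace PPower

variable {H : Type} [NormedAddCommGroup H] [InnerProductSpace ℂ H] [CompleteSpace H]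

/-- The family of all products `(a l')* (a l)`. -/
def sq2 {ι : Type} (a : ι → H →L[ℂ] H) : ι × ι → H →L[ℂ] H := fun p => star (a p.1) * a p.2

theorem inner_Sop (m : Mod H) {ι : Type} [Fintype ι] (a : ι → H →L[ℂ] H) (X Y : HH H) :
    ⟪X, m.Sop a Y⟫_ℂ = ⟪m.Sop (fun l => star (a l)) X, Y⟫_ℂ := by
  simp only [Mod.Sop, sum_apply, inner_sum, sum_inner]
  exact Finset.sum_congr rfl fun l _ => m.inner_pi _ _ _

theorem norm_Sop_star (m : Mod H) {ι : Type} [Fintype ι] (a : ι → H →L[ℂ] H) :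
    ‖m.Sop (fun l => star (a l))‖ ≤ ‖m.Sop a‖ := by
  refine ContinuousLinearMap.opNorm_le_bound _ (ContinuousLinearMap.opNorm_nonneg _) fun Y => ?_
  set Z := m.Sop (fun l => star (a l)) Y with hZ
  have h1 : ⟪Y, m.Sop a Z⟫_ℂ = ⟪Z, Z⟫_ℂ := by rw [inner_Sop, ← hZ]
  have h2 : ‖Z‖ * ‖Z‖ ≤ (‖m.Sop a‖ * ‖Y‖) * ‖Z‖ := by
    have h3 : ‖Z‖ * ‖Z‖ = ‖⟪Z, Z⟫_ℂ‖ := by
      have h5 := inner_self_eq_norm_sq_to_K (𝕜 := ℂ) (E := HH H) Z
      have h6 : ⟪Z, Z⟫_ℂ = ((‖Z‖ : ℝ) : ℂ) ^ 2 := h5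
      rw [h6]
      simp [sq]
    rw [h3, ← h1]
    refine le_trans (norm_inner_le_norm (𝕜 := ℂ) (E := HH H) Y (m.Sop a Z)) ?_
    have h4 := (m.Sop a).le_opNorm Z
    nlinarith [norm_nonneg Y]
  rcases (norm_nonneg Z).eq_or_lt with h | h
  · rw [← h]; positivity
  · exact le_of_mul_le_mul_right h2 h

theorem Sop_sq2 (m : Mod H) {ι : Type} [Fintype ι] (a : ι → H →L[ℂ] H) :
    m.Sop (sq2 a) = m.Sop (fun l => star (a l)) * m.Sop a := by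
  simp only [Mod.Sop, sq2, Finset.sum_mul_sum, Fintype.sum_prod_type, m.pi_mul]

theorem norm_Sop_sq2 (m : Mod H) {ι : Type} [Fintype ι] (a : ι → H →L[ℂ] H) :
    ‖m.Sop (sq2 a)‖ ≤ ‖m.Sop a‖ ^ 2 := by
  rw [Sop_sq2, sq]
  exact (ContinuousLinearMap.opNorm_comp_le _ _).trans
    (mul_le_mul_of_nonneg_right (norm_Sop_star m a) (ContinuousLinearMap.opNorm_nonneg _))

theorem sum_norm_sq2 {ι : Type} [Fintype ι] (a : ι → H →L[ℂ] H) :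
    ∑ p, ‖sq2 a p‖ ^ 2 ≤ (∑ l, ‖a l‖ ^ 2) ^ 2 := by
  rw [sq (∑ l, ‖a l‖ ^ 2), Finset.sum_mul_sum, Fintype.sum_prod_type]
  refine Finset.sum_le_sum fun l _ => Finset.sum_le_sum fun l' _ => ?_
  rw [← mul_pow]
  refine pow_le_pow_left₀ (norm_nonneg _) ?_ 2
  have := norm_mul_le (star (a l)) (a l')
  rwa [norm_star] at this

theorem inCor_sq2 {N : VonNeumannAlgebra H} {e : H →L[ℂ] H} (he : IsSelfAdjoint e) {ι : Type}
    {a : ι → H →L[ℂ] H} (ha : ∀ l, InCor N e (a l)) (p : ι × ι) : InCor N e (sq2 a p) := by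
  refine ⟨mul_mem (star_mem (ha p.1).1) (ha p.2).1, ?_, ?_⟩
  · rw [sq2, mul_assoc, (ha p.2).2.1]
  · have h : e * star (a p.1) = star (a p.1) := by
      conv_rhs => rw [← (ha p.1).2.1, star_mul, he.star_eq]
    rw [sq2, ← mul_assoc, h]

theorem M_sq2 (h1 : DSt) {m : Mod H} {N : VonNeumannAlgebra H} {ξ : H} (tt : IsTT m N ξ)
    {e : H →L[ℂ] H} (he : IsSelfAdjoint e) {ι : Type} [Fintype ι]
    {a : ι → H →L[ℂ] H} (ha : ∀ l, InCor N e (a l)) :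
    (∑ l, ‖m.D ξ (a l)‖ ^ 2) ^ 2 ≤ ‖e ξ‖ ^ 2 * ∑ p, ‖m.D ξ (sq2 a p)‖ ^ 2 := by
  set v : H := ∑ l, a l (m.bar (a l) ξ) with hv
  have e1 : ((∑ l, ‖m.D ξ (a l)‖ ^ 2 : ℝ) : ℂ) = ⟪e ξ, v⟫_ℂ := by
    rw [Complex.ofReal_sum, hv, inner_sum]
    refine Finset.sum_congr rfl fun l _ => ?_
    rw [(h1 H m N ξ tt (a l) (ha l).1).2.1, ← inner_star_right, he.star_eq,
      ← mul_apply_eq_comp e, (ha l).2.2]
  have e2 : ((∑ p, ‖m.D ξ (sq2 a p)‖ ^ 2 : ℝ) : ℂ) = ⟪v, v⟫_ℂ := by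
    rw [Complex.ofReal_sum, hv, sum_inner, Fintype.sum_prod_type]
    refine Finset.sum_congr rfl fun l _ => ?_
    rw [inner_sum]
    refine Finset.sum_congr rfl fun l' _ => ?_
    rw [(h1 H m N ξ tt _ (inCor_sq2 he ha (l, l')).1).2.1]
    have c1 : a l' * star (m.bar (a l)) = star (m.bar (a l)) * a l' :=
      comm_QN (ha l').1 (star_mem (tt.barQ _ (ha l).1))
    have c2 : a l * m.bar (a l) = m.bar (a l) * a l := comm_QN (ha l).1 (tt.barQ _ (ha l).1)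
    have c3 : sq2 a (l, l') * m.bar (sq2 a (l, l')) =
        star (a l * m.bar (a l)) * (a l' * m.bar (a l')) := by
      rw [c2, star_mul]
      simp only [sq2, m.bar_mul, m.bar_star, mul_assoc]
      rw [← mul_assoc (a l'), c1, mul_assoc]
    rw [← mul_apply_eq_comp, c3, mul_apply_eq_comp, inner_star_right]
    rfl
  have e3 : ∑ p, ‖m.D ξ (sq2 a p)‖ ^ 2 = ‖v‖ ^ 2 := by
    rw [inner_self_eq_norm_sq_to_K] at e2
    refine Complex.ofReal_injective (e2.trans ?_)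
    simp
  have e4 : ∑ l, ‖m.D ξ (a l)‖ ^ 2 ≤ ‖e ξ‖ * ‖v‖ := by
    refine le_trans ?_ (norm_inner_le_norm (𝕜 := ℂ) (e ξ) v)
    rw [← e1, Complex.norm_real]
    exact le_abs_self _
  rw [e3, ← mul_pow]
  exact pow_le_pow_left₀ (Finset.sum_nonneg fun _ _ => sq_nonneg _) e4 2

theorem iter (h1 : DSt) {m : Mod H} {N : VonNeumannAlgebra H} {ξ : H} (tt : IsTT m N ξ)
    {e : H →L[ℂ] H} (he : IsSelfAdjoint e) (hE : 0 < ‖e ξ‖ ^ 2) {ι : Type} [Fintype ι]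
    {a : ι → H →L[ℂ] H} (ha : ∀ l, InCor N e (a l)) (k : ℕ) :
    ∃ (κ : Type) (_ : Fintype κ) (b : κ → H →L[ℂ] H), (∀ l, InCor N e (b l)) ∧
      ‖m.Sop b‖ ≤ ‖m.Sop a‖ ^ 2 ^ k ∧ ∑ l, ‖b l‖ ^ 2 ≤ (∑ l, ‖a l‖ ^ 2) ^ 2 ^ k ∧
      ‖e ξ‖ ^ 2 * ((∑ l, ‖m.D ξ (a l)‖ ^ 2) / ‖e ξ‖ ^ 2) ^ 2 ^ k ≤ ∑ l, ‖m.D ξ (b l)‖ ^ 2 := by
  induction k with
  | zero =>
    refine ⟨ι, inferInstance, a, ha, by simp, by simp, ?_⟩
    rw [pow_zero, pow_one, mul_div_cancel₀ _ hE.ne']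
  | succ k ih =>
    obtain ⟨κ, _, b, hb, i1, i2, i3⟩ := ih
    refine ⟨κ × κ, inferInstance, sq2 b, inCor_sq2 he hb, ?_, ?_, ?_⟩
    · rw [pow_succ, pow_mul]
      exact (norm_Sop_sq2 m b).trans (pow_le_pow_left₀ (ContinuousLinearMap.opNorm_nonneg _) i1 2)
    · rw [pow_succ 2 k, pow_mul]
      exact (sum_norm_sq2 b).trans
        (pow_le_pow_left₀ (Finset.sum_nonneg fun _ _ => sq_nonneg _) i2 2)
    · have h2 := M_sq2 h1 tt he hb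
      have h0 : 0 ≤ ((∑ l, ‖m.D ξ (a l)‖ ^ 2) / ‖e ξ‖ ^ 2) ^ 2 ^ k :=
        pow_nonneg (div_nonneg (Finset.sum_nonneg fun _ _ => sq_nonneg _) hE.le) _
      have h3 := (pow_le_pow_left₀ (mul_nonneg hE.le h0) i3 2).trans h2
      rw [pow_succ 2 k, pow_mul]
      refine le_of_mul_le_mul_left ?_ hE
      refine le_trans (le_of_eq ?_) h3
      ring

theorem lim (c₀ d r : ℝ) (hr0 : 0 ≤ r) (hr : r < 1) :
    Filter.Tendsto (fun p : ℕ => c₀ * (2 * (d * p) + 1) ^ 2 * r ^ p + 8 * (1 / 2 : ℝ) ^ p)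
      Filter.atTop (nhds 0) := by
  have hr' : |r| < 1 := by rwa [abs_of_nonneg hr0]
  have t2 := tendsto_pow_const_mul_const_pow_of_abs_lt_one 2 hr'
  have t1 := tendsto_pow_const_mul_const_pow_of_abs_lt_one 1 hr'
  have t0 := tendsto_pow_atTop_nhds_zero_of_lt_one hr0 hr
  have t3 := tendsto_pow_atTop_nhds_zero_of_lt_one (r := (1 / 2 : ℝ)) (by norm_num) (by norm_num)
  have t := (((t2.const_mul (4 * c₀ * d ^ 2)).add (t1.const_mul (4 * c₀ * d))).add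
    (t0.const_mul c₀)).add (t3.const_mul 8)
  simp only [mul_zero, add_zero] at t
  refine t.congr fun p => ?_
  ring

end PPower

open PPower in
theorem powerSt (h1 : DSt) : PowerSt := by
  intro H _ _ _ m N ξ tt e hc hw ι _ a ha
  obtain ⟨ε, c₀, hε, hc₀, hw⟩ := hw
  have hE : 0 < ‖e ξ‖ ^ 2 := pow_pos (norm_pos_iff.2 hc.ne) 2
  by_contra hlt
  rw [not_le] at hlt
  set μ : ℝ := (∑ l, ‖m.D ξ (a l)‖ ^ 2) / ‖e ξ‖ ^ 2 with hμ
  set s : ℝ := ‖m.Sop a‖ with hs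
  set Λ : ℝ := ∑ l, ‖a l‖ ^ 2 with hΛ
  have hs0 : 0 ≤ s := ContinuousLinearMap.opNorm_nonneg _
  have hΛ0 : 0 ≤ Λ := Finset.sum_nonneg fun _ _ => sq_nonneg _
  have hsμ : s < μ := by rw [hμ, lt_div_iff₀ hE, mul_comm]; exact hlt
  have hμ0 : 0 < μ := hs0.trans_lt hsμ
  obtain ⟨d, hd⟩ : ∃ d : ℕ, Real.exp (-(d * ε / 2)) * Λ ≤ μ / 2 := by
    obtain ⟨d, hd⟩ := exists_nat_ge (4 * Λ / (μ * ε))
    refine ⟨d, ?_⟩
    rw [div_le_iff₀ (mul_pos hμ0 hε)] at hd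
    have h2 : (d : ℝ) * ε / 2 + 1 ≤ Real.exp (d * ε / 2) := Real.add_one_le_exp _
    rw [Real.exp_neg, inv_mul_le_iff₀ (Real.exp_pos _)]
    nlinarith
  have key : ∀ k : ℕ, ‖e ξ‖ ^ 2 ≤
      c₀ * (2 * ((d : ℝ) * (2 ^ k : ℕ)) + 1) ^ 2 * (s / μ) ^ (2 ^ k) + 8 * (1 / 2 : ℝ) ^ (2 ^ k) := by
    intro k
    obtain ⟨κ, _, b, hb, i1, i2, i3⟩ := iter h1 tt hc.proj.isSelfAdjoint hE ha k
    have h2 := hw κ b (fun l => ⟨(hb l).1, (hb l).2.1⟩) (d * 2 ^ k)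
    set p : ℕ := 2 ^ k with hp
    have hμp : 0 < μ ^ p := pow_pos hμ0 p
    have h3 : Real.exp (-(((d * p : ℕ) : ℝ) * ε / 2)) = Real.exp (-(d * ε / 2)) ^ p := by
      rw [← Real.exp_nat_mul]
      congr 1
      push_cast
      ring
    have h4 : Real.exp (-(((d * p : ℕ) : ℝ) * ε / 2)) * ∑ l, ‖b l‖ ^ 2 ≤ (μ / 2) ^ p := by
      refine (mul_le_mul_of_nonneg_left i2 (Real.exp_pos _).le).trans ?_
      rw [h3, ← mul_pow]
      exact pow_le_pow_left₀ (mul_nonneg (Real.exp_pos _).le hΛ0) hd p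
    have h5 : c₀ * (2 * ((d * p : ℕ) : ℝ) + 1) ^ 2 * ‖m.Sop b‖ ≤
        c₀ * (2 * ((d : ℝ) * p) + 1) ^ 2 * s ^ p := by
      push_cast
      exact mul_le_mul_of_nonneg_left i1 (by positivity)
    refine le_of_mul_le_mul_right ?_ hμp
    have h6 : (c₀ * (2 * ((d : ℝ) * p) + 1) ^ 2 * (s / μ) ^ p + 8 * (1 / 2 : ℝ) ^ p) * μ ^ p =
        c₀ * (2 * ((d : ℝ) * p) + 1) ^ 2 * s ^ p + 8 * (μ / 2) ^ p := by
      have h7 : (s / μ) ^ p * μ ^ p = s ^ p := by rw [← mul_pow, div_mul_cancel₀ _ hμ0.ne']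
      have h8 : (1 / 2 : ℝ) ^ p * μ ^ p = (μ / 2) ^ p := by
        rw [← mul_pow]
        congr 1
        ring
      rw [add_mul, mul_assoc _ ((s / μ) ^ p), h7, mul_assoc 8, h8]
    rw [h6]
    linarith
  have t := (lim c₀ d (s / μ) (div_nonneg hs0 hμ0.le) ((div_lt_one hμ0).2 hsμ)).comp
    (tendsto_pow_atTop_atTop_of_one_lt (by norm_num : (1 : ℕ) < 2))
  have := ge_of_tendsto' t key
  linarith

end Pool.Agent.P.MP_7e3bdd_an.NI
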