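import Pool.Agent.P.MP_7e3bdd_an.NI.Spec

/-! The polar decomposition: the conjugation is the isometric part of `C`. -/

set_option autoImplicit false

open scoped InnerProductSpace BigOperators BoundedContinuousFunction ComplexConjugate TensorProduct
  ComplexOrder
open MeasureTheory

noncomputable section

namespace Pool.Agent.P.MP_7e3bdd_an.NI

open RW

theorem preSt (h1 : RealSt) (h2 : CalcSt) : PreSt := by
  intro H _ _ _ N ξ hN hQ
  obtain ⟨R, C, hRC, hRξ, hS, hS', hproj⟩ := h1 H N ξ hN hQ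
  obtain ⟨Φ, hM, hP, hd, hfix, hC⟩ := h2 H R C hRC
  set T : H →L[ℂ] H := Φ om with hT
  have hsa : ∀ x y, ⟪x, T y⟫_ℂ = ⟪T x, y⟫_ℂ := fun x y => by
    rw [← inner_star_left, hT, ← map_star, star_om]
  have hinj : ∀ x, T x = 0 → x = 0 := fun x h =>
    hd.eq_zero_of_inner_left (𝕜 := ℂ) fun y => by rw [hsa, h, inner_zero_left]
  have hTT : ∀ x, T (T x) = C (C x) := fun x => by
    rw [hRC.sq, ← hM, ← map_ofNat Φ 2, ← map_sub]
    have e : (2 : ℝ →ᵇ ℂ) - omM = omP := by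
      ext r
      have := (one_add_exp_pos r).ne'
      simp only [BoundedContinuousFunction.coe_sub, Pi.sub_apply, omM_apply, omP_apply]
      rw [show (2 : ℝ →ᵇ ℂ) r = ((2 : ℝ) : ℂ) from rfl, ← Complex.ofReal_sub]
      congr 1
      field_simp
      ring
    rw [e]
    change (Φ om * Φ om) x = (Φ omM * Φ omP) x
    rw [← map_mul, ← map_mul, om_mul_om]
  have hnorm : ∀ x, ‖C x‖ = ‖T x‖ := fun x => by
    have e : ⟪C x, C x⟫_ℂ = ⟪T x, T x⟫_ℂ := by rw [hRC.symm, ← hTT, hsa]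
    rw [norm_eq_sqrt_re_inner (𝕜 := ℂ) (C x), norm_eq_sqrt_re_inner (𝕜 := ℂ) (T x), e]
  have hCT : ∀ x, C (T x) = T (C x) := fun x => by rw [hT, hC, flp_om]
  have hd' : DenseRange (T : H →ₗ[ℂ] H) := hd
  set J0 : H →L⋆[ℂ] H := (C : H →ₗ⋆[ℂ] H).extendOfNorm (T : H →ₗ[ℂ] H) with hJ0
  have hJT : ∀ x, J0 (T x) = C x := fun x =>
    LinearMap.extendOfNorm_eq (f := (C : H →ₗ⋆[ℂ] H)) hd'
      ⟨1, fun x => by rw [one_mul]; exact (hnorm x).le⟩ x
  have hiso : ∀ y, ‖J0 y‖ = ‖y‖ := fun y =>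
    hd.induction_on y (isClosed_eq (by fun_prop) (by fun_prop)) fun x => by rw [hJT, hnorm]
  have hTJ : ∀ y, T (J0 y) = C y := fun y =>
    hd.induction_on y (isClosed_eq (by fun_prop) (by fun_prop)) fun x => by rw [hJT, hCT]
  have hJJ : ∀ y, J0 (J0 y) = y := fun y => by
    have e : T (J0 (J0 y)) = T y :=
      hd.induction_on y (isClosed_eq (by fun_prop) (by fun_prop)) fun x => by
        rw [hTJ, hJT, hTT]
    exact sub_eq_zero.1 (hinj _ (by rw [map_sub, e, sub_self]))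
  have hJΦ : ∀ F y, J0 (Φ F y) = Φ (flp F) (J0 y) := fun F y =>
    hd.induction_on y (isClosed_eq (by fun_prop) (by fun_prop)) fun x => by
      have e : Φ F (T x) = T (Φ F x) := by
        change (Φ F * Φ om) x = (Φ om * Φ F) x
        rw [← map_mul, ← map_mul, mul_comm]
      rw [e, hJT, hJT, hC]
  let J1 : H →ₛₗᵢ[starRingEnd ℂ] H := ⟨(J0 : H →ₗ⋆[ℂ] H), hiso⟩
  let J : H ≃ₗᵢ⋆[ℂ] H := LinearIsometryEquiv.ofSurjective J1 fun y => ⟨J0 y, hJJ y⟩
  have hJ : ∀ y, J y = J0 y := fun y => rfl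
  have hTξ : T ξ = ξ := by
    rw [hT, hfix ξ hRξ, om_apply]
    norm_num
  refine ⟨⟨J, Φ, hJJ, hd, hJΦ⟩, ?_, hfix ξ hRξ, fun a ha => ?_, fun c hc => ?_,
    fun a ha ha' c hc hc' h => ?_⟩
  · change J0 ξ = ξ
    have e := hS' 1 (one_mem N)
    rw [star_one] at e
    conv_lhs => rw [← hTξ, hJT]
    exact e.trans hRξ
  · change T (J0 _) = Φ omP _
    rw [hTJ, hP, hS a ha]
  · change T (J0 _) = Φ omM _
    rw [hTJ, hM, hS' c hc]
  · change T (J0 _) = _
    rw [hTJ, hproj a ha ha' c hc hc' h]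

end Pool.Agent.P.MP_7e3bdd_an.NI
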