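import Pool.Agent.P.MP_7e3bdd_an.NI.Spec
import Pool.Agent.P.MP_7e3bdd_an.RW.Minimax

set_option autoImplicit false

open scoped InnerProductSpace BigOperators BoundedContinuousFunction ComplexConjugate TensorProduct
  ComplexOrder Topology
open MeasureTheory Filter

noncomputable section

namespace Pool.Agent.P.MP_7e3bdd_an.NI

open RW

namespace PRN

variable {H : Type} [NormedAddCommGroup H] [InnerProductSpace ℂ H] [CompleteSpace H]

theorem inner_sa {a : H →L[ℂ] H} (ha : IsSelfAdjoint a) (x y : H) : ⟪a x, y⟫_ℂ = ⟪x, a y⟫_ℂ := by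
  rw [← inner_star_left, ha.star_eq]

theorem im_zero {a b : H →L[ℂ] H} (ha : IsSelfAdjoint a) (hb : IsSelfAdjoint b)
    (h : a * b = b * a) (ξ : H) : (⟪a ξ, b ξ⟫_ℂ).im = 0 := by
  have h1 : ⟪a ξ, b ξ⟫_ℂ = ⟪b ξ, a ξ⟫_ℂ := by
    rw [inner_sa ha, inner_sa hb, ← mul_apply_eq_comp, h, mul_apply_eq_comp]
  have h2 := inner_conj_symm (𝕜 := ℂ) (a ξ) (b ξ)
  rw [← h1] at h2
  exact Complex.conj_eq_iff_im.1 h2

omit [CompleteSpace H] in
theorem ir (r : ℝ) (x y : H) : ⟪x, r • y⟫_ℂ = r • ⟪x, y⟫_ℂ := by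
  rw [← Complex.coe_smul, inner_smul_right, Complex.real_smul]

omit [CompleteSpace H] in
theorem il (r : ℝ) (x y : H) : ⟪r • x, y⟫_ℂ = r • ⟪x, y⟫_ℂ := by
  rw [← Complex.coe_smul, inner_smul_left, Complex.real_smul, Complex.conj_ofReal]

omit [CompleteSpace H] in
theorem re_nonneg {a : H →L[ℂ] H} (ha : 0 ≤ a) (ξ : H) : 0 ≤ (⟪ξ, a ξ⟫_ℂ).re :=
  ((ContinuousLinearMap.nonneg_iff_isPositive a).1 ha).re_inner_nonneg_right ξ

theorem key (N : VonNeumannAlgebra H) (ξ : H) {c : H →L[ℂ] H} (hc : c ∈ N)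
    (hcs : IsSelfAdjoint c) {y : H →L[ℂ] H} (hy : y ∈ N.commutant) (hys : IsSelfAdjoint y)
    (δ : ℝ) (hδ : 0 < δ) :
    ∃ F ∈ N.commutant, IsSelfAdjoint F ∧ ‖F‖ ≤ 1 ∧ (⟪y ξ, F ξ⟫_ℂ).im = 0 ∧
      (⟪y ξ, c ξ⟫_ℂ).re ≤ ‖c‖ * ((⟪y ξ, F ξ⟫_ℂ).re + δ * ‖ξ‖ ^ 2) := by
  let f : ℝ → ℝ := fun t => t / (|t| + δ)
  have hpos : ∀ t : ℝ, 0 < |t| + δ := fun t => by positivity
  have hf : Continuous f := continuous_id.div (by fun_prop) fun t => (hpos t).ne'
  have hf1 : ∀ t, |f t| ≤ 1 := fun t => by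
    simp only [f]
    rw [abs_div, abs_of_pos (hpos t), div_le_one (hpos t)]
    linarith
  have hf2 : ∀ t, |t| ≤ t * f t + δ := fun t => by
    have h1 : t * f t = |t| ^ 2 / (|t| + δ) := by simp only [f]; rw [sq_abs]; ring
    rw [h1, ← sub_le_iff_le_add, le_div_iff₀ (hpos t)]
    nlinarith
  set F := cfc f y with hF
  have hFs : IsSelfAdjoint F := cfc_predicate f y
  have hcomm : ∀ b : H →L[ℂ] H, Commute y b → Commute F b := fun b hb => hb.cfc_real f
  have hFQ : F ∈ N.commutant := by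
    rw [VonNeumannAlgebra.mem_commutant_iff]
    intro b hb
    exact (hcomm b (comm_QN hy hb)).eq.symm
  have hFn : ‖F‖ ≤ 1 := norm_cfc_le (by norm_num) fun t _ => hf1 t
  have hyF : y * F = F * y := (hcomm y (Commute.refl y)).eq.symm
  have e0 : cfc (fun t => t * f t + δ) y = y * F + algebraMap ℝ _ δ := by
    rw [cfc_add (a := y) _ _ (by fun_prop) (by fun_prop), cfc_mul _ _ y (by fun_prop) (by fun_prop),
      cfc_id' ℝ y, cfc_const δ y]
  have hp : 0 ≤ y * F + algebraMap ℝ _ δ + y := by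
    have : cfc (fun t => (t * f t + δ) + t) y = y * F + algebraMap ℝ _ δ + y := by
      rw [cfc_add (a := y) _ _ (by fun_prop) (by fun_prop), e0, cfc_id' ℝ y]
    rw [← this]
    exact cfc_nonneg fun t _ => by linarith [hf2 t, neg_abs_le t]
  have hq : 0 ≤ y * F + algebraMap ℝ _ δ - y := by
    have : cfc (fun t => (t * f t + δ) - t) y = y * F + algebraMap ℝ _ δ - y := by
      rw [cfc_sub _ _ y (by fun_prop) (by fun_prop), e0, cfc_id' ℝ y]
    rw [← this]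
    exact cfc_nonneg fun t _ => by linarith [hf2 t, le_abs_self t]
  have hc1 : 0 ≤ algebraMap ℝ _ ‖c‖ - c := sub_nonneg.2 hcs.le_algebraMap_norm_self
  have hc2 : 0 ≤ algebraMap ℝ _ ‖c‖ + c := by
    have := sub_nonneg.2 hcs.neg_algebraMap_norm_le_self
    rwa [sub_neg_eq_add, add_comm] at this
  have cy : Commute c y := (comm_QN hy hc).symm
  have cF : Commute c F := (comm_QN hFQ hc).symm
  have ch : Commute c (y * F + algebraMap ℝ _ δ) :=
    (cy.mul_right cF).add_right (Algebra.commute_algebraMap_right δ c)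
  have h1 := Commute.mul_nonneg hc1 hp
    ((Algebra.commute_algebraMap_left _ _).sub_left (ch.add_right cy))
  have h2 := Commute.mul_nonneg hc2 hq
    ((Algebra.commute_algebraMap_left _ _).add_left (ch.sub_right cy))
  have h3 := re_nonneg (add_nonneg h1 h2) ξ
  have e : (algebraMap ℝ _ ‖c‖ - c) * (y * F + algebraMap ℝ _ δ + y) +
      (algebraMap ℝ _ ‖c‖ + c) * (y * F + algebraMap ℝ _ δ - y)
      = (2 * ‖c‖) • (y * F) + (2 * ‖c‖ * δ) • (1 : H →L[ℂ] H) - (2:ℝ) • (y * c) := by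
    rw [← cy.eq]
    simp only [Algebra.algebraMap_eq_smul_one, mul_add, mul_sub, add_mul, sub_mul, smul_mul_assoc,
      one_mul, mul_smul_comm, mul_one]
    module
  rw [e] at h3
  refine ⟨F, hFQ, hFs, hFn, im_zero hys hFs hyF ξ, ?_⟩
  rw [inner_sa hys, inner_sa hys]
  have hn : (⟪ξ, ξ⟫_ℂ).re = ‖ξ‖ ^ 2 := inner_self_eq_norm_sq (𝕜 := ℂ) ξ
  simp only [sub_apply, add_apply, smul_apply, mul_apply_eq_comp, one_apply_eq_self,
    inner_sub_right, inner_add_right, ir, Complex.sub_re, Complex.add_re,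
    Complex.smul_re, smul_eq_mul, hn] at h3
  linarith

end PRN

open PRN in
theorem rnSt : RNSt := by
  intro H _ _ _ N ξ c hc hcs lam hlam
  classical
  let Sa := {y : H →L[ℂ] H // y ∈ N.commutant ∧ IsSelfAdjoint y}
  set ρ : ℝ := ‖c‖ / lam.re with hρ
  have hρ0 : 0 ≤ ρ := by positivity
  let G : (H →L[ℂ] H) → (H →L[ℂ] H) → ℝ := fun y x =>
    (lam * ⟪y ξ, x ξ⟫_ℂ).re - (⟪y ξ, c ξ⟫_ℂ).re
  let K : Set (H →L[ℂ] H) := {x | x ∈ N.commutant ∧ IsSelfAdjoint x ∧ ‖x‖ ≤ ρ}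
  have smulQ : ∀ (r : ℝ) (x : H →L[ℂ] H), x ∈ N.commutant → r • x ∈ N.commutant := fun r x hx =>
    N.commutant.toStarSubalgebra.smul_mem hx (r : ℂ)
  have one : ∀ y ∈ N.commutant, IsSelfAdjoint y → ∀ ε : ℝ, 0 < ε → ∃ x ∈ K, -ε ≤ G y x := by
    intro y hy hys ε hε
    obtain ⟨F, hF, hFs, hFn, him, hle⟩ := key N ξ hc hcs hy hys (ε / (‖c‖ * ‖ξ‖ ^ 2 + 1))
      (by positivity)
    refine ⟨ρ • F, ⟨smulQ _ _ hF, (IsSelfAdjoint.all ρ).smul hFs, ?_⟩, ?_⟩
    · rw [norm_smul, Real.norm_of_nonneg hρ0]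
      exact mul_le_of_le_one_right hρ0 hFn
    · simp only [G, smul_apply, ir, Complex.mul_re, Complex.smul_re,
        Complex.smul_im, him, smul_eq_mul, mul_zero, sub_zero]
      have e1 : lam.re * (ρ * (⟪y ξ, F ξ⟫_ℂ).re) = ‖c‖ * (⟪y ξ, F ξ⟫_ℂ).re := by
        rw [hρ]; field_simp
      have e2 : ‖c‖ * (ε / (‖c‖ * ‖ξ‖ ^ 2 + 1) * ‖ξ‖ ^ 2) ≤ ε := by
        have : ‖c‖ * (ε / (‖c‖ * ‖ξ‖ ^ 2 + 1) * ‖ξ‖ ^ 2)
            = ε * (‖c‖ * ‖ξ‖ ^ 2 / (‖c‖ * ‖ξ‖ ^ 2 + 1)) := by ring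
        rw [this]
        apply mul_le_of_le_one_right hε.le
        rw [div_le_one (by positivity)]; linarith
      rw [e1]; linarith
  have fin : ∀ (s : Finset Sa) (ε : ℝ), 0 < ε → ∃ x ∈ K, ∀ y ∈ s, -ε < G y.1 x := by
    intro s ε hε
    let C : Set (s → ℝ) := {t | ∃ x ∈ K, ∀ j : s, t j = G j.1.1 x}
    have hC : Convex ℝ C := by
      rintro a ⟨x, hx, ha⟩ b ⟨x', hx', hb⟩ p q hp hq hpq
      refine ⟨p • x + q • x', ⟨add_mem (smulQ _ _ hx.1) (smulQ _ _ hx'.1),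
        ((IsSelfAdjoint.all p).smul hx.2.1).add ((IsSelfAdjoint.all q).smul hx'.2.1), ?_⟩, ?_⟩
      · refine (norm_add_le _ _).trans ?_
        rw [norm_smul, norm_smul, Real.norm_of_nonneg hp, Real.norm_of_nonneg hq]
        have a1 := mul_le_mul_of_nonneg_left hx.2.2 hp
        have a2 := mul_le_mul_of_nonneg_left hx'.2.2 hq
        have a3 : p * ρ + q * ρ = ρ := by rw [← add_mul, hpq, one_mul]
        linarith
      · intro j
        simp only [Pi.add_apply, Pi.smul_apply, ha j, hb j, G, add_apply, smul_apply,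
          inner_add_right, ir, Complex.mul_re, Complex.add_re, Complex.add_im,
          Complex.smul_re, Complex.smul_im, smul_eq_mul]
        linear_combination (-(⟪j.1.1 ξ, c ξ⟫_ℂ).re) * hpq
    have hne : C.Nonempty :=
      ⟨fun j => G j.1.1 0, 0, ⟨zero_mem _, IsSelfAdjoint.zero _, by simpa using hρ0⟩, fun _ => rfl⟩
    obtain ⟨t, ⟨x, hx, ht⟩, h⟩ := finite_minimax C hC hne (-(ε / 2)) (-ε) (by linarith) (by
      intro l _ _
      obtain ⟨x, hx, hle⟩ := one (∑ j : s, l j • j.1.1)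
        (sum_mem fun j _ => smulQ _ _ j.1.2.1)
        (isSelfAdjoint_sum _ fun j _ => (IsSelfAdjoint.all (l j)).smul j.1.2.2) (ε / 2)
        (by linarith)
      refine ⟨fun j => G j.1.1 x, ⟨x, hx, fun _ => rfl⟩, hle.trans (le_of_eq ?_)⟩
      simp only [G, _root_.sum_apply, smul_apply, sum_inner, il, Finset.mul_sum,
        Complex.re_sum, mul_smul_comm, Complex.smul_re, smul_eq_mul, mul_sub,
        Finset.sum_sub_distrib])
    exact ⟨x, hx, fun y hy => by have := h ⟨y, hy⟩; rwa [ht] at this⟩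
  choose X hXK hX using fun i : Finset Sa × ℕ => fin i.1 (1 / ((i.2:ℝ) + 1)) (by positivity)
  let U : Ultrafilter (Finset Sa × ℕ) := Ultrafilter.of atTop
  have hU : (U : Filter (Finset Sa × ℕ)) ≤ atTop := Ultrafilter.of_le _
  obtain ⟨x, hx⟩ := exists_wlim U X ρ fun i => (hXK i).2.2
  have hge : ∀ y ∈ N.commutant, IsSelfAdjoint y → 0 ≤ G y x := by
    intro y hy hys
    have t1 : Tendsto (fun i => G y (X i)) (U : Filter (Finset Sa × ℕ)) (𝓝 (G y x)) :=
      ((Complex.continuous_re.tendsto _).comp ((hx ξ (y ξ)).const_mul lam)).sub_const _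
    have t2 : Tendsto (fun i : Finset Sa × ℕ => -(1 / ((i.2:ℝ) + 1)))
        (U : Filter (Finset Sa × ℕ)) (𝓝 0) := by
      have h1 : Tendsto (fun i : Finset Sa × ℕ => i.2) atTop atTop := by
        rw [← prod_atTop_atTop_eq]; exact tendsto_snd
      have := ((tendsto_one_div_add_atTop_nhds_zero_nat (𝕜 := ℝ)).comp h1).neg
      rw [neg_zero] at this
      exact this.mono_left hU
    refine le_of_tendsto_of_tendsto t2 t1 (hU ?_)
    filter_upwards [mem_atTop (({⟨y, hy, hys⟩} : Finset Sa), 0)] with i hi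
    exact (hX i ⟨y, hy, hys⟩ (hi.1 (Finset.mem_singleton_self _))).le
  refine ⟨x, hx.mem _ (Eventually.of_forall fun i => (hXK i).1),
    hx.isSelfAdjoint fun i => (hXK i).2.1, fun y hy hys => ?_⟩
  have h1 := hge y hy hys
  have h2 := hge (-y) (neg_mem hy) hys.neg
  simp only [G, neg_apply, inner_neg_left, mul_neg, Complex.neg_re] at h1 h2
  apply Complex.ext
  · rw [Complex.ofReal_re]; linarith
  · rw [Complex.ofReal_im]; exact im_zero hys hcs (comm_QN hy hc) ξ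

end Pool.Agent.P.MP_7e3bdd_an.NI
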