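import Pool.Agent.P.MP_7e3bdd_an.NI.Spec

/-!
Reduction by a projection of the commutant with central support one.
-/

set_option autoImplicit false

open scoped InnerProductSpace BigOperators BoundedContinuousFunction ComplexConjugate TensorProduct
  ComplexOrder
open MeasureTheory

noncomputable section

namespace Pool.Agent.P.MP_7e3bdd_an.NI

open RW

namespace PRed

variable {H : Type} [NormedAddCommGroup H] [InnerProductSpace ℂ H] [CompleteSpace H]

theorem inner_app (a : H →L[ℂ] H) (u v : H) : ⟪a u, v⟫_ℂ = ⟪u, (star a) v⟫_ℂ := by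
  rw [ContinuousLinearMap.star_eq_adjoint, ContinuousLinearMap.adjoint_inner_right]

theorem total (N : VonNeumannAlgebra H) (p : H →L[ℂ] H) (hp : IsStarProjection p)
    (hsep : ∀ a ∈ N, a * p = 0 → a = 0) (η : H)
    (h : ∀ b ∈ N.commutant, ∀ v, ⟪b (p v), η⟫_ℂ = 0) : η = 0 := by
  let K : Submodule ℂ H := ⨅ b : N.commutant, (p * (b : H →L[ℂ] H)).ker
  have hK : ∀ ξ, ξ ∈ K ↔ ∀ b ∈ N.commutant, p (b ξ) = 0 := by
    intro ξ
    simp only [K, Submodule.mem_iInf, LinearMap.mem_ker]
    exact ⟨fun hh b hb => hh ⟨b, hb⟩, fun hh b => hh b b.2⟩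
  have hcl : IsClosed (K : Set H) := by
    have : (K : Set H) = ⋂ b : N.commutant, {ξ | p ((b : H →L[ℂ] H) ξ) = 0} := by
      ext ξ
      simp only [SetLike.mem_coe, hK, Set.mem_iInter, Set.mem_setOf_eq]
      exact ⟨fun hh b => hh b b.2, fun hh b hb => hh ⟨b, hb⟩⟩
    rw [this]
    exact isClosed_iInter fun b => isClosed_eq (by fun_prop) continuous_const
  haveI : CompleteSpace K := hcl.completeSpace_coe
  have he : IsStarProjection K.starProjection := isStarProjection_starProjection
  have heN : K.starProjection ∈ N := by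
    rw [VonNeumannAlgebra.IsStarProjection.mem_iff he]
    intro y hy
    rw [Submodule.range_starProjection]
    intro ξ hξ
    have hξ' := (hK ξ).1 hξ
    refine (hK _).2 fun b hb => ?_
    exact hξ' (b * y) (mul_mem hb hy)
  have hpe : p * K.starProjection = 0 := by
    ext ξ
    have := (hK _).1 (K.starProjection_apply_mem ξ) 1 (one_mem _)
    simpa using this
  have hep : K.starProjection * p = 0 := by
    have := congrArg star hpe
    rwa [star_mul, he.isSelfAdjoint.star_eq, hp.isSelfAdjoint.star_eq, star_zero] at this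
  have h0 := hsep _ heN hep
  have hη : η ∈ K := by
    refine (hK η).2 fun b hb => ?_
    refine ext_inner_left ℂ fun v => ?_
    have := h (star b) (star_mem hb) v
    rw [inner_app, star_star, inner_app, hp.isSelfAdjoint.star_eq] at this
    rw [this, inner_zero_right]
  have := Submodule.starProjection_eq_self_iff.2 hη
  rw [← this, h0]
  rfl

theorem bound (N : VonNeumannAlgebra H) (p : H →L[ℂ] H) (hp : IsStarProjection p)
    (z : H →L[ℂ] H) (hpz : p * z = z)
    (hz : ∀ b ∈ N.commutant, z * (p * b * p) = p * b * p * z)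
    (A : Type) [Fintype A] (c : A → ℂ) (b : A → H →L[ℂ] H) (hb : ∀ a, b a ∈ N.commutant)
    (v : A → H) : ‖∑ a, c a • b a (z (v a))‖ ≤ ‖z‖ * ‖∑ a, c a • b a (p (v a))‖ := by
  have hps : star p = p := hp.isSelfAdjoint.star_eq
  have hz' : ∀ b ∈ N.commutant, star z * (p * b * p) = p * b * p * star z := by
    intro b hb
    have := congrArg star (hz (star b) (star_mem hb))
    simp only [star_mul, star_star, hps] at this
    simp only [mul_assoc] at this ⊢
    exact this.symm
  set y : H →L[ℂ] H := algebraMap ℝ (H →L[ℂ] H) (‖z‖ ^ 2) - star z * z with hy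
  have hy0 : 0 ≤ y := sub_nonneg.2 CStarAlgebra.star_mul_le_algebraMap_norm_sq
  set w : H →L[ℂ] H := CFC.sqrt y with hw
  have hww : w * w = y := CFC.sqrt_mul_sqrt_self y hy0
  have hws : star w = w := (CFC.sqrt_nonneg y).isSelfAdjoint.star_eq
  have hyc : ∀ b ∈ N.commutant, Commute y (p * b * p) := by
    intro b hb
    refine Commute.sub_left (Algebra.commutes _ _) ?_
    exact Commute.mul_left (hz' b hb) (hz b hb)
  have hwc : ∀ b ∈ N.commutant, Commute w (p * b * p) := fun b hb =>
    (hyc b hb).cfcₙ_nnreal _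
  have hzp : star z * p = star z := by
    have := congrArg star hpz
    rwa [star_mul, hps] at this
  have key : ∀ q ∈ N.commutant, w * (p * q * p) * w + star z * q * z
      = ((‖z‖ ^ 2 : ℝ) : ℂ) • (p * q * p) := by
    intro q hq
    have e1 : w * (p * q * p) * w = y * (p * q * p) := by
      rw [mul_assoc, ← (hwc q hq).eq, ← mul_assoc, hww]
    have e2 : star z * q * z = star z * z * (p * q * p) := by
      rw [mul_assoc (star z) z, hz q hq]
      calc star z * q * z = (star z * p) * q * (p * z) := by rw [hzp, hpz]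
        _ = _ := by simp only [mul_assoc]
    rw [e1, e2, ← add_mul, hy, sub_add_cancel, Algebra.algebraMap_eq_smul_one, smul_mul_assoc,
      one_mul]
    rfl
  have key2 : ∀ a a', ⟪b a (p (w (v a))), b a' (p (w (v a')))⟫_ℂ
      + ⟪b a (z (v a)), b a' (z (v a'))⟫_ℂ
      = ((‖z‖ ^ 2 : ℝ) : ℂ) * ⟪b a (p (v a)), b a' (p (v a'))⟫_ℂ := by
    intro a a'
    have := congrArg (fun T : H →L[ℂ] H => ⟪v a, T (v a')⟫_ℂ)
      (key (star (b a) * b a') (mul_mem (star_mem (hb a)) (hb a')))
    simp only [ContinuousLinearMap.add_apply, ContinuousLinearMap.mul_apply, inner_add_right,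
      ContinuousLinearMap.smul_apply, inner_smul_right] at this
    simp only [inner_app, hps, hws]
    exact this
  have key3 : ⟪∑ a, c a • b a (p (w (v a))), ∑ a, c a • b a (p (w (v a)))⟫_ℂ
      + ⟪∑ a, c a • b a (z (v a)), ∑ a, c a • b a (z (v a))⟫_ℂ
      = ((‖z‖ ^ 2 : ℝ) : ℂ) * ⟪∑ a, c a • b a (p (v a)), ∑ a, c a • b a (p (v a))⟫_ℂ := by
    simp only [sum_inner, inner_sum, inner_smul_left, inner_smul_right, Finset.mul_sum,
      ← Finset.sum_add_distrib]
    refine Finset.sum_congr rfl fun a _ => Finset.sum_congr rfl fun a' _ => ?_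
    linear_combination (c a * conj (c a')) * key2 a' a
  simp only [inner_self_eq_norm_sq_to_K] at key3
  have key4 : ‖∑ a, c a • b a (p (w (v a)))‖ ^ 2 + ‖∑ a, c a • b a (z (v a))‖ ^ 2
      = ‖z‖ ^ 2 * ‖∑ a, c a • b a (p (v a))‖ ^ 2 := by
    apply Complex.ofReal_injective
    push_cast at key3 ⊢
    exact key3
  refine (pow_le_pow_iff_left₀ (norm_nonneg _) (by positivity) two_ne_zero).1 ?_
  rw [mul_pow, ← key4]
  exact le_add_of_nonneg_left (by positivity)

end PRed

theorem redSt (h1 : FormSt) : RedSt := by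
  intro H _ _ _ N p hp hpN hsep z hzp hpz hz
  have htot : ∀ η : H, (∀ i : N.commutant × H, ⟪(i.1 : H →L[ℂ] H) (p i.2), η⟫_ℂ = 0) → η = 0 :=
    fun η h => PRed.total N p hp hsep η fun b hb v => h (⟨b, hb⟩, v)
  obtain ⟨T, -, hT⟩ := h1 H (N.commutant × H) (fun i => (i.1 : H →L[ℂ] H) (p i.2))
    (fun i j => ⟪(i.1 : H →L[ℂ] H) (p i.2), (j.1 : H →L[ℂ] H) (z j.2)⟫_ℂ) ‖z‖ (norm_nonneg _)
    htot (by
      intro A A' _ _ c i d j
      have hb := PRed.bound N p hp z hpz hz A' d (fun b => ((j b).1 : H →L[ℂ] H))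
        (fun b => (j b).1.2) (fun b => (j b).2)
      have e : ∑ a, ∑ b, conj (c a) * d b *
          ⟪((i a).1 : H →L[ℂ] H) (p (i a).2), ((j b).1 : H →L[ℂ] H) (z (j b).2)⟫_ℂ
          = ⟪∑ a, c a • ((i a).1 : H →L[ℂ] H) (p (i a).2),
            ∑ b, d b • ((j b).1 : H →L[ℂ] H) (z (j b).2)⟫_ℂ := by
        simp only [sum_inner, inner_sum, inner_smul_left, inner_smul_right, Finset.mul_sum]
        rw [Finset.sum_comm]
        refine Finset.sum_congr rfl fun a _ => Finset.sum_congr rfl fun a' _ => ?_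
        ring
      rw [e]
      refine (norm_inner_le_norm _ _).trans ?_
      calc _ ≤ ‖∑ a, c a • ((i a).1 : H →L[ℂ] H) (p (i a).2)‖ *
            (‖z‖ * ‖∑ b, d b • ((j b).1 : H →L[ℂ] H) (p (j b).2)‖) :=
            mul_le_mul_of_nonneg_left hb (norm_nonneg _)
        _ = _ := by ring)
  have hTb : ∀ b ∈ N.commutant, ∀ v, T (b (p v)) = b (z v) := by
    intro b hb v
    rw [← sub_eq_zero]
    refine htot _ fun i => ?_
    rw [inner_sub_right, sub_eq_zero]
    exact hT i (⟨b, hb⟩, v)
  refine ⟨T, ?_, ?_⟩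
  · rw [← VonNeumannAlgebra.commutant_commutant N, VonNeumannAlgebra.mem_commutant_iff]
    intro g hg
    rw [← sub_eq_zero, ← star_eq_zero]
    ext η
    refine htot _ fun i => ?_
    rw [← PRed.inner_app]
    have e1 := hTb (g * i.1) (mul_mem hg i.1.2) i.2
    have e2 := hTb i.1 i.1.2 i.2
    simp only [ContinuousLinearMap.mul_apply] at e1
    simp only [ContinuousLinearMap.sub_apply, ContinuousLinearMap.mul_apply, e1, e2, sub_self,
      inner_zero_left]
  · ext v
    simpa using hTb 1 (one_mem _) v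

end Pool.Agent.P.MP_7e3bdd_an.NI
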