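import Pool.Agent.P.MP_7e3bdd_an.NI.Spec

/-!
Scalar identities between integrals of bounded families pass to the functional calculus.
-/

set_option autoImplicit false

open scoped InnerProductSpace BigOperators BoundedContinuousFunction ComplexConjugate TensorProduct
  ComplexOrder
open MeasureTheory

noncomputable section

namespace Pool.Agent.P.MP_7e3bdd_an.NI

open RW

namespace PSV

theorem norm_om_le (r : ℝ) : ‖om r‖ ≤ 1 := by
  rw [om_apply, Complex.norm_real, Real.norm_eq_abs, abs_of_nonneg (by positivity),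
    div_le_one (one_add_exp_pos r)]
  exact two_exp_half_le r

theorem integrable_fam (h1 : ContSt) {k : ℝ → ℂ} {G : ℝ → ℝ →ᵇ ℂ} (hk : Integrable k)
    (hG : Fam G) : Integrable (fun t => k t • (G t * om)) := by
  obtain ⟨C, hC⟩ := hG.2
  have hC0 : 0 ≤ C := (norm_nonneg _).trans (hC 0 0)
  refine Integrable.mono' (hk.norm.mul_const C)
    (hk.aestronglyMeasurable.smul (h1 G hG).1.aestronglyMeasurable) (ae_of_all _ fun t => ?_)
  rw [norm_smul]
  refine mul_le_mul_of_nonneg_left ?_ (norm_nonneg _)
  refine (BoundedContinuousFunction.norm_le hC0).2 fun r => ?_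
  rw [BoundedContinuousFunction.mul_apply, norm_mul]
  exact (mul_le_mul (hC t r) (norm_om_le r) (norm_nonneg _) hC0).trans_eq (mul_one C)

variable {H : Type} [NormedAddCommGroup H] [InnerProductSpace ℂ H] [CompleteSpace H]

/-- A matrix coefficient of the functional calculus. -/
def coef (m : Mod H) (η x : H) : (ℝ →ᵇ ℂ) →L[ℂ] ℂ :=
  LinearMap.mkContinuous
    { toFun := fun F => ⟪η, m.Φ F x⟫_ℂ
      map_add' := fun F G => by rw [map_add, add_apply, inner_add_right]
      map_smul' := fun c F => by
        rw [map_smul, smul_apply, inner_smul_right]; rfl }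
    (‖η‖ * ‖x‖) fun F => by
      refine (norm_inner_le_norm _ _).trans ?_
      rw [mul_assoc, mul_comm ‖x‖]
      exact mul_le_mul_of_nonneg_left (m.norm_Φ_apply_le F F.norm_coe_le_norm x) (norm_nonneg _)

theorem coef_apply (m : Mod H) (η x : H) (F : ℝ →ᵇ ℂ) : coef m η x F = ⟪η, m.Φ F x⟫_ℂ := rfl

theorem cont_int (h1 : ContSt) (m : Mod H) {k : ℝ → ℂ} {G : ℝ → ℝ →ᵇ ℂ} (hk : Integrable k)
    (hG : Fam G) (η : H) : Continuous fun ζ : H => ∫ t, k t * ⟪η, m.Φ (G t) ζ⟫_ℂ := by
  obtain ⟨C, hC⟩ := hG.2
  have hC0 : 0 ≤ C := (norm_nonneg _).trans (hC 0 0)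
  refine continuous_iff_continuousAt.2 fun z => ?_
  refine continuousAt_of_dominated (bound := fun t => ‖k t‖ * (‖η‖ * (C * (‖z‖ + 1))))
    (Filter.Eventually.of_forall fun ζ => ?_) ?_ (hk.norm.mul_const _) (ae_of_all _ fun t => ?_)
  · exact hk.aestronglyMeasurable.mul
      (continuous_const.inner ((h1 G hG).2 H m ζ)).aestronglyMeasurable
  · have h : ∀ᶠ ζ in nhds z, ‖ζ‖ < ‖z‖ + 1 :=
      continuous_norm.continuousAt.eventually_lt continuousAt_const (lt_add_one _)
    filter_upwards [h] with ζ hζ
    refine ae_of_all _ fun t => ?_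
    rw [norm_mul]
    refine mul_le_mul_of_nonneg_left ((norm_inner_le_norm _ _).trans ?_) (norm_nonneg _)
    refine mul_le_mul_of_nonneg_left ((m.norm_Φ_apply_le _ (hC t) ζ).trans ?_) (norm_nonneg _)
    exact mul_le_mul_of_nonneg_left hζ.le hC0
  · exact (continuous_const.mul (continuous_const.inner (m.Φ (G t)).continuous)).continuousAt

end PSV

open PSV in
theorem svSt (h1 : ContSt) : SVSt := by
  intro H _ _ _ m I _ k G hk hG h0 η ζ
  have hS : (∑ i, ∫ t, k i t • (G i t * om)) = 0 := by
    ext s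
    have h := map_sum (BoundedContinuousFunction.evalCLM ℂ s)
      (fun i => ∫ t, k i t • (G i t * om)) Finset.univ
    rw [BoundedContinuousFunction.evalCLM_apply] at h
    rw [h]
    have h2 : ∀ i, (BoundedContinuousFunction.evalCLM ℂ s) (∫ t, k i t • (G i t * om)) =
        (∫ t, k i t * G i t s) * om s := fun i => by
      rw [← ContinuousLinearMap.integral_comp_comm _ (integrable_fam h1 (hk i) (hG i)),
        ← integral_mul_const]
      refine integral_congr_ae (ae_of_all _ fun t => ?_)
      simp only [BoundedContinuousFunction.evalCLM_apply, BoundedContinuousFunction.smul_apply,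
        BoundedContinuousFunction.mul_apply, smul_eq_mul, mul_assoc]
    simp only [h2]
    rw [← Finset.sum_mul, h0 s, zero_mul]
    rfl
  refine m.dense.induction_on (p := fun ζ => ∑ i, ∫ t, k i t * ⟪η, m.Φ (G i t) ζ⟫_ℂ = 0) ζ
    (isClosed_eq (continuous_finsetSum _ fun i _ => cont_int h1 m (hk i) (hG i) η)
      continuous_const) fun x => ?_
  have h := congrArg (coef m η x) hS
  rw [map_sum, map_zero] at h
  rw [← h]
  refine Finset.sum_congr rfl fun i _ => ?_
  rw [← ContinuousLinearMap.integral_comp_comm _ (integrable_fam h1 (hk i) (hG i))]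
  refine integral_congr_ae (ae_of_all _ fun t => ?_)
  simp only [map_smul, coef_apply, smul_eq_mul, m.Φ_Φ]

end Pool.Agent.P.MP_7e3bdd_an.NI
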