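import Pool.Agent.P.MP_7e3bdd_an.NI.Spec

/-!
The Fourier transform of the hyperbolic secant, by the beta integral.
-/

set_option autoImplicit false

open scoped InnerProductSpace BigOperators BoundedContinuousFunction ComplexConjugate TensorProduct
  ComplexOrder
open MeasureTheory

noncomputable section

namespace Pool.Agent.P.MP_7e3bdd_an.NI

open RW

namespace PSech

theorem sig_eq (y : ℝ) :
    Real.sigmoid (2 * y) = Real.exp (y - Real.log (2 * Real.cosh y)) := by
  have h0 : 0 < 2 * Real.cosh y := by have := Real.cosh_pos y; positivity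
  have h1 : Real.exp (-(2 * y)) * Real.exp y = Real.exp (-y) := by
    rw [← Real.exp_add]; ring_nf
  have h2 := (Real.exp_pos y).ne'
  have h3 : 0 < 1 + Real.exp (-(2 * y)) := by positivity
  rw [Real.exp_sub, Real.exp_log h0, Real.sigmoid_def, eq_div_iff h0.ne', inv_mul_eq_div,
    div_eq_iff h3.ne', Real.cosh_eq, mul_add, mul_comm (Real.exp y) (Real.exp _), h1]
  ring

theorem one_sub_sig_eq (y : ℝ) :
    1 - Real.sigmoid (2 * y) = Real.exp (-y - Real.log (2 * Real.cosh y)) := by
  rw [← Real.sigmoid_neg, ← mul_neg, sig_eq, Real.cosh_neg]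

theorem exp_cpow (x : ℝ) (z : ℂ) : ((Real.exp x : ℝ) : ℂ) ^ z = Complex.exp (x * z) := by
  rw [Complex.cpow_def_of_ne_zero (by exact_mod_cast (Real.exp_pos x).ne'),
    ← Complex.ofReal_log (Real.exp_pos x).le, Real.log_exp]

/-- The substitution. -/
def f (t : ℝ) : ℝ := Real.sigmoid (2 * (Real.pi * t))

/-- Its derivative. -/
def f' (t : ℝ) : ℝ := f t * (1 - f t) * (2 * Real.pi)

theorem hasDeriv (t : ℝ) : HasDerivAt f (f' t) t := by
  have h : HasDerivAt (fun t : ℝ => 2 * (Real.pi * t)) (2 * (Real.pi * 1)) t :=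
    ((hasDerivAt_id t).const_mul Real.pi).const_mul 2
  rw [mul_one] at h
  exact (Real.hasDerivAt_sigmoid _).comp t h

theorem f_inj : Function.Injective f := fun a b h => by
  have h1 := Real.sigmoid_injective h
  have h2 := Real.pi_pos
  nlinarith

theorem f_image : f '' Set.univ = Set.Ioo 0 1 := by
  rw [Set.image_univ, ← Real.range_sigmoid]
  ext y
  constructor
  · rintro ⟨t, rfl⟩
    exact ⟨_, rfl⟩
  · rintro ⟨x, rfl⟩
    refine ⟨x / (2 * Real.pi), ?_⟩
    have h2 := Real.pi_pos.ne'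
    unfold f
    congr 1
    field_simp

theorem pt (w : ℂ) (t : ℝ) :
    |f' t| • (((f t : ℝ) : ℂ) ^ ((1 / 2 + w * Complex.I / (2 * Real.pi)) - 1) *
      (1 - ((f t : ℝ) : ℂ)) ^ ((1 - (1 / 2 + w * Complex.I / (2 * Real.pi))) - 1)) =
      Real.pi * (Complex.exp (t * w * Complex.I) / (Real.cosh (Real.pi * t) : ℂ)) := by
  have hp := Real.pi_pos
  have hp' : (Real.pi : ℂ) ≠ 0 := by exact_mod_cast hp.ne'
  have h0 : 0 < 2 * Real.cosh (Real.pi * t) := by have := Real.cosh_pos (Real.pi * t); positivity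
  have h1 : f t = _ := sig_eq (Real.pi * t)
  have h2 : 1 - f t = _ := one_sub_sig_eq (Real.pi * t)
  have h3 : (1 : ℂ) - ((f t : ℝ) : ℂ) = ((1 - f t : ℝ) : ℂ) := by push_cast; rfl
  have h4 : (Real.cosh (Real.pi * t) : ℂ) =
      Complex.exp (Real.log (2 * Real.cosh (Real.pi * t)) : ℝ) / 2 := by
    rw [← Complex.ofReal_exp, Real.exp_log h0, Complex.ofReal_mul]
    simp
  rw [h3, f', h2, h1, abs_of_pos (by positivity), exp_cpow, exp_cpow, h4, Complex.real_smul]
  generalize Real.log (2 * Real.cosh (Real.pi * t)) = c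
  rw [Complex.ofReal_mul, Complex.ofReal_mul, Complex.ofReal_exp, Complex.ofReal_exp,
    div_div_eq_mul_div, mul_div_right_comm _ 2, ← Complex.exp_sub]
  have h5 : ((t : ℂ) * w * Complex.I - (c : ℂ)) =
      ((Real.pi * t - c : ℝ) : ℂ) + ((-(Real.pi * t) - c : ℝ) : ℂ) +
      (((Real.pi * t - c : ℝ) : ℂ) * ((1 / 2 + w * Complex.I / (2 * Real.pi)) - 1) +
      ((-(Real.pi * t) - c : ℝ) : ℂ) * ((1 - (1 / 2 + w * Complex.I / (2 * Real.pi))) - 1)) := by
    push_cast
    field_simp
    ring
  rw [h5, Complex.exp_add, Complex.exp_add, Complex.exp_add]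
  push_cast
  ring

end PSech

open PSech in
theorem sechSt : SechSt := by
  intro w hw
  have hp := Real.pi_pos
  have hp' : (Real.pi : ℂ) ≠ 0 := by exact_mod_cast hp.ne'
  obtain ⟨a, ha⟩ : ∃ a : ℂ, a = 1 / 2 + w * Complex.I / (2 * Real.pi) := ⟨_, rfl⟩
  have hre : a.re = 1 / 2 - w.im / (2 * Real.pi) := by
    have h : (2 * Real.pi : ℂ) = ((2 * Real.pi : ℝ) : ℂ) := by push_cast; rfl
    rw [ha, h, Complex.add_re, Complex.div_ofReal_re]
    simp
    ring
  obtain ⟨hw1, hw2⟩ := abs_lt.1 hw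
  have ha0 : 0 < a.re := by
    rw [hre, sub_pos, div_lt_iff₀ (by positivity)]
    linarith
  have ha1 : 0 < (1 - a).re := by
    rw [Complex.sub_re, Complex.one_re, hre]
    have : -(1 / 2) < w.im / (2 * Real.pi) := by
      rw [lt_div_iff₀ (by positivity)]
      linarith
    linarith
  have hc := Complex.betaIntegral_convergent ha0 ha1
  rw [intervalIntegrable_iff_integrableOn_Ioo_of_le zero_le_one, ← f_image,
    integrableOn_image_iff_integrableOn_abs_deriv_smul MeasurableSet.univ
      (fun t _ => (hasDeriv t).hasDerivWithinAt) f_inj.injOn, integrableOn_univ] at hc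
  have hb : Complex.betaIntegral a (1 - a) = Real.pi / Complex.sin (Real.pi * a) := by
    have h := Complex.Gamma_mul_Gamma_eq_betaIntegral ha0 ha1
    rw [Complex.Gamma_mul_Gamma_one_sub, add_sub_cancel, Complex.Gamma_one, one_mul] at h
    exact h.symm
  rw [Complex.betaIntegral, intervalIntegral.integral_of_le zero_le_one,
    integral_Ioc_eq_integral_Ioo, ← f_image, integral_image_eq_integral_abs_deriv_smul
      MeasurableSet.univ (fun t _ => (hasDeriv t).hasDerivWithinAt) f_inj.injOn,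
    Measure.restrict_univ] at hb
  have hs : Complex.sin (Real.pi * a) = Complex.cosh (w / 2) := by
    have h : (Real.pi : ℂ) * a = w / 2 * Complex.I + Real.pi / 2 := by
      rw [ha]
      field_simp
      ring
    rw [h, Complex.sin_add_pi_div_two, Complex.cos_mul_I]
  rw [hs] at hb
  subst ha
  simp only [pt] at hc hb
  refine ⟨(integrable_const_mul_iff (IsUnit.mk0 _ hp') _).1 hc, mul_left_cancel₀ hp' ?_⟩
  rw [← integral_const_mul, hb]
  ring

end Pool.Agent.P.MP_7e3bdd_an.NI
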