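import Pool.Agent.P.MP_7e3bdd_an.NI.Spec

/-!
A separating vector is cyclic for the commutant; isomorphisms preserve factors.
-/

set_option autoImplicit false

open scoped InnerProductSpace BigOperators BoundedContinuousFunction ComplexConjugate TensorProduct
  ComplexOrder
open MeasureTheory

noncomputable section

namespace Pool.Agent.P.MP_7e3bdd_an.NI

open RW

namespace PSep

variable {H : Type} [NormedAddCommGroup H] [InnerProductSpace ℂ H] [CompleteSpace H]

/-- The orbit of a vector under a von Neumann algebra. -/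
def orb (Q : VonNeumannAlgebra H) (ξ : H) : Submodule ℂ H where
  carrier := {x | ∃ a ∈ Q, a ξ = x}
  add_mem' := by
    rintro _ _ ⟨a, ha, rfl⟩ ⟨b, hb, rfl⟩
    exact ⟨a + b, add_mem ha hb, rfl⟩
  zero_mem' := ⟨0, zero_mem _, rfl⟩
  smul_mem' := by
    rintro c _ ⟨a, ha, rfl⟩
    exact ⟨c • a, Q.toStarSubalgebra.smul_mem ha c, rfl⟩

theorem inv (Q : VonNeumannAlgebra H) (ξ : H) {a : H →L[ℂ] H} (ha : a ∈ Q) {x : H}
    (hx : x ∈ (orb Q ξ).topologicalClosure) : a x ∈ (orb Q ξ).topologicalClosure := by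
  have h : Set.MapsTo a (orb Q ξ : Set H) (orb Q ξ : Set H) := by
    rintro _ ⟨b, hb, rfl⟩
    exact ⟨a * b, mul_mem ha hb, rfl⟩
  exact h.closure a.continuous hx

theorem comm (K : Submodule ℂ H) [K.HasOrthogonalProjection] {a : H →L[ℂ] H}
    (h1 : ∀ x ∈ K, a x ∈ K) (h2 : ∀ x ∈ K, (star a) x ∈ K) :
    a * K.starProjection = K.starProjection * a := by
  ext x
  rw [mul_apply_eq_comp, mul_apply_eq_comp]
  symm
  refine Submodule.eq_starProjection_of_mem_of_inner_eq_zero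
    (h1 _ (K.starProjection_apply_mem x)) fun w hw => ?_
  rw [← map_sub, ← inner_star_right]
  exact K.starProjection_inner_eq_zero x _ (h2 w hw)

theorem cyc (N : VonNeumannAlgebra H) (ξ : H) (h1 : ‖ξ‖ = 1) (h2 : ∀ a ∈ N, a ξ = 0 → a = 0) :
    Cyc N.commutant ξ := by
  refine ⟨h1, fun η ε hε => ?_⟩
  set K := (orb N.commutant ξ).topologicalClosure with hK
  have : CompleteSpace K := (orb N.commutant ξ).isClosed_topologicalClosure.completeSpace_coe
  have hp : K.starProjection ∈ N := mem_of_comm fun a ha =>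
    comm K (fun x hx => inv _ ξ ha hx) (fun x hx => inv _ ξ (star_mem ha) hx)
  have hξ : ξ ∈ K := (orb N.commutant ξ).le_topologicalClosure ⟨1, one_mem _, rfl⟩
  have h0 : (1 - K.starProjection) = 0 := by
    refine h2 _ (sub_mem (one_mem _) hp) ?_
    rw [sub_apply, Submodule.starProjection_eq_self_iff.2 hξ]
    simp
  have hη : η ∈ K := by
    have h3 : η = K.starProjection η := by
      have h4 := congrArg (fun T : H →L[ℂ] H => T η) (sub_eq_zero.1 h0)
      simpa using h4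
    rw [h3]
    exact K.starProjection_apply_mem η
  obtain ⟨_, ⟨a, ha, rfl⟩, h5⟩ := Metric.mem_closure_iff.1 hη ε hε
  exact ⟨a, ha, by rwa [← dist_eq_norm]⟩

variable {K : Type} [NormedAddCommGroup K] [InnerProductSpace ℂ K] [CompleteSpace K]

theorem fac (N : VonNeumannAlgebra H) (N₁ : VonNeumannAlgebra K) (h : Iso N N₁) (hf : Fac N) :
    Fac N₁ := by
  obtain ⟨e⟩ := h
  intro z hz hc
  let z' : N₁.toStarSubalgebra := ⟨z, hz⟩
  obtain ⟨c, h1⟩ := hf (e.symm z').1 (e.symm z').2 fun y hy => by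
    let y' : N.toStarSubalgebra := ⟨y, hy⟩
    have h2 : z' * e y' = e y' * z' := Subtype.ext (hc _ (e y').2)
    have h3 := congrArg e.symm h2
    rw [map_mul, map_mul, e.symm_apply_apply] at h3
    exact congrArg Subtype.val h3
  have h4 : e.symm z' = c • 1 := Subtype.ext h1
  have h5 := congrArg e h4
  rw [e.apply_symm_apply, map_smul, map_one] at h5
  exact ⟨c, congrArg Subtype.val h5⟩

theorem iso (N : VonNeumannAlgebra H) (N₁ : VonNeumannAlgebra K)
    (π : (H →L[ℂ] H) →⋆ₐ[ℂ] (K →L[ℂ] K)) (h1 : Function.Injective π)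
    (h2 : ∀ y, y ∈ N₁ ↔ ∃ a ∈ N, π a = y) : Iso N N₁ := by
  let φ : N.toStarSubalgebra →⋆ₐ[ℂ] N₁.toStarSubalgebra :=
    (π.comp N.toStarSubalgebra.subtype).codRestrict N₁.toStarSubalgebra
      fun a => (h2 _).2 ⟨a.1, a.2, rfl⟩
  refine ⟨StarAlgEquiv.ofBijective φ ⟨fun a b hab => ?_, fun y => ?_⟩⟩
  · exact Subtype.ext (h1 (congrArg Subtype.val hab))
  · obtain ⟨a, ha, h3⟩ := (h2 y.1).1 y.2
    exact ⟨⟨a, ha⟩, Subtype.ext h3⟩

end PSep

theorem sepSt' : SepSt' :=
  ⟨fun _ _ _ _ N ξ h1 h2 => PSep.cyc N ξ h1 h2, fun _ _ _ _ _ _ _ _ N N₁ =>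
    ⟨PSep.fac N N₁, PSep.iso N N₁⟩⟩

end Pool.Agent.P.MP_7e3bdd_an.NI
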