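import Pool.Agent.P.MP_7e3bdd_an.NI.Spec

/-!
Averages of the modular orbit of an operator.
-/

set_option autoImplicit false

open scoped InnerProductSpace BigOperators BoundedContinuousFunction ComplexConjugate TensorProduct
  ComplexOrder
open MeasureTheory

noncomputable section

namespace Pool.Agent.P.MP_7e3bdd_an.NI

open RW

namespace PSg

variable {H : Type} [NormedAddCommGroup H] [InnerProductSpace ℂ H] [CompleteSpace H]

theorem fam_ex : Fam ex := by
  refine ⟨?_, 1, fun t r => (norm_ex t r).le⟩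
  simp only [ex_apply]
  fun_prop

theorem norm_U_le (m : Mod H) (t : ℝ) (x : H) : ‖m.U t x‖ ≤ ‖x‖ := by
  have h := m.norm_Φ_apply_le (ex t) (fun r => (norm_ex t r).le) x
  rwa [one_mul] at h

theorem cont_U (h1 : ContSt) (m : Mod H) (x : H) : Continuous fun t => m.U t x :=
  (h1 ex fam_ex).2 H m x

theorem cont_U_comp (h1 : ContSt) (m : Mod H) {f : ℝ → H} (hf : Continuous f) :
    Continuous fun t => m.U t (f t) := by
  refine continuous_iff_continuousAt.2 fun s => ?_
  have h2 : Filter.Tendsto (fun t => m.U t (f t - f s)) (nhds s) (nhds 0) := by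
    refine squeeze_zero_norm (fun t => norm_U_le m t _) ?_
    exact tendsto_iff_norm_sub_tendsto_zero.1 (hf.tendsto s)
  have h3 := h2.add ((cont_U h1 m (f s)).tendsto s)
  rw [zero_add] at h3
  refine h3.congr fun t => ?_
  rw [map_sub, sub_add_cancel]

theorem sig_apply (m : Mod H) (t : ℝ) (a : H →L[ℂ] H) (x : H) :
    m.sig t a x = m.U t (a (m.U (-t) x)) := rfl

theorem cont_sig (h1 : ContSt) (m : Mod H) (a : H →L[ℂ] H) (x : H) :
    Continuous fun t => m.sig t a x :=
  cont_U_comp h1 m (a.continuous.comp ((cont_U h1 m x).comp continuous_neg))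

theorem norm_sig_le (m : Mod H) (t : ℝ) (a : H →L[ℂ] H) (x : H) :
    ‖m.sig t a x‖ ≤ ‖a‖ * ‖x‖ :=
  (norm_U_le m t _).trans ((a.le_opNorm _).trans
    (mul_le_mul_of_nonneg_left (norm_U_le m _ x) (norm_nonneg a)))

theorem norm_term_le (m : Mod H) (g : ℝ → ℂ) (a : H →L[ℂ] H) (x : H) (t : ℝ) :
    ‖g t • m.sig t a x‖ ≤ ‖g t‖ * (‖a‖ * ‖x‖) := by
  rw [norm_smul]
  exact mul_le_mul_of_nonneg_left (norm_sig_le m t a x) (norm_nonneg _)

theorem integrable_sig (h1 : ContSt) (m : Mod H) {g : ℝ → ℂ} (hg : Integrable g)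
    (a : H →L[ℂ] H) (x : H) : Integrable fun t => g t • m.sig t a x :=
  (hg.norm.mul_const (‖a‖ * ‖x‖)).mono'
    (hg.aestronglyMeasurable.smul (cont_sig h1 m a x).aestronglyMeasurable)
    (Filter.Eventually.of_forall (norm_term_le m g a x))

theorem exists_avg (h1 : ContSt) (m : Mod H) {g : ℝ → ℂ} (hg : Integrable g) (a : H →L[ℂ] H) :
    ∃ b : H →L[ℂ] H, ∀ x, b x = ∫ t, g t • m.sig t a x := by
  let b₀ : H →ₗ[ℂ] H :=
    { toFun := fun x => ∫ t, g t • m.sig t a x
      map_add' := fun x y => by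
        rw [← integral_add (integrable_sig h1 m hg a x) (integrable_sig h1 m hg a y)]
        simp only [map_add, smul_add]
      map_smul' := fun c x => by
        rw [RingHom.id_apply, ← integral_smul]
        simp only [map_smul, smul_comm c] }
  refine ⟨b₀.mkContinuous ((∫ t, ‖g t‖) * ‖a‖) fun x => ?_, fun x => rfl⟩
  refine (norm_integral_le_of_norm_le (hg.norm.mul_const (‖a‖ * ‖x‖))
    (Filter.Eventually.of_forall (norm_term_le m g a x))).trans (le_of_eq ?_)
  rw [integral_mul_const, mul_assoc]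

end PSg

open PSg

theorem sgSt (h1 : ContSt) (h2 : IntSt) : SgSt := by
  intro H _ _ _ m N ξ hT g F hg hF a ha
  obtain ⟨b, hb⟩ := exists_avg h1 m hg a
  have hU : ∀ t, m.U t ξ = ξ := fun t => by
    rw [Mod.U, hT.Φξ, ex_apply]
    simp
  have hS : m.IsSg g a b := fun η ζ => by
    rw [hb, ← integral_inner (integrable_sig h1 m hg a ζ)]
    simp only [inner_smul_right]
  have hξ : b ξ = m.Φ F (a ξ) := by
    refine ext_inner_left ℂ fun η => ?_
    rw [hS, h2 H m g F hg hF]
    simp only [sig_apply, hU]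
  have hJ : m.J (star b ξ) = m.Φ F (m.J (star a ξ)) := by
    refine ext_inner_left ℂ fun η => ?_
    rw [m.inner_J_right, inner_star_left, hS, h2 H m g F hg hF]
    refine integral_congr_ae (Filter.Eventually.of_forall fun t => ?_)
    have h3 : ⟪ξ, m.sig t a (m.J η)⟫_ℂ = ⟪η, m.U t (m.J (star a ξ))⟫_ℂ := by
      rw [sig_apply, ← inner_star_left, m.star_U, hU, ← inner_star_left, ← m.J_U, m.inner_J_right,
        ← m.star_U, inner_star_left]
    simp only [h3]
  refine ⟨b, ?_, hS, hξ, ?_, fun e he hae => ?_⟩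
  · rw [VonNeumannAlgebra.mem_commutant_iff]
    intro c hc
    ext x
    rw [mul_apply_eq_comp, mul_apply_eq_comp, hb, hb,
      ← c.integral_comp_comm (integrable_sig h1 m hg a x)]
    refine integral_congr_ae (Filter.Eventually.of_forall fun t => ?_)
    have h3 : c (m.sig t a x) = m.sig t a (c x) := by
      rw [← mul_apply_eq_comp, ← comm_QN (hT.sigQ t a ha) hc, mul_apply_eq_comp]
    simp only [map_smul, h3]
  · rw [Mod.D, Mod.D, hξ, hJ, ← map_add, m.Φ_Φ, m.Φ_Φ, mul_comm]
  · ext x
    rw [mul_apply_eq_comp, hb, hb]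
    refine integral_congr_ae (Filter.Eventually.of_forall fun t => ?_)
    have h3 : m.sig t a (e x) = m.sig t a x := by
      rw [← mul_apply_eq_comp, Mod.sig, mul_assoc, he, ← mul_assoc, mul_assoc (m.U t), hae]
    simp only [h3]

end Pool.Agent.P.MP_7e3bdd_an.NI
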