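import Pool.Agent.P.MP_7e3bdd_an.NI.Spec
import Pool.Agent.P.MP_7e3bdd_an.RW.HS

/-!
The countable amplification of a von Neumann algebra on a separable space has a separating vector.
-/

set_option autoImplicit false

open scoped InnerProductSpace BigOperators BoundedContinuousFunction ComplexConjugate TensorProduct
  ComplexOrder
open MeasureTheory

noncomputable section

namespace Pool.Agent.P.MP_7e3bdd_an.NI

open RW

namespace PStd1

variable {H : Type} [NormedAddCommGroup H] [InnerProductSpace ℂ H] [CompleteSpace H]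

variable (H) in
/-- The diagonal action on square summable sequences. -/
def amp : (H →L[ℂ] H) →⋆ₐ[ℂ] (HS ℕ H →L[ℂ] HS ℕ H) where
  toFun T := lam T
  map_one' := ContinuousLinearMap.ext fun x => lam_one x
  map_mul' S T := ContinuousLinearMap.ext fun x => lam_mul S T x
  map_zero' := ContinuousLinearMap.ext fun x => by ext i; simp
  map_add' S T := ContinuousLinearMap.ext fun x => lam_add S T x
  commutes' c := ContinuousLinearMap.ext fun x => by
    rw [Algebra.algebraMap_eq_smul_one, Algebra.algebraMap_eq_smul_one, lam_smul, lam_one]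
    rfl
  map_star' T := by
    rw [ContinuousLinearMap.star_eq_adjoint (lam T), ContinuousLinearMap.eq_adjoint_iff]
    intro x y
    have h := inner_lam_star (ι := ℕ) (star T) x y
    rw [star_star] at h
    exact h.symm

theorem amp_apply (T : H →L[ℂ] H) (x : HS ℕ H) (i : ℕ) : amp H T x i = T (x i) := rfl

/-- The inclusion of one coordinate. -/
def V (i : ℕ) : H →L[ℂ] HS ℕ H := lp.singleContinuousLinearMap ℂ (fun _ : ℕ => H) 2 i

/-- The projection on one coordinate. -/
def W (i : ℕ) : HS ℕ H →L[ℂ] H := lp.evalCLM ℂ (fun _ : ℕ => H) 2 i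

omit [CompleteSpace H] in
theorem W_apply (i : ℕ) (x : HS ℕ H) : W i x = x i := rfl

omit [CompleteSpace H] in
theorem V_apply (i j : ℕ) (x : H) : V i x j = (Pi.single i x : ℕ → H) j := by
  simp [V, lp.single_apply]

omit [CompleteSpace H] in
theorem V_self (i : ℕ) (x : H) : V i x i = x := by simp [V_apply]

omit [CompleteSpace H] in
theorem norm_V (i : ℕ) (x : H) : ‖V i x‖ = ‖x‖ := by
  simp only [V, lp.singleContinuousLinearMap_apply]
  exact lp.norm_single (E := fun _ : ℕ => H) (p := 2) (by norm_num) i x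

theorem amp_V (T : H →L[ℂ] H) (i : ℕ) (x : H) : amp H T (V i x) = V i (T x) := by
  ext j
  rw [amp_apply, V_apply, V_apply]
  by_cases h : j = i
  · subst h; simp
  · simp [h]

theorem amp_inj : Function.Injective (amp H) := by
  intro S T h
  ext x
  have := congrArg (fun y : HS ℕ H →L[ℂ] HS ℕ H => y (V 0 x) 0) h
  simpa only [amp_apply, V_self] using this

/-- The corner of an operator. -/
def cor (y : HS ℕ H →L[ℂ] HS ℕ H) : H →L[ℂ] H := (W 0).comp (y.comp (V 0))

theorem cor_amp (T : H →L[ℂ] H) : cor (amp H T) = T := by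
  ext x
  change amp H T (V 0 x) 0 = T x
  rw [amp_apply, V_self]

omit [CompleteSpace H] in
theorem norm_cor (y : HS ℕ H →L[ℂ] HS ℕ H) : ‖cor y‖ ≤ ‖y‖ := by
  refine ContinuousLinearMap.opNorm_le_bound _ (norm_nonneg y) fun x => ?_
  change ‖y (V 0 x) 0‖ ≤ _
  refine (lp.norm_apply_le_norm (by norm_num) _ 0).trans ?_
  rw [← norm_V 0 x]
  exact y.le_opNorm _

theorem norm_amp (T : H →L[ℂ] H) : ‖amp H T‖ ≤ ‖T‖ :=
  ContinuousLinearMap.opNorm_le_bound _ (norm_nonneg _) fun x => norm_lam_le T x

/-- The amplified algebra. -/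
def big (N : VonNeumannAlgebra H) : VonNeumannAlgebra (HS ℕ H) where
  toStarSubalgebra := N.toStarSubalgebra.map (amp H)
  centralizer_centralizer' := by
    refine Set.Subset.antisymm (fun y hy => ?_) Set.subset_centralizer_centralizer
    have h1 : ∀ i, ((V 0).comp (W i)) * y = y * ((V 0).comp (W i)) := fun i => by
      refine hy _ ?_
      rintro _ ⟨a, -, rfl⟩
      ext1 x
      change amp H a (V 0 (x i)) = V 0 (amp H a x i)
      rw [amp_V, amp_apply]
    have h2 : y = amp H (cor y) := by
      ext x i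
      have h := congrArg (fun z : HS ℕ H →L[ℂ] HS ℕ H => z x 0) (h1 i)
      change V 0 (y x i) 0 = y (V 0 (x i)) 0 at h
      rw [V_self] at h
      exact h
    refine ⟨cor y, ?_, h2.symm⟩
    have h3 : cor y ∈ N.commutant.commutant := by
      rw [VonNeumannAlgebra.mem_commutant_iff]
      intro b hb
      apply amp_inj
      rw [map_mul, map_mul, ← h2]
      refine hy _ ?_
      rintro _ ⟨a, ha, rfl⟩
      change amp H a * amp H b = amp H b * amp H a
      rw [← map_mul, ← map_mul, (VonNeumannAlgebra.mem_commutant_iff.1 hb) a ha]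
    rw [VonNeumannAlgebra.commutant_commutant] at h3
    exact h3

theorem mem_big (N : VonNeumannAlgebra H) (y : HS ℕ H →L[ℂ] HS ℕ H) :
    y ∈ big N ↔ ∃ a ∈ N, amp H a = y := Iff.rfl

theorem inj_of_big (N : VonNeumannAlgebra H) (h : Inj (big N)) : Inj N := by
  obtain ⟨E, hE, h1, h2⟩ := h
  let L : (H →L[ℂ] H) →ₗ[ℂ] (H →L[ℂ] H) :=
    { toFun := fun T => cor (E (amp H T))
      map_add' := fun S T => by
        rw [map_add, map_add]
        ext x
        simp [cor]
      map_smul' := fun c T => by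
        rw [map_smul, map_smul]
        ext x
        simp [cor] }
  have hL : ∀ T, ‖L T‖ ≤ 1 * ‖T‖ := fun T => by
    refine (norm_cor _).trans ((E.le_opNorm _).trans ?_)
    exact mul_le_mul hE (norm_amp T) (norm_nonneg _) zero_le_one
  refine ⟨L.mkContinuous 1 hL, L.mkContinuous_norm_le zero_le_one hL, fun T => ?_, fun T hT => ?_⟩
  · obtain ⟨a, ha, e⟩ := (mem_big N _).1 (h1 (amp H T))
    change cor (E (amp H T)) ∈ N
    rw [← e, cor_amp]
    exact ha
  · change cor (E (amp H T)) = T
    rw [h2 _ ((mem_big N _).2 ⟨T, hT, rfl⟩), cor_amp]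

omit [CompleteSpace H] in
theorem sep [TopologicalSpace.SeparableSpace H] : TopologicalSpace.SeparableSpace (HS ℕ H) := by
  have h1 : TopologicalSpace.IsSeparable (⋃ i : ℕ, Set.range (V (H := H) i)) :=
    TopologicalSpace.IsSeparable.iUnion fun i => TopologicalSpace.isSeparable_range (V i).continuous
  have h2 := (h1.span (R := ℂ)).closure
  rw [← TopologicalSpace.isSeparable_univ_iff]
  refine h2.mono fun x _ => ?_
  refine mem_closure_of_tendsto (lp.hasSum_single (by norm_num) x)
    (Filter.Eventually.of_forall fun s => ?_)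
  refine Submodule.sum_mem _ fun i _ => Submodule.subset_span ?_
  exact Set.mem_iUnion.2 ⟨i, x i, rfl⟩

theorem exists_sep [TopologicalSpace.SeparableSpace H] :
    ∃ z : HS ℕ H, ∀ a : H →L[ℂ] H, amp H a z = 0 → a = 0 := by
  let u : ℕ → H := TopologicalSpace.denseSeq H
  let c : ℕ → ℝ := fun n => (1 / 2) ^ n / (1 + ‖u n‖)
  have hc : ∀ n, 0 < c n := fun n => by positivity
  have hm : Memℓp (fun n => (c n : ℂ) • u n) 2 := by
    rw [memℓp_two_iff]
    refine Summable.of_nonneg_of_le (fun n => by positivity) (fun n => ?_) summable_geometric_two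
    have h0 : (0 : ℝ) < (1 / 2) ^ n := by positivity
    have h1 : ((1 : ℝ) / 2) ^ n ≤ 1 := pow_le_one₀ (by norm_num) (by norm_num)
    have h2 : ‖(c n : ℂ) • u n‖ ≤ (1 / 2) ^ n := by
      rw [norm_smul, Complex.norm_real, Real.norm_of_nonneg (hc n).le]
      change (1 / 2) ^ n / (1 + ‖u n‖) * ‖u n‖ ≤ _
      rw [div_mul_eq_mul_div, div_le_iff₀ (by positivity)]
      gcongr
      linarith
    calc ‖(c n : ℂ) • u n‖ ^ 2 ≤ ((1 / 2) ^ n) ^ 2 := by gcongr
      _ ≤ (1 / 2) ^ n := by nlinarith
  refine ⟨⟨_, hm⟩, fun a ha => ?_⟩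
  have h : ∀ n, a (u n) = 0 := fun n => by
    have h1 : a ((c n : ℂ) • u n) = 0 := congrArg (fun y : HS ℕ H => y n) ha
    rw [map_smul, smul_eq_zero] at h1
    exact h1.resolve_left (by exact_mod_cast (hc n).ne')
  ext x
  exact (TopologicalSpace.denseRange_denseSeq H).induction_on x
    (isClosed_eq a.continuous continuous_const) h

end PStd1

open PStd1 in
theorem std1St (h1 : SepSt') : Std1St := by
  intro H _ _ _ _ N hN
  obtain ⟨z, hz⟩ := exists_sep (H := H)
  have hz0 : z ≠ 0 := by
    rintro rfl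
    refine hN ⟨0, by simp, fun T => by simp, fun T _ => ?_⟩
    rw [hz T (map_zero _)]
    simp
  have hn : ‖z‖ ≠ 0 := norm_ne_zero_iff.2 hz0
  refine ⟨HS ℕ H, inferInstance, inferInstance, inferInstance, sep, big N, ((‖z‖⁻¹ : ℝ) : ℂ) • z,
    (h1.2 H (HS ℕ H) N (big N)).2 (amp H) amp_inj (mem_big N), fun h => hN (inj_of_big N h), ?_, ?_⟩
  · rw [norm_smul, Complex.norm_real, norm_inv, norm_norm, inv_mul_cancel₀ hn]
  · intro y hy h
    obtain ⟨a, -, rfl⟩ := (mem_big N y).1 hy
    rw [map_smul, smul_eq_zero] at h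
    rw [hz a (h.resolve_left (by exact_mod_cast inv_ne_zero hn)), map_zero]

end Pool.Agent.P.MP_7e3bdd_an.NI
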