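import Pool.Agent.P.MP_7e3bdd_an.NI.PSep

/-!
Restriction to the cyclic subspace of a separating vector.
-/

set_option autoImplicit false

open scoped InnerProductSpace BigOperators

noncomputable section

namespace Pool.Agent.P.MP_7e3bdd_an.NI

open RW ContinuousLinearMap

namespace PStd2B

variable {H K : Type} [NormedAddCommGroup H] [InnerProductSpace ℂ H] [CompleteSpace H]
  [NormedAddCommGroup K] [InnerProductSpace ℂ K] [CompleteSpace K]

theorem closed (N : VonNeumannAlgebra H) : IsClosed (N.toStarSubalgebra : Set (H →L[ℂ] H)) := by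
  have h : (N.toStarSubalgebra : Set (H →L[ℂ] H)) =
      Set.centralizer (Set.centralizer (N : Set (H →L[ℂ] H))) := N.centralizer_centralizer.symm
  rw [h]
  exact Set.isClosed_centralizer _

/-- Compression by an operator. -/
def cp (V : K →L[ℂ] H) (T : H →L[ℂ] H) : K →L[ℂ] K := adjoint V ∘L T ∘L V

theorem cp_apply (V : K →L[ℂ] H) (T : H →L[ℂ] H) (x : K) : cp V T x = adjoint V (T (V x)) := rfl

theorem cp_star (V : K →L[ℂ] H) (T : H →L[ℂ] H) : cp V (star T) = star (cp V T) := by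
  simp [cp, star_eq_adjoint, adjoint_comp, comp_assoc]

theorem core (h1 : RedSt) (N : VonNeumannAlgebra H) (hI : ¬ Inj N) (V : K →L[ℂ] H)
    (hV : ∀ x, adjoint V (V x) = x) (hp : V ∘L adjoint V ∈ N.commutant) (ξ : K)
    (hs : ∀ a ∈ N, a (V ξ) = 0 → a = 0) :
    ∃ N₁ : VonNeumannAlgebra K, Iso N N₁ ∧ ¬ Inj N₁ ∧ (∀ a ∈ N, cp V a ∈ N₁) ∧
      ∀ z ∈ N₁, z ξ = 0 → z = 0 := by
  have hc : ∀ a ∈ N, ∀ x, V (adjoint V (a x)) = a (V (adjoint V x)) := fun a ha x =>
    congrArg (fun T : H →L[ℂ] H => T x) (comm_QN hp ha)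
  have hc' : ∀ a ∈ N, ∀ x, V (cp V a x) = a (V x) := fun a ha x => by rw [cp_apply, hc a ha, hV]
  have m1 : ∀ T, ∀ a ∈ N, cp V T * cp V a = cp V (T * a) := fun T a ha => by
    ext x
    rw [mul_apply_eq_comp, cp_apply V T, hc' a ha]
    rfl
  have m2 : ∀ T, ∀ a ∈ N, cp V a * cp V T = cp V (a * T) := fun T a ha => by
    rw [← star_inj, star_mul, ← cp_star, ← cp_star, ← cp_star, m1 _ _ (star_mem ha), star_mul]
  have nV : ∀ x, ‖V x‖ = ‖x‖ := fun x => by
    rw [norm_eq_sqrt_re_inner (𝕜 := ℂ) (V x), ← adjoint_inner_right, hV,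
      ← norm_eq_sqrt_re_inner (𝕜 := ℂ) x]
  have nc : ∀ T, ‖cp V T‖ ≤ ‖T‖ := fun T => by
    have n1 : ‖V‖ ≤ 1 := opNorm_le_bound _ zero_le_one fun x => by rw [nV, one_mul]
    refine opNorm_le_bound _ (norm_nonneg _) fun x => ?_
    rw [cp_apply, ← nV x]
    refine (le_opNorm _ _).trans ((mul_le_of_le_one_left (norm_nonneg _) ?_).trans (le_opNorm _ _))
    rwa [LinearIsometryEquiv.norm_map]
  set N₁ : VonNeumannAlgebra K := commOf (cp V '' (N.commutant : Set (H →L[ℂ] H))) with hN₁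
  have a1 : ∀ a ∈ N, cp V a ∈ N₁ := fun a ha => (mem_commOf _ _).2 (by
    rintro _ ⟨b, hb, rfl⟩
    rw [← cp_star, m1 _ _ ha, m1 _ _ ha, m2 _ _ ha, m2 _ _ ha, comm_QN hb ha,
      comm_QN (star_mem hb) ha]
    exact ⟨rfl, rfl⟩)
  have a2 : ∀ z ∈ N₁, ∃ a ∈ N, cp V a = z := fun z hz => by
    obtain ⟨a, ha, h⟩ := h1 H N (V ∘L adjoint V) ⟨by ext x; simp [hV], by
      simp [IsSelfAdjoint, star_eq_adjoint, adjoint_comp]⟩ hp
      (fun a ha h => hs a ha (by
        have := congrArg (fun T : H →L[ℂ] H => T (V ξ)) h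
        simpa [hV] using this)) (V ∘L z ∘L adjoint V) (by ext x; simp [hV]) (by ext x; simp [hV])
      fun b hb => by
        ext x
        have := congrArg (fun T : K →L[ℂ] K => V (T (adjoint V x)))
          ((mem_commOf _ _).1 hz _ ⟨b, hb, rfl⟩).1
        simpa [hV, cp_apply] using this.symm
    refine ⟨a, ha, ?_⟩
    ext x
    have := congrArg (fun T : H →L[ℂ] H => adjoint V (T (V x))) h
    simpa [hV, cp_apply] using this
  have a3 : ∀ a ∈ N, cp V a ξ = 0 → a = 0 := fun a ha h => hs a ha (by rw [← hc' a ha, h, map_zero])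
  let φ : N.toStarSubalgebra →⋆ₐ[ℂ] N₁.toStarSubalgebra :=
    { toFun := fun a => ⟨cp V a.1, a1 _ a.2⟩
      map_one' := Subtype.ext (by ext x; exact hV x)
      map_mul' := fun a b => Subtype.ext (m1 _ _ b.2).symm
      map_zero' := Subtype.ext (by ext x; simp [cp_apply])
      map_add' := fun a b => Subtype.ext (by ext x; simp [cp_apply])
      commutes' := fun c => Subtype.ext (by
        ext x
        simp [cp_apply, Algebra.algebraMap_eq_smul_one, hV])
      map_star' := fun a => Subtype.ext (cp_star V a.1) }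
  have b1 : Function.Bijective φ := by
    refine ⟨(injective_iff_map_eq_zero φ).2 fun a h => Subtype.ext (a3 _ a.2 ?_), fun z => ?_⟩
    · exact congrArg (fun T : N₁.toStarSubalgebra => T.1 ξ) h
    · obtain ⟨a, ha, h⟩ := a2 z.1 z.2
      exact ⟨⟨a, ha⟩, Subtype.ext h⟩
  let e := StarAlgEquiv.ofBijective φ b1
  refine ⟨N₁, ⟨e⟩, ?_, a1, fun z hz h => ?_⟩
  · rintro ⟨E, e1, e2, e3⟩
    have := closed N
    have := closed N₁
    have n1 : ∀ T, ‖(e.symm ⟨E (cp V T), e2 _⟩).1‖ ≤ 1 * ‖T‖ := fun T => by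
      refine (NonUnitalStarAlgHom.norm_apply_le e.symm _).trans ?_
      refine (le_opNorm E _).trans ?_
      exact mul_le_mul e1 (nc T) (norm_nonneg _) zero_le_one
    let L : (H →L[ℂ] H) →ₗ[ℂ] (H →L[ℂ] H) :=
      { toFun := fun T => (e.symm ⟨E (cp V T), e2 _⟩).1
        map_add' := fun S T => by
          rw [← AddMemClass.coe_add, ← map_add]
          refine congrArg (fun z => (e.symm z).1) (Subtype.ext ?_)
          exact (congrArg E (by ext x; simp [cp_apply])).trans (map_add E (cp V S) (cp V T))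
        map_smul' := fun c T => by
          rw [RingHom.id_apply, ← SetLike.val_smul, ← map_smul]
          refine congrArg (fun z => (e.symm z).1) (Subtype.ext ?_)
          exact (congrArg E (by ext x; simp [cp_apply])).trans (map_smul E c (cp V T)) }
    refine hI ⟨L.mkContinuous 1 n1, L.mkContinuous_norm_le zero_le_one n1,
      fun T => (e.symm ⟨E (cp V T), e2 _⟩).2, fun T hT => ?_⟩
    have h2 : (⟨E (cp V T), e2 _⟩ : N₁.toStarSubalgebra) = e ⟨T, hT⟩ :=
      Subtype.ext (e3 _ (a1 T hT))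
    change (e.symm ⟨E (cp V T), e2 _⟩).1 = T
    rw [h2, e.symm_apply_apply]
  · obtain ⟨a, ha, rfl⟩ := a2 z hz
    rw [a3 a ha h]
    ext x
    simp [cp_apply]

end PStd2B

open PStd2B in
theorem std2B (h1 : RedSt) : Std2St := by
  intro H _ _ _ _ N ζ hI hζ hs
  set K := (PSep.orb N ζ).topologicalClosure with hK
  have : CompleteSpace K := (PSep.orb N ζ).isClosed_topologicalClosure.completeSpace_coe
  have hz : ζ ∈ K := (PSep.orb N ζ).le_topologicalClosure ⟨1, one_mem _, rfl⟩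
  have hV : ∀ x : K, adjoint K.subtypeL (K.subtypeL x) = x := fun x => by
    refine ext_inner_left ℂ fun y => ?_
    rw [adjoint_inner_right]
    rfl
  have hp : K.subtypeL ∘L adjoint K.subtypeL = K.starProjection := by
    rw [Submodule.adjoint_subtypeL]
    rfl
  obtain ⟨N₁, i1, i2, i3, i4⟩ := core h1 N hI K.subtypeL hV (by
    rw [hp, VonNeumannAlgebra.mem_commutant_iff]
    exact fun a ha => PSep.comm K (fun x hx => PSep.inv _ ζ ha hx)
      fun x hx => PSep.inv _ ζ (star_mem ha) hx) ⟨ζ, hz⟩ hs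
  refine ⟨K, inferInstance, inferInstance, inferInstance, inferInstance, N₁, ⟨ζ, hz⟩, i1, i2,
    ⟨hζ, fun η ε hε => ?_⟩, i4⟩
  obtain ⟨_, ⟨a, ha, rfl⟩, h5⟩ := Metric.mem_closure_iff.1 η.2 ε hε
  refine ⟨cp K.subtypeL a, i3 a ha, ?_⟩
  have h6 : cp K.subtypeL a ⟨ζ, hz⟩ = ⟨a ζ, PSep.inv _ ζ ha hz⟩ := hV ⟨a ζ, PSep.inv _ ζ ha hz⟩
  rw [h6, ← dist_eq_norm]
  exact h5

end Pool.Agent.P.MP_7e3bdd_an.NI
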