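import Pool.Agent.P.MP_7e3bdd_an.NI.Spec

/-!
The theorem of Tomita and Takesaki from the operator identity.
-/

set_option autoImplicit false

open scoped InnerProductSpace BigOperators BoundedContinuousFunction ComplexConjugate TensorProduct
  ComplexOrder
open MeasureTheory

noncomputable section

namespace Pool.Agent.P.MP_7e3bdd_an.NI

open RW

namespace PTom

theorem integrable_k {φ : ℝ} (hφ : |φ| < Real.pi) :
    Integrable fun t : ℝ => Real.exp (φ * t) / Real.cosh (Real.pi * t) := by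
  set b : ℝ := Real.pi - |φ| with hb
  have hb0 : 0 < b := by linarith
  set c : ℝ := min 1 (b ^ 2 / 2) with hc
  have hc0 : 0 < c := lt_min one_pos (by positivity)
  refine (integrable_inv_one_add_sq.const_mul (2 / c)).mono' ?_ (Filter.Eventually.of_forall ?_)
  · exact (Continuous.div (by fun_prop) (by fun_prop)
      fun t => (Real.cosh_pos _).ne').aestronglyMeasurable
  · intro t
    have h1 : Real.exp (Real.pi * |t|) ≤ 2 * Real.cosh (Real.pi * t) := by
      rw [Real.cosh_eq]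
      rcases abs_cases t with h | h
      · rw [h.1]; linarith [Real.exp_pos (-(Real.pi * t))]
      · rw [h.1, mul_neg]; linarith [Real.exp_pos (Real.pi * t)]
    have h2 : Real.exp (φ * t) ≤ Real.exp (|φ| * |t|) :=
      Real.exp_le_exp.2 (by rw [← abs_mul]; exact le_abs_self _)
    have h3 : c * (1 + t ^ 2) ≤ Real.exp (b * |t|) := by
      have h4 := Real.quadratic_le_exp_of_nonneg (mul_nonneg hb0.le (abs_nonneg t))
      have h5 : c ≤ 1 := min_le_left _ _
      have h6 : c ≤ b ^ 2 / 2 := min_le_right _ _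
      have h7 : (b * |t|) ^ 2 = b ^ 2 * t ^ 2 := by rw [mul_pow, sq_abs]
      nlinarith [mul_nonneg hb0.le (abs_nonneg t), sq_nonneg t]
    have h8 : Real.exp (Real.pi * |t|) = Real.exp (|φ| * |t|) * Real.exp (b * |t|) := by
      rw [← Real.exp_add]; congr 1; rw [hb]; ring
    have hp := Real.cosh_pos (Real.pi * t)
    have hq : (0 : ℝ) < 1 + t ^ 2 := by positivity
    rw [Real.norm_of_nonneg (by positivity), div_le_iff₀ hp]
    have h9 : Real.exp (φ * t) * (c * (1 + t ^ 2)) ≤ 2 * Real.cosh (Real.pi * t) := by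
      refine le_trans ?_ h1
      rw [h8]
      exact mul_le_mul h2 h3 (by positivity) (by positivity)
    have h10 : 2 / c * (1 + t ^ 2)⁻¹ * Real.cosh (Real.pi * t) =
        2 * Real.cosh (Real.pi * t) / (c * (1 + t ^ 2)) := by field_simp
    rw [h10, le_div_iff₀ (by positivity)]
    exact h9

variable {H : Type} [NormedAddCommGroup H] [InnerProductSpace ℂ H] [CompleteSpace H]

theorem norm_U_le (m : Mod H) (t : ℝ) (x : H) : ‖m.U t x‖ ≤ ‖x‖ := by
  simpa [Mod.U] using m.norm_Φ_apply_le (ex t) (C := 1) (fun r => (norm_ex t r).le) x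

theorem inner_sig (m : Mod H) (t : ℝ) (z : H →L[ℂ] H) (η ζ : H) :
    ⟪η, m.sig t z ζ⟫_ℂ = ⟪m.U (-t) η, z (m.U (-t) ζ)⟫_ℂ := by
  rw [← m.star_U t, inner_star_left, m.star_U]
  rfl

theorem cont_sig (h4 : ContSt) (m : Mod H) (z : H →L[ℂ] H) (η ζ : H) :
    Continuous fun t => ⟪η, m.sig t z ζ⟫_ℂ := by
  have hF : Fam fun t => ex (-t) := by
    refine ⟨?_, 1, fun t r => (norm_ex _ r).le⟩
    simp only [ex_apply]
    fun_prop
  have hc := fun x => (h4 _ hF).2 H m x
  simp only [inner_sig]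
  exact (hc η).inner (z.continuous.comp (hc ζ))

theorem bound_sig (m : Mod H) (z : H →L[ℂ] H) (η ζ : H) (t : ℝ) :
    ‖⟪η, m.sig t z ζ⟫_ℂ‖ ≤ ‖η‖ * (‖z‖ * ‖ζ‖) := by
  rw [inner_sig]
  refine (norm_inner_le_norm _ _).trans (mul_le_mul (norm_U_le m _ _) ?_ (norm_nonneg _)
    (norm_nonneg _))
  exact (z.le_opNorm _).trans (mul_le_mul_of_nonneg_left (norm_U_le m _ _) (norm_nonneg _))

theorem sa_case (h1 : OpIdSt) (h2 : InvSt) (h3 : UniqSt) (h4 : ContSt)
    [TopologicalSpace.SeparableSpace H] (m : Mod H) (N : VonNeumannAlgebra H) (ξ : H)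
    (hN : Cyc N ξ) (hp : IsPre m N ξ) {c : H →L[ℂ] H} (hc : c ∈ N) (hs : IsSelfAdjoint c) (t : ℝ) :
    m.sig t (m.bar c) ∈ N.commutant := by
  rw [VonNeumannAlgebra.mem_commutant_iff]
  intro c' hc'
  ext ζ
  refine ext_inner_left ℂ fun η => ?_
  have key := h3 (fun s => ⟪star c' η, m.sig s (m.bar c) ζ⟫_ℂ - ⟪η, m.sig s (m.bar c) (c' ζ)⟫_ℂ)
    ((cont_sig h4 m _ _ _).sub (cont_sig h4 m _ _ _))
    ⟨_, fun s => (norm_sub_le _ _).trans (add_le_add (bound_sig m _ _ _ s) (bound_sig m _ _ _ s))⟩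
    (by
      intro φ hφ
      have hre : 0 < (Complex.exp ((φ / 2 : ℝ) * Complex.I)).re := by
        rw [Complex.exp_ofReal_mul_I_re]
        have := abs_lt.1 hφ
        exact Real.cos_pos_of_mem_Ioo ⟨by linarith, by linarith⟩
      obtain ⟨x, hx, hid⟩ := h1 H m N ξ hN hp c hc hs _ hre
      have hsg := h2 H m (m.bar c) x φ hφ hid
      have hk : Integrable fun s : ℝ =>
          ((Real.exp (φ * s) / Real.cosh (Real.pi * s) : ℝ) : ℂ) := (integrable_k hφ).ofReal
      have hi : ∀ η' ζ' : H, Integrable fun s : ℝ =>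
          ((Real.exp (φ * s) / Real.cosh (Real.pi * s) : ℝ) : ℂ) *
            ⟪η', m.sig s (m.bar c) ζ'⟫_ℂ := fun η' ζ' =>
        hk.mul_bdd (cont_sig h4 m _ _ _).aestronglyMeasurable
          (Filter.Eventually.of_forall fun s => bound_sig m _ _ _ s)
      simp only [mul_sub]
      rw [integral_sub (hi _ _) (hi _ _), ← hsg, ← hsg, inner_star_left, ← mul_apply_eq_comp,
        ← comm_QN hx hc', mul_apply_eq_comp, sub_self]) t
  rw [sub_eq_zero, inner_star_left] at key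
  exact key

theorem gen_case (h1 : OpIdSt) (h2 : InvSt) (h3 : UniqSt) (h4 : ContSt)
    [TopologicalSpace.SeparableSpace H] (m : Mod H) (N : VonNeumannAlgebra H) (ξ : H)
    (hN : Cyc N ξ) (hp : IsPre m N ξ) {c : H →L[ℂ] H} (hc : c ∈ N) (t : ℝ) :
    m.sig t (m.bar c) ∈ N.commutant := by
  have hsm : ∀ (M : VonNeumannAlgebra H) (z : ℂ) (a : H →L[ℂ] H), a ∈ M → z • a ∈ M :=
    fun M z a ha => M.toStarSubalgebra.smul_mem ha z
  have ha : c + star c ∈ N := add_mem hc (star_mem hc)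
  have hb : Complex.I • (star c - c) ∈ N := hsm N _ _ (sub_mem (star_mem hc) hc)
  have hsa : IsSelfAdjoint (c + star c) := IsSelfAdjoint.add_star_self c
  have hsb : IsSelfAdjoint (Complex.I • (star c - c)) := by
    rw [IsSelfAdjoint, star_smul, star_sub, star_star]
    simp only [Complex.star_def, Complex.conj_I, neg_smul, ← smul_neg, neg_sub]
  have e1 := sa_case h1 h2 h3 h4 m N ξ hN hp ha hsa t
  have e2 := sa_case h1 h2 h3 h4 m N ξ hN hp hb hsb t
  have hdec : c = (1 / 2 : ℂ) • (c + star c) + (Complex.I / 2) • (Complex.I • (star c - c)) := by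
    rw [smul_smul, show Complex.I / 2 * Complex.I = -(1 / 2) by
      rw [div_mul_eq_mul_div, Complex.I_mul_I]; ring]
    module
  have : m.sig t (m.bar c) = conj (1 / 2 : ℂ) • m.sig t (m.bar (c + star c)) +
      conj (Complex.I / 2) • m.sig t (m.bar (Complex.I • (star c - c))) := by
    conv_lhs => rw [hdec]
    rw [m.bar_add, m.bar_smul, m.bar_smul (Complex.I / 2)]
    simp only [Mod.sig, mul_add, add_mul, mul_smul_comm, smul_mul_assoc]
  rw [this]
  exact add_mem (hsm _ _ _ e1) (hsm _ _ _ e2)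

theorem key (h5 : DvSt) (m : Mod H) (N : VonNeumannAlgebra H) (ξ : H) (hp : IsPre m N ξ)
    {a b : H →L[ℂ] H} (ha : a ∈ N.commutant) (hb : b ∈ N.commutant) :
    ⟪a ξ, m.J (star b ξ)⟫_ℂ = ⟪m.J (star a ξ), b ξ⟫_ℂ := by
  have e1 := (h5 H m _ _ (hp.S a ha)).2 _ _ (hp.S b hb)
  have e2 := (h5 H m _ _ (hp.S b hb)).2 _ _ (hp.S a ha)
  rw [← e1, ← inner_conj_symm, e2, inner_conj_symm]

end PTom

open PTom in
theorem tomSt (h1 : OpIdSt) (h2 : InvSt) (h3 : UniqSt) (h4 : ContSt) (h5 : DvSt) : TomSt := by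
  intro H _ _ _ _ m N ξ hN hQ hp
  have hbarN : ∀ c ∈ N, m.bar c ∈ N.commutant := fun c hc => by
    have := gen_case h1 h2 h3 h4 m N ξ hN hp hc 0
    rwa [Mod.sig, neg_zero, m.U_zero, one_mul, mul_one] at this
  have hbarQ : ∀ a ∈ N.commutant, m.bar a ∈ N := fun a ha => by
    refine mem_of_comm fun b hb => ?_
    have hmove : ∀ a' ∈ N.commutant, ∀ c ∈ N,
        m.bar a' (m.J (c ξ)) = m.bar c (m.J (a' ξ)) := fun a' ha' c hc => by
      rw [Mod.bar_apply, Mod.bar_apply, m.JJ, m.JJ, ← mul_apply_eq_comp, comm_QN ha' hc,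
        mul_apply_eq_comp]
    have hJ : ∀ c : H →L[ℂ] H, m.J (c ξ) = m.bar c ξ := fun c => by rw [Mod.bar_apply, hp.Jξ]
    have h0 : ∀ c1 ∈ N, ∀ c2 ∈ N,
        ⟪m.J (c2 ξ), (b * m.bar a - m.bar a * b) (m.J (c1 ξ))⟫_ℂ = 0 := by
      intro c1 hc1 c2 hc2
      have hw : star (m.bar c2) * b * m.bar c1 ∈ N.commutant :=
        mul_mem (mul_mem (star_mem (hbarN c2 hc2)) hb) (hbarN c1 hc1)
      have k1 := key h5 m N ξ hp (star_mem hw) (star_mem ha)
      rw [star_star, star_star, m.inner_J_left, inner_star_left] at k1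
      have l1 : ⟪m.J (c2 ξ), b (m.bar a (m.J (c1 ξ)))⟫_ℂ =
          ⟪ξ, (star (m.bar c2) * b * m.bar c1) (m.J (a ξ))⟫_ℂ := by
        rw [hmove a ha c1 hc1, mul_apply_eq_comp, mul_apply_eq_comp, inner_star_right, hJ c2]
      have l2 : ⟪m.J (c2 ξ), m.bar a (b (m.J (c1 ξ)))⟫_ℂ =
          ⟪m.J (star a ξ), (star (m.bar c2) * b * m.bar c1) ξ⟫_ℂ := by
        rw [← inner_star_left, ← m.bar_star, hmove _ (star_mem ha) c2 hc2, mul_apply_eq_comp,
          mul_apply_eq_comp, inner_star_right, hJ c1]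
      rw [ContinuousLinearMap.sub_apply, mul_apply_eq_comp, mul_apply_eq_comp, inner_sub_right,
        l1, l2, k1, sub_self]
    have h6 : ∀ c1 ∈ N, m.bar (b * m.bar a - m.bar a * b) (c1 ξ) = 0 := fun c1 hc1 =>
      eq_zero_of_inner_cyc hN fun c2 hc2 => by
        rw [Mod.bar_apply, m.inner_J_right, ← inner_conj_symm, h0 c1 hc1 c2 hc2, map_zero]
    have h7 : star (m.bar (b * m.bar a - m.bar a * b)) = 0 := by
      ext η
      exact eq_zero_of_inner_cyc hN fun c1 hc1 => by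
        rw [inner_star_right, h6 c1 hc1, inner_zero_left]
    have h8 : m.bar (b * m.bar a - m.bar a * b) = 0 := star_eq_zero.1 h7
    have h9 := congrArg m.bar h8
    rw [m.bar_bar, m.bar_zero, sub_eq_zero] at h9
    exact h9
  refine ⟨hN, hQ, hp.Jξ, hp.Φξ, hp.S, hbarQ, hbarN, fun t a ha => ?_⟩
  have := gen_case h1 h2 h3 h4 m N ξ hN hp (hbarQ a ha) t
  rwa [m.bar_bar] at this

end Pool.Agent.P.MP_7e3bdd_an.NI
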