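import Pool.Agent.P.MP_7e3bdd_an.NI.Spec
import Pool.Agent.P.MP_7e3bdd_an.RW.Unif

/-!
From the weighted gap on given marginals to the uniform one.
-/

set_option autoImplicit false

open scoped InnerProductSpace BigOperators BoundedContinuousFunction ComplexConjugate TensorProduct
  ComplexOrder
open MeasureTheory

noncomputable section

namespace Pool.Agent.P.MP_7e3bdd_an.NI

open RW

namespace PUni

variable {H : Type} [NormedAddCommGroup H] [InnerProductSpace ℂ H] [CompleteSpace H] (m : Mod H)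

/-- The tensor attached to a weighted family of vectors. -/
def XX {J : Type} [Fintype J] (β : J → ℝ) (f : J → H) : HH H :=
  ∑ j, (β j : ℂ) • (f j ⊗ₜ[ℂ] m.J (f j))

omit [CompleteSpace H] in
theorem ir (c : ℂ) (X Y : HH H) : ⟪X, c • Y⟫_ℂ = c * ⟪X, Y⟫_ℂ :=
  inner_smul_right (𝕜 := ℂ) (E := HH H) X Y c

omit [CompleteSpace H] in
theorem il (c : ℂ) (X Y : HH H) : ⟪c • X, Y⟫_ℂ = conj c * ⟪X, Y⟫_ℂ :=
  inner_smul_left (𝕜 := ℂ) (E := HH H) X Y c

omit [CompleteSpace H] in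
theorem cs (X Y : HH H) : ‖⟪X, Y⟫_ℂ‖ ≤ ‖X‖ * ‖Y‖ := norm_inner_le_norm (𝕜 := ℂ) (E := HH H) X Y

theorem inner_tm_XX {J : Type} [Fintype J] (β : J → ℝ) (f : J → H) (b : H →L[ℂ] H) :
    ⟪tm b 1 (XX m β f), tm b 1 (XX m β f)⟫_ℂ =
      ∑ j, ∑ k, ((β j * β k : ℝ) : ℂ) * (⟪f k, f j⟫_ℂ * ⟪b (f j), b (f k)⟫_ℂ) := by
  simp only [XX, map_sum, map_smul, tm_tmul, sum_inner, inner_sum, il, ir,
    TensorProduct.inner_tmul, one_apply_eq_self, m.inner_JJ, Complex.conj_ofReal]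
  rw [Finset.sum_comm]
  refine Finset.sum_congr rfl fun j _ => Finset.sum_congr rfl fun k _ => ?_
  push_cast
  ring

theorem norm_XX {J : Type} [Fintype J] (β : J → ℝ) (f : J → H) : ‖XX m β f‖ = hsn β f := by
  have h := inner_tm_XX m β f 1
  rw [tm_one] at h
  simp only [one_apply_eq_self] at h
  rw [norm_eq_sqrt_re_inner (𝕜 := ℂ), h, hsn, ker]
  congr 1
  simp only [map_sum]
  refine Finset.sum_congr rfl fun j _ => Finset.sum_congr rfl fun k _ => ?_
  rw [← inner_conj_symm (f k) (f j), Complex.conj_mul', ← Complex.ofReal_pow, ← Complex.ofReal_mul]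
  exact Complex.ofReal_re _

theorem marg {N : VonNeumannAlgebra H} {η : H} {J : Type} [Fintype J] {β : J → ℝ} {f : J → H}
    (h : MargF N η β f) : Marg N η (XX m β f) := by
  intro b hb
  rw [norm_eq_sqrt_re_inner (𝕜 := ℂ), inner_tm_XX, h b hb]
  exact (congrArg _ (Complex.ofReal_re _)).trans (Real.sqrt_sq (norm_nonneg _))

theorem pi_XX {J : Type} [Fintype J] (β : J → ℝ) (f : J → H) (g : H →L[ℂ] H) :
    m.pi g (XX m β f) = XX m β fun j => g (f j) := by
  simp only [XX, Mod.pi, map_sum, map_smul, tm_tmul, Mod.bar_apply, m.JJ]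

theorem XX_prod {A J : Type} [Fintype A] [Fintype J] (c : ℝ) (β : J → ℝ) (f : J → H)
    (g : A → H →L[ℂ] H) :
    XX m (fun p : A × J => c * β p.2) (fun p : A × J => g p.1 (f p.2)) =
      ∑ a, (c : ℂ) • m.pi (g a) (XX m β f) := by
  simp only [pi_XX]
  simp only [XX, Fintype.sum_prod_type, Finset.smul_sum, smul_smul, Complex.ofReal_mul]

theorem almost {N : VonNeumannAlgebra H} {ξ : H} (h : IsTT m N ξ) {g : H →L[ℂ] H} (hg : UQ N g)
    {ε : ℝ} (hd : m.del ξ g ≤ ε / 2) : AlmostInv N ξ (star g) ε := by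
  intro q hq
  have hb := m.bar_unitary hg.1
  have hq' : star g * q * g ∈ N.commutant := mul_mem (mul_mem (star_mem hg.2) hq) hg.2
  have e : ⟪ξ, (star g * q * star (star g)) ξ⟫_ℂ = ⟪g (m.bar g ξ), q (g (m.bar g ξ))⟫_ℂ := by
    rw [star_star, ← inner_star_right, ← inner_star_right]
    congr 1
    have h1 : star (m.bar g) * ((star g * q * g) * m.bar g) = star g * q * g := by
      rw [comm_QN hq' (h.barQ g hg.2), ← mul_assoc, Unitary.star_mul_self_of_mem hb, one_mul]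
    exact (congrArg (fun T : H →L[ℂ] H => T ξ) h1).symm
  have n1 : ‖ξ‖ = 1 := h.cycN.1
  have n2 : ‖g (m.bar g ξ)‖ = 1 := by
    rw [ContinuousLinearMap.norm_map_of_mem_unitary hg.1,
      ContinuousLinearMap.norm_map_of_mem_unitary hb, n1]
  rw [e]
  unfold Mod.del at hd
  generalize g (m.bar g ξ) = x at hd n2
  have e2 : ⟪x, q x⟫_ℂ - ⟪ξ, q ξ⟫_ℂ = ⟪x - ξ, q x⟫_ℂ + ⟪ξ, q (x - ξ)⟫_ℂ := by
    rw [inner_sub_left, map_sub, inner_sub_right]; ring
  have b1 := norm_inner_le_norm (𝕜 := ℂ) (x - ξ) (q x)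
  have b2 := norm_inner_le_norm (𝕜 := ℂ) ξ (q (x - ξ))
  have b3 := q.le_opNorm x
  have b4 := q.le_opNorm (x - ξ)
  rw [n2, mul_one] at b3
  rw [n1, one_mul] at b2
  have b5 := mul_le_mul_of_nonneg_left b3 (norm_nonneg (x - ξ))
  have b6 := mul_le_mul_of_nonneg_right hd (norm_nonneg q)
  rw [e2]
  refine (norm_add_le _ _).trans ?_
  linarith

end PUni

open PUni in
theorem uniSt : UniSt := by
  classical
  intro H _ _ _ m N ξ h hG I _ η hη ε hε
  obtain ⟨F, _, w, g, hw, hg, hd, hX⟩ := hG I η hη (ε ^ 3 / (2 * (ε + 4))) (by positivity)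
  let g' : F → H →L[ℂ] H := fun a => if m.del ξ (g a) ≤ ε / 2 then g a else 1
  have hg' : ∀ a, UQ N (g' a) ∧ m.del ξ (g' a) ≤ ε / 2 := fun a => by
    by_cases ha : m.del ξ (g a) ≤ ε / 2
    · simp only [g', if_pos ha]
      exact ⟨hg a, ha⟩
    · simp only [g', if_neg ha]
      refine ⟨⟨one_mem _, one_mem _⟩, ?_⟩
      simp only [Mod.del, m.bar_one, one_apply_eq_self, sub_self, norm_zero]
      positivity
  obtain ⟨n, ι, hι⟩ := unifSt F w hw.1 hw.2 (ε ^ 2 / 2) (by positivity)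
  refine ⟨n, fun a => g' (ι a), fun a => ⟨(hg' _).1, almost m h (hg' _).1 (hg' _).2⟩,
    fun i J _ β f hf => ?_⟩
  rw [← norm_XX m, XX_prod m _ β f fun a => g' (ι a)]
  have hM := marg m hf
  generalize XX m β f = X at hM
  have nX : ‖X‖ = 1 := by
    have h1 := hM 1 (one_mem _)
    rwa [tm_one, one_apply_eq_self, one_apply_eq_self, hη] at h1
  have np : ∀ a, ‖m.pi (g' a) X‖ = 1 := fun a => by rw [m.norm_pi_unitary (hg' a).1.1, nX]
  have h1 : ‖∑ a, (w a : ℂ) • m.pi (g' a) X‖ ≤ ε ^ 2 / 2 := by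
    have e : ∑ a, (w a : ℂ) • m.pi (g' a) X = ∑ a, (w a : ℂ) • m.pi (g a) X +
        ∑ a, (w a : ℂ) • (m.pi (g' a) X - m.pi (g a) X) := by
      rw [← Finset.sum_add_distrib]
      exact Finset.sum_congr rfl fun a _ => by rw [← smul_add, add_sub_cancel]
    have h2 : ‖∑ a, (w a : ℂ) • (m.pi (g' a) X - m.pi (g a) X)‖ ≤
        4 / ε * ∑ a, w a * m.del ξ (g a) := by
      rw [Finset.mul_sum]
      refine norm_sum_le_of_le _ fun a _ => ?_
      rw [norm_smul, Complex.norm_real, Real.norm_of_nonneg (hw.1 a), mul_left_comm]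
      refine mul_le_mul_of_nonneg_left ?_ (hw.1 a)
      by_cases ha : m.del ξ (g a) ≤ ε / 2
      · simp only [g', if_pos ha, sub_self, norm_zero]
        exact mul_nonneg (by positivity) (norm_nonneg _)
      · refine (norm_sub_le _ _).trans ?_
        rw [np, m.norm_pi_unitary (hg a).1, nX, div_mul_eq_mul_div, le_div_iff₀ hε]
        linarith [not_le.1 ha]
    have h3 := mul_le_mul_of_nonneg_left hd (by positivity : 0 ≤ 4 / ε)
    have h4 : ε ^ 3 / (2 * (ε + 4)) + 4 / ε * (ε ^ 3 / (2 * (ε + 4))) = ε ^ 2 / 2 := by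
      field_simp
    rw [e]
    refine (norm_add_le _ _).trans ?_
    linarith [hX i X hM]
  set Y := ∑ a : Fin (n + 1), ((((n : ℝ) + 1)⁻¹ : ℝ) : ℂ) • m.pi (g' (ι a)) X with hY
  have hn : (0 : ℝ) < (n : ℝ) + 1 := by positivity
  have nY : ‖Y‖ ≤ 1 := by
    refine (norm_sum_le _ _).trans (le_of_eq ?_)
    simp only [norm_smul, np, Complex.norm_real, Real.norm_of_nonneg (inv_pos.2 hn).le, mul_one,
      Finset.sum_const, Finset.card_univ, Fintype.card_fin, nsmul_eq_mul]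
    push_cast
    exact mul_inv_cancel₀ hn.ne'
  have h5 := hι (fun a => (⟪Y, m.pi (g' a) X⟫_ℂ).re) fun a => by
    refine (Complex.abs_re_le_norm _).trans ((cs _ _).trans ?_)
    rw [np, mul_one]
    exact nY
  have h6 : 𝔼 a, (⟪Y, m.pi (g' (ι a)) X⟫_ℂ).re = ‖Y‖ ^ 2 := by
    rw [← inner_self_eq_norm_sq (𝕜 := ℂ) Y, Finset.expect_eq_sum_div_card]
    conv_rhs => rw [hY, inner_sum]
    rw [← hY]
    simp only [ir, RCLike.re_to_complex, Complex.re_sum, Complex.re_ofReal_mul,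
      Finset.card_univ, Fintype.card_fin, ← Finset.mul_sum]
    push_cast
    ring
  have h7 : ∑ a, w a * (⟪Y, m.pi (g' a) X⟫_ℂ).re ≤ ε ^ 2 / 2 := by
    have e : ∑ a, w a * (⟪Y, m.pi (g' a) X⟫_ℂ).re = (⟪Y, ∑ a, (w a : ℂ) • m.pi (g' a) X⟫_ℂ).re := by
      simp only [inner_sum, ir, Complex.re_sum, Complex.re_ofReal_mul]
    rw [e]
    refine (Complex.re_le_norm _).trans ((cs _ _).trans ?_)
    exact (mul_le_of_le_one_left (norm_nonneg _) nY).trans h1
  rw [h6] at h5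
  refine (abs_le_of_sq_le_sq' ?_ hε.le).2
  linarith [(abs_le.1 h5).1]

end Pool.Agent.P.MP_7e3bdd_an.NI
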