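import Pool.Agent.P.MP_7e3bdd_an.NI.Spec

/-!
Uniqueness for the two sided Laplace transform against the hyperbolic secant.
-/

set_option autoImplicit false

open scoped InnerProductSpace BigOperators BoundedContinuousFunction ComplexConjugate TensorProduct
  ComplexOrder FourierTransform
open MeasureTheory Filter Topology

noncomputable section

namespace Pool.Agent.P.MP_7e3bdd_an.NI

open RW

namespace PUniq

theorem int_exp {b : ℝ} (hb : 0 < b) : Integrable fun t : ℝ => Real.exp (-(b * |t|)) := by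
  rw [← integrableOn_univ, ← Set.Iic_union_Ioi (a := (0 : ℝ))]
  refine IntegrableOn.union ?_ ?_
  · refine (integrableOn_exp_mul_Iic hb 0).congr_fun (fun t ht => ?_) measurableSet_Iic
    simp only []
    rw [abs_of_nonpos ht]
    ring_nf
  · refine (exp_neg_integrableOn_Ioi 0 hb).congr_fun (fun t ht => ?_) measurableSet_Ioi
    simp only []
    rw [abs_of_pos ht]
    ring_nf

theorem inv_cosh_le (t : ℝ) : 1 / Real.cosh (Real.pi * t) ≤ 2 * Real.exp (-(Real.pi * |t|)) := by
  have h1 : Real.cosh (Real.pi * t) = Real.cosh (Real.pi * |t|) := by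
    rw [← Real.cosh_abs (Real.pi * t), abs_mul, abs_of_pos Real.pi_pos]
  have h2 : Real.exp (Real.pi * |t|) / 2 ≤ Real.cosh (Real.pi * |t|) := by
    rw [Real.cosh_eq]
    linarith [Real.exp_pos (-(Real.pi * |t|))]
  rw [h1]
  refine (one_div_le_one_div_of_le (by positivity) h2).trans (le_of_eq ?_)
  rw [Real.exp_neg]
  field_simp

theorem norm_exp_le {z : ℂ} {a : ℝ} (hz : |z.re| ≤ a) (t : ℝ) :
    ‖Complex.exp (z * t)‖ ≤ Real.exp (a * |t|) := by
  rw [Complex.norm_exp, Real.exp_le_exp, Complex.re_mul_ofReal]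
  refine (le_abs_self _).trans ?_
  rw [abs_mul]
  exact mul_le_mul_of_nonneg_right hz (abs_nonneg _)

variable {f : ℝ → ℂ} {C : ℝ}

theorem integ (hf : Continuous f) (hC : ∀ t, ‖f t‖ ≤ C * Real.exp (-(Real.pi * |t|))) {z : ℂ}
    (hz : |z.re| < Real.pi) : Integrable fun t : ℝ => Complex.exp (z * t) * f t := by
  refine ((int_exp (sub_pos.2 hz)).const_mul C).mono' (by fun_prop : Continuous _).aestronglyMeasurable
    (Eventually.of_forall fun t => ?_)
  rw [norm_mul]
  refine (mul_le_mul (norm_exp_le le_rfl t) (hC t) (norm_nonneg _) (Real.exp_pos _).le).trans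
    (le_of_eq ?_)
  rw [mul_left_comm, ← Real.exp_add]
  ring_nf

theorem diff (hf : Continuous f) (hC : ∀ t, ‖f t‖ ≤ C * Real.exp (-(Real.pi * |t|))) {z : ℂ}
    (hz : |z.re| < Real.pi) :
    DifferentiableAt ℂ (fun z : ℂ => ∫ t : ℝ, Complex.exp (z * t) * f t) z := by
  set d := (Real.pi - |z.re|) / 3 with hd
  have hd0 : 0 < d := by rw [hd]; linarith
  have hC0 : 0 ≤ C := by
    have := (norm_nonneg _).trans (hC 0)
    simpa using this
  refine (hasDerivAt_integral_of_dominated_loc_of_deriv_le (μ := volume)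
    (F := fun (z : ℂ) (t : ℝ) => Complex.exp (z * t) * f t)
    (F' := fun (z : ℂ) (t : ℝ) => Complex.exp (z * t) * t * f t)
    (bound := fun t => C / d * Real.exp (-(d * |t|))) (Metric.ball_mem_nhds z hd0)
    (Eventually.of_forall fun w => (by fun_prop : Continuous _).aestronglyMeasurable)
    (integ hf hC hz) (by fun_prop : Continuous _).aestronglyMeasurable
    (Eventually.of_forall fun t w hw => ?_) ((int_exp hd0).const_mul _)
    (Eventually.of_forall fun t w _ => ?_)).2.differentiableAt
  · have h1 : |w.re| ≤ |z.re| + d := by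
      have h2 : |(w - z).re| ≤ ‖w - z‖ := Complex.abs_re_le_norm _
      rw [mem_ball_iff_norm] at hw
      rw [Complex.sub_re] at h2
      have h3 := abs_sub_abs_le_abs_sub w.re z.re
      linarith
    have h2 : |t| ≤ Real.exp (d * |t|) / d := by
      rw [le_div_iff₀ hd0]
      have := Real.add_one_le_exp (d * |t|)
      linarith
    rw [norm_mul, norm_mul, Complex.norm_real, Real.norm_eq_abs]
    refine (mul_le_mul (mul_le_mul (norm_exp_le h1 t) h2 (abs_nonneg _) (Real.exp_pos _).le) (hC t)
      (norm_nonneg _) (by positivity)).trans (le_of_eq ?_)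
    have h3 : Real.exp (-(d * |t|)) = Real.exp ((|z.re| + d) * |t|) * Real.exp (d * |t|) *
        Real.exp (-(Real.pi * |t|)) := by
      rw [← Real.exp_add, ← Real.exp_add]
      congr 1
      rw [hd]
      ring
    rw [h3]
    field_simp
  · exact (((hasDerivAt_id w).mul_const (t : ℂ)).cexp.mul_const (f t)).congr_deriv (by simp)

theorem zero (hf : Continuous f) (hC : ∀ t, ‖f t‖ ≤ C * Real.exp (-(Real.pi * |t|)))
    (h0 : ∀ φ : ℝ, |φ| < Real.pi → ∫ t : ℝ, Complex.exp (φ * t) * f t = 0) {z : ℂ}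
    (hz : |z.re| < Real.pi) : ∫ t : ℝ, Complex.exp (z * t) * f t = 0 := by
  have hU : IsOpen {z : ℂ | |z.re| < Real.pi} := isOpen_lt (by fun_prop) continuous_const
  have hA : AnalyticOnNhd ℂ (fun z : ℂ => ∫ t : ℝ, Complex.exp (z * t) * f t)
      {z : ℂ | |z.re| < Real.pi} :=
    DifferentiableOn.analyticOnNhd (fun w hw => (diff hf hC hw).differentiableWithinAt) hU
  have hc : Convex ℝ {z : ℂ | |z.re| < Real.pi} := by
    have : {z : ℂ | |z.re| < Real.pi} = {z : ℂ | -Real.pi < z.re} ∩ {z : ℂ | z.re < Real.pi} := by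
      ext w
      simp [abs_lt]
    rw [this]
    exact (convex_halfSpace_re_gt _).inter (convex_halfSpace_re_lt _)
  refine hA.eqOn_zero_of_preconnected_of_frequently_eq_zero hc.isPreconnected (z₀ := 0)
    (by simpa using Real.pi_pos) ?_ hz
  have ht : Tendsto (fun x : ℝ => (x : ℂ)) (𝓝[≠] 0) (𝓝[≠] 0) := by
    refine tendsto_nhdsWithin_iff.2 ⟨?_, ?_⟩
    · exact (Complex.continuous_ofReal.tendsto' 0 0 (by simp)).mono_left nhdsWithin_le_nhds
    · filter_upwards [self_mem_nhdsWithin] with x hx
      simpa using hx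
  refine ht.frequently (Eventually.frequently ?_)
  have : ∀ᶠ x : ℝ in 𝓝 0, |x| < Real.pi :=
    (continuous_abs.tendsto' 0 0 (by simp)).eventually (gt_mem_nhds Real.pi_pos)
  filter_upwards [nhdsWithin_le_nhds this] with x hx
  exact h0 x hx

end PUniq

theorem uniqSt : UniqSt := by
  rintro h hh ⟨C, hC⟩ h0 t
  have hp : ∀ t : ℝ, 0 < Real.cosh (Real.pi * t) := fun t => Real.cosh_pos _
  set f : ℝ → ℂ := fun t => ((1 / Real.cosh (Real.pi * t) : ℝ) : ℂ) * h t with hf
  have hfc : Continuous f := by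
    refine Continuous.mul (Complex.continuous_ofReal.comp ?_) hh
    exact continuous_const.div (by fun_prop) fun t => (hp t).ne'
  have hb : ∀ t, ‖f t‖ ≤ 2 * C * Real.exp (-(Real.pi * |t|)) := by
    intro t
    rw [hf]
    simp only []
    rw [norm_mul, Complex.norm_real, Real.norm_of_nonneg (one_div_pos.2 (hp t)).le]
    refine (mul_le_mul (PUniq.inv_cosh_le t) (hC t) (norm_nonneg _) (by positivity)).trans
      (le_of_eq (by ring))
  have h1 : ∀ φ : ℝ, |φ| < Real.pi → ∫ t : ℝ, Complex.exp (φ * t) * f t = 0 := by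
    intro φ hφ
    rw [← h0 φ hφ]
    refine integral_congr_ae (Eventually.of_forall fun t => ?_)
    simp only [hf]
    push_cast
    ring
  have h2 : 𝓕 f = 0 := by
    funext w
    rw [Real.fourier_real_eq_integral_exp_smul, Pi.zero_apply,
      ← PUniq.zero hfc hb h1 (z := ((-2 * Real.pi * w : ℝ) : ℂ) * Complex.I)
        (by simpa using Real.pi_pos)]
    refine integral_congr_ae (Eventually.of_forall fun t => ?_)
    simp only [smul_eq_mul]
    congr 2
    push_cast
    ring
  have hi : Integrable f := by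
    simpa using PUniq.integ hfc hb (z := 0) (by simpa using Real.pi_pos)
  have h3 := hfc.fourierInv_fourier_eq hi (by rw [h2]; exact integrable_zero _ _ _)
  have h4 : f t = 0 := by
    rw [← h3, h2, Real.fourierInv_eq]
    simp
  rw [hf] at h4
  simp only [] at h4
  refine (mul_eq_zero.1 h4).resolve_left ?_
  exact_mod_cast (one_div_pos.2 (hp t)).ne'

end Pool.Agent.P.MP_7e3bdd_an.NI
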