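import Pool.Agent.P.MP_7e3bdd_an.NI.Spec

/-!
The window inequality: the basic inequality in each spectral window, summed over the windows.
-/

set_option autoImplicit false

open scoped InnerProductSpace BigOperators BoundedContinuousFunction ComplexConjugate TensorProduct
  ComplexOrder
open MeasureTheory

noncomputable section

namespace Pool.Agent.P.MP_7e3bdd_an.NI

open RW

namespace PWinI

theorem kap_le (r : ℝ) : ‖kap r‖ ≤ Real.exp (-(|r| / 4)) := by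
  rw [kap_apply, Complex.norm_real, Real.norm_of_nonneg (by positivity),
    div_le_iff₀ (one_add_exp_pos _), mul_add, mul_one, ← Real.exp_add]
  rcases le_total 0 r with h | h
  · rw [abs_of_nonneg h, show -(r / 4) + r / 2 = r / 4 by ring]
    linarith [Real.exp_pos (-(r / 4))]
  · rw [abs_of_nonpos h, show -(-r / 4) = r / 4 by ring]
    linarith [Real.exp_pos (r / 4 + r / 2)]

variable {H : Type} [NormedAddCommGroup H] [InnerProductSpace ℂ H] [CompleteSpace H]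

theorem inner_pair {m : Mod H} {N : VonNeumannAlgebra H} {ξ : H} (hT : IsTT m N ξ)
    {b b' : H →L[ℂ] H} (hb : b ∈ N.commutant) (hb' : b' ∈ N.commutant) :
    ⟪b' (m.bar b' ξ), b (m.bar b ξ)⟫_ℂ = ⟪m.J ((star b * b') ξ), (star b' * b) ξ⟫_ℂ := by
  have h1 : (star b' * b) * m.bar b = m.bar b * (star b' * b) :=
    comm_QN (mul_mem (star_mem hb') hb) (hT.barQ b hb)
  have h2 : m.J ((star b * b') ξ) = (star (m.bar b)) (m.bar b' ξ) := by
    rw [← m.bar_star, ← mul_apply_eq_comp, ← m.bar_mul, m.bar_apply, hT.Jξ]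
  rw [h2, inner_star_left, ← inner_star_right b', ← mul_apply_eq_comp (star b') b,
    ← mul_apply_eq_comp (star b' * b), h1, mul_apply_eq_comp]

/-- The mass of a family is bounded by the norm of its Gram vectors. -/
theorem mass_sq (h5 : DSt) {m : Mod H} {N : VonNeumannAlgebra H} {ξ : H} (hT : IsTT m N ξ)
    {ι : Type} [Fintype ι] (b : ι → H →L[ℂ] H) (hb : ∀ l, b l ∈ N.commutant) :
    (∑ l, ‖m.D ξ (b l)‖ ^ 2) ^ 2 ≤ ∑ l, ∑ l', ‖(star (b l') * b l) ξ‖ ^ 2 := by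
  set v : H := ∑ l, b l (m.bar (b l) ξ) with hv
  have h1 : ∑ l, ‖m.D ξ (b l)‖ ^ 2 ≤ ‖v‖ := by
    have e : (((∑ l, ‖m.D ξ (b l)‖ ^ 2 : ℝ)) : ℂ) = ⟪ξ, v⟫_ℂ := by
      rw [hv, inner_sum, Complex.ofReal_sum]
      exact Finset.sum_congr rfl fun l _ => (h5 H m N ξ hT (b l) (hb l)).2.1
    have h := norm_inner_le_norm (𝕜 := ℂ) ξ v
    rw [← e, Complex.norm_real, hT.cycN.1, one_mul] at h
    exact (le_abs_self _).trans h
  have h2 : ‖v‖ ^ 2 ≤ ∑ l, ∑ l', ‖(star (b l) * b l') ξ‖ * ‖(star (b l') * b l) ξ‖ := by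
    have e : ⟪v, v⟫_ℂ = ∑ l, ∑ l', ⟪m.J ((star (b l) * b l') ξ), (star (b l') * b l) ξ⟫_ℂ := by
      rw [hv, inner_sum]
      refine Finset.sum_congr rfl fun l _ => ?_
      rw [sum_inner]
      exact Finset.sum_congr rfl fun l' _ => inner_pair hT (hb l) (hb l')
    have e2 : ‖v‖ ^ 2 = ‖⟪v, v⟫_ℂ‖ := by rw [inner_self_eq_norm_sq_to_K]; simp
    rw [e2, e]
    refine (norm_sum_le _ _).trans (Finset.sum_le_sum fun l _ =>
      (norm_sum_le _ _).trans (Finset.sum_le_sum fun l' _ => ?_))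
    refine (norm_inner_le_norm _ _).trans (le_of_eq ?_)
    rw [m.J.norm_map]
  have h3 : ∑ l, ∑ l', ‖(star (b l) * b l') ξ‖ ^ 2 = ∑ l, ∑ l', ‖(star (b l') * b l) ξ‖ ^ 2 :=
    Finset.sum_comm
  have h4 : ∑ l, ∑ l', ‖(star (b l) * b l') ξ‖ * ‖(star (b l') * b l) ξ‖ ≤
      ∑ l, ∑ l', (‖(star (b l) * b l') ξ‖ ^ 2 / 2 + ‖(star (b l') * b l) ξ‖ ^ 2 / 2) :=
    Finset.sum_le_sum fun l _ => Finset.sum_le_sum fun l' _ => by
      nlinarith [sq_nonneg (‖(star (b l) * b l') ξ‖ - ‖(star (b l') * b l) ξ‖)]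
  simp only [Finset.sum_add_distrib, ← Finset.sum_div] at h4
  have h0 : 0 ≤ ∑ l, ‖m.D ξ (b l)‖ ^ 2 := Finset.sum_nonneg fun l _ => sq_nonneg _
  have h6 := pow_le_pow_left₀ h0 h1 2
  linarith

/-- One window. -/
theorem window (h1 : SgSt) (h2 : NormSgSt) (h4 : LowSt) (h5 : DSt)
    [TopologicalSpace.SeparableSpace H] {m : Mod H} {N : VonNeumannAlgebra H} {ξ : H}
    (hT : IsTT m N ξ) {e : H →L[ℂ] H} {A : ℝ} (hA : 0 < A) (he : Cor m N ξ e)
    (hO : Obj2 m N ξ e A) {ε ρ γ : ℝ} (hε : 0 < ε) (hAε : A * (Real.exp ε - 1) ^ 2 ≤ 1 / 2)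
    {g : ℝ → ℂ} {F : ℝ →ᵇ ℂ} (hg : Integrable g) (hγ : ∫ t, ‖g t‖ ≤ γ) (hF : FT g F)
    (h0 : ∀ r, ε ≤ |r - ρ| → F r = 0) {ι : Type} [Fintype ι] (a : ι → H →L[ℂ] H)
    (ha : ∀ l, a l ∈ N.commutant ∧ a l * e = a l) :
    ∑ l, ‖m.Φ F (m.D ξ (a l))‖ ^ 2 ≤ √(2 * A) * γ ^ 2 * ‖m.Sop a‖ := by
  choose b hb hs hξ hD hc using fun l => h1 H m N ξ hT g F hg hF (a l) (ha l).1
  have k1 := hO ι b fun l => ⟨hb l, hc l e he.comm (ha l).2⟩
  have k2 : ∑ l, ∑ l', ‖m.L ξ (star (b l') * b l)‖ ^ 2 ≤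
      (Real.exp ε - 1) ^ 2 * ∑ l, ∑ l', ‖(star (b l') * b l) ξ‖ ^ 2 := by
    simp only [Finset.mul_sum]
    refine Finset.sum_le_sum fun l _ => Finset.sum_le_sum fun l' _ => ?_
    rw [← mul_pow]
    exact pow_le_pow_left₀ (norm_nonneg _)
      (h4 H m N ξ hT ε ρ g F hε hg hF h0 (a l') (b l) (b l') (a l ξ) (hb l) (hb l') (hs l')
        (hξ l)) 2
  have k3 : ‖m.Sop b‖ ≤ γ ^ 2 * ‖m.Sop a‖ :=
    (h2 H m g hg ι a b hs).trans (mul_le_mul_of_nonneg_right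
      (pow_le_pow_left₀ (integral_nonneg fun t => norm_nonneg _) hγ 2)
      (ContinuousLinearMap.opNorm_nonneg _))
  have k4 := mass_sq h5 hT b hb
  have k0 : 0 ≤ ∑ l, ∑ l', ‖(star (b l') * b l) ξ‖ ^ 2 :=
    Finset.sum_nonneg fun l _ => Finset.sum_nonneg fun l' _ => sq_nonneg _
  have k5 := pow_le_pow_left₀ (ContinuousLinearMap.opNorm_nonneg _) k3 2
  have k6 := mul_le_mul_of_nonneg_right hAε k0
  have k7 := mul_le_mul_of_nonneg_left k2 hA.le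
  have k8 := mul_le_mul_of_nonneg_left k5 hA.le
  simp only [hD] at k4
  refine (pow_le_pow_iff_left₀ ?_ ?_ two_ne_zero).1 ?_
  · exact Finset.sum_nonneg fun l _ => sq_nonneg _
  · exact mul_nonneg (by positivity) (ContinuousLinearMap.opNorm_nonneg _)
  · rw [mul_assoc, mul_pow, Real.sq_sqrt (by positivity)]
    linarith

theorem norm_D_arg {m : Mod H} {ξ : H} (hξ : ‖ξ‖ = 1) (a : H →L[ℂ] H) :
    ‖a ξ + m.J (star a ξ)‖ ≤ 2 * ‖a‖ := by
  have h1 := a.le_opNorm ξ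
  have h2 := (star a).le_opNorm ξ
  rw [hξ, mul_one] at h1 h2
  rw [norm_star] at h2
  refine (norm_add_le _ _).trans ?_
  rw [m.J.norm_map]
  linarith

omit [InnerProductSpace ℂ H] [CompleteSpace H] in
theorem sq_sum_le {k : ℕ} (u : Fin k → H) (w : H) :
    ‖∑ j, u j + w‖ ^ 2 ≤ 2 * (k * ∑ j, ‖u j‖ ^ 2) + 2 * ‖w‖ ^ 2 := by
  have h1 : ‖∑ j, u j + w‖ ≤ ∑ j, ‖u j‖ + ‖w‖ :=
    (norm_add_le _ _).trans (add_le_add (norm_sum_le _ _) le_rfl)
  have h2 : (∑ j, ‖u j‖) ^ 2 ≤ k * ∑ j, ‖u j‖ ^ 2 := by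
    simpa using sq_sum_le_card_mul_sum_sq (s := Finset.univ) (f := fun j => ‖u j‖)
  have h3 := pow_le_pow_left₀ (norm_nonneg _) h1 2
  nlinarith [sq_nonneg (∑ j, ‖u j‖ - ‖w‖)]

end PWinI

theorem winISt (h1 : SgSt) (h2 : NormSgSt) (h3 : WinSt) (h4 : LowSt) (h5 : DSt) : WinISt := by
  intro H _ _ _ _ m N ξ hT e A hA he hO
  obtain ⟨c1, -, -, c4, γ, c5⟩ := h3
  have hs : 0 < √(2 * A) := Real.sqrt_pos.2 (by positivity)
  have hε : 0 < Real.log (1 + 1 / √(2 * A)) := Real.log_pos (by simpa using hs)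
  have hAε : A * (Real.exp (Real.log (1 + 1 / √(2 * A))) - 1) ^ 2 ≤ 1 / 2 := by
    rw [Real.exp_log (by positivity), add_sub_cancel_left, div_pow, Real.sq_sqrt (by positivity)]
    exact le_of_eq (by field_simp)
  generalize Real.log (1 + 1 / √(2 * A)) = ε at hε hAε
  refine ⟨ε, 2 * (√(2 * A) * γ ^ 2), hε, by positivity, fun ι _ a ha n => ?_⟩
  choose g F hg hγ hF hχ using fun j : Fin (2 * n + 1) => c5 ε hε (((j : ℕ) : ℝ) - n)
  have hW : ∀ j, ∑ l, ‖m.Φ (F j) (m.D ξ (a l))‖ ^ 2 ≤ √(2 * A) * γ ^ 2 * ‖m.Sop a‖ := fun j =>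
    PWinI.window h1 h2 h4 h5 hT hA he hO (ρ := ε * (((j : ℕ) : ℝ) - n)) hε hAε (hg j) (hγ j)
      (hF j) (fun r hr => by
        rw [hχ, c1, Complex.ofReal_zero]
        have e1 : r / ε - (((j : ℕ) : ℝ) - n) = (r - ε * (((j : ℕ) : ℝ) - n)) / ε := by
          field_simp
        rw [e1, abs_div, abs_of_pos hε, le_div_iff₀ hε, one_mul]
        exact hr) a ha
  have hG : ∀ r, ‖((1 - ∑ j, F j) * kap) r‖ ≤ Real.exp (-(n * ε / 4)) := fun r => by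
    obtain ⟨d1, d2, d3⟩ := c4 n (r / ε)
    have e1 : (1 - ∑ j, F j) r =
        ((1 - ∑ j : Fin (2 * n + 1), chi (r / ε - (((j : ℕ) : ℝ) - n)) : ℝ) : ℂ) := by
      simp [hχ]
    rw [BoundedContinuousFunction.mul_apply, norm_mul, e1, Complex.norm_real]
    by_cases h : |r / ε| ≤ n
    · rw [d3 h, sub_self, norm_zero, zero_mul]
      exact (Real.exp_pos _).le
    · rw [abs_div, abs_of_pos hε, div_le_iff₀ hε, not_le] at h
      rw [Real.norm_of_nonneg (by linarith)]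
      refine (mul_le_of_le_one_left (norm_nonneg _) (by linarith)).trans
        ((PWinI.kap_le r).trans (Real.exp_le_exp.2 (by linarith)))
  have hl : ∀ l, ‖m.D ξ (a l)‖ ^ 2 ≤
      2 * ((2 * (n : ℝ) + 1) * ∑ j, ‖m.Φ (F j) (m.D ξ (a l))‖ ^ 2) +
        8 * Real.exp (-(n * ε / 2)) * ‖a l‖ ^ 2 := fun l => by
    have e1 : m.D ξ (a l) = ∑ j, m.Φ (F j) (m.D ξ (a l)) +
        m.Φ ((1 - ∑ j, F j) * kap) (a l ξ + m.J (star (a l) ξ)) := by
      rw [← m.Φ_Φ, map_sub, map_one, map_sum, sub_apply, sum_apply, one_apply_eq_self]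
      exact (add_sub_cancel _ _).symm
    have k1 := PWinI.sq_sum_le (fun j => m.Φ (F j) (m.D ξ (a l)))
      (m.Φ ((1 - ∑ j, F j) * kap) (a l ξ + m.J (star (a l) ξ)))
    rw [← e1] at k1
    have k2 := (m.norm_Φ_apply_le _ hG (a l ξ + m.J (star (a l) ξ))).trans
      (mul_le_mul_of_nonneg_left (PWinI.norm_D_arg hT.cycN.1 (a l)) (Real.exp_pos _).le)
    have k3 := pow_le_pow_left₀ (norm_nonneg _) k2 2
    have e2 : Real.exp (-(n * ε / 4)) ^ 2 = Real.exp (-(n * ε / 2)) := by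
      rw [sq, ← Real.exp_add]; ring_nf
    rw [mul_pow, e2] at k3
    push_cast at k1
    linarith
  refine (Finset.sum_le_sum fun l _ => hl l).trans ?_
  rw [Finset.sum_add_distrib, ← Finset.mul_sum, ← Finset.mul_sum, ← Finset.mul_sum,
    Finset.sum_comm]
  have k4 : ∑ j, ∑ l, ‖m.Φ (F j) (m.D ξ (a l))‖ ^ 2 ≤
      (2 * (n : ℝ) + 1) * (√(2 * A) * γ ^ 2 * ‖m.Sop a‖) := by
    refine (Finset.sum_le_sum fun j _ => hW j).trans (le_of_eq ?_)
    simp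
  have k5 := mul_le_mul_of_nonneg_left k4 (show (0 : ℝ) ≤ 2 * (n : ℝ) + 1 by positivity)
  linarith

end Pool.Agent.P.MP_7e3bdd_an.NI
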