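import Pool.Agent.P.MP_7e3bdd_an.NI.Main
import Pool.Agent.P.MP_7e3bdd_an.NI.PAvg
import Pool.Agent.P.MP_7e3bdd_an.NI.PBT
import Pool.Agent.P.MP_7e3bdd_an.NI.PBiLem
import Pool.Agent.P.MP_7e3bdd_an.NI.PBist1
import Pool.Agent.P.MP_7e3bdd_an.NI.PBist2
import Pool.Agent.P.MP_7e3bdd_an.NI.PCalc
import Pool.Agent.P.MP_7e3bdd_an.NI.PCont
import Pool.Agent.P.MP_7e3bdd_an.NI.PCorner
import Pool.Agent.P.MP_7e3bdd_an.NI.PCost
import Pool.Agent.P.MP_7e3bdd_an.NI.PD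
import Pool.Agent.P.MP_7e3bdd_an.NI.PDv
import Pool.Agent.P.MP_7e3bdd_an.NI.PExp
import Pool.Agent.P.MP_7e3bdd_an.NI.PFix
import Pool.Agent.P.MP_7e3bdd_an.NI.PForm
import Pool.Agent.P.MP_7e3bdd_an.NI.PGood
import Pool.Agent.P.MP_7e3bdd_an.NI.PGraph
import Pool.Agent.P.MP_7e3bdd_an.NI.PInt
import Pool.Agent.P.MP_7e3bdd_an.NI.PInv
import Pool.Agent.P.MP_7e3bdd_an.NI.PIter
import Pool.Agent.P.MP_7e3bdd_an.NI.PLax
import Pool.Agent.P.MP_7e3bdd_an.NI.PLim1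
import Pool.Agent.P.MP_7e3bdd_an.NI.PLim2
import Pool.Agent.P.MP_7e3bdd_an.NI.PLim3
import Pool.Agent.P.MP_7e3bdd_an.NI.PLow
import Pool.Agent.P.MP_7e3bdd_an.NI.PMar
import Pool.Agent.P.MP_7e3bdd_an.NI.PMod
import Pool.Agent.P.MP_7e3bdd_an.NI.PNormSg
import Pool.Agent.P.MP_7e3bdd_an.NI.POpId
import Pool.Agent.P.MP_7e3bdd_an.NI.PPower
import Pool.Agent.P.MP_7e3bdd_an.NI.PPre
import Pool.Agent.P.MP_7e3bdd_an.NI.PRN1
import Pool.Agent.P.MP_7e3bdd_an.NI.PReal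
import Pool.Agent.P.MP_7e3bdd_an.NI.PRed
import Pool.Agent.P.MP_7e3bdd_an.NI.PSV
import Pool.Agent.P.MP_7e3bdd_an.NI.PSech
import Pool.Agent.P.MP_7e3bdd_an.NI.PSep
import Pool.Agent.P.MP_7e3bdd_an.NI.PSg
import Pool.Agent.P.MP_7e3bdd_an.NI.PStd1
import Pool.Agent.P.MP_7e3bdd_an.NI.PStd2B
import Pool.Agent.P.MP_7e3bdd_an.NI.PTom
import Pool.Agent.P.MP_7e3bdd_an.NI.PUni
import Pool.Agent.P.MP_7e3bdd_an.NI.PUniq
import Pool.Agent.P.MP_7e3bdd_an.NI.PWin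
import Pool.Agent.P.MP_7e3bdd_an.NI.PWinI

/-!
All steps together.
-/

set_option autoImplicit false

namespace Pool.Agent.P.MP_7e3bdd_an.NI

theorem gapAll' : GapAll :=
  have sv : SVSt := svSt contSt
  have it : IntSt := intSt sv
  have bt : BTSt := btSt contSt sv
  have fx : FixSt := fixSt it winSt
  have ds : DSt := dSt dvSt
  gapAll (preSt realSt calcSt)
    (tomSt (opIdSt rnSt) (invSt bt sechSt contSt) uniqSt contSt dvSt) lim1St lim2St lim3St avgSt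
    (graphSt fx) (cornerSt fx)
    (winISt (sgSt contSt it) (normSgSt contSt) winSt (lowSt bt dvSt contSt) ds) (powerSt ds)
    (bist1St ds) bist2St (marSt biLemSt ds) (laxSt formSt biLemSt ds) (expSt formSt biLemSt)
    (iterSt (goodSt modSt) costSt) uniSt

theorem std1' : Std1St := std1St sepSt'

theorem std2' : Std2St := std2B (redSt formSt)

end Pool.Agent.P.MP_7e3bdd_an.NI
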