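import Pool.Agent.P.MP_7e3bdd_an.NI.Spec
import Pool.Agent.P.MP_7e3bdd_an.RW.Val
import Pool.Agent.P.MP_7e3bdd_an.RW.TMain

/-!
The value of the test fields under restricted orthogonality.
-/

set_option autoImplicit false

open scoped InnerProductSpace Topology ComplexConjugate ENNReal BigOperators
open Filter MeasureTheory ProbabilityTheory

noncomputable section

namespace Pool.Agent.P.MP_7e3bdd_an.NI

open RW

namespace PValM

variable {H : Type} [NormedAddCommGroup H] [InnerProductSpace ℂ H] [CompleteSpace H]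
  {N : VonNeumannAlgebra H} {ξ : H} {X : ℕ → Type} {c : ∀ k, X k → X (k + 1) → H →L[ℂ] H}

theorem margF_diag {J I : Type} [Fintype J] [Fintype I] {l : J → ℝ} (hl1 : ∑ j, l j = 1)
    {u : J → H →L[ℂ] H} (hu : ∀ j, u j ∈ unitary (H →L[ℂ] H) ∧ u j ∈ N) {α : I → ℝ} {e : I → H}
    (hα : ∀ i, 0 ≤ α i) (he : ∀ i, ‖e i‖ = 1) (hα1 : ∑ i, α i ^ 2 = 1) (hn : hsn α e = 1)
    (hT : ∀ T : H →L[ℂ] H, ∑ j, l j * (⟪u j ξ, T (u j ξ)⟫_ℂ).re =
      ∑ i, α i ^ 2 * (⟪e i, T (e i)⟫_ℂ).re) : MargF N ξ α e := by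
  classical
  have hk : RW.ker α e α e = 1 := by
    rw [hsn, Real.sqrt_eq_one] at hn
    exact hn
  have hz : ∀ i k, i ≠ k → α i * α k * ‖⟪e i, e k⟫_ℂ‖ ^ 2 = 0 := by
    have h0 : ∀ i k, 0 ≤ (if i = k then 0 else α i * α k * ‖⟪e i, e k⟫_ℂ‖ ^ 2) := fun i k => by
      split_ifs
      · exact le_rfl
      · exact mul_nonneg (mul_nonneg (hα i) (hα k)) (sq_nonneg _)
    have h1 : ∑ i, ∑ k, (if i = k then 0 else α i * α k * ‖⟪e i, e k⟫_ℂ‖ ^ 2) = 0 := by
      have h2 : ∀ i k, α i * α k * ‖⟪e i, e k⟫_ℂ‖ ^ 2 = (if i = k then α i ^ 2 else 0) +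
          (if i = k then 0 else α i * α k * ‖⟪e i, e k⟫_ℂ‖ ^ 2) := fun i k => by
        by_cases h : i = k
        · subst h
          simp [he, sq]
        · simp [h]
      rw [RW.ker, Finset.sum_congr rfl fun i _ => Finset.sum_congr rfl fun k _ => h2 i k] at hk
      simp only [Finset.sum_add_distrib, Finset.sum_ite_eq, Finset.mem_univ, if_true, hα1] at hk
      linarith
    intro i k hik
    have h3 := (Finset.sum_eq_zero_iff_of_nonneg fun k _ => h0 i k).1
      ((Finset.sum_eq_zero_iff_of_nonneg fun i _ => Finset.sum_nonneg fun k _ => h0 i k).1 h1 i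
        (Finset.mem_univ _)) k (Finset.mem_univ _)
    rwa [if_neg hik] at h3
  have hs : ∀ (b : H →L[ℂ] H) (x : H), (⟪x, (star b * b) x⟫_ℂ).re = ‖b x‖ ^ 2 := fun b x => by
    rw [mul_apply_eq_comp, inner_star_right, inner_self_eq_norm_sq_to_K]
    norm_cast
  intro b hb
  have h1 := hT (star b * b)
  simp only [hs] at h1
  have h2 : ∀ j, ‖b (u j ξ)‖ = ‖b ξ‖ := fun j => by
    rw [← mul_apply_eq_comp, comm_QN hb (hu j).2, mul_apply_eq_comp,
      ContinuousLinearMap.norm_map_of_mem_unitary (hu j).1]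
  simp only [h2, ← Finset.sum_mul, hl1, one_mul] at h1
  rw [h1, Complex.ofReal_sum]
  refine Finset.sum_congr rfl fun i _ => ?_
  rw [Finset.sum_eq_single i]
  · rw [inner_self_eq_norm_sq_to_K, inner_self_eq_norm_sq_to_K, he]
    push_cast
    simp [sq]
  · intro k _ hk'
    have h3 := hz k i hk'
    rcases mul_eq_zero.1 h3 with h4 | h4
    · rw [mul_comm (α i), h4]
      simp
    · rw [norm_eq_zero.1 (pow_eq_zero_iff two_ne_zero |>.1 h4)]
      simp
  · intro h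
    exact absurd (Finset.mem_univ i) h

variable [∀ k, Fintype (X k)] [∀ k, AddCommGroup (X k)]

theorem val_step (hc : ∀ k x y, c k x y ∈ unitary (H →L[ℂ] H)) {δ : ℝ} (ho : OrthM N ξ c δ)
    {I : Type} [Fintype I] {α : I → ℝ} {e : I → H} (hα : ∀ i, 0 ≤ α i) (h1 : hsn α e = 1)
    (hM : MargF N ξ α e) (k : ℕ)
    (P Q : Hd X (k + 1) → ℝ) (P1 : ∀ h, P h ≤ 1) (Q0 : ∀ h, 0 ≤ Q h)
    (Q1 : ∀ h, Q h ≤ 1) :
    𝔼 y : X (k + 1), ∑ h, ∑ h', P h * Q h' *
        ker α (fun i => aH c (k + 1) h y (e i)) α (fun i => aH c (k + 1) h' y (e i)) ≤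
      ∑ x : X k, ∑ h : Hd X k, ∑ h' : Hd X k, P (h, x) * Q (h', x) *
        ker α (fun i => aH c k h x (e i)) α (fun i => aH c k h' x (e i)) +
      Fintype.card (Hd X (k + 1)) * (2 * δ ^ 2 / 2 ^ k) := by
  classical
  have N0 : (0 : ℝ) < Fintype.card (Hd X (k + 1)) := by exact_mod_cast Fintype.card_pos
  have key : ∀ h h' : Hd X (k + 1), 𝔼 y : X (k + 1), P h * Q h' *
      ker α (fun i => aH c (k + 1) h y (e i)) α (fun i => aH c (k + 1) h' y (e i)) ≤
      (if h.2 = h'.2 then P h * Q h' *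
        ker α (fun i => aH c k h.1 h.2 (e i)) α (fun i => aH c k h'.1 h'.2 (e i)) else 0) +
      2 * δ ^ 2 / 2 ^ k / Fintype.card (Hd X (k + 1)) := by
    rintro ⟨h, x⟩ ⟨h', x'⟩
    by_cases hx : x = x'
    · subst hx
      rw [if_pos rfl]
      refine le_add_of_le_of_nonneg (le_of_eq ?_) (by positivity)
      refine (Finset.expect_congr rfl fun y _ => ?_).trans (Fintype.expect_const _)
      congr 1
      exact ker_unitary (hc k x y) α (fun i => aH c k h x (e i)) α (fun i => aH c k h' x (e i))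
    · rw [if_neg hx, zero_add, le_div_iff₀' N0]
      have := ho k h x x' hx I I α e α (fun i => aH c k h' x' (e i)) hM
      rw [hsn_unitary (val_aH_unitary hc k h' x'), h1, mul_one] at this
      refine le_trans (mul_le_mul_of_nonneg_left (Finset.expect_le_expect fun y _ => ?_) N0.le) this
      exact mul_le_of_le_one_left (ker_nonneg hα _ hα _)
        (mul_le_one₀ (P1 _) (Q0 _) (Q1 _))
  rw [Finset.expect_sum_comm]
  refine (Finset.sum_le_sum fun h _ => (Finset.expect_sum_comm _ _ _).trans_le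
    (Finset.sum_le_sum fun h' _ => key h h')).trans (le_of_eq ?_)
  simp only [Finset.sum_add_distrib, Finset.sum_const, Finset.card_univ, nsmul_eq_mul]
  congr 1
  · rw [sum_hd_succ, Finset.sum_comm]
    refine Finset.sum_congr rfl fun x _ => Finset.sum_congr rfl fun h _ => ?_
    rw [sum_hd_succ]
    refine Finset.sum_congr rfl fun h' _ => ?_
    simp only [Finset.sum_ite_eq, Finset.mem_univ, if_true]
  · field_simp

theorem val_bound (hc : ∀ k x y, c k x y ∈ unitary (H →L[ℂ] H)) {δ : ℝ} (ho : OrthM N ξ c δ)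
    {s : X 0 → ℝ} (hs : ∀ x, s x = 1 ∨ s x = -1)
    {I : Type} [Fintype I] {α : I → ℝ} {e : I → H} (hα : ∀ i, 0 ≤ α i) (h1 : hsn α e = 1)
    (hM : MargF N ξ α e) (k : ℕ) :
    𝔼 y : X (k + 1), ∑ h, ∑ h', (1 + sgH s k h) / 2 * ((1 - sgH s k h') / 2) *
        ker α (fun i => aH c (k + 1) h y (e i)) α (fun i => aH c (k + 1) h' y (e i)) ≤
      Fintype.card (Hd X (k + 1)) * (4 * δ ^ 2 - 2 * δ ^ 2 / 2 ^ k) := by
  have b : ∀ (k : ℕ) (h : Hd X (k + 1)), (0 ≤ (1 + sgH s k h) / 2 ∧ (1 + sgH s k h) / 2 ≤ 1) ∧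
      (0 ≤ (1 - sgH s k h) / 2 ∧ (1 - sgH s k h) / 2 ≤ 1) := fun k h => by
    rcases val_sgH hs k h with e | e <;> rw [e] <;> norm_num
  induction k with
  | zero =>
    refine (val_step hc ho hα h1 hM 0 _ _ (fun h => (b 0 h).1.2)
      (fun h => (b 0 h).2.1) fun h => (b 0 h).2.2).trans (le_of_eq ?_)
    rw [Finset.sum_eq_zero fun x _ => Finset.sum_eq_zero fun h _ =>
      Finset.sum_eq_zero fun h' _ => ?_]
    · ring
    · change (1 + s x) / 2 * ((1 - s x) / 2) * _ = 0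
      rcases hs x with e | e <;> simp [e]
  | succ k ih =>
    refine (val_step hc ho hα h1 hM (k + 1) _ _ (fun h => (b _ h).1.2)
      (fun h => (b _ h).2.1) fun h => (b _ h).2.2).trans ?_
    have := mul_le_mul_of_nonneg_left ih (Nat.cast_nonneg (Fintype.card (X (k + 1))))
    rw [Fintype.card_mul_expect] at this
    refine (add_le_add_left this _).trans (le_of_eq ?_)
    rw [card_hd_succ (k + 1)]
    push_cast
    ring

theorem valM {s : X 0 → ℝ} {δ : ℝ} (hδ : 0 < δ) (hc : ∀ k x y, c k x y ∈ unitary (H →L[ℂ] H))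
    (hs : ∀ x, s x = 1 ∨ s x = -1) (ho : OrthM N ξ c δ) {I : Type} [Fintype I] {α : I → ℝ}
    {e : I → H} (hα : ∀ i, 0 ≤ α i) (he : ∀ i, ‖e i‖ = 1) (hα1 : ∑ i, α i ^ 2 = 1)
    (h1 : hsn α e = 1) (hM : MargF N ξ α e) (k : ℕ) :
    ∃ y : X (k + 1) → H →L[ℂ] H, (∀ x, IsSelfAdjoint (y x) ∧ ‖y x‖ ≤ 1) ∧
      1 - 4 * δ ≤ 𝔼 h : Hd X (k + 1), 𝔼 x : X (k + 1), sgH s k h *
        ∑ i, α i ^ 2 * (⟪aH c (k + 1) h x (e i), y x (aH c (k + 1) h x (e i))⟫_ℂ).re := by
  choose y hy hy' using fun x : X (k + 1) => val_sep (a := fun h => aH c (k + 1) h x)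
    (fun h => val_aH_unitary hc (k + 1) h x) (val_sgH hs k) hδ hα he hα1
  refine ⟨y, hy, ?_⟩
  have N0 : (0 : ℝ) < Fintype.card (Hd X (k + 1)) := by exact_mod_cast Fintype.card_pos
  refine le_of_mul_le_mul_left ?_ N0
  rw [Fintype.card_mul_expect, ← Finset.expect_sum_comm]
  refine le_trans ?_ (Finset.expect_le_expect fun x _ => hy' x)
  rw [Finset.expect_sub_distrib, Fintype.expect_const, ← Finset.expect_div]
  have hb := val_bound hc ho hs hα h1 hM k
  have h2 : 𝔼 y : X (k + 1), ∑ h, ∑ h', (1 + sgH s k h) / 2 * ((1 - sgH s k h') / 2) *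
      ker α (fun i => aH c (k + 1) h y (e i)) α (fun i => aH c (k + 1) h' y (e i)) ≤
      Fintype.card (Hd X (k + 1)) * (2 * δ) * (2 * δ) := by
    refine hb.trans ?_
    have : 0 ≤ (Fintype.card (Hd X (k + 1)) : ℝ) * (2 * δ ^ 2 / 2 ^ k) := by positivity
    nlinarith
  have h3 := (div_le_iff₀ (show 0 < 2 * δ by positivity)).2 h2
  linarith

variable [∀ k, MeasurableSpace (X k)] [∀ k, DiscreteMeasurableSpace (X k)] {s : X 0 → ℝ}

theorem exists_test_M (hc : ∀ k x y, c k x y ∈ unitary (H →L[ℂ] H))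
    (hs : ∀ x, s x = 1 ∨ s x = -1) {δ : ℝ} (hδ : 0 < δ) (ho : OrthM N ξ c δ) {I : Type} [Fintype I]
    {α : I → ℝ} {e : I → H} (hα : ∀ i, 0 ≤ α i) (he : ∀ i, ‖e i‖ = 1) (hα1 : ∑ i, α i ^ 2 = 1)
    (hn : hsn α e = 1) (hM : MargF N ξ α e) :
    ∃ x ∈ MT c, IsSelfAdjoint x ∧ ‖x‖ ≤ 1 ∧ 1 - 4 * δ ≤
      ∑ i, α i ^ 2 * (⟪VV (PT X) (e i), fld (PT X) (sT H s) (x (VV (PT X) (e i)))⟫_ℂ).re := by
  choose y hy hv using valM hδ hc hs ho hα he hα1 hn hM
  have gy : ∀ k, RW.Good fun ω : ∀ i, X i => y k (ω (k + 1)) := fun k =>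
    good_hd (k + 2) fun h => y k h.2
  set Y : ℕ → Lp H 2 (PT X) →L[ℂ] Lp H 2 (PT X) := fun k =>
    star (AA c (k + 1)) * fld (PT X) (fun ω => y k (ω (k + 1))) * AA c (k + 1) with hY
  have hY1 : ∀ k, ‖Y k‖ ≤ 1 := fun k => by
    have h1 := norm_le_one_of_unitary (AA_unitary hc (k + 1))
    have h2 : ‖fld (PT X) fun ω => y k (ω (k + 1))‖ ≤ 1 :=
      norm_fld_le (gy k) zero_le_one fun ω => (hy k _).2
    have h3 := norm_le_one_of_unitary (Unitary.star_mem (AA_unitary hc (k + 1)))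
    exact (norm_mul₃_le).trans (mul_le_one₀ (mul_le_one₀ h3 (norm_nonneg _) h2) (norm_nonneg _) h1)
  obtain ⟨x, hx⟩ := exists_wlim (hyperfilter ℕ) Y 1 hY1
  refine ⟨x, (mem_MT x).2 ⟨fun j γ hγ => hx.comm _ (Nat.hyperfilter_le_atTop ?_),
    fun B hB => hx.comm _ (Eventually.of_forall fun k => ?_)⟩, hx.isSelfAdjoint fun k => ?_,
    hx.norm_le 1 zero_le_one hY1, ?_⟩
  · filter_upwards [eventually_ge_atTop j] with k hk
    have h1 : ST γ * fld (PT X) (fun ω => y k (ω (k + 1))) =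
        fld (PT X) (fun ω => y k (ω (k + 1))) * ST γ := by
      rw [ST_fld γ (gy k)]
      simp [hγ (k + 1) (by omega)]
    have h2 := Unitary.mul_star_self_of_mem (AA_unitary hc (k + 1))
    rw [← WT_le hc (by omega : j ≤ k + 1) hγ, WT, hY]
    simp only [mul_assoc]
    rw [← mul_assoc (AA c (k + 1)), h2, one_mul, ← mul_assoc (AA c (k + 1)), h2, one_mul,
      ← mul_assoc (ST γ), h1, mul_assoc]
  · simp only [hY]
    rw [← mul_assoc, ← mul_assoc, EE_comm_star_AA hB, mul_assoc _ (EE _ _), EE_comm_fld hB (gy k),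
      mul_assoc, mul_assoc, EE_comm_AA hB]
    simp only [mul_assoc]
  · refine IsSelfAdjoint.conjugate' ?_ _
    rw [IsSelfAdjoint, ← fld_star (gy k)]
    simp only [(hy k _).1.star_eq]
  · have h6 := hx.mul_mul (fld (PT X) (sT H s)) 1
    simp only [mul_one] at h6
    refine ge_of_tendsto' (tendsto_finsetSum _ fun i _ =>
      ((Complex.continuous_re.tendsto _).comp (h6 (VV (PT X) (e i)) (VV (PT X) (e i)))).const_mul
        (α i ^ 2)) fun k => (hv k).trans (le_of_eq ?_)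
    have ga := good_aa (c := c) (k + 1)
    have gh := (good_sT s).mul ((ga.star.mul (gy k)).mul ga)
    have ih : ∀ i, Integrable (fun ω => α i ^ 2 * (⟪e i, (sT H s ω *
        (star (aH c (k + 1) (hd (k + 1) ω) (ω (k + 1))) * y k (ω (k + 1)) *
          aH c (k + 1) (hd (k + 1) ω) (ω (k + 1)))) (e i)⟫_ℂ).re) (PT X) := fun i =>
      ((((gh.integrable _).apply_continuousLinearMap (e i)).const_inner
        (𝕜 := ℂ) (e i)).re).const_mul _
    have h7 : ∀ i, (⟪VV (PT X) (e i), (fld (PT X) (sT H s) * Y k) (VV (PT X) (e i))⟫_ℂ).re =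
        ∫ ω, (⟪e i, (sT H s ω * (star (aH c (k + 1) (hd (k + 1) ω) (ω (k + 1))) *
          y k (ω (k + 1)) * aH c (k + 1) (hd (k + 1) ω) (ω (k + 1)))) (e i)⟫_ℂ).re ∂PT X := by
      intro i
      simp only [hY]
      rw [← inner_cmp, AA, ← fld_star ga, ← fld_mul ga.star (gy k),
        ← fld_mul (ga.star.mul (gy k)) ga, ← fld_mul (good_sT s) ((ga.star.mul (gy k)).mul ga),
        cmp_fld gh, inner_integral_op (gh.integrable _)]
      exact (Complex.reCLM.integral_comp_comm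
        (((gh.integrable _).apply_continuousLinearMap (e i)).const_inner (e i))).symm
    simp only [Function.comp_apply, h7, ← integral_const_mul]
    rw [← integral_finsetSum _ fun i _ => ih i, ← integral_hd2]
    refine integral_congr_ae (Eventually.of_forall fun ω => ?_)
    simp only [sgH_hd, Finset.mul_sum]
    refine Finset.sum_congr rfl fun i _ => ?_
    simp [sT, ContinuousLinearMap.star_eq_adjoint, ContinuousLinearMap.adjoint_inner_right,
      mul_left_comm]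

theorem exists_far_M (hc : ∀ k x y, c k x y ∈ unitary (H →L[ℂ] H))
    (hs : ∀ x, s x = 1 ∨ s x = -1) (hs0 : ∑ x, s x = 0) {δ : ℝ} (hδ : 0 < δ) (ho : OrthM N ξ c δ)
    (hξ : ‖ξ‖ = 1) :
    ∃ η ζ : Lp H 2 (PT X), ‖η‖ ≤ 1 ∧ ‖ζ‖ ≤ 1 ∧ ⟪η, ζ⟫_ℂ = 0 ∧
      ∃ x ∈ MT c, IsSelfAdjoint x ∧ ‖x‖ ≤ 1 ∧
        ∀ u ∈ unitary (Lp H 2 (PT X) →L[ℂ] Lp H 2 (PT X)), u ∈ NT X N →
          1 - 4 * δ ≤ (⟪η, (u * x * star u) ζ⟫_ℂ).re := by
  have gs := good_sT (H := H) s
  have hsa : star (fld (PT X) (sT H s)) = fld (PT X) (sT H s) := by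
    rw [← fld_star gs]
    congr 1
    funext ω
    simp [sT]
  have hin : ∀ f g : Lp H 2 (PT X), ⟪fld (PT X) (sT H s) f, g⟫_ℂ =
      ⟪f, fld (PT X) (sT H s) g⟫_ℂ := fun f g => by
    rw [← ContinuousLinearMap.adjoint_inner_right, ← ContinuousLinearMap.star_eq_adjoint, hsa]
  have hcomm : ∀ a : H →L[ℂ] H, amp (PT X) a * fld (PT X) (sT H s) =
      fld (PT X) (sT H s) * amp (PT X) a := fun a => by
    rw [amp_apply, ← fld_mul (RW.Good.const a) gs, ← fld_mul gs (RW.Good.const a)]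
    simp [sT]
  refine ⟨fld (PT X) (sT H s) (VV (PT X) ξ), VV (PT X) ξ, ?_, by rw [norm_VV, hξ], ?_, ?_⟩
  · have h1 : ‖fld (PT X) (sT H s)‖ ≤ 1 := norm_fld_le gs zero_le_one fun ω => by
      rw [sT, norm_smul, Complex.norm_real]
      have h1 : ‖s (ω 0)‖ = 1 := by rcases hs (ω 0) with h | h <;> simp [h]
      rw [h1, one_mul]
      exact ContinuousLinearMap.norm_id_le
    refine (ContinuousLinearMap.le_opNorm _ _).trans ?_
    rw [norm_VV, hξ, mul_one]
    exact h1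
  · rw [hin, ← inner_cmp, cmp_fld gs]
    have h1 : ∫ ω : ∀ i, X i, (s (ω 0) : ℂ) ∂PT X = 0 := by
      rw [integral_complex_ofReal, integral_hd2 0 fun _ x => s x]
      simp [Fintype.expect_eq_sum_div_card, hs0]
    simp only [sT]
    rw [integral_smul_const, h1]
    simp
  · obtain ⟨x, hx, hx1, hx2, hx3⟩ := minimaxSt (Lp H 2 (PT X)) (MT c)
      {a : H →L[ℂ] H // a ∈ unitary (H →L[ℂ] H) ∧ a ∈ N}
      (fun a => fld (PT X) (sT H s) (VV (PT X) (star a.1 ξ)))
      (fun a => VV (PT X) (star a.1 ξ)) (1 - 4 * δ) (fun J _ l i hl hl1 => by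
        obtain ⟨n, α, e, hα, he, hα1, hn, hT⟩ := diagSt H J l (fun j => star (i j).1 ξ) hl hl1
          (fun j => by
            rw [ContinuousLinearMap.norm_map_of_mem_unitary (Unitary.star_mem (i j).2.1), hξ])
        obtain ⟨x, hx, hx1, hx2, hx3⟩ := exists_test_M hc hs hδ ho hα he hα1 hn
          (margF_diag hl1 (fun j => ⟨Unitary.star_mem (i j).2.1, star_mem (i j).2.2⟩) hα he hα1 hn hT)
        refine ⟨x, hx, hx1, hx2, ?_⟩
        have h1 := hT (cmp (PT X) (fld (PT X) (sT H s) * x))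
        simp only [inner_cmp, mul_apply_eq_comp] at h1
        simp only [hin]
        rw [h1]
        exact hx3)
    refine ⟨x, hx, hx1, hx2, fun u hu huN => ?_⟩
    obtain ⟨a, haN, rfl⟩ := (mem_NT N u).1 huN
    have ha : a ∈ unitary (H →L[ℂ] H) := by
      rw [Unitary.mem_iff] at hu ⊢
      rw [← map_star, ← map_mul, ← map_mul, ← map_one (amp (H := H) (PT X))] at hu
      exact ⟨amp_injective hu.1, amp_injective hu.2⟩
    have h1 := hx3 ⟨a, ha, haN⟩
    rw [mul_apply_eq_comp, mul_apply_eq_comp, ← map_star, amp_VV,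
      ← ContinuousLinearMap.adjoint_inner_left, ← ContinuousLinearMap.star_eq_adjoint, ← map_star,
      ← mul_apply_eq_comp, hcomm, mul_apply_eq_comp, amp_VV]
    exact h1

end PValM

end Pool.Agent.P.MP_7e3bdd_an.NI
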