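import Pool.Agent.P.MP_7e3bdd_an.NI.PTowerM
import Pool.Agent.P.MP_7e3bdd_an.NI.PValM
import Pool.Agent.P.MP_7e3bdd_an.RW.Approx
import Pool.Agent.P.MP_7e3bdd_an.RW.Dixmier
import Pool.Agent.P.MP_7e3bdd_an.RW.Dix
import Pool.Agent.P.MP_7e3bdd_an.RW.Inj2
import Pool.Agent.P.MP_7e3bdd_an.RW.Unif

/-!
Assembly of the steps.
-/

set_option autoImplicit false

open scoped InnerProductSpace BigOperators ComplexOrder
open MeasureTheory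

noncomputable section

namespace Pool.Agent.P.MP_7e3bdd_an.NI

open RW

variable {H : Type} [NormedAddCommGroup H] [InnerProductSpace ℂ H] [CompleteSpace H]

theorem obj_of (h1 : Lim1St) (h2 : Lim2St) (h3 : Lim3St) (m : Mod H) (N : VonNeumannAlgebra H)
    (ξ : H) (hJ : m.J ξ = ξ) (hG : ¬ G1 m N ξ) :
    ∃ (A c : ℝ) (ζ : H), 0 < A ∧ 0 < c ∧ Obj m N ξ A ζ ∧ c ≤ (⟪ξ, ζ⟫_ℂ).re := by
  obtain ⟨C, c, K, hC, hc, hK, hN⟩ := h1 H m N ξ hG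
  obtain ⟨ζ, q, a1, a2, a3, a4, a5⟩ := h2 H m N ξ C c K hC hN
  have a6 := h3 H m N ξ hJ K q hK.le a2 a3 a4
  refine ⟨C ^ 2 * (2 + 4 * K), c, ζ, by positivity, hc, fun ι _ b hb => (a5 ι b hb).trans ?_, a1⟩
  have b1 : ∑ l, ∑ l', q (star (b l') * b l) ^ 2 ≤
      4 * K * ∑ l, ∑ l', ‖m.L ξ (star (b l') * b l)‖ ^ 2 := by
    simp only [Finset.mul_sum]
    exact Finset.sum_le_sum fun l _ => Finset.sum_le_sum fun l' _ =>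
      a6 _ (mul_mem (star_mem (hb l')) (hb l))
  have b2 : 0 ≤ ∑ l, ∑ l', ‖m.L ξ (star (b l') * b l)‖ ^ 2 := by positivity
  rw [mul_assoc]
  refine mul_le_mul_of_nonneg_left ?_ (sq_nonneg C)
  nlinarith [sq_nonneg ‖m.Sop b‖, mul_nonneg hK.le (sq_nonneg ‖m.Sop b‖)]

theorem obj2_of (h1 : AvgSt) (h2 : GraphSt) (h3 : CornerSt) {m : Mod H} {N : VonNeumannAlgebra H}
    {ξ : H} (hT : IsTT m N ξ) {A c : ℝ} {ζ : H} (hA : 0 < A) (hc : 0 < c) (hO : Obj m N ξ A ζ)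
    (hζ : c ≤ (⟪ξ, ζ⟫_ℂ).re) :
    ∃ (e : H →L[ℂ] H) (A' : ℝ), 0 < A' ∧ Cor m N ξ e ∧ Obj2 m N ξ e A' := by
  obtain ⟨ζ', a1, a2, a3⟩ := h1 H m N ξ hT A c ζ hO hζ
  obtain ⟨τ, b1, b2, b3, b4, b5, b6⟩ := h2 H m N ξ hT ζ' a3 fun h => by
    rw [h, Complex.zero_re] at a2
    linarith
  obtain ⟨e, c₁, d1, d2, d3⟩ := h3 H m N ξ hT τ b1 b2 b3 b4 b5
  refine ⟨e, A / c₁ ^ 2, by positivity, d2, fun ι _ b hb => ?_⟩
  rw [div_mul_eq_mul_div, le_div_iff₀ (by positivity)]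
  refine le_trans ?_ (a1 ι b fun l => (hb l).1)
  simp only [Finset.sum_mul]
  refine Finset.sum_le_sum fun l _ => Finset.sum_le_sum fun l' _ => ?_
  have e1 : star (b l') * b l ∈ N.commutant := mul_mem (star_mem (hb l').1) (hb l).1
  have e2 := (d3 _ e1 (by rw [mul_assoc, (hb l).2])).trans (b6 _ e1)
  rw [← mul_pow, mul_comm]
  exact pow_le_pow_left₀ (by positivity) e2 2

theorem inj_of_crit (h1 : Bist1St) (h2 : Bist2St) (h3 : MarSt) (h4 : LaxSt) (h5 : ExpSt)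
    {m : Mod H} {N : VonNeumannAlgebra H} {ξ : H} (hF : Fac N) (hT : IsTT m N ξ)
    {e : H →L[ℂ] H} (he : Cor m N ξ e) (hC : Crit m N ξ e) : Inj N := by
  obtain ⟨ω, a1, a2, a3, a4⟩ := h2 H m {a : H →L[ℂ] H // InCor N e a} (fun a => a.1)
    (fun a => ‖m.D ξ a.1‖ ^ 2) (‖e ξ‖ ^ 2) (sq_nonneg _) (h1 H m N ξ hT e he hC)
  have a5 : ∀ a, InCor N e a → ‖m.D ξ a‖ ^ 2 ≤ (ω a (m.bar a)).re := fun a ha => a4 ⟨a, ha⟩
  obtain ⟨b1, b2⟩ := h3 H m N ξ hT e he ω a1 a2 a3 a5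
  exact h5 H N (e ξ) hF he.ne ω a1 (h4 H m N ξ hT e he ω a1 a3 a5 b1 b2)

/-- The gap property of a non-injective factor in standard form. -/
def GapAll : Prop :=
  ∀ (H : Type) [NormedAddCommGroup H] [InnerProductSpace ℂ H] [CompleteSpace H]
    [TopologicalSpace.SeparableSpace H] (N : VonNeumannAlgebra H) (ξ : H), Fac N → ¬ Inj N →
    Cyc N ξ → Cyc N.commutant ξ → GapM N ξ

theorem gapAll (p1 : PreSt) (p2 : TomSt) (l1 : Lim1St) (l2 : Lim2St) (l3 : Lim3St) (a1 : AvgSt)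
    (a2 : GraphSt) (a3 : CornerSt) (w1 : WinISt) (w2 : PowerSt) (b1 : Bist1St) (b2 : Bist2St)
    (b3 : MarSt) (b4 : LaxSt) (b5 : ExpSt) (g1 : IterSt) (g2 : UniSt) : GapAll := by
  intro H _ _ _ _ N ξ hF hI c1 c2
  obtain ⟨m, hm⟩ := p1 H N ξ c1 c2
  have hT := p2 H m N ξ c1 c2 hm
  refine g2 H m N ξ hT (g1 H m N ξ hT ?_)
  by_contra hG
  obtain ⟨A, c, ζ, hA, hc, hO, hζ⟩ := obj_of l1 l2 l3 m N ξ hT.Jξ hG
  obtain ⟨e, A', hA', he, hO'⟩ := obj2_of a1 a2 a3 hT hA hc hO hζ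
  exact hI (inj_of_crit b1 b2 b3 b4 b5 hF hT he
    (w2 H m N ξ hT e he (w1 H m N ξ hT e A' hA' he hO')))

theorem main (hg : GapAll) (s1 : Std1St) (s2 : Std2St) (s3 : SepSt')
    [TopologicalSpace.SeparableSpace H] (N : VonNeumannAlgebra H) (hF : Fac N) (hI : ¬ Inj N)
    {ε : ℝ} (hε : 0 < ε) :
    ∃ (K : Type) (_ : NormedAddCommGroup K) (_ : InnerProductSpace ℂ K) (_ : CompleteSpace K)
      (_ : TopologicalSpace.SeparableSpace K) (N₁ M : VonNeumannAlgebra K),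
      Iso N N₁ ∧ (∀ y ∈ N₁, y ∈ M) ∧
      (∀ z ∈ M, (∀ y ∈ N₁, z * y = y * z) → ∃ c : ℂ, z = c • (1 : K →L[ℂ] K)) ∧ Inj M ∧
      ∃ η ζ : K, ‖η‖ ≤ 1 ∧ ‖ζ‖ ≤ 1 ∧ ⟪η, ζ⟫_ℂ = 0 ∧ ∃ x ∈ M, IsSelfAdjoint x ∧ ‖x‖ ≤ 1 ∧
        ∀ u ∈ unitary (K →L[ℂ] K), u ∈ N₁ → 1 - ε ≤ (⟪η, (u * x * star u) ζ⟫_ℂ).re := by
  obtain ⟨K₁, _, _, _, _, N₁, ζ, i1, n1, z1, z2⟩ := s1 H N hI
  obtain ⟨K, _, _, _, _, N₂, ξ, i2, n2, c1, c2⟩ := s2 K₁ N₁ ζ n1 z1 z2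
  have i3 : Iso N N₂ := ⟨i1.some.trans i2.some⟩
  have hF2 : Fac N₂ := (s3.2 H K N N₂).1 i3 hF
  have : Nonempty K := ⟨ξ⟩
  obtain ⟨ξs, hξs⟩ := TopologicalSpace.exists_dense_seq K
  obtain ⟨X, _, _, c, s, hc, hs, hs0, hmix, ho⟩ :=
    towerMSt (stepMSt approxSt (dixSt unifSt approxSt dixmierSt) llnSt) K N₂ ξ hF2 c1
      (hg K N₂ ξ hF2 n2 c1 (s3.1 K N₂ ξ c1.1 c2)) ξs (ε / 4) (by positivity)
  let _ : ∀ k, MeasurableSpace (X k) := fun _ => ⊤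
  have hu : ∀ k x y, c k x y ∈ unitary (K →L[ℂ] K) := fun k x y => (hc k x y).1
  have i4 : Iso N₂ (NT X N₂) :=
    (s3.2 K _ N₂ (NT X N₂)).2 (amp (PT X)) amp_injective (mem_NT N₂)
  obtain ⟨η, ζ', hη, hζ, hηζ, x, hx, hx1, hx2, hx3⟩ :=
    PValM.exists_far_M hu hs hs0 (by positivity) ho c1.1
  refine ⟨Lp K 2 (PT X), inferInstance, inferInstance, inferInstance, separable_T, NT X N₂, MT c,
    ⟨i3.some.trans i4.some⟩, fun y hy => ?_, fun z hz h => irreducible_T hc c1.1 hmix hξs hz h,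
    MT_injective inj2St hu, η, ζ', hη, hζ, hηζ, x, hx, hx1, hx2, fun u h1 h2 => ?_⟩
  · obtain ⟨a, ha, rfl⟩ := (mem_NT N₂ y).1 hy
    exact amp_mem_MT hc ha
  · linarith [hx3 u h1 h2]

end Pool.Agent.P.MP_7e3bdd_an.NI
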