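import Pool.Agent.P.MP_7e3bdd_an.NI.Spec

/-!
The symmetric embedding.
-/

set_option autoImplicit false

open scoped InnerProductSpace BigOperators BoundedContinuousFunction ComplexConjugate TensorProduct
  ComplexOrder
open MeasureTheory

noncomputable section

namespace Pool.Agent.P.MP_7e3bdd_an.NI

open RW

theorem dSt (h1 : DvSt) : DSt := by
  intro H _ _ _ m N ξ h a ha
  have key : ∀ x ∈ N.commutant, ∀ y ∈ N.commutant,
      ⟪m.D ξ x, m.D ξ y⟫_ℂ = ⟪x ξ, m.J (star y ξ)⟫_ℂ := fun x hx y hy =>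
    (h1 H m _ _ (h.S x hx)).2 _ _ (h.S y hy)
  have ha' : star a ∈ N.commutant := star_mem ha
  have p1 : ∀ x ∈ N.commutant, ∀ b ∈ N.commutant,
      ⟪m.D ξ (star b), m.D ξ (star x)⟫_ℂ = ⟪ξ, b (m.bar x ξ)⟫_ℂ := fun x hx b hb => by
    rw [key _ (star_mem hb) _ (star_mem hx), star_star, inner_star_left, Mod.bar_apply, h.Jξ]
  have sq : ∀ x : H, ((‖x‖ ^ 2 : ℝ) : ℂ) = ⟪x, x⟫_ℂ := fun x => by
    rw [inner_self_eq_norm_sq_to_K]
    norm_cast
  have p2 : ((‖m.D ξ a‖ ^ 2 : ℝ) : ℂ) = ⟪ξ, a (m.bar a ξ)⟫_ℂ := by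
    have e := p1 _ ha' _ ha'
    rw [star_star, ← sq, m.bar_star, inner_star_right, inner_star_right,
      ← ContinuousLinearMap.mul_apply, ← comm_QN ha (h.barQ a ha),
      ContinuousLinearMap.mul_apply] at e
    rw [← inner_conj_symm, ← e, Complex.conj_ofReal]
  have p3 : ‖m.D ξ (star a)‖ = ‖m.D ξ a‖ := by
    have e := p1 a ha a ha
    rw [← sq, ← p2, Complex.ofReal_inj] at e
    exact (pow_left_inj₀ (norm_nonneg _) (norm_nonneg _) two_ne_zero).1 e
  refine ⟨p1 a ha, p2, p3, ?_, fun h0 => ?_⟩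
  · have hx : ∀ x : H →L[ℂ] H, ‖x ξ‖ ≤ ‖x‖ := fun x => by
      simpa [h.cycN.1] using x.le_opNorm ξ
    refine (pow_le_pow_iff_left₀ (norm_nonneg _) (norm_nonneg _) two_ne_zero).1 ?_
    have e := congrArg norm ((sq _).trans (key a ha a ha))
    rw [Complex.norm_real, Real.norm_of_nonneg (sq_nonneg _)] at e
    rw [e, pow_two]
    refine (norm_inner_le_norm _ _).trans (mul_le_mul (hx a) ?_ (norm_nonneg _) (norm_nonneg _))
    rw [m.J.norm_map, ← norm_star a]
    exact hx _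
  · refine eq_zero_of_cyc h.cycN ha (m.J.map_eq_zero_iff.1 ?_)
    refine eq_zero_of_inner_cyc h.cycQ fun b hb => ?_
    have e := key a ha _ (star_mem hb)
    rwa [h0, inner_zero_left, star_star, m.inner_J_right, eq_comm] at e

end Pool.Agent.P.MP_7e3bdd_an.NI
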