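import Pool.Agent.P.MP_7e3bdd_an.NI.Spec
import Pool.Agent.P.MP_7e3bdd_an.RW.Minimax

/-! From the failure of the gap to almost invariant averages of good vectors. -/

set_option autoImplicit false

open scoped InnerProductSpace BigOperators BoundedContinuousFunction ComplexConjugate TensorProduct
  ComplexOrder

noncomputable section

namespace Pool.Agent.P.MP_7e3bdd_an.NI

open RW

theorem lim1St : Lim1St := by
  intro H _ _ _ m N ξ hG
  simp only [G1, not_forall, not_exists, not_and, not_le] at hG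
  obtain ⟨C, c, K, hC, hc, hK, h⟩ := hG
  refine ⟨C, c, K, hC, hc, hK, fun F θ hθ => ?_⟩
  have u1 : UQ N 1 := ⟨one_mem _, one_mem _⟩
  have d1 : m.del ξ 1 = 0 := by simp [Mod.del, m.JJ]
  let v : HH H → F → ℝ := fun Y g => K * m.del ξ g.1.1 ^ 2 - ‖m.pi g.1.1 Y - Y‖ ^ 2
  obtain ⟨t, ht, h2⟩ := finite_minimax (convexHull ℝ (v '' {Y | Good N ξ C c Y}))
    (convex_convexHull _ _) (by
      obtain ⟨Y, hY, -⟩ := h Unit inferInstance (fun _ => 1) (fun _ => 1) 1 ⟨by simp, by simp⟩
        (fun _ => u1) one_pos le_rfl (by simp [d1])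
      exact ⟨v Y, subset_convexHull _ _ ⟨Y, hY, rfl⟩⟩) (-(θ / 2)) (-θ) (by linarith)
    fun μ μ0 μ1 => by
      obtain ⟨A, hA⟩ : ∃ A, A = K * ∑ g : F, μ g * m.del ξ g.1.1 ^ 2 := ⟨_, rfl⟩
      have A0 : 0 ≤ A := hA ▸ mul_nonneg hK.le
        (Finset.sum_nonneg fun g _ => mul_nonneg (μ0 g) (sq_nonneg _))
      obtain ⟨s, s0, hs⟩ : ∃ s : ℝ, 0 < s ∧ s * (A + θ + 1) = 1 :=
        ⟨1 / (A + θ + 1), by positivity, by field_simp⟩
      obtain ⟨Y, hY, h3⟩ := h (Option F) inferInstance (fun a => a.elim (1 - s) fun g => s * μ g)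
        (fun a => a.elim 1 fun g => g.1.1) (s * (A + θ / 2))
        ⟨by
          rintro (_ | g)
          · exact sub_nonneg.2 (by nlinarith)
          · exact mul_nonneg s0.le (μ0 g), by
          simp only [Fintype.sum_option, Option.elim, ← Finset.mul_sum, μ1]
          ring⟩
        (by
          rintro (_ | g)
          · exact u1
          · exact g.1.2) (by positivity) (by nlinarith) (by
          simp only [Fintype.sum_option, Option.elim, d1, mul_assoc, ← Finset.mul_sum]
          nlinarith)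
      refine ⟨v Y, subset_convexHull _ _ ⟨Y, hY, rfl⟩, ?_⟩
      simp only [Fintype.sum_option, Option.elim, m.pi_one, one_apply_eq_self,
        sub_self, norm_zero, mul_assoc, ← Finset.mul_sum] at h3
      have h4 : ∑ g : F, μ g * ‖m.pi g.1.1 Y - Y‖ ^ 2 < A + θ / 2 :=
        lt_of_mul_lt_mul_left (by simpa using h3) s0.le
      simp only [v, mul_sub, Finset.sum_sub_distrib, mul_left_comm _ K, ← Finset.mul_sum]
      linarith
  obtain ⟨J, _, l, z, l0, l1, hz, rfl⟩ := mem_convexHull_iff_exists_fintype.1 ht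
  choose Y hY hv using hz
  refine ⟨J, inferInstance, l, Y, ⟨l0, l1⟩, hY, fun g hg => ?_⟩
  have := h2 ⟨g, hg⟩
  simp only [Finset.sum_apply, Pi.smul_apply, smul_eq_mul, ← hv, v, mul_sub,
    Finset.sum_sub_distrib, ← Finset.sum_mul, l1] at this
  linarith

end Pool.Agent.P.MP_7e3bdd_an.NI
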