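import Pool.Agent.P.MP_7e3bdd_an.NI.Spec

/-! Two real projections in general position. -/

set_option autoImplicit false

open scoped InnerProductSpace BigOperators BoundedContinuousFunction ComplexConjugate TensorProduct
  ComplexOrder
open MeasureTheory

noncomputable section

namespace Pool.Agent.P.MP_7e3bdd_an.NI

open RW

namespace PReal

variable {H : Type} [NormedAddCommGroup H] [InnerProductSpace ℂ H] [CompleteSpace H]

theorem exP (K0 : Submodule ℝ H) : ∃ P : H →L[ℝ] H, (∀ x, P x ∈ closure (K0 : Set H)) ∧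
    ∀ x, ∀ u ∈ closure (K0 : Set H), (⟪x - P x, u⟫_ℂ).re = 0 := by
  let _ : InnerProductSpace ℝ H := InnerProductSpace.complexToReal
  have : CompleteSpace K0.topologicalClosure := K0.isClosed_topologicalClosure.completeSpace_coe
  exact ⟨K0.topologicalClosure.starProjection, 
    fun x => Submodule.starProjection_apply_mem K0.topologicalClosure x,
    fun x u hu => Submodule.starProjection_inner_eq_zero (K := K0.topologicalClosure) x u hu⟩

omit [CompleteSpace H] in
theorem re_symm (x y : H) : (⟪x, y⟫_ℂ).re = (⟪y, x⟫_ℂ).re := by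
  rw [← inner_conj_symm, Complex.conj_re]

omit [CompleteSpace H] in
theorem re_self (x : H) : (⟪x, x⟫_ℂ).re = ‖x‖ ^ 2 := inner_self_eq_norm_sq (𝕜 := ℂ) x

theorem smem (M : VonNeumannAlgebra H) (c : ℂ) {a : H →L[ℂ] H} (ha : a ∈ M) : c • a ∈ M :=
  M.toStarSubalgebra.smul_mem ha c

theorem split (M : VonNeumannAlgebra H) {a : H →L[ℂ] H} (ha : a ∈ M) :
    ∃ h ∈ M, ∃ k ∈ M, IsSelfAdjoint h ∧ IsSelfAdjoint k ∧ a = h + Complex.I • k ∧
      star a = h - Complex.I • k := by
  have hs : star a ∈ M := star_mem ha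
  refine ⟨(1 / 2 : ℂ) • (a + star a), smem M _ (add_mem ha hs),
    (Complex.I / 2) • (star a - a), smem M _ (sub_mem hs ha), ?_, ?_, ?_, ?_⟩
  · rw [IsSelfAdjoint, star_smul, star_add, star_star, add_comm]
    simp
  · rw [IsSelfAdjoint, star_smul, star_sub, star_star, ← neg_sub, smul_neg, ← neg_smul]
    congr 1
    simp [neg_div]
  · rw [smul_smul, show Complex.I * (Complex.I / 2) = -(1 / 2) by
      rw [← mul_div_assoc, Complex.I_mul_I]; ring]
    module
  · rw [smul_smul, show Complex.I * (Complex.I / 2) = -(1 / 2) by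
      rw [← mul_div_assoc, Complex.I_mul_I]; ring]
    module

theorem orth_all (M : VonNeumannAlgebra H) {ξ x : H} (hc : Cyc M ξ)
    (h : ∀ a ∈ M, IsSelfAdjoint a → ⟪a ξ, x⟫_ℂ = 0) : x = 0 := by
  refine eq_zero_of_inner_cyc hc fun a ha => ?_
  obtain ⟨u, hu, k, hk, h1, h2, e, -⟩ := split M ha
  rw [e, add_apply, smul_apply, inner_add_left, inner_smul_left, h u hu h1, h k hk h2]
  simp

/-- The conjugated map. -/
def cj (P : H →L[ℝ] H) : H →L[ℝ] H :=
  ((Complex.I • (1 : H →L[ℂ] H)).restrictScalars ℝ).comp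
    (P.comp ((-Complex.I • (1 : H →L[ℂ] H)).restrictScalars ℝ))

omit [CompleteSpace H] in
theorem cj_apply (P : H →L[ℝ] H) (x : H) : cj P x = Complex.I • P (-Complex.I • x) := rfl

omit [CompleteSpace H] in
theorem nI_I (x : H) : -Complex.I • Complex.I • x = x := by
  rw [smul_smul]; simp

omit [CompleteSpace H] in
theorem I_nI (x : H) : Complex.I • -Complex.I • x = x := by
  rw [smul_smul]; simp

omit [CompleteSpace H] in
theorem cj_I (P : H →L[ℝ] H) (x : H) : cj P (Complex.I • x) = Complex.I • P x := by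
  rw [cj_apply, nI_I]

omit [CompleteSpace H] in
theorem I_cj (P : H →L[ℝ] H) (x : H) : Complex.I • cj P x = P (Complex.I • x) := by
  rw [cj_apply, smul_smul, Complex.I_mul_I, neg_smul Complex.I x, map_neg]
  simp

omit [CompleteSpace H] in
theorem dec (c : ℂ) (x : H) : c • x = c.re • x + c.im • (Complex.I • x) := by
  rw [← Complex.coe_smul, ← Complex.coe_smul, smul_smul, ← add_smul, Complex.re_add_im]

/-- The sum. -/
def RR (P : H →L[ℝ] H) : H →L[ℂ] H where
  toFun x := P x + cj P x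
  map_add' x y := by rw [map_add, map_add]; abel
  map_smul' c x := by
    rw [RingHom.id_apply, dec c x, dec c (P x + cj P x), map_add, map_add, map_smul P c.re,
      map_smul P c.im, map_smul (cj P) c.re, map_smul (cj P) c.im, cj_I, smul_add Complex.I, I_cj]
    module
  cont := P.continuous.add (cj P).continuous

/-- The difference. -/
def CC (P : H →L[ℝ] H) : H →L⋆[ℂ] H where
  toFun x := P x - cj P x
  map_add' x y := by rw [map_add, map_add]; abel
  map_smul' c x := by
    rw [dec c x, dec ((starRingEnd ℂ) c) (P x - cj P x), map_add, map_add, map_smul P c.re,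
      map_smul P c.im, map_smul (cj P) c.re, map_smul (cj P) c.im, cj_I, smul_sub Complex.I, I_cj,
      Complex.conj_re, Complex.conj_im]
    module
  cont := P.continuous.sub (cj P).continuous

omit [CompleteSpace H] in
theorem RR_apply (P : H →L[ℝ] H) (x : H) : RR P x = P x + cj P x := rfl

omit [CompleteSpace H] in
theorem CC_apply (P : H →L[ℝ] H) (x : H) : CC P x = P x - cj P x := rfl

omit [CompleteSpace H] in
theorem two_sub (R : H →L[ℂ] H) (x : H) : (2 - R) x = x + x - R x := by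
  rw [sub_apply, ← one_add_one_eq_two, add_apply]; rfl

omit [CompleteSpace H] in
theorem pos_of {T : H →L[ℂ] H} (h1 : ∀ x y, (⟪T x, y⟫_ℂ).re = (⟪x, T y⟫_ℂ).re)
    (h2 : ∀ x, 0 ≤ (⟪x, T x⟫_ℂ).re) : T.IsPositive := by
  have hs : ∀ x y, ⟪T x, y⟫_ℂ = ⟪x, T y⟫_ℂ := fun x y => by
    have h3 := h1 x (Complex.I • y)
    rw [map_smul, inner_smul_right, inner_smul_right] at h3
    exact Complex.ext (h1 x y) (by simpa using h3)
  exact ⟨hs, fun x => by
    have := h2 x
    rw [re_symm] at this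
    exact this⟩

end PReal

open PReal in
theorem realSt : RealSt := by
  intro H _ _ _ N ξ hN hQ
  let K0 : Submodule ℝ H :=
    { carrier := {u | ∃ a ∈ N.commutant, IsSelfAdjoint a ∧ u = a ξ}
      add_mem' := by
        rintro _ _ ⟨a, ha, h1, rfl⟩ ⟨b, hb, h2, rfl⟩
        exact ⟨a + b, add_mem ha hb, h1.add h2, rfl⟩
      zero_mem' := ⟨0, zero_mem _, IsSelfAdjoint.zero _, rfl⟩
      smul_mem' := by
        rintro r _ ⟨a, ha, h1, rfl⟩
        refine ⟨(r : ℂ) • a, smem _ _ ha, ?_, rfl⟩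
        rw [IsSelfAdjoint, star_smul, h1.star_eq]
        simp }
  obtain ⟨P, hm, ho⟩ := exP K0
  have hK : ∀ a ∈ N.commutant, IsSelfAdjoint a → a ξ ∈ closure (K0 : Set H) :=
    fun a ha h => subset_closure ⟨a, ha, h, rfl⟩
  have ext0 : ∀ w : H, (∀ a ∈ N.commutant, IsSelfAdjoint a → (⟪w, a ξ⟫_ℂ).re = 0) →
      ∀ u ∈ closure (K0 : Set H), (⟪w, u⟫_ℂ).re = 0 := fun w h u hu => by
    have hc : IsClosed {u : H | (⟪w, u⟫_ℂ).re = 0} := isClosed_eq (by fun_prop) continuous_const
    refine closure_minimal ?_ hc hu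
    rintro _ ⟨a, ha, h1, rfl⟩
    exact h a ha h1
  have uniq : ∀ x v : H, v ∈ closure (K0 : Set H) →
      (∀ u ∈ closure (K0 : Set H), (⟪x - v, u⟫_ℂ).re = 0) → P x = v := fun x v hv h => by
    have hd : P x - v ∈ closure (K0 : Set H) :=
      K0.topologicalClosure.sub_mem (hm x) hv
    have h1 := h _ hd
    have h2 := ho x _ hd
    have h3 : (⟪P x - v, P x - v⟫_ℂ).re = 0 := by
      rw [show P x - v = (x - v) - (x - P x) by abel, inner_sub_left (x - v), Complex.sub_re,
        show (x - v) - (x - P x) = P x - v by abel, h1, h2, sub_zero]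
    rw [re_self] at h3
    exact sub_eq_zero.1 (norm_eq_zero.1 (pow_eq_zero_iff two_ne_zero |>.1 h3))
  have fix : ∀ v ∈ closure (K0 : Set H), P v = v := fun v hv => uniq v v hv (by simp)
  have PP : ∀ x, P (P x) = P x := fun x => fix _ (hm x)
  have QQ : ∀ x, cj P (cj P x) = cj P x := fun x => by
    rw [cj_apply P x, cj_I, PP]
  have Pr : ∀ x y, (⟪x, P y⟫_ℂ).re = (⟪P x, P y⟫_ℂ).re := fun x y => by
    have := ho x _ (hm y)
    rw [inner_sub_left, Complex.sub_re] at this
    linarith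
  have Ps : ∀ x y, (⟪P x, y⟫_ℂ).re = (⟪x, P y⟫_ℂ).re := fun x y => by
    rw [Pr x y, re_symm (P x) y, Pr y x, re_symm]
  have Qs : ∀ x y, (⟪cj P x, y⟫_ℂ).re = (⟪x, cj P y⟫_ℂ).re := fun x y => by
    have := Ps (-Complex.I • x) (-Complex.I • y)
    rw [inner_smul_right, inner_smul_left] at this
    rw [cj_apply, cj_apply, inner_smul_left, inner_smul_right]
    simpa using this
  have Pn : ∀ x, (⟪x, P x⟫_ℂ).re = ‖P x‖ ^ 2 := fun x => by rw [Pr, re_self]
  have Qn : ∀ x, (⟪x, cj P x⟫_ℂ).re = ‖cj P x‖ ^ 2 := fun x => by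
    rw [← re_self, Qs, QQ]
  have Pn' : ∀ x, (⟪x, x - P x⟫_ℂ).re = ‖x - P x‖ ^ 2 := fun x => by
    rw [← re_self (x - P x), inner_sub_left x (P x), Complex.sub_re, Ps, map_sub, PP, sub_self,
      inner_zero_right, Complex.zero_re, sub_zero]
  have Qn' : ∀ x, (⟪x, x - cj P x⟫_ℂ).re = ‖x - cj P x‖ ^ 2 := fun x => by
    rw [← re_self (x - cj P x), inner_sub_left x (cj P x), Complex.sub_re, Qs, map_sub, QQ,
      sub_self, inner_zero_right, Complex.zero_re, sub_zero]
  have Rn : ∀ x, (⟪x, RR P x⟫_ℂ).re = ‖P x‖ ^ 2 + ‖cj P x‖ ^ 2 := fun x => by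
    rw [RR_apply, inner_add_right, Complex.add_re, Pn, Qn]
  have Rn' : ∀ x, (⟪x, (2 - RR P) x⟫_ℂ).re = ‖x - P x‖ ^ 2 + ‖x - cj P x‖ ^ 2 := fun x => by
    rw [two_sub, RR_apply, show x + x - (P x + cj P x) = (x - P x) + (x - cj P x) by abel,
      inner_add_right, Complex.add_re, Pn', Qn']
  have Rs : ∀ x y, (⟪RR P x, y⟫_ℂ).re = (⟪x, RR P y⟫_ℂ).re := fun x y => by
    rw [RR_apply, RR_apply, inner_add_left, inner_add_right, Complex.add_re, Complex.add_re, Ps, Qs]
  have hp : (RR P).IsPositive := pos_of Rs fun x => by rw [Rn]; positivity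
  have hp' : (2 - RR P).IsPositive := pos_of (fun x y => by
    rw [two_sub, two_sub, inner_sub_left, inner_sub_right, inner_add_left, inner_add_right,
      Complex.sub_re, Complex.sub_re, Rs]) fun x => by rw [Rn']; positivity
  have real : ∀ c ∈ N, IsSelfAdjoint c → ∀ u ∈ closure (K0 : Set H),
      (⟪-Complex.I • c ξ, u⟫_ℂ).re = 0 := fun c hc h => ext0 _ fun a ha h1 => by
    have e : ⟪c ξ, a ξ⟫_ℂ = ⟪a ξ, c ξ⟫_ℂ := by
      rw [← inner_star_right, ← inner_star_right a, h.star_eq, h1.star_eq, ← mul_apply_eq_comp,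
        ← comm_QN ha hc, mul_apply_eq_comp]
    have e2 : (⟪c ξ, a ξ⟫_ℂ).im = 0 := by
      have := congrArg Complex.im e
      rw [← inner_conj_symm (a ξ), Complex.conj_im] at this
      linarith
    rw [inner_smul_left]
    simp [e2]
  have Q0 : ∀ c ∈ N, IsSelfAdjoint c → cj P (c ξ) = 0 := fun c hc h => by
    rw [cj_apply, uniq _ 0 K0.topologicalClosure.zero_mem (by simpa using real c hc h), smul_zero]
  have CI : ∀ x, CC P (Complex.I • x) = -(Complex.I • CC P x) := fun x => by
    rw [map_smulₛₗ]; simp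
  refine ⟨RR P, CC P, ⟨hp.isSelfAdjoint, (ContinuousLinearMap.nonneg_iff_isPositive _).2 hp,
    (ContinuousLinearMap.le_def _ _).2 hp', fun x hx => ?_, fun x hx => ?_, fun x => ?_,
    fun x => ?_, fun x y => ?_⟩, ?_, fun a ha => ?_, fun c hc => ?_, fun a ha h1 c hc h2 h => ?_⟩
  · have h1 := Rn x
    rw [hx, inner_zero_right, Complex.zero_re] at h1
    have h2 : P x = 0 := norm_eq_zero.1 (by nlinarith [norm_nonneg (P x), sq_nonneg ‖cj P x‖])
    have h3 : cj P x = 0 := norm_eq_zero.1 (by nlinarith [norm_nonneg (cj P x), sq_nonneg ‖P x‖])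
    have h4 : P (Complex.I • x) = 0 := by rw [← I_cj, h3, smul_zero]
    refine orth_all N.commutant hQ fun a ha h => ?_
    have a1 := ho x _ (hK a ha h)
    have a2 := ho (Complex.I • x) _ (hK a ha h)
    rw [h2, sub_zero, re_symm] at a1
    rw [h4, sub_zero, re_symm, inner_smul_right] at a2
    exact Complex.ext a1 (by simpa using a2)
  · have h1 := Rn' x
    rw [hx, inner_zero_right, Complex.zero_re] at h1
    have h2 : x - P x = 0 :=
      norm_eq_zero.1 (by nlinarith [norm_nonneg (x - P x), sq_nonneg ‖x - cj P x‖])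
    have h3 : x - cj P x = 0 :=
      norm_eq_zero.1 (by nlinarith [norm_nonneg (x - cj P x), sq_nonneg ‖x - P x‖])
    have h4 : Complex.I • x = P (Complex.I • x) := by rw [← I_cj, ← sub_eq_zero.1 h3]
    refine orth_all N hN fun c hc h => ?_
    have a1 := real c hc h _ (hm x)
    have a2 := real c hc h _ (hm (Complex.I • x))
    rw [← sub_eq_zero.1 h2, inner_smul_left] at a1
    rw [← h4, inner_smul_left, inner_smul_right] at a2
    exact Complex.ext (by simpa using a2) (by simpa using a1)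
  · simp only [two_sub, CC_apply, RR_apply, map_add, map_sub, PP, QQ]
    abel
  · simp only [two_sub, CC_apply, RR_apply, map_add, map_sub, PP, QQ]
    abel
  · have Cs : ∀ x y, (⟪x, CC P y⟫_ℂ).re = (⟪y, CC P x⟫_ℂ).re := fun x y => by
      rw [re_symm y, CC_apply, CC_apply, inner_sub_left, inner_sub_right, Complex.sub_re,
        Complex.sub_re, Ps, Qs]
    have h3 := Cs (Complex.I • x) y
    rw [CI, inner_smul_left, inner_neg_right, inner_smul_right] at h3
    exact Complex.ext (Cs x y) (by simpa using h3)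
  · have h1 : cj P ξ = 0 := Q0 1 (one_mem _) (IsSelfAdjoint.one _)
    have h2 : P ξ = ξ := fix _ (hK 1 (one_mem _) (IsSelfAdjoint.one _))
    rw [RR_apply, h1, h2, add_zero]
  · have key : ∀ b ∈ N.commutant, IsSelfAdjoint b → CC P (b ξ) = (2 - RR P) (b ξ) :=
      fun b hb h => by
        rw [two_sub, CC_apply, RR_apply, fix _ (hK b hb h)]
        abel
    obtain ⟨u, hu, k, hk, h1, h2, e1, e2⟩ := split N.commutant ha
    rw [e2, e1, sub_apply, add_apply, smul_apply, map_sub, map_add, CI, map_smul, key u hu h1,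
      key k hk h2, sub_neg_eq_add]
  · have key : ∀ b ∈ N, IsSelfAdjoint b → CC P (b ξ) = RR P (b ξ) := fun b hb h => by
      rw [CC_apply, RR_apply, Q0 b hb h, sub_zero, add_zero]
    obtain ⟨u, hu, k, hk, h1, h2, e1, e2⟩ := split N hc
    rw [e2, e1, sub_apply, add_apply, smul_apply, map_sub, map_add, CI, map_smul, key u hu h1,
      key k hk h2, sub_neg_eq_add]
  · rw [CC_apply, Q0 c hc h2, sub_zero]
    exact uniq _ _ (hK a ha h1) (ext0 _ fun y hy h3 => by rw [re_symm]; exact h y hy h3)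

end Pool.Agent.P.MP_7e3bdd_an.NI
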