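import Pool.Agent.P.MP_7e3bdd_an.NI.Spec

/-!
Reduction of a von Neumann algebra to the cyclic subspace of a separating vector.
-/

set_option autoImplicit false

open scoped InnerProductSpace

noncomputable section

namespace Pool.Agent.P.MP_7e3bdd_an.NI

open RW

namespace PStd2

variable {H K : Type} [NormedAddCommGroup H] [InnerProductSpace ℂ H] [CompleteSpace H]
  [NormedAddCommGroup K] [InnerProductSpace ℂ K] [CompleteSpace K]

/-- Compression along `V`. -/
def cmp (V : K →L[ℂ] H) : (H →L[ℂ] H) →ₗ[ℂ] (K →L[ℂ] K) where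
  toFun T := ContinuousLinearMap.adjoint V ∘L T ∘L V
  map_add' S T := by ext x; simp
  map_smul' c T := by ext x; simp

theorem cmp_apply (V : K →L[ℂ] H) (T : H →L[ℂ] H) (x : K) :
    cmp V T x = ContinuousLinearMap.adjoint V (T (V x)) := rfl

theorem cmp_star (V : K →L[ℂ] H) (T : H →L[ℂ] H) : cmp V (star T) = star (cmp V T) := by
  ext x
  refine ext_inner_left ℂ fun y => ?_
  rw [inner_star_right, cmp_apply, cmp_apply, ContinuousLinearMap.adjoint_inner_right,
    ContinuousLinearMap.adjoint_inner_left, inner_star_right]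

theorem red (h1 : RedSt) (N : VonNeumannAlgebra H) (V : K →L[ℂ] H) (p : H →L[ℂ] H)
    (hV : ‖V‖ ≤ 1) (hPV : ∀ x, ContinuousLinearMap.adjoint V (V x) = x)
    (hVP : ∀ x, V (ContinuousLinearMap.adjoint V x) = p x) (hp : IsStarProjection p)
    (hpN : p ∈ N.commutant) (hs : ∀ a ∈ N, a * p = 0 → a = 0) :
    ∃ N₁ : VonNeumannAlgebra K, (∀ y, y ∈ N₁ ↔ ∃ a ∈ N, cmp V a = y) ∧ Iso N N₁ ∧
      (Inj N₁ → Inj N) := by
  have pV : ∀ x, p (V x) = V x := fun x => by rw [← hVP, hPV]
  have Pp : ∀ x, ContinuousLinearMap.adjoint V (p x) = ContinuousLinearMap.adjoint V x :=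
    fun x => by rw [← hVP, hPV]
  have pa : ∀ a ∈ N, ∀ x, p (a x) = a (p x) := fun a ha x =>
    DFunLike.congr_fun (comm_QN hpN ha) x
  have m1 : ∀ a ∈ N, ∀ T, cmp V (T * a) = cmp V T * cmp V a := fun a ha T => by
    ext x
    simp only [cmp_apply, mul_apply_eq_comp, hVP, pa a ha, pV]
  have m2 : ∀ a ∈ N, ∀ T, cmp V (a * T) = cmp V a * cmp V T := fun a ha T => by
    ext x
    simp only [cmp_apply, mul_apply_eq_comp, hVP, ← pa a ha, Pp]
  have hN : ∀ y, y ∈ commOf (cmp V '' (N.commutant : Set (H →L[ℂ] H))) ↔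
      ∃ a ∈ N, cmp V a = y := by
    intro y
    rw [mem_commOf]
    constructor
    · intro h
      obtain ⟨a, ha, e⟩ := h1 H N p hp hpN hs (V ∘L y ∘L ContinuousLinearMap.adjoint V)
        (by ext x; simp [Pp]) (by ext x; simp [pV]) fun b hb => by
          ext x
          have := DFunLike.congr_fun (h _ ⟨b, hb, rfl⟩).1 (ContinuousLinearMap.adjoint V x)
          simp only [cmp_apply, mul_apply_eq_comp, hVP] at this
          simp only [mul_apply_eq_comp, ContinuousLinearMap.comp_apply, Pp, pV, ← this, hVP]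
      refine ⟨a, ha, ?_⟩
      ext x
      have := DFunLike.congr_fun e (V x)
      simp only [mul_apply_eq_comp, ContinuousLinearMap.comp_apply, pV, hPV] at this
      rw [cmp_apply, this, hPV]
    · rintro ⟨a, ha, rfl⟩ _ ⟨b, hb, rfl⟩
      rw [← cmp_star, ← m1 a ha, ← m1 a ha, ← m2 a ha, ← m2 a ha, comm_QN hb ha,
        comm_QN (star_mem hb) ha]
      exact ⟨rfl, rfl⟩
  generalize commOf (cmp V '' (N.commutant : Set (H →L[ℂ] H))) = N₁ at hN
  have c1 : cmp V 1 = 1 := by ext x; simp [cmp_apply, hPV]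
  let f : N.toStarSubalgebra →⋆ₐ[ℂ] N₁.toStarSubalgebra :=
    { toFun := fun a => ⟨cmp V a, (hN _).2 ⟨a, a.2, rfl⟩⟩
      map_one' := Subtype.ext c1
      map_mul' := fun a b => Subtype.ext (m1 b b.2 a)
      map_zero' := Subtype.ext (map_zero _)
      map_add' := fun a b => Subtype.ext (map_add _ _ _)
      commutes' := fun c => Subtype.ext (by
        change cmp V (algebraMap ℂ _ c) = algebraMap ℂ _ c
        rw [Algebra.algebraMap_eq_smul_one, Algebra.algebraMap_eq_smul_one, map_smul, c1])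
      map_star' := fun a => Subtype.ext (cmp_star V a) }
  have hf : Function.Bijective f := by
    refine ⟨(injective_iff_map_eq_zero f).2 fun a h => Subtype.ext (hs a a.2 ?_), fun y => ?_⟩
    · ext x
      have := DFunLike.congr_fun (congrArg Subtype.val h) (ContinuousLinearMap.adjoint V x)
      change cmp V a _ = 0 at this
      have h2 := congrArg V this
      rw [cmp_apply, hVP, hVP, pa a a.2, ← mul_apply_eq_comp p p, hp.isIdempotentElem.eq,
        map_zero] at h2
      exact h2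
    · obtain ⟨a, ha, e⟩ := (hN y).1 y.2
      exact ⟨⟨a, ha⟩, Subtype.ext e⟩
  let e := StarAlgEquiv.ofBijective f hf
  refine ⟨N₁, hN, ⟨e⟩, fun ⟨E, hE, E1, E2⟩ => ?_⟩
  have : IsClosed (N₁.toStarSubalgebra : Set (K →L[ℂ] K)) := by
    rw [VonNeumannAlgebra.coe_toStarSubalgebra, ← N₁.centralizer_centralizer]
    exact Set.isClosed_centralizer _
  let g : N₁.toStarSubalgebra →⋆ₐ[ℂ] (H →L[ℂ] H) :=
    N.toStarSubalgebra.subtype.comp (e.symm : N₁.toStarSubalgebra →⋆ₐ[ℂ] N.toStarSubalgebra)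
  let L : (H →L[ℂ] H) →ₗ[ℂ] (H →L[ℂ] H) :=
    { toFun := fun T => g ⟨E (cmp V T), E1 _⟩
      map_add' := fun S T => by
        rw [← map_add]
        exact congrArg g (Subtype.ext (by simp))
      map_smul' := fun c T => by
        rw [RingHom.id_apply, ← map_smul]
        exact congrArg g (Subtype.ext (by simp)) }
  have hL : ∀ T, ‖L T‖ ≤ 1 * ‖T‖ := fun T => by
    refine (NonUnitalStarAlgHom.norm_apply_le g _).trans ((E.le_of_opNorm_le hE _).trans ?_)
    refine mul_le_mul_of_nonneg_left ((ContinuousLinearMap.opNorm_comp_le _ _).trans ?_) zero_le_one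
    rw [LinearIsometryEquiv.norm_map]
    refine (mul_le_of_le_one_left (norm_nonneg _) hV).trans
      ((ContinuousLinearMap.opNorm_comp_le _ _).trans (mul_le_of_le_one_right (norm_nonneg _) hV))
  refine ⟨L.mkContinuous 1 hL, L.mkContinuous_norm_le zero_le_one hL,
    fun T => (e.symm ⟨E (cmp V T), E1 _⟩).2, fun T hT => ?_⟩
  have : (⟨E (cmp V T), E1 _⟩ : N₁.toStarSubalgebra) = e ⟨T, hT⟩ :=
    Subtype.ext (E2 _ ((hN _).2 ⟨T, hT, rfl⟩))
  change ((e.symm ⟨E (cmp V T), E1 _⟩ : N.toStarSubalgebra) : H →L[ℂ] H) = T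
  rw [this, StarAlgEquiv.symm_apply_apply]

end PStd2

open PStd2 in
theorem std2St (h1 : RedSt) : Std2St := by
  intro H _ _ _ _ N ζ hN hζ hs
  let K₀ : Submodule ℂ H := N.toStarSubalgebra.toSubalgebra.toSubmodule.map
    (ContinuousLinearMap.apply ℂ H ζ : (H →L[ℂ] H) →ₗ[ℂ] H)
  have m0 : ∀ x, x ∈ K₀ ↔ ∃ a ∈ N, a ζ = x := fun x => Iff.rfl
  let K : Submodule ℂ H := K₀.topologicalClosure
  have : CompleteSpace K := K₀.isClosed_topologicalClosure.completeSpace_coe
  have hz : ζ ∈ K := K₀.le_topologicalClosure ((m0 ζ).2 ⟨1, one_mem N, rfl⟩)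
  have inv : ∀ a ∈ N, ∀ x ∈ K, a x ∈ K := fun a ha x hx =>
    map_mem_closure a.continuous hx fun y hy => by
      obtain ⟨b, hb, rfl⟩ := (m0 y).1 hy
      exact (m0 _).2 ⟨a * b, mul_mem ha hb, rfl⟩
  have hp : K.starProjection ∈ N.commutant := by
    refine VonNeumannAlgebra.mem_commutant_iff.2 fun a ha => ?_
    ext x
    rw [mul_apply_eq_comp, mul_apply_eq_comp]
    refine (Submodule.eq_starProjection_of_mem_of_inner_eq_zero
      (inv a ha _ (K.starProjection_apply_mem x)) fun w hw => ?_).symm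
    rw [← map_sub, ← inner_star_right]
    exact Submodule.starProjection_inner_eq_zero x _ (inv _ (star_mem ha) w hw)
  have pz : K.starProjection ζ = ζ := Submodule.starProjection_eq_self_iff.2 hz
  have hPV : ∀ x : K, ContinuousLinearMap.adjoint K.subtypeL (K.subtypeL x) = x := fun x => by
    rw [Submodule.adjoint_subtypeL]
    simp
  have hVP : ∀ x, K.subtypeL (ContinuousLinearMap.adjoint K.subtypeL x) = K.starProjection x :=
    fun x => by rw [Submodule.adjoint_subtypeL]; rfl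
  obtain ⟨N₁, a1, a2, a3⟩ := red h1 N K.subtypeL K.starProjection K.norm_subtypeL_le hPV hVP
    isStarProjection_starProjection hp fun a ha h => hs a ha (by
      rw [← pz, ← mul_apply_eq_comp, h]; rfl)
  have ev : ∀ a ∈ N, (cmp K.subtypeL a ⟨ζ, hz⟩ : H) = a ζ := fun a ha =>
    (hVP _).trans (Submodule.starProjection_eq_self_iff.2 (inv a ha ζ hz))
  refine ⟨K, inferInstance, inferInstance, inferInstance, inferInstance, N₁, ⟨ζ, hz⟩, a2,
    fun h => hN (a3 h), ⟨hζ, fun η ε hε => ?_⟩, fun y hy h => ?_⟩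
  · obtain ⟨x, hx, h⟩ := Metric.mem_closure_iff.1 η.2 ε hε
    obtain ⟨a, ha, rfl⟩ := (m0 x).1 hx
    refine ⟨_, (a1 _).2 ⟨a, ha, rfl⟩, ?_⟩
    rwa [Submodule.coe_norm, Submodule.coe_sub, ev a ha, ← dist_eq_norm]
  · obtain ⟨a, ha, rfl⟩ := (a1 y).1 hy
    rw [hs a ha (by rw [← ev a ha, h]; rfl), map_zero]

end Pool.Agent.P.MP_7e3bdd_an.NI
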