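import Pool.Agent.P.MP_7e3bdd_an.NI.Spec
import Pool.Agent.P.MP_7e3bdd_an.RW.Step

/-!
One step of the tower, from the gap on given marginals.
-/

set_option autoImplicit false

open scoped InnerProductSpace BigOperators

noncomputable section

namespace Pool.Agent.P.MP_7e3bdd_an.NI

open RW

namespace PStepM

open StepP

variable {H : Type} [NormedAddCommGroup H] [InnerProductSpace ℂ H] [CompleteSpace H]

theorem margF_move {N : VonNeumannAlgebra H} {η : H} {J : Type} [Fintype J] {β : J → ℝ}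
    {f : J → H} {u : H →L[ℂ] H} (hu : UQ N u) (h : MargF N η β f) :
    MargF N (u η) β fun j => u (f j) := by
  intro b hb
  have h1 := h (b * u) (mul_mem hb hu.2)
  simp only [mul_apply_eq_comp] at h1
  rw [← h1]
  refine Finset.sum_congr rfl fun j _ => Finset.sum_congr rfl fun k _ => ?_
  rw [ContinuousLinearMap.inner_map_map_of_mem_unitary hu.1]

theorem orth {F D I J : Type} [Fintype F] [Fintype D] [Nonempty F] [Nonempty D] [Fintype I]
    [Fintype J] (g : F → H →L[ℂ] H) (h : D → H →L[ℂ] H) (ρ : ℝ)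
    (hg : ∀ a, g a ∈ unitary (H →L[ℂ] H)) (hh : ∀ d, h d ∈ unitary (H →L[ℂ] H))
    (α : I → ℝ) (e : I → H) (β : J → ℝ) (f : J → H)
    (hG : ∀ d, hsn (fun p : F × I => (Fintype.card F : ℝ)⁻¹ * α p.2)
      (fun p : F × I => g p.1 (h d (e p.2))) ≤ ρ) :
    𝔼 γ : F × D, 𝔼 γ' : F × D, ker α (fun i => (g γ.1 * h γ.2) (e i)) β
      (fun j => (g γ'.1 * h γ'.2) (f j)) ≤ ρ * hsn β f := by
  obtain ⟨w, b, -⟩ := exists_hilbertBasis ℂ H
  set X : F × D → HS w H := fun γ => hsv b α fun i => (g γ.1 * h γ.2) (e i) with hX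
  set Y : F × D → HS w H := fun γ => hsv b β fun j => (g γ.1 * h γ.2) (f j) with hY
  set A : HS w H := (((Fintype.card (F × D) : ℝ)⁻¹ : ℝ) : ℂ) • ∑ γ, X γ with hA
  have k1 : ∀ γ γ' : F × D, ker α (fun i => (g γ.1 * h γ.2) (e i)) β
      (fun j => (g γ'.1 * h γ'.2) (f j)) = (⟪X γ, Y γ'⟫_ℂ).re := fun γ γ' => by
    rw [hX, hY, inner_hsv, Complex.ofReal_re]
  have nA : ‖A‖ ≤ ρ := by
    have e1 : A = (((Fintype.card D : ℝ)⁻¹ : ℝ) : ℂ) • ∑ d, hsv b
        (fun p : F × I => (Fintype.card F : ℝ)⁻¹ * α p.2)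
        (fun p : F × I => g p.1 (h d (e p.2))) := by
      rw [hA, Fintype.sum_prod_type_right, Fintype.card_prod, Nat.cast_mul, mul_inv, mul_comm,
        Complex.ofReal_mul, mul_smul, Finset.smul_sum]
      refine congrArg _ (Finset.sum_congr rfl fun d _ => ?_)
      rw [hsv_prod b (fun _ => (Fintype.card F : ℝ)⁻¹) g α fun i => h d (e i), Finset.smul_sum]
      rfl
    rw [e1]
    refine norm_avg_le _ _ fun d => ?_
    rw [← hsn_eq_norm]
    exact hG d
  rw [Finset.expect_comm]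
  refine Finset.expect_le Finset.univ_nonempty fun γ' _ => ?_
  simp only [k1]
  rw [← Complex.re_expect, exp_inner, ← hA]
  refine (Complex.re_le_norm _).trans ((norm_inner_le_norm _ _).trans ?_)
  have nY : ‖Y γ'‖ = hsn β f := by
    rw [hY, ← hsn_eq_norm]
    exact hsn_unitary (mul_mem (hg _) (hh _)) β f
  rw [nY]
  exact mul_le_mul_of_nonneg_right nA (hsn_nonneg _ _)

end PStepM

open StepP PStepM in
theorem stepMSt (h1 : ApproxSt) (h2 : DixSt) (h4 : LlnSt) : StepMSt := by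
  intro H _ _ _ _ N ξ hF hc hNA I V A _ _ _ η ζ μ hμ ε hε
  let _ : DecidableEq V := Classical.decEq V
  obtain ⟨m, h, hU, hD⟩ := h2 H N ξ hF hc I η ζ (ε / 6) (by positivity)
  choose y hy hy' using fun (i : I) (d : Fin (m + 1)) =>
    dens h1 hc (η i) (ζ i) (h d) (ε / 6) (by positivity)
  obtain ⟨C, hC0, hC⟩ : ∃ C : ℝ, 0 < C ∧ ∀ i d, ‖y i d‖ ≤ C := by
    refine ⟨1 + ∑ p : I × Fin (m + 1), ‖y p.1 p.2‖, by positivity, fun i d => ?_⟩
    have := Finset.single_le_sum (f := fun p : I × Fin (m + 1) => ‖y p.1 p.2‖)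
      (fun p _ => norm_nonneg _) (Finset.mem_univ (i, d))
    linarith
  obtain ⟨R, hR⟩ := exists_nat_ge (C ^ 2 / (ε / 6) ^ 2)
  have hR' : C ^ 2 ≤ (ε / 6) ^ 2 * ((R : ℝ) + 1) := by
    rw [div_le_iff₀ (by positivity)] at hR
    nlinarith [sq_nonneg (ε / 6)]
  have cR : (0 : ℝ) < (R : ℝ) + 1 := by positivity
  set ρ : ℝ := min (ε / ((R : ℝ) + 1)) (ε / 6 / C) with hρ
  have hρ0 : 0 < ρ := lt_min (by positivity) (by positivity)
  have hρ1 : ((R : ℝ) + 1) * ρ ≤ ε := by
    rw [mul_comm, ← le_div_iff₀ cR]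
    exact min_le_left _ _
  have hρ2 : ρ * C ≤ ε / 6 := by
    rw [← le_div_iff₀ hC0]
    exact min_le_right _ _
  obtain ⟨n, g, hg, hG⟩ := hNA (A × Fin (m + 1)) (fun p => h p.2 (μ p.1))
    (fun p => by rw [ContinuousLinearMap.norm_map_of_mem_unitary (hU _).1, hμ]) ρ hρ0
  refine ⟨R, V × Fin (R + 1) → Fin (n + 1) × Fin (m + 1), inferInstance, inferInstance,
    fun x u => g (u x).1 * h (u x).2, fun x u => UQ.mul (hg _).1 (hU _), fun i v z hz => ?_,
    fun x x' hx a I' J _ _ α e β f hM => ?_⟩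
  · set θ : Fin (n + 1) × Fin (m + 1) → H := fun γ => (g γ.1 * y i γ.2 * star (g γ.1)) ξ with hθ
    have nθ : ∀ γ, ‖θ γ‖ ≤ C := fun γ => by
      have h5 := norm_conj_le (q := y i γ.2) (u := star (g γ.1)) (Unitary.star_mem (hg γ.1).1.1)
      rw [star_star] at h5
      refine (ContinuousLinearMap.le_opNorm _ _).trans ?_
      rw [hc.1, mul_one]
      exact h5.trans (hC _ _)
    have hL := h4 H (Fin (n + 1) × Fin (m + 1)) V θ C (ε / 6) R v (by positivity) nθ hR'
    have key : ∀ u : V × Fin (R + 1) → Fin (n + 1) × Fin (m + 1),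
        ‖𝔼 j, dl ξ (η i) (ζ i) (star (g (u (v, j)).1 * h (u (v, j)).2) * z u *
          (g (u (v, j)).1 * h (u (v, j)).2))‖ ≤ 5 * (ε / 6) +
          ‖(((R : ℝ) + 1)⁻¹ • ∑ j, θ (u (v, j))) -
            (Fintype.card (Fin (n + 1) × Fin (m + 1)) : ℝ)⁻¹ • ∑ γ, θ γ‖ := fun u => by
      obtain ⟨zq, zn⟩ := hz u
      have cq : ∀ a, star (g a) * z u * g a ∈ N.commutant := fun a =>
        mul_mem (mul_mem (star_mem (hg a).1.2) zq) (hg a).1.2
      have cn : ∀ a, ‖star (g a) * z u * g a‖ ≤ 1 := fun a => (norm_conj_le (hg a).1.1).trans zn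
      have ce : ∀ a d, star (g a * h d) * z u * (g a * h d) =
          star (h d) * (star (g a) * z u * g a) * h d := fun a d => by
        simp only [star_mul, mul_assoc]
      have hm := mix (fun γ : Fin (n + 1) × Fin (m + 1) =>
        dl ξ (η i) (ζ i) (star (g γ.1 * h γ.2) * z u * (g γ.1 * h γ.2))) θ (z u ξ)
        (fun j : Fin (R + 1) => u (v, j)) (2 * (ε / 6)) (ε / 6) ?_ ?_ ?_
      · rw [Fintype.card_fin, Nat.cast_add, Nat.cast_one] at hm
        refine hm.trans_eq ?_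
        ring
      · refine (ContinuousLinearMap.le_opNorm _ _).trans ?_
        rwa [hc.1, mul_one]
      · intro γ
        have b1 := hy' i γ.2 _ (cq γ.1)
        have b2 := move hρ0.le (hg γ.1).1 (hg γ.1).2 (hy i γ.2) (hC i γ.2) zq
        have b3 := norm_sub_le_norm_sub_add_norm_sub
          (dl ξ (η i) (ζ i) (star (h γ.2) * (star (g γ.1) * z u * g γ.1) * h γ.2))
          ⟪y i γ.2 ξ, (star (g γ.1) * z u * g γ.1) ξ⟫_ℂ ⟪θ γ, z u ξ⟫_ℂ
        have b4 : ε / 6 * ‖star (g γ.1) * z u * g γ.1‖ ≤ ε / 6 :=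
          mul_le_of_le_one_right (by positivity) (cn _)
        have b5 : ρ * C * ‖z u‖ ≤ ρ * C := mul_le_of_le_one_right (by positivity) zn
        rw [ce]
        linarith
      · rw [← Finset.univ_product_univ, Finset.expect_product]
        refine nexp _ _ fun a => ?_
        simp only [ce]
        exact (hD i _ (cq a)).trans (mul_le_of_le_one_right (by positivity) (cn _))
    refine (RCLike.norm_expect_le (K := ℝ)).trans
      ((Finset.expect_le_expect fun u _ => key u).trans ?_)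
    rw [Finset.expect_add_distrib, Finset.expect_const Finset.univ_nonempty]
    linarith
  · have ho := orth g h ρ (fun a => (hg a).1.1) (fun d => (hU d).1) α e β f fun d => by
      rw [Fintype.card_fin, Nat.cast_add, Nat.cast_one]
      exact hG (a, d) I' α (fun i => h d (e i)) (margF_move (hU d) hM)
    rw [← expect_pair hx fun γ γ' : Fin (n + 1) × Fin (m + 1) =>
      ker α (fun i => (g γ.1 * h γ.2) (e i)) β (fun j => (g γ'.1 * h γ'.2) (f j))] at ho
    refine (mul_le_mul_of_nonneg_left ho cR.le).trans ?_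
    rw [← mul_assoc]
    exact mul_le_mul_of_nonneg_right hρ1 (hsn_nonneg _ _)

end Pool.Agent.P.MP_7e3bdd_an.NI
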