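import Pool.Agent.P.MP_7e3bdd_an.NI.PStepM
import Pool.Agent.P.MP_7e3bdd_an.RW.Tower

/-!
The tower with restricted orthogonality.
-/

set_option autoImplicit false

open scoped InnerProductSpace BigOperators

noncomputable section

namespace Pool.Agent.P.MP_7e3bdd_an.NI

open RW TowerP

theorem aH_UQ {H : Type} [NormedAddCommGroup H] [InnerProductSpace ℂ H] [CompleteSpace H]
    {N : VonNeumannAlgebra H} {X : ℕ → Type} {c : ∀ k, X k → X (k + 1) → H →L[ℂ] H}
    (hc : ∀ k x y, UQ N (c k x y)) : ∀ (k : ℕ) (h : Hd X k) (x : X k), UQ N (aH c k h x)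
  | 0, _, _ => ⟨one_mem _, one_mem _⟩
  | k + 1, h, y => StepP.UQ.mul (hc k h.2 y) (aH_UQ hc k h.1 h.2)

theorem towerMSt (h : StepMSt) : TowerMSt := by
  intro H _ _ _ _ N ξ h1 h2 h3 ξs δ hδ
  classical
  choose R U fU gU c p1 p2 p3 using fun (L : Lv H) (k : ℕ) =>
    h H N ξ h1 h2 h3 (L.A × Fin (k + 1) × Fin (k + 1)) L.V L.A (fun t => t.1.1 (ξs t.2.1))
      (fun t => t.1.1 (ξs t.2.2)) (fun a => if a.1 ∈ unitary (H →L[ℂ] H) then a.1 ξ else ξ)
      (fun a => by
        by_cases ha : a.1 ∈ unitary (H →L[ℂ] H)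
        · rw [if_pos ha, ContinuousLinearMap.norm_map_of_mem_unitary ha, h2.1]
        · rw [if_neg ha, h2.1])
      (min (1 / ((k : ℝ) + 1)) (2 * δ ^ 2 / 2 ^ k / (L.B * Fintype.card L.V + 1))) (by positivity)
  let σ : ∀ L : Lv H, ℕ → Sd H L.V := fun L k => ⟨R L k, U L k, fU L k, gU L k, c L k⟩
  have hq : ∀ k x y, UQ N (cc σ k x y) := fun k x y => p1 _ k x y.1
  refine ⟨XX σ, inferInstance, inferInstance, cc σ, fun x => ![1, -1] x.1,
    hq, fun x => ?_, ?_, ?_, ?_⟩
  · exact (Fin.forall_fin_two (p := fun i => ![(1 : ℝ), -1] i = 1 ∨ ![(1 : ℝ), -1] i = -1)).2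
      ⟨Or.inl rfl, Or.inr rfl⟩ x.1
  · rw [Fintype.sum_prod_type_right]
    exact Finset.sum_eq_zero fun j _ =>
      (Fin.sum_univ_two fun i => ![(1 : ℝ), -1] i).trans (by simp)
  · intro k hd i j hi hj z hz
    rw [exp_prod]
    refine norm_exp_le fun v => ?_
    obtain ⟨a, a1, a2⟩ := aH_mem σ k hd v
    simp only [a2]
    rw [Finset.expect_comm, exp_prod, Finset.expect_comm]
    exact norm_exp_le fun j' => (p2 (lv σ k) k (⟨a, a1⟩, ⟨i, by omega⟩, ⟨j, by omega⟩) v
      (fun u => z (u, j')) fun u => hz _).trans (min_le_left _ _)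
  · intro k hd x x' hx I J _ _ α e β f hM
    obtain ⟨a, a1, a2⟩ := aH_mem σ k hd x.1
    have a3 : aH (cc σ) k hd x = a := a2 x.2
    have a4 : UQ N a := a3 ▸ aH_UQ hq k hd x
    have a5 := p3 (lv σ k) k x x' hx ⟨a, a1⟩ I J α (fun i => a (e i)) β f (by
      simp only [if_pos a4.1]
      exact PStepM.margF_move a4 hM)
    have n0 := hsn_nonneg β f
    rw [card_hd, exp_prod, a3]
    simp only [cc, Fintype.expect_const]
    have b : ((lv σ (k + 1)).B : ℝ) =
        (lv σ k).B * Fintype.card (lv σ k).V * ((R (lv σ k) k : ℝ) + 1) := by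
      rw [show (lv σ (k + 1)).B = (lv σ k).B * (Fintype.card (lv σ k).V * (R (lv σ k) k + 1))
        from rfl]
      push_cast
      ring
    rw [b, mul_assoc]
    refine (mul_le_mul_of_nonneg_left (a5.trans (mul_le_mul_of_nonneg_right (min_le_right _ _) n0))
      (by positivity)).trans ?_
    rw [← mul_assoc]
    refine mul_le_mul_of_nonneg_right ?_ n0
    rw [mul_div_assoc', div_le_iff₀ (by positivity)]
    have : 0 < 2 * δ ^ 2 / 2 ^ k := by positivity
    nlinarith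

end Pool.Agent.P.MP_7e3bdd_an.NI
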