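import Pool.Agent.P.MP_7e3bdd_an.NI.Spec

/-!
The window function: a smooth partition of unity by translates, and its Fourier representation.
-/

set_option autoImplicit false

open scoped InnerProductSpace BigOperators BoundedContinuousFunction ComplexConjugate TensorProduct
  ComplexOrder FourierTransform ContDiff
open MeasureTheory

noncomputable section

namespace Pool.Agent.P.MP_7e3bdd_an.NI

open RW

namespace PWin

theorem chi_zero {s : ℝ} (h : 1 ≤ |s|) : chi s = 0 := by
  unfold chi
  rcases le_abs.1 h with h | h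
  · rw [Real.smoothTransition.one_of_one_le h,
      Real.smoothTransition.one_of_one_le (by linarith), sub_self]
  · rw [Real.smoothTransition.zero_of_nonpos (by linarith),
      Real.smoothTransition.zero_of_nonpos (by linarith), sub_self]

theorem abs_chi (s : ℝ) : |chi s| ≤ 1 := by
  unfold chi
  rw [abs_le]
  constructor <;> linarith [Real.smoothTransition.le_one s, Real.smoothTransition.nonneg s,
    Real.smoothTransition.le_one (s + 1), Real.smoothTransition.nonneg (s + 1)]

theorem sum_chi (n : ℕ) (s : ℝ) : ∑ j : Fin (2 * n + 1), chi (s - (((j : ℕ) : ℝ) - n)) =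
    Real.smoothTransition (s + n + 1) - Real.smoothTransition (s - n) := by
  rw [Fin.sum_univ_eq_sum_range (fun j => chi (s - ((j : ℝ) - n))) (2 * n + 1)]
  have h := Finset.sum_range_sub' (fun j : ℕ => Real.smoothTransition (s + n + 1 - j)) (2 * n + 1)
  have h1 : s + n + 1 - ((2 * n + 1 : ℕ) : ℝ) = s - n := by push_cast; ring
  simp only [Nat.cast_zero, sub_zero, h1] at h
  rw [← h]
  refine Finset.sum_congr rfl fun j _ => ?_
  unfold chi
  congr 2 <;> push_cast <;> ring

theorem chi_smooth : ContDiff ℝ ∞ fun s : ℝ => (chi s : ℂ) := by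
  refine Complex.ofRealCLM.contDiff.comp (f := chi) ?_
  unfold chi
  exact (Real.smoothTransition.contDiff.comp (contDiff_id.add contDiff_const)).sub
    Real.smoothTransition.contDiff

theorem chi_supp : HasCompactSupport fun s : ℝ => (chi s : ℂ) := by
  refine HasCompactSupport.intro (isCompact_Icc (a := -1) (b := 1)) fun s hs => ?_
  rw [chi_zero, Complex.ofReal_zero]
  by_contra h
  exact hs (abs_le.1 (not_le.1 h).le)

theorem exists_kernel : ∃ ψ : ℝ → ℂ, Integrable ψ ∧
    ∀ s : ℝ, (chi s : ℂ) = ∫ v : ℝ, Complex.exp ((2 * Real.pi * (v * s) : ℝ) * Complex.I) * ψ v := by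
  let φ : SchwartzMap ℝ ℂ := chi_supp.toSchwartzMap chi_smooth
  refine ⟨(𝓕 φ : SchwartzMap ℝ ℂ), (𝓕 φ : SchwartzMap ℝ ℂ).integrable, fun s => ?_⟩
  have h : (𝓕⁻ (𝓕 φ : SchwartzMap ℝ ℂ) : SchwartzMap ℝ ℂ) = φ := FourierPair.fourierInv_fourier_eq φ
  have h1 : (chi s : ℂ) = (𝓕⁻ (𝓕 φ : SchwartzMap ℝ ℂ) : SchwartzMap ℝ ℂ) s := by rw [h]; rfl
  rw [h1, SchwartzMap.fourierInv_coe, Real.fourierInv_eq']
  refine integral_congr_ae (Filter.Eventually.of_forall fun v => ?_)
  simp [mul_comm s v]

end PWin

open PWin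

theorem winSt : WinSt := by
  refine ⟨fun s => chi_zero, by simp [chi], abs_chi, fun n s => ?_, ?_⟩
  · rw [sum_chi]
    have hn : (0 : ℝ) ≤ n := n.cast_nonneg
    refine ⟨sub_nonneg.2 (Real.smoothTransition.monotone (by linarith)), ?_, fun h => ?_⟩
    · linarith [Real.smoothTransition.le_one (s + n + 1), Real.smoothTransition.nonneg (s - n)]
    · rw [abs_le] at h
      rw [Real.smoothTransition.one_of_one_le (by linarith [h.1]),
        Real.smoothTransition.zero_of_nonpos (by linarith [h.2]), sub_zero]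
  obtain ⟨ψ, hψ, h⟩ := exists_kernel
  refine ⟨∫ v, ‖ψ v‖, fun ε hε ρ => ?_⟩
  set a : ℝ := ε / (2 * Real.pi) with ha
  have ha0 : 0 < a := by have := Real.pi_pos; positivity
  have hc : Continuous chi := by
    unfold chi
    exact (Real.smoothTransition.continuous.comp (by fun_prop)).sub Real.smoothTransition.continuous
  have hn : ∀ t, ‖(a : ℂ) * (ex (-(ε * ρ)) t * ψ (a * t))‖ = a * ‖ψ (a * t)‖ := fun t => by
    rw [norm_mul, norm_mul, norm_ex, one_mul, Complex.norm_real, Real.norm_of_nonneg ha0.le]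
  refine ⟨fun t => (a : ℂ) * (ex (-(ε * ρ)) t * ψ (a * t)),
    mkR (fun r => chi (r / ε - ρ)) (hc.comp (by fun_prop)) 1 fun r => abs_chi _, ?_, ?_, ?_,
    fun r => rfl⟩
  · refine Integrable.const_mul ?_ _
    exact (hψ.comp_mul_left' ha0.ne').bdd_mul (ex _).continuous.aestronglyMeasurable
      (Filter.Eventually.of_forall fun t => (norm_ex _ t).le)
  · simp only [hn]
    rw [integral_const_mul, Measure.integral_comp_mul_left (fun v => ‖ψ v‖) a,
      abs_of_pos (inv_pos.2 ha0), smul_eq_mul, ← mul_assoc, mul_inv_cancel₀ ha0.ne', one_mul]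
  · intro r
    rw [mkR_apply, h]
    have h1 := Measure.integral_comp_mul_left (fun v : ℝ =>
      Complex.exp ((2 * Real.pi * (v * (r / ε - ρ)) : ℝ) * Complex.I) * ψ v) a
    rw [abs_of_pos (inv_pos.2 ha0), Complex.real_smul, Complex.ofReal_inv,
      eq_inv_mul_iff_mul_eq₀ (Complex.ofReal_ne_zero.2 ha0.ne')] at h1
    rw [← h1, ← integral_const_mul]
    refine integral_congr_ae (Filter.Eventually.of_forall fun t => ?_)
    have h2 : 2 * Real.pi * (a * t * (r / ε - ρ)) = -(ε * ρ) * t + t * r := by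
      rw [ha]
      have := Real.pi_pos
      field_simp
      ring
    simp only [h2, ex_apply, Complex.ofReal_add, add_mul, Complex.exp_add]
    ring

end Pool.Agent.P.MP_7e3bdd_an.NI
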