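import Pool.Agent.P.MP_7e3bdd_an.NI.Defs

/-!
Statements of the steps: modular theory, spectral windows, the gap of a non-injective factor, and
the tower with restricted orthogonality.
-/

set_option autoImplicit false

open scoped InnerProductSpace BigOperators BoundedContinuousFunction ComplexConjugate TensorProduct
  ComplexOrder
open MeasureTheory

noncomputable section

namespace Pool.Agent.P.MP_7e3bdd_an.NI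

open RW

section Defs

variable {H : Type} [NormedAddCommGroup H] [InnerProductSpace ℂ H] [CompleteSpace H]

/-- `M` is the range of a contractive projection. -/
def Inj (M : VonNeumannAlgebra H) : Prop :=
  ∃ E : (H →L[ℂ] H) →L[ℂ] (H →L[ℂ] H), ‖E‖ ≤ 1 ∧ (∀ T, E T ∈ M) ∧ ∀ T ∈ M, E T = T

/-- Isomorphic von Neumann algebras. -/
def Iso {K : Type} [NormedAddCommGroup K] [InnerProductSpace ℂ K] [CompleteSpace K]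
    (N : VonNeumannAlgebra H) (N₁ : VonNeumannAlgebra K) : Prop :=
  Nonempty (N.toStarSubalgebra ≃⋆ₐ[ℂ] N₁.toStarSubalgebra)

/-- The sum and the difference of two real projections in general position. -/
structure RC (R : H →L[ℂ] H) (C : H →L⋆[ℂ] H) : Prop where
  sa : IsSelfAdjoint R
  pos : 0 ≤ R
  le : R ≤ 2
  inj : ∀ x, R x = 0 → x = 0
  inj' : ∀ x, (2 - R) x = 0 → x = 0
  sq : ∀ x, C (C x) = R ((2 - R) x)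
  comm : ∀ x, R (C x) = C ((2 - R) x)
  symm : ∀ x y, ⟪x, C y⟫_ℂ = ⟪y, C x⟫_ℂ

/-- The polar decomposition of the star operation of the commutant of `N` at `ξ`. -/
structure IsPre (m : Mod H) (N : VonNeumannAlgebra H) (ξ : H) : Prop where
  Jξ : m.J ξ = ξ
  Φξ : ∀ F, m.Φ F ξ = F 0 • ξ
  S : ∀ a ∈ N.commutant, m.Φ om (m.J (star a ξ)) = m.Φ omP (a ξ)
  S' : ∀ c ∈ N, m.Φ om (m.J (star c ξ)) = m.Φ omM (c ξ)
  proj : ∀ a ∈ N.commutant, IsSelfAdjoint a → ∀ c ∈ N, IsSelfAdjoint c →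
    (∀ y ∈ N.commutant, IsSelfAdjoint y → (⟪y ξ, c ξ - a ξ⟫_ℂ).re = 0) →
    m.Φ om (m.J (c ξ)) = a ξ

/-- The conclusions of the theorem of Tomita and Takesaki. -/
structure IsTT (m : Mod H) (N : VonNeumannAlgebra H) (ξ : H) : Prop where
  cycN : Cyc N ξ
  cycQ : Cyc N.commutant ξ
  Jξ : m.J ξ = ξ
  Φξ : ∀ F, m.Φ F ξ = F 0 • ξ
  S : ∀ a ∈ N.commutant, m.Φ om (m.J (star a ξ)) = m.Φ omP (a ξ)
  barQ : ∀ a ∈ N.commutant, m.bar a ∈ N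
  barN : ∀ c ∈ N, m.bar c ∈ N.commutant
  sigQ : ∀ t, ∀ a ∈ N.commutant, m.sig t a ∈ N.commutant

/-- The left marginal of `X` is the vector state of `η`. -/
def Marg (N : VonNeumannAlgebra H) (η : H) (X : HH H) : Prop :=
  ∀ b ∈ N.commutant, ‖tm b 1 X‖ = ‖b η‖

/-- The same for the operator `∑ β j |f j⟩⟨f j|`. -/
def MargF (N : VonNeumannAlgebra H) (η : H) {J : Type} [Fintype J] (β : J → ℝ) (f : J → H) :
    Prop :=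
  ∀ b ∈ N.commutant, ∑ j, ∑ k, ((β j * β k : ℝ) : ℂ) * (⟪f k, f j⟫_ℂ * ⟪b (f j), b (f k)⟫_ℂ) =
    ((‖b η‖ ^ 2 : ℝ) : ℂ)

/-- The left marginal of `Y` dominates a vector which overlaps `ξ`. -/
def Good (N : VonNeumannAlgebra H) (ξ : H) (C c : ℝ) (Y : HH H) : Prop :=
  ‖Y‖ ≤ 1 ∧ ∃ ζ : H, c ≤ (⟪ξ, ζ⟫_ℂ).re ∧ ∀ y ∈ N.commutant, ‖y ζ‖ ≤ C * ‖tm y 1 Y‖

/-- A probability vector. -/
def Prob {F : Type} [Fintype F] (w : F → ℝ) : Prop := (∀ a, 0 ≤ w a) ∧ ∑ a, w a = 1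

/-- Good vectors are moved much faster than `ξ`. -/
def G1 (m : Mod H) (N : VonNeumannAlgebra H) (ξ : H) : Prop :=
  ∀ C c K : ℝ, 0 < C → 0 < c → 0 < K →
    ∃ (F : Type) (_ : Fintype F) (w : F → ℝ) (g : F → H →L[ℂ] H) (κ : ℝ),
      Prob w ∧ (∀ a, UQ N (g a)) ∧ 0 < κ ∧ κ ≤ 1 ∧ K * ∑ a, w a * m.del ξ (g a) ^ 2 ≤ κ ∧
      ∀ Y, Good N ξ C c Y → κ ≤ ∑ a, w a * ‖m.pi (g a) Y - Y‖ ^ 2

/-- A weighted family which almost fixes `ξ` and averages given marginals to zero. -/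
def GapW (m : Mod H) (N : VonNeumannAlgebra H) (ξ : H) : Prop :=
  ∀ (I : Type) [Fintype I] (η : I → H), (∀ i, ‖η i‖ = 1) → ∀ ε : ℝ, 0 < ε →
    ∃ (F : Type) (_ : Fintype F) (w : F → ℝ) (g : F → H →L[ℂ] H),
      Prob w ∧ (∀ a, UQ N (g a)) ∧ ∑ a, w a * m.del ξ (g a) ≤ ε ∧
      ∀ i X, Marg N (η i) X → ‖∑ a, (w a : ℂ) • m.pi (g a) X‖ ≤ ε

/-- The uniform version, in the language of weighted families of vectors. -/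
def GapM (N : VonNeumannAlgebra H) (ξ : H) : Prop :=
  ∀ (I : Type) [Fintype I] (η : I → H), (∀ i, ‖η i‖ = 1) → ∀ ε : ℝ, 0 < ε →
    ∃ (n : ℕ) (g : Fin (n + 1) → H →L[ℂ] H),
      (∀ a, UQ N (g a) ∧ AlmostInv N ξ (star (g a)) ε) ∧
      ∀ (i : I) (J : Type) [Fintype J] (β : J → ℝ) (f : J → H), MargF N (η i) β f →
        hsn (fun p : Fin (n + 1) × J => ((n : ℝ) + 1)⁻¹ * β p.2)
          (fun p : Fin (n + 1) × J => g p.1 (f p.2)) ≤ ε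

/-- The failure of `G1` on finite sets of unitaries. -/
def NG2 (m : Mod H) (N : VonNeumannAlgebra H) (ξ : H) (C c K : ℝ) : Prop :=
  ∀ (F : Finset {g : H →L[ℂ] H // UQ N g}) (θ : ℝ), 0 < θ →
    ∃ (J : Type) (_ : Fintype J) (l : J → ℝ) (Y : J → HH H), Prob l ∧ (∀ j, Good N ξ C c (Y j)) ∧
      ∀ g ∈ F, ∑ j, l j * ‖m.pi g.1 (Y j) - Y j‖ ^ 2 ≤ K * m.del ξ g.1 ^ 2 + θ

/-- The basic inequality for the vector `ζ`. -/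
def Obj (m : Mod H) (N : VonNeumannAlgebra H) (ξ : H) (A : ℝ) (ζ : H) : Prop :=
  ∀ (ι : Type) [Fintype ι] (b : ι → H →L[ℂ] H), (∀ l, b l ∈ N.commutant) →
    ∑ l, ∑ l', ‖(star (b l') * b l) ζ‖ ^ 2 ≤
      A * (‖m.Sop b‖ ^ 2 + ∑ l, ∑ l', ‖m.L ξ (star (b l') * b l)‖ ^ 2)

/-- A nonzero projection of the centraliser. -/
structure Cor (m : Mod H) (N : VonNeumannAlgebra H) (ξ : H) (e : H →L[ℂ] H) : Prop where
  mem : e ∈ N.commutant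
  proj : IsStarProjection e
  ne : e ξ ≠ 0
  comm : ∀ t, m.U t * e = e * m.U t
  J : m.J (e ξ) = e ξ

/-- The basic inequality in the corner of `e`. -/
def Obj2 (m : Mod H) (N : VonNeumannAlgebra H) (ξ : H) (e : H →L[ℂ] H) (A : ℝ) : Prop :=
  ∀ (ι : Type) [Fintype ι] (b : ι → H →L[ℂ] H), (∀ l, b l ∈ N.commutant ∧ b l * e = b l) →
    ∑ l, ∑ l', ‖(star (b l') * b l) ξ‖ ^ 2 ≤
      A * (‖m.Sop b‖ ^ 2 + ∑ l, ∑ l', ‖m.L ξ (star (b l') * b l)‖ ^ 2)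

/-- The window inequality. -/
def WinI (m : Mod H) (N : VonNeumannAlgebra H) (ξ : H) (e : H →L[ℂ] H) : Prop :=
  ∃ ε c₀ : ℝ, 0 < ε ∧ 0 ≤ c₀ ∧ ∀ (ι : Type) [Fintype ι] (a : ι → H →L[ℂ] H),
    (∀ l, a l ∈ N.commutant ∧ a l * e = a l) → ∀ n : ℕ,
    ∑ l, ‖m.D ξ (a l)‖ ^ 2 ≤ c₀ * (2 * (n : ℝ) + 1) ^ 2 * ‖m.Sop a‖ +
      8 * Real.exp (-(n * ε / 2)) * ∑ l, ‖a l‖ ^ 2

/-- `a` lies in the corner of `e`. -/
def InCor (N : VonNeumannAlgebra H) (e a : H →L[ℂ] H) : Prop :=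
  a ∈ N.commutant ∧ a * e = a ∧ e * a = a

/-- The self-polar criterion in the corner of `e`. -/
def Crit (m : Mod H) (N : VonNeumannAlgebra H) (ξ : H) (e : H →L[ℂ] H) : Prop :=
  ∀ (ι : Type) [Fintype ι] (a : ι → H →L[ℂ] H), (∀ l, InCor N e (a l)) →
    ∑ l, ‖m.D ξ (a l)‖ ^ 2 ≤ ‖e ξ‖ ^ 2 * ‖m.Sop a‖

/-- The value of a bilinear functional on `(∑ p i ⊗ q i)* (1 ⊗ T) (∑ p' k ⊗ q' k)`. -/
def bv (ω : (H →L[ℂ] H) →ₗ[ℂ] (H →L[ℂ] H) →ₗ[ℂ] ℂ) {ι ι' : Type} [Fintype ι] [Fintype ι']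
    (p q : ι → H →L[ℂ] H) (T : H →L[ℂ] H) (p' q' : ι' → H →L[ℂ] H) : ℂ :=
  ∑ i, ∑ k, ω (star (p i) * p' k) (star (q i) * T * q' k)

/-- A positive definite bilinear functional. -/
def BiPos (ω : (H →L[ℂ] H) →ₗ[ℂ] (H →L[ℂ] H) →ₗ[ℂ] ℂ) : Prop :=
  ∀ (ι : Type) [Fintype ι] (p q : ι → H →L[ℂ] H), 0 ≤ bv ω p q 1 p q

/-- The orthogonality property of the tower on families with the marginal of `ξ`. -/
def OrthM (N : VonNeumannAlgebra H) (ξ : H) {X : ℕ → Type} [∀ k, Fintype (X k)]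
    (c : ∀ k, X k → X (k + 1) → H →L[ℂ] H) (δ : ℝ) : Prop :=
  ∀ (k : ℕ) (h : Hd X k) (x x' : X k), x ≠ x' →
    ∀ (I J : Type) [Fintype I] [Fintype J] (α : I → ℝ) (e : I → H) (β : J → ℝ) (f : J → H),
    MargF N ξ α e →
    (Fintype.card (Hd X (k + 1)) : ℝ) *
        𝔼 y : X (k + 1), ker α (fun i => c k x y (aH c k h x (e i))) β (fun j => c k x' y (f j)) ≤
      2 * δ ^ 2 / 2 ^ k * hsn β f

end Defs

/-! ### Modular theory -/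

def RealSt : Prop :=
  ∀ (H : Type) [NormedAddCommGroup H] [InnerProductSpace ℂ H] [CompleteSpace H]
    (N : VonNeumannAlgebra H) (ξ : H), Cyc N ξ → Cyc N.commutant ξ →
    ∃ (R : H →L[ℂ] H) (C : H →L⋆[ℂ] H), RC R C ∧ R ξ = ξ ∧
      (∀ a ∈ N.commutant, C (star a ξ) = (2 - R) (a ξ)) ∧ (∀ c ∈ N, C (star c ξ) = R (c ξ)) ∧
      ∀ a ∈ N.commutant, IsSelfAdjoint a → ∀ c ∈ N, IsSelfAdjoint c →
        (∀ y ∈ N.commutant, IsSelfAdjoint y → (⟪y ξ, c ξ - a ξ⟫_ℂ).re = 0) → C (c ξ) = a ξ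

def CalcSt : Prop :=
  ∀ (H : Type) [NormedAddCommGroup H] [InnerProductSpace ℂ H] [CompleteSpace H]
    (R : H →L[ℂ] H) (C : H →L⋆[ℂ] H), RC R C →
    ∃ Φ : (ℝ →ᵇ ℂ) →⋆ₐ[ℂ] (H →L[ℂ] H), Φ omM = R ∧ Φ omP = 2 - R ∧ DenseRange (Φ om) ∧
      (∀ x, R x = x → ∀ F, Φ F x = F 0 • x) ∧ ∀ F x, C (Φ F x) = Φ (flp F) (C x)

def PreSt : Prop :=
  ∀ (H : Type) [NormedAddCommGroup H] [InnerProductSpace ℂ H] [CompleteSpace H]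
    (N : VonNeumannAlgebra H) (ξ : H), Cyc N ξ → Cyc N.commutant ξ → ∃ m : Mod H, IsPre m N ξ

def ContSt : Prop :=
  ∀ G : ℝ → ℝ →ᵇ ℂ, Fam G → (Continuous fun t => G t * om) ∧
    ∀ (H : Type) [NormedAddCommGroup H] [InnerProductSpace ℂ H] [CompleteSpace H] (m : Mod H)
      (x : H), Continuous fun t => m.Φ (G t) x

def SVSt : Prop :=
  ∀ (H : Type) [NormedAddCommGroup H] [InnerProductSpace ℂ H] [CompleteSpace H] (m : Mod H)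
    (I : Type) [Fintype I] (k : I → ℝ → ℂ) (G : I → ℝ → ℝ →ᵇ ℂ),
    (∀ i, Integrable (k i)) → (∀ i, Fam (G i)) → (∀ s, ∑ i, ∫ t, k i t * G i t s = 0) →
    ∀ η ζ : H, ∑ i, ∫ t, k i t * ⟪η, m.Φ (G i t) ζ⟫_ℂ = 0

def IntSt : Prop :=
  ∀ (H : Type) [NormedAddCommGroup H] [InnerProductSpace ℂ H] [CompleteSpace H] (m : Mod H)
    (g : ℝ → ℂ) (F : ℝ →ᵇ ℂ), Integrable g → FT g F →
    ∀ η ζ : H, ⟪η, m.Φ F ζ⟫_ℂ = ∫ t, g t * ⟪η, m.U t ζ⟫_ℂ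

def BTSt : Prop :=
  ∀ (H : Type) [NormedAddCommGroup H] [InnerProductSpace ℂ H] [CompleteSpace H]
    [TopologicalSpace.SeparableSpace H] (m : Mod H)
    (I : Type) [Fintype I] (k : I → ℝ → ℂ) (F G : I → ℝ → ℝ →ᵇ ℂ),
    (∀ i, Integrable (k i)) → (∀ i, Fam (F i)) → (∀ i, Fam (G i)) →
    (∀ r s, ∑ i, ∫ t, k i t * (F i t r * G i t s) = 0) →
    ∀ (x : H →L[ℂ] H) (η ζ : H),
      ∑ i, ∫ t, k i t * ⟪η, m.Φ (F i t) (x (m.Φ (G i t) ζ))⟫_ℂ = 0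

def SechSt : Prop :=
  ∀ w : ℂ, |w.im| < Real.pi →
    Integrable (fun t : ℝ => Complex.exp (t * w * Complex.I) / (Real.cosh (Real.pi * t) : ℂ)) ∧
    ∫ t : ℝ, Complex.exp (t * w * Complex.I) / (Real.cosh (Real.pi * t) : ℂ) =
      1 / Complex.cosh (w / 2)

def UniqSt : Prop :=
  ∀ h : ℝ → ℂ, Continuous h → (∃ C : ℝ, ∀ t, ‖h t‖ ≤ C) →
    (∀ φ : ℝ, |φ| < Real.pi →
      ∫ t : ℝ, ((Real.exp (φ * t) / Real.cosh (Real.pi * t) : ℝ) : ℂ) * h t = 0) → ∀ t, h t = 0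

def RNSt : Prop :=
  ∀ (H : Type) [NormedAddCommGroup H] [InnerProductSpace ℂ H] [CompleteSpace H]
    (N : VonNeumannAlgebra H) (ξ : H), ∀ c ∈ N, IsSelfAdjoint c → ∀ lam : ℂ, 0 < lam.re →
    ∃ x ∈ N.commutant, IsSelfAdjoint x ∧ ∀ y ∈ N.commutant, IsSelfAdjoint y →
      ⟪y ξ, c ξ⟫_ℂ = (((lam * ⟪y ξ, x ξ⟫_ℂ).re : ℝ) : ℂ)

def OpIdSt : Prop :=
  ∀ (H : Type) [NormedAddCommGroup H] [InnerProductSpace ℂ H] [CompleteSpace H] (m : Mod H)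
    (N : VonNeumannAlgebra H) (ξ : H), Cyc N ξ → IsPre m N ξ →
    ∀ c ∈ N, IsSelfAdjoint c → ∀ lam : ℂ, 0 < lam.re →
    ∃ x ∈ N.commutant, (2 : ℂ) • (m.Φ om * m.bar c * m.Φ om) =
      conj lam • (m.Φ omP * x * m.Φ omM) + lam • (m.Φ omM * x * m.Φ omP)

def DvSt : Prop :=
  ∀ (H : Type) [NormedAddCommGroup H] [InnerProductSpace ℂ H] [CompleteSpace H] (m : Mod H)
    (u v : H), m.Φ om v = m.Φ omP u →
    (∀ F G : ℝ →ᵇ ℂ, (∀ r, G r = F r * (Real.exp (r / 2) : ℂ)) → m.Φ F v = m.Φ G u) ∧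
    ∀ u' v' : H, m.Φ om v' = m.Φ omP u' →
      ⟪m.Φ kap (u + v), m.Φ kap (u' + v')⟫_ℂ = ⟪u, v'⟫_ℂ

/-- The inversion of the operator identity. -/
def InvSt : Prop :=
  ∀ (H : Type) [NormedAddCommGroup H] [InnerProductSpace ℂ H] [CompleteSpace H]
    [TopologicalSpace.SeparableSpace H] (m : Mod H) (z x : H →L[ℂ] H) (φ : ℝ), |φ| < Real.pi →
    (2 : ℂ) • (m.Φ om * z * m.Φ om) =
      conj (Complex.exp ((φ / 2 : ℝ) * Complex.I)) • (m.Φ omP * x * m.Φ omM) +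
        Complex.exp ((φ / 2 : ℝ) * Complex.I) • (m.Φ omM * x * m.Φ omP) →
    m.IsSg (fun t => ((Real.exp (φ * t) / Real.cosh (Real.pi * t) : ℝ) : ℂ)) z x

def TomSt : Prop :=
  ∀ (H : Type) [NormedAddCommGroup H] [InnerProductSpace ℂ H] [CompleteSpace H]
    [TopologicalSpace.SeparableSpace H] (m : Mod H) (N : VonNeumannAlgebra H) (ξ : H),
    Cyc N ξ → Cyc N.commutant ξ → IsPre m N ξ → IsTT m N ξ

/-! ### Spectral windows -/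

def SgSt : Prop :=
  ∀ (H : Type) [NormedAddCommGroup H] [InnerProductSpace ℂ H] [CompleteSpace H] (m : Mod H)
    (N : VonNeumannAlgebra H) (ξ : H), IsTT m N ξ → ∀ (g : ℝ → ℂ) (F : ℝ →ᵇ ℂ), Integrable g →
    FT g F → ∀ a ∈ N.commutant, ∃ b ∈ N.commutant, m.IsSg g a b ∧ b ξ = m.Φ F (a ξ) ∧
      m.D ξ b = m.Φ F (m.D ξ a) ∧
      ∀ e : H →L[ℂ] H, (∀ t, m.U t * e = e * m.U t) → a * e = a → b * e = b

def NormSgSt : Prop :=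
  ∀ (H : Type) [NormedAddCommGroup H] [InnerProductSpace ℂ H] [CompleteSpace H] (m : Mod H)
    (g : ℝ → ℂ), Integrable g → ∀ (ι : Type) [Fintype ι] (a b : ι → H →L[ℂ] H),
    (∀ l, m.IsSg g (a l) (b l)) → ‖m.Sop b‖ ≤ (∫ t, ‖g t‖) ^ 2 * ‖m.Sop a‖

def WinSt : Prop :=
  (∀ s : ℝ, 1 ≤ |s| → chi s = 0) ∧ chi 0 = 1 ∧ (∀ s, |chi s| ≤ 1) ∧
  (∀ (n : ℕ) (s : ℝ), 0 ≤ ∑ j : Fin (2 * n + 1), chi (s - (((j : ℕ) : ℝ) - n)) ∧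
    ∑ j : Fin (2 * n + 1), chi (s - (((j : ℕ) : ℝ) - n)) ≤ 1 ∧
    (|s| ≤ n → ∑ j : Fin (2 * n + 1), chi (s - (((j : ℕ) : ℝ) - n)) = 1)) ∧
  ∃ γ : ℝ, ∀ ε : ℝ, 0 < ε → ∀ ρ : ℝ, ∃ (g : ℝ → ℂ) (F : ℝ →ᵇ ℂ),
    Integrable g ∧ ∫ t, ‖g t‖ ≤ γ ∧ FT g F ∧ ∀ r, F r = (chi (r / ε - ρ) : ℂ)

def LowSt : Prop :=
  ∀ (H : Type) [NormedAddCommGroup H] [InnerProductSpace ℂ H] [CompleteSpace H]
    [TopologicalSpace.SeparableSpace H] (m : Mod H) (N : VonNeumannAlgebra H) (ξ : H),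
    IsTT m N ξ → ∀ (ε ρ : ℝ) (g : ℝ → ℂ) (F : ℝ →ᵇ ℂ), 0 < ε → Integrable g → FT g F →
    (∀ r, ε ≤ |r - ρ| → F r = 0) → ∀ (a' b b' : H →L[ℂ] H) (u : H), b ∈ N.commutant →
    b' ∈ N.commutant → m.IsSg g a' b' → b ξ = m.Φ F u →
    ‖m.L ξ (star b' * b)‖ ≤ (Real.exp ε - 1) * ‖(star b' * b) ξ‖

def FixSt : Prop :=
  ∀ (H : Type) [NormedAddCommGroup H] [InnerProductSpace ℂ H] [CompleteSpace H] (m : Mod H)
    (η : H), (∀ t, m.U t η = η) → ∀ F, m.Φ F η = F 0 • η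

/-- The symmetric embedding realises the self-polar form. -/
def DSt : Prop :=
  ∀ (H : Type) [NormedAddCommGroup H] [InnerProductSpace ℂ H] [CompleteSpace H] (m : Mod H)
    (N : VonNeumannAlgebra H) (ξ : H), IsTT m N ξ → ∀ a ∈ N.commutant,
    (∀ b ∈ N.commutant, ⟪m.D ξ (star b), m.D ξ (star a)⟫_ℂ = ⟪ξ, b (m.bar a ξ)⟫_ℂ) ∧
    ((‖m.D ξ a‖ ^ 2 : ℝ) : ℂ) = ⟪ξ, a (m.bar a ξ)⟫_ℂ ∧ ‖m.D ξ (star a)‖ = ‖m.D ξ a‖ ∧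
    ‖m.D ξ a‖ ≤ ‖a‖ ∧ (m.D ξ a = 0 → a = 0)

/-! ### General tools -/

def FormSt : Prop :=
  ∀ (H : Type) [NormedAddCommGroup H] [InnerProductSpace ℂ H] [CompleteSpace H] (ι : Type)
    (x : ι → H) (k : ι → ι → ℂ) (C : ℝ), 0 ≤ C → (∀ η : H, (∀ i, ⟪x i, η⟫_ℂ = 0) → η = 0) →
    (∀ (A A' : Type) [Fintype A] [Fintype A'] (c : A → ℂ) (i : A → ι) (d : A' → ℂ) (j : A' → ι),
      ‖∑ a, ∑ b, conj (c a) * d b * k (i a) (j b)‖ ≤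
        C * ‖∑ a, c a • x (i a)‖ * ‖∑ b, d b • x (j b)‖) →
    ∃ T : H →L[ℂ] H, ‖T‖ ≤ C ∧ ∀ i j, ⟪x i, T (x j)⟫_ℂ = k i j

def ModSt : Prop :=
  ∀ (H : Type) [NormedAddCommGroup H] [InnerProductSpace ℂ H] [CompleteSpace H]
    (N : VonNeumannAlgebra H) (η : H) (X : HH H), Marg N η X →
    ∃ W : HH H →L[ℂ] H, ‖W‖ ≤ 1 ∧ (∀ b ∈ N.commutant, ∀ Z, W (tm b 1 Z) = b (W Z)) ∧
      ∀ b ∈ N.commutant, ∀ Z, ⟪b η, W Z⟫_ℂ = ⟪tm b 1 X, Z⟫_ℂ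

def BiLemSt : Prop :=
  ∀ (H : Type) [NormedAddCommGroup H] [InnerProductSpace ℂ H] [CompleteSpace H]
    (ω : (H →L[ℂ] H) →ₗ[ℂ] (H →L[ℂ] H) →ₗ[ℂ] ℂ), BiPos ω →
    (∀ p q, ω (star p) (star q) = conj (ω p q)) ∧
    ∀ (ι ι' : Type) [Fintype ι] [Fintype ι'] (p q : ι → H →L[ℂ] H) (T : H →L[ℂ] H)
      (p' q' : ι' → H →L[ℂ] H),
      ‖bv ω p q T p' q'‖ ≤ ‖T‖ * √(bv ω p q 1 p q).re * √(bv ω p' q' 1 p' q').re

/-! ### From the failure of the gap to injectivity -/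

def Lim1St : Prop :=
  ∀ (H : Type) [NormedAddCommGroup H] [InnerProductSpace ℂ H] [CompleteSpace H] (m : Mod H)
    (N : VonNeumannAlgebra H) (ξ : H), ¬ G1 m N ξ →
    ∃ C c K : ℝ, 0 < C ∧ 0 < c ∧ 0 < K ∧ NG2 m N ξ C c K

def Lim2St : Prop :=
  ∀ (H : Type) [NormedAddCommGroup H] [InnerProductSpace ℂ H] [CompleteSpace H] (m : Mod H)
    (N : VonNeumannAlgebra H) (ξ : H) (C c K : ℝ), 0 < C → NG2 m N ξ C c K →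
    ∃ (ζ : H) (q : Seminorm ℂ (H →L[ℂ] H)), c ≤ (⟪ξ, ζ⟫_ℂ).re ∧ (∀ y, q y ≤ 2 * ‖y‖) ∧ q 1 = 0 ∧
      (∀ g, UQ N g → q g ^ 2 ≤ K * m.del ξ g ^ 2) ∧
      ∀ (ι : Type) [Fintype ι] (b : ι → H →L[ℂ] H), (∀ l, b l ∈ N.commutant) →
        ∑ l, ∑ l', ‖(star (b l') * b l) ζ‖ ^ 2 ≤
          C ^ 2 * (2 * ‖m.Sop b‖ ^ 2 + ∑ l, ∑ l', q (star (b l') * b l) ^ 2)

def Lim3St : Prop :=
  ∀ (H : Type) [NormedAddCommGroup H] [InnerProductSpace ℂ H] [CompleteSpace H] (m : Mod H)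
    (N : VonNeumannAlgebra H) (ξ : H), m.J ξ = ξ → ∀ (K : ℝ) (q : Seminorm ℂ (H →L[ℂ] H)), 0 ≤ K →
    (∀ y, q y ≤ 2 * ‖y‖) → q 1 = 0 → (∀ g, UQ N g → q g ^ 2 ≤ K * m.del ξ g ^ 2) →
    ∀ y ∈ N.commutant, q y ^ 2 ≤ 4 * K * ‖m.L ξ y‖ ^ 2

def AvgSt : Prop :=
  ∀ (H : Type) [NormedAddCommGroup H] [InnerProductSpace ℂ H] [CompleteSpace H] (m : Mod H)
    (N : VonNeumannAlgebra H) (ξ : H), IsTT m N ξ → ∀ (A c : ℝ) (ζ : H), Obj m N ξ A ζ →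
    c ≤ (⟪ξ, ζ⟫_ℂ).re → ∃ ζ' : H, Obj m N ξ A ζ' ∧ c ≤ (⟪ξ, ζ'⟫_ℂ).re ∧ ∀ t, m.U t ζ' = ζ'

def GraphSt : Prop :=
  ∀ (H : Type) [NormedAddCommGroup H] [InnerProductSpace ℂ H] [CompleteSpace H] (m : Mod H)
    (N : VonNeumannAlgebra H) (ξ : H), IsTT m N ξ → ∀ ζ : H, (∀ t, m.U t ζ = ζ) →
    ⟪ξ, ζ⟫_ℂ ≠ 0 → ∃ τ ∈ N, IsSelfAdjoint τ ∧ 0 ≤ τ ∧ τ ≠ 0 ∧ (∀ t, m.U t * τ = τ * m.U t) ∧
      ∀ y ∈ N.commutant, ‖τ (y ξ)‖ ≤ ‖y ζ‖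

def CornerSt : Prop :=
  ∀ (H : Type) [NormedAddCommGroup H] [InnerProductSpace ℂ H] [CompleteSpace H] (m : Mod H)
    (N : VonNeumannAlgebra H) (ξ : H), IsTT m N ξ → ∀ τ ∈ N, IsSelfAdjoint τ → 0 ≤ τ → τ ≠ 0 →
    (∀ t, m.U t * τ = τ * m.U t) → ∃ (e : H →L[ℂ] H) (c₁ : ℝ), 0 < c₁ ∧ Cor m N ξ e ∧
      ∀ y ∈ N.commutant, y * e = y → c₁ * ‖y ξ‖ ≤ ‖τ (y ξ)‖

def WinISt : Prop :=
  ∀ (H : Type) [NormedAddCommGroup H] [InnerProductSpace ℂ H] [CompleteSpace H]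
    [TopologicalSpace.SeparableSpace H] (m : Mod H) (N : VonNeumannAlgebra H) (ξ : H),
    IsTT m N ξ → ∀ (e : H →L[ℂ] H) (A : ℝ), 0 < A → Cor m N ξ e → Obj2 m N ξ e A → WinI m N ξ e

def PowerSt : Prop :=
  ∀ (H : Type) [NormedAddCommGroup H] [InnerProductSpace ℂ H] [CompleteSpace H] (m : Mod H)
    (N : VonNeumannAlgebra H) (ξ : H), IsTT m N ξ → ∀ e : H →L[ℂ] H, Cor m N ξ e →
    WinI m N ξ e → Crit m N ξ e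

/-- The criterion in terms of vectors. -/
def Bist1St : Prop :=
  ∀ (H : Type) [NormedAddCommGroup H] [InnerProductSpace ℂ H] [CompleteSpace H] (m : Mod H)
    (N : VonNeumannAlgebra H) (ξ : H), IsTT m N ξ → ∀ e : H →L[ℂ] H, Cor m N ξ e →
    Crit m N ξ e → ∀ (F : Finset {a : H →L[ℂ] H // InCor N e a}) (θ : ℝ), 0 < θ →
    ∃ (J : Type) (_ : Fintype J) (l : J → ℝ) (X : J → HH H), Prob l ∧ (∀ j, ‖X j‖ ≤ 1) ∧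
      ∀ a ∈ F, ‖m.D ξ a.1‖ ^ 2 - θ ≤ ‖e ξ‖ ^ 2 * ∑ j, l j * (⟪X j, m.pi a.1 (X j)⟫_ℂ).re

def Bist2St : Prop :=
  ∀ (H : Type) [NormedAddCommGroup H] [InnerProductSpace ℂ H] [CompleteSpace H] (m : Mod H)
    (ι : Type) (a : ι → H →L[ℂ] H) (v : ι → ℝ) (s : ℝ), 0 ≤ s →
    (∀ (F : Finset ι) (θ : ℝ), 0 < θ →
      ∃ (J : Type) (_ : Fintype J) (l : J → ℝ) (X : J → HH H), Prob l ∧ (∀ j, ‖X j‖ ≤ 1) ∧
        ∀ i ∈ F, v i - θ ≤ s * ∑ j, l j * (⟪X j, m.pi (a i) (X j)⟫_ℂ).re) →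
    ∃ ω : (H →L[ℂ] H) →ₗ[ℂ] (H →L[ℂ] H) →ₗ[ℂ] ℂ, BiPos ω ∧ (ω 1 1).re ≤ s ∧
      (∀ p q, ω p q = conj (ω (m.bar q) (m.bar p))) ∧ ∀ i, v i ≤ (ω (a i) (m.bar (a i))).re

/-- The marginal of the limit functional. -/
def MarSt : Prop :=
  ∀ (H : Type) [NormedAddCommGroup H] [InnerProductSpace ℂ H] [CompleteSpace H] (m : Mod H)
    (N : VonNeumannAlgebra H) (ξ : H), IsTT m N ξ → ∀ e : H →L[ℂ] H, Cor m N ξ e →
    ∀ ω : (H →L[ℂ] H) →ₗ[ℂ] (H →L[ℂ] H) →ₗ[ℂ] ℂ, BiPos ω → (ω 1 1).re ≤ ‖e ξ‖ ^ 2 →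
    (∀ p q, ω p q = conj (ω (m.bar q) (m.bar p))) →
    (∀ a, InCor N e a → ‖m.D ξ a‖ ^ 2 ≤ (ω a (m.bar a)).re) →
    (∀ p q, ω p q = ω p (m.bar e * q * m.bar e)) ∧
      ∀ b ∈ N.commutant, ω b 1 = ⟪e ξ, b (e ξ)⟫_ℂ

def LaxSt : Prop :=
  ∀ (H : Type) [NormedAddCommGroup H] [InnerProductSpace ℂ H] [CompleteSpace H] (m : Mod H)
    (N : VonNeumannAlgebra H) (ξ : H), IsTT m N ξ → ∀ e : H →L[ℂ] H, Cor m N ξ e →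
    ∀ ω : (H →L[ℂ] H) →ₗ[ℂ] (H →L[ℂ] H) →ₗ[ℂ] ℂ, BiPos ω →
    (∀ p q, ω p q = conj (ω (m.bar q) (m.bar p))) →
    (∀ a, InCor N e a → ‖m.D ξ a‖ ^ 2 ≤ (ω a (m.bar a)).re) →
    (∀ p q, ω p q = ω p (m.bar e * q * m.bar e)) →
    (∀ b ∈ N.commutant, ω b 1 = ⟪e ξ, b (e ξ)⟫_ℂ) →
    ∀ b ∈ N.commutant, ∀ c ∈ N, ω b c = ⟪e ξ, b (c (e ξ))⟫_ℂ

def ExpSt : Prop :=
  ∀ (H : Type) [NormedAddCommGroup H] [InnerProductSpace ℂ H] [CompleteSpace H]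
    (N : VonNeumannAlgebra H) (η : H), Fac N → η ≠ 0 →
    ∀ ω : (H →L[ℂ] H) →ₗ[ℂ] (H →L[ℂ] H) →ₗ[ℂ] ℂ, BiPos ω →
    (∀ b ∈ N.commutant, ∀ c ∈ N, ω b c = ⟪η, b (c η)⟫_ℂ) → Inj N

/-! ### From the gap to the tower -/

def GoodSt : Prop :=
  ∀ (H : Type) [NormedAddCommGroup H] [InnerProductSpace ℂ H] [CompleteSpace H] (m : Mod H)
    (N : VonNeumannAlgebra H) (ξ : H), IsTT m N ξ → ∀ (η : H) (X : HH H) (n : H →L[ℂ] H)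
    (C ρ : ℝ), ‖η‖ = 1 → Marg N η X → n ∈ N → ‖n‖ ≤ C → 0 < ρ →
    ∀ (F : Type) [Fintype F] (w : F → ℝ) (g : F → H →L[ℂ] H), Prob w → (∀ a, UQ N (g a)) →
    ρ ≤ ‖∑ a, (w a : ℂ) • m.pi (g a) X‖ →
    C * ∑ a, w a * m.del ξ (g a) + ‖η - n ξ‖ ≤ ρ ^ 2 / 2 →
    Good N ξ C (ρ ^ 2 / 2) (∑ a, (w a : ℂ) • m.pi (g a) X)

/-- The cost of a symmetric walk grows linearly. -/
def CostSt : Prop :=
  ∀ (H : Type) [NormedAddCommGroup H] [InnerProductSpace ℂ H] [CompleteSpace H]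
    (T : H →L[ℂ] H) (ξ : H), IsSelfAdjoint T → ‖T‖ ≤ 1 → ∀ k : ℕ,
    ‖ξ‖ ^ 2 - (⟪ξ, (T ^ k) ξ⟫_ℂ).re ≤ k * (‖ξ‖ ^ 2 - (⟪ξ, T ξ⟫_ℂ).re)

def IterSt : Prop :=
  ∀ (H : Type) [NormedAddCommGroup H] [InnerProductSpace ℂ H] [CompleteSpace H] (m : Mod H)
    (N : VonNeumannAlgebra H) (ξ : H), IsTT m N ξ → G1 m N ξ → GapW m N ξ

def UniSt : Prop :=
  ∀ (H : Type) [NormedAddCommGroup H] [InnerProductSpace ℂ H] [CompleteSpace H] (m : Mod H)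
    (N : VonNeumannAlgebra H) (ξ : H), IsTT m N ξ → GapW m N ξ → GapM N ξ

def StepMSt : Prop :=
  ∀ (H : Type) [NormedAddCommGroup H] [InnerProductSpace ℂ H] [CompleteSpace H]
    [TopologicalSpace.SeparableSpace H] (N : VonNeumannAlgebra H) (ξ : H),
    Fac N → Cyc N ξ → GapM N ξ →
    ∀ (I V A : Type) [Fintype I] [Fintype V] [Fintype A] (η ζ : I → H) (μ : A → H),
    (∀ a, ‖μ a‖ = 1) → ∀ ε : ℝ, 0 < ε →
    ∃ (R : ℕ) (U : Type) (_ : Fintype U) (_ : AddCommGroup U)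
      (c : V × Fin (R + 1) → U → H →L[ℂ] H), (∀ x u, UQ N (c x u)) ∧
      (∀ (i : I) (v : V) (z : U → H →L[ℂ] H), (∀ u, z u ∈ N.commutant ∧ ‖z u‖ ≤ 1) →
        ‖𝔼 u, 𝔼 j, dl ξ (η i) (ζ i) (star (c (v, j) u) * z u * c (v, j) u)‖ ≤ ε) ∧
      ∀ x x', x ≠ x' → ∀ (a : A) (I' J : Type) [Fintype I'] [Fintype J] (α : I' → ℝ) (e : I' → H)
        (β : J → ℝ) (f : J → H), MargF N (μ a) α e →
        ((R : ℝ) + 1) * 𝔼 u, ker α (fun i => c x u (e i)) β (fun j => c x' u (f j)) ≤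
          ε * hsn β f

def TowerMSt : Prop :=
  ∀ (H : Type) [NormedAddCommGroup H] [InnerProductSpace ℂ H] [CompleteSpace H]
    [TopologicalSpace.SeparableSpace H] (N : VonNeumannAlgebra H) (ξ : H),
    Fac N → Cyc N ξ → GapM N ξ → ∀ (ξs : ℕ → H) (δ : ℝ), 0 < δ →
    ∃ (X : ℕ → Type) (_ : ∀ k, Fintype (X k)) (_ : ∀ k, AddCommGroup (X k))
      (c : ∀ k, X k → X (k + 1) → H →L[ℂ] H) (s : X 0 → ℝ),
      (∀ k x y, UQ N (c k x y)) ∧ (∀ x, s x = 1 ∨ s x = -1) ∧ ∑ x, s x = 0 ∧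
      Mix N ξ ξs c ∧ OrthM N ξ c δ

/-! ### The standard form -/

def Std1St : Prop :=
  ∀ (H : Type) [NormedAddCommGroup H] [InnerProductSpace ℂ H] [CompleteSpace H]
    [TopologicalSpace.SeparableSpace H] (N : VonNeumannAlgebra H), ¬ Inj N →
    ∃ (K : Type) (_ : NormedAddCommGroup K) (_ : InnerProductSpace ℂ K) (_ : CompleteSpace K)
      (_ : TopologicalSpace.SeparableSpace K) (N₁ : VonNeumannAlgebra K) (ζ : K),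
      Iso N N₁ ∧ ¬ Inj N₁ ∧ ‖ζ‖ = 1 ∧ ∀ a ∈ N₁, a ζ = 0 → a = 0

def Std2St : Prop :=
  ∀ (H : Type) [NormedAddCommGroup H] [InnerProductSpace ℂ H] [CompleteSpace H]
    [TopologicalSpace.SeparableSpace H] (N : VonNeumannAlgebra H) (ζ : H), ¬ Inj N → ‖ζ‖ = 1 →
    (∀ a ∈ N, a ζ = 0 → a = 0) →
    ∃ (K : Type) (_ : NormedAddCommGroup K) (_ : InnerProductSpace ℂ K) (_ : CompleteSpace K)
      (_ : TopologicalSpace.SeparableSpace K) (N₁ : VonNeumannAlgebra K) (ξ : K),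
      Iso N N₁ ∧ ¬ Inj N₁ ∧ Cyc N₁ ξ ∧ ∀ a ∈ N₁, a ξ = 0 → a = 0

/-- Extension of an operator from an invariant subspace which generates the space under the
commutant. -/
def RedSt : Prop :=
  ∀ (H : Type) [NormedAddCommGroup H] [InnerProductSpace ℂ H] [CompleteSpace H]
    (N : VonNeumannAlgebra H) (p : H →L[ℂ] H), IsStarProjection p → p ∈ N.commutant →
    (∀ a ∈ N, a * p = 0 → a = 0) → ∀ z : H →L[ℂ] H, z * p = z → p * z = z →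
    (∀ b ∈ N.commutant, z * (p * b * p) = p * b * p * z) → ∃ a ∈ N, a * p = z

/-- A separating vector is cyclic for the commutant; isomorphisms preserve factors. -/
def SepSt' : Prop :=
  (∀ (H : Type) [NormedAddCommGroup H] [InnerProductSpace ℂ H] [CompleteSpace H]
    (N : VonNeumannAlgebra H) (ξ : H), ‖ξ‖ = 1 → (∀ a ∈ N, a ξ = 0 → a = 0) →
    Cyc N.commutant ξ) ∧
  ∀ (H K : Type) [NormedAddCommGroup H] [InnerProductSpace ℂ H] [CompleteSpace H]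
    [NormedAddCommGroup K] [InnerProductSpace ℂ K] [CompleteSpace K]
    (N : VonNeumannAlgebra H) (N₁ : VonNeumannAlgebra K),
    (Iso N N₁ → Fac N → Fac N₁) ∧
    ∀ π : (H →L[ℂ] H) →⋆ₐ[ℂ] (K →L[ℂ] K), Function.Injective π →
      (∀ y, y ∈ N₁ ↔ ∃ a ∈ N, π a = y) → Iso N N₁

end Pool.Agent.P.MP_7e3bdd_an.NI
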